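import Mathlib

namespace Pool.Agent.H11.Birk

open scoped Pointwise

def T (k m : ℕ) : Set (Fin k → ℕ) := {f | ∑ i, f i = m}

theorem T_eq (k m : ℕ) : T k m = (fun f : Fin k →₀ ℕ => (f : Fin k → ℕ)) ''
    ((Finset.finsuppAntidiag Finset.univ m : Finset (Fin k →₀ ℕ)) : Set (Fin k →₀ ℕ)) := by
  ext f
  constructor
  · intro h
    refine ⟨Finsupp.equivFunOnFinite.symm f, ?_, by simp⟩
    simp only [Finset.mem_coe, Finset.mem_finsuppAntidiag, Finset.subset_univ, and_true]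
    simpa [T] using h
  · rintro ⟨g, hg, rfl⟩
    simp only [Finset.mem_coe, Finset.mem_finsuppAntidiag, Finset.subset_univ, and_true] at hg
    exact hg

theorem T_fin (k m : ℕ) : (T k m).Finite := by
  rw [T_eq]; exact (Finset.finite_toSet _).image _

theorem T_card (k m : ℕ) : (T k m).ncard = (k + m - 1).choose m := by
  rw [T_eq, Set.ncard_image_of_injective _ DFunLike.coe_injective, Set.ncard_coe_finset,
    Finset.card_finsuppAntidiag_nat_eq_choose]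
  simp

def Ineq (m : ℕ) (x : Fin 5 → ℤ) : Prop :=
  x 0 + x 1 + x 2 = m ∧ 0 ≤ x 0 ∧ 0 ≤ x 1 ∧ 0 ≤ x 2 ∧ 0 ≤ x 0 - x 3 ∧ 0 ≤ x 1 - x 4 ∧
    0 ≤ x 2 + x 3 ∧ 0 ≤ x 2 + x 4 ∧ 0 ≤ x 1 - x 4 + x 3 ∧ 0 ≤ x 0 - x 3 + x 4

def pr (f : Fin 6 → ℕ) : Fin 5 → ℤ :=
  ![(f 0 : ℤ) + f 3, (f 1 : ℤ) + f 4, (f 2 : ℤ) + f 5, (f 3 : ℤ) - f 5, (f 4 : ℤ) - f 5]

def T0 (m : ℕ) : Set (Fin 6 → ℕ) := {f | f ∈ T 6 m ∧ (f 3 = 0 ∨ f 4 = 0 ∨ f 5 = 0)}
def T1 (m : ℕ) : Set (Fin 6 → ℕ) := {f | f ∈ T 6 m ∧ ¬ (f 3 = 0 ∨ f 4 = 0 ∨ f 5 = 0)}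

theorem S1_eq (m : ℕ) : {x | Ineq m x} = pr '' T0 m := by
  ext x
  constructor
  · intro h
    obtain ⟨h0, h1, h2, h3, h4, h5, h6, h7, h8, h9⟩ := h
    obtain ⟨t, ht0, ht1, ht2, ht⟩ : ∃ t : ℤ, 0 ≤ t ∧ -x 3 ≤ t ∧ -x 4 ≤ t ∧
        (t = 0 ∨ t = -x 3 ∨ t = -x 4) := ⟨max 0 (max (-x 3) (-x 4)), by omega⟩
    refine ⟨![(x 0 - x 3 - t).toNat, (x 1 - x 4 - t).toNat, (x 2 - t).toNat, (x 3 + t).toNat,
      (x 4 + t).toNat, t.toNat], ⟨?_, ?_⟩, ?_⟩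
    · simp only [T, Set.mem_ofPred_eq, Fin.sum_univ_six]
      show (x 0 - x 3 - t).toNat + (x 1 - x 4 - t).toNat + (x 2 - t).toNat + (x 3 + t).toNat +
        (x 4 + t).toNat + t.toNat = m
      omega
    · show (x 3 + t).toNat = 0 ∨ (x 4 + t).toNat = 0 ∨ t.toNat = 0
      omega
    · funext j
      fin_cases j
      · show (((x 0 - x 3 - t).toNat : ℕ) : ℤ) + ((x 3 + t).toNat : ℕ) = x 0
        omega
      · show (((x 1 - x 4 - t).toNat : ℕ) : ℤ) + ((x 4 + t).toNat : ℕ) = x 1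
        omega
      · show (((x 2 - t).toNat : ℕ) : ℤ) + (t.toNat : ℕ) = x 2
        omega
      · show (((x 3 + t).toNat : ℕ) : ℤ) - (t.toNat : ℕ) = x 3
        omega
      · show (((x 4 + t).toNat : ℕ) : ℤ) - (t.toNat : ℕ) = x 4
        omega
  · rintro ⟨f, ⟨h1, -⟩, rfl⟩
    simp only [T, Set.mem_ofPred_eq, Fin.sum_univ_six] at h1
    show ((f 0 : ℤ) + f 3) + ((f 1 : ℤ) + f 4) + ((f 2 : ℤ) + f 5) = m ∧ 0 ≤ (f 0 : ℤ) + f 3 ∧
      0 ≤ (f 1 : ℤ) + f 4 ∧ 0 ≤ (f 2 : ℤ) + f 5 ∧ 0 ≤ ((f 0 : ℤ) + f 3) - ((f 3 : ℤ) - f 5) ∧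
      0 ≤ ((f 1 : ℤ) + f 4) - ((f 4 : ℤ) - f 5) ∧ 0 ≤ ((f 2 : ℤ) + f 5) + ((f 3 : ℤ) - f 5) ∧
      0 ≤ ((f 2 : ℤ) + f 5) + ((f 4 : ℤ) - f 5) ∧
      0 ≤ ((f 1 : ℤ) + f 4) - ((f 4 : ℤ) - f 5) + ((f 3 : ℤ) - f 5) ∧
      0 ≤ ((f 0 : ℤ) + f 3) - ((f 3 : ℤ) - f 5) + ((f 4 : ℤ) - f 5)
    omega

theorem pr_inj (m : ℕ) : Set.InjOn pr (T0 m) := by
  rintro f ⟨-, hf⟩ g ⟨-, hg⟩ h
  have h0 : (f 0 : ℤ) + f 3 = (g 0 : ℤ) + g 3 := congrFun h 0
  have h1 : (f 1 : ℤ) + f 4 = (g 1 : ℤ) + g 4 := congrFun h 1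
  have h2 : (f 2 : ℤ) + f 5 = (g 2 : ℤ) + g 5 := congrFun h 2
  have h3 : (f 3 : ℤ) - f 5 = (g 3 : ℤ) - g 5 := congrFun h 3
  have h4 : (f 4 : ℤ) - f 5 = (g 4 : ℤ) - g 5 := congrFun h 4
  funext j
  fin_cases j
  · show f 0 = g 0; omega
  · show f 1 = g 1; omega
  · show f 2 = g 2; omega
  · show f 3 = g 3; omega
  · show f 4 = g 4; omega
  · show f 5 = g 5; omega

theorem split (m : ℕ) : (T0 m).ncard + (T1 m).ncard = (T 6 m).ncard := by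
  rw [← Set.ncard_union_eq _ ((T_fin 6 m).subset fun _ h => h.1) ((T_fin 6 m).subset fun _ h => h.1)]
  · congr 1
    ext f
    simp only [T0, T1, Set.mem_union, Set.mem_ofPred_eq]
    tauto
  · rw [Set.disjoint_left]
    exact fun f h1 h2 => h2.2 h1.2

def sh (f : Fin 6 → ℕ) : Fin 6 → ℕ := ![f 0, f 1, f 2, f 3 + 1, f 4 + 1, f 5 + 1]

theorem T1_eq (m : ℕ) : T1 (m + 3) = sh '' T 6 m := by
  ext f
  constructor
  · rintro ⟨h1, h2⟩
    simp only [T, Set.mem_ofPred_eq, Fin.sum_univ_six] at h1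
    refine ⟨![f 0, f 1, f 2, f 3 - 1, f 4 - 1, f 5 - 1], ?_, ?_⟩
    · simp only [T, Set.mem_ofPred_eq, Fin.sum_univ_six]
      show f 0 + f 1 + f 2 + (f 3 - 1) + (f 4 - 1) + (f 5 - 1) = m
      omega
    · funext j
      fin_cases j
      · rfl
      · rfl
      · rfl
      · show f 3 - 1 + 1 = f 3; omega
      · show f 4 - 1 + 1 = f 4; omega
      · show f 5 - 1 + 1 = f 5; omega
  · rintro ⟨g, h1, rfl⟩
    simp only [T, Set.mem_ofPred_eq, Fin.sum_univ_six] at h1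
    refine ⟨?_, ?_⟩
    · simp only [T, Set.mem_ofPred_eq, Fin.sum_univ_six]
      show g 0 + g 1 + g 2 + (g 3 + 1) + (g 4 + 1) + (g 5 + 1) = m + 3
      omega
    · show ¬ (g 3 + 1 = 0 ∨ g 4 + 1 = 0 ∨ g 5 + 1 = 0)
      omega

theorem sh_inj : Function.Injective sh := by
  intro f g h
  have h0 : f 0 = g 0 := congrFun h 0
  have h1 : f 1 = g 1 := congrFun h 1
  have h2 : f 2 = g 2 := congrFun h 2
  have h3 : f 3 + 1 = g 3 + 1 := congrFun h 3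
  have h4 : f 4 + 1 = g 4 + 1 := congrFun h 4
  have h5 : f 5 + 1 = g 5 + 1 := congrFun h 5
  funext j
  fin_cases j
  · exact h0
  · exact h1
  · exact h2
  · show f 3 = g 3; omega
  · show f 4 = g 4; omega
  · show f 5 = g 5; omega

theorem T1_small (m : ℕ) (h : m < 3) : T1 m = ∅ := by
  ext f
  simp only [T1, T, Set.mem_ofPred_eq, Fin.sum_univ_six, Set.mem_empty_iff_false, iff_false]
  omega

theorem L_val (m : ℕ) : (({x | Ineq m x}.ncard : ℕ) : ℤ) =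
    ((5 + m).choose 5 : ℤ) - if 3 ≤ m then ((5 + (m - 3)).choose 5 : ℤ) else 0 := by
  have hc : ∀ n : ℕ, (6 + n - 1).choose n = (5 + n).choose 5 := fun n => by
    rw [show 6 + n - 1 = 5 + n by omega, Nat.choose_symm_add]
  have h := split m
  rw [S1_eq, (pr_inj m).ncard_image]
  rw [T_card, hc] at h
  split_ifs with h3
  · obtain ⟨k, rfl⟩ : ∃ k, m = k + 3 := ⟨m - 3, by omega⟩
    rw [T1_eq, Set.ncard_image_of_injective _ sh_inj, T_card, hc] at h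
    rw [Nat.add_sub_cancel]
    omega
  · rw [T1_small m (by omega), Set.ncard_empty] at h
    omega

open PowerSeries in
theorem L_series : PowerSeries.mk (fun m : ℕ => (({x | Ineq m x}.ncard : ℕ) : ℤ)) * (1 - X) *
    (1 - X) ^ 4 = 1 + X + X ^ 2 := by
  have hA := PowerSeries.mk_add_choose_mul_one_sub_pow_eq_one ℤ 5
  have h1 : PowerSeries.mk (fun m : ℕ => (({x | Ineq m x}.ncard : ℕ) : ℤ)) =
      (PowerSeries.mk fun n : ℕ => ((5 + n).choose 5 : ℤ)) -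
        X ^ 3 * (PowerSeries.mk fun n : ℕ => ((5 + n).choose 5 : ℤ)) := by
    ext n
    rw [map_sub, coeff_X_pow_mul', coeff_mk, coeff_mk, coeff_mk, L_val]
  rw [h1]
  linear_combination (1 + X + X ^ 2) * hA

def S2 (m : ℕ) : Set (Fin 5 → ℤ) := {x | Ineq m x ∧ 2 * x 3 = x 0 - x 2 ∧ 2 * x 4 = x 1 - x 2}

def ev (e : ℕ) (f : Fin 3 → ℕ) : Fin 5 → ℤ :=
  ![2 * (f 0 : ℤ) + e, 2 * (f 1 : ℤ) + e, 2 * (f 2 : ℤ) + e, (f 0 : ℤ) - f 2, (f 1 : ℤ) - f 2]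

theorem ev_inj (e : ℕ) : Function.Injective (ev e) := by
  intro f g h
  have h0 : 2 * (f 0 : ℤ) + e = 2 * (g 0 : ℤ) + e := congrFun h 0
  have h1 : 2 * (f 1 : ℤ) + e = 2 * (g 1 : ℤ) + e := congrFun h 1
  have h2 : 2 * (f 2 : ℤ) + e = 2 * (g 2 : ℤ) + e := congrFun h 2
  funext j
  fin_cases j
  · show f 0 = g 0; omega
  · show f 1 = g 1; omega
  · show f 2 = g 2; omega

theorem S2_eq (e k : ℕ) (he : e ≤ 1) : S2 (2 * k + 3 * e) = ev e '' T 3 k := by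
  ext x
  constructor
  · rintro ⟨⟨h0, h1, h2, h3, h4, h5, h6, h7, h8, h9⟩, ha, hb⟩
    push_cast at h0
    refine ⟨![(x 0 / 2).toNat, (x 1 / 2).toNat, (x 2 / 2).toNat], ?_, ?_⟩
    · simp only [T, Set.mem_ofPred_eq, Fin.sum_univ_three]
      show (x 0 / 2).toNat + (x 1 / 2).toNat + (x 2 / 2).toNat = k
      omega
    · funext j
      fin_cases j
      · show 2 * (((x 0 / 2).toNat : ℕ) : ℤ) + e = x 0
        omega
      · show 2 * (((x 1 / 2).toNat : ℕ) : ℤ) + e = x 1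
        omega
      · show 2 * (((x 2 / 2).toNat : ℕ) : ℤ) + e = x 2
        omega
      · show (((x 0 / 2).toNat : ℕ) : ℤ) - ((x 2 / 2).toNat : ℕ) = x 3
        omega
      · show (((x 1 / 2).toNat : ℕ) : ℤ) - ((x 2 / 2).toNat : ℕ) = x 4
        omega
  · rintro ⟨f, h1, rfl⟩
    simp only [T, Set.mem_ofPred_eq, Fin.sum_univ_three] at h1
    show ((2 * (f 0 : ℤ) + e) + (2 * (f 1 : ℤ) + e) + (2 * (f 2 : ℤ) + e) = ((2 * k + 3 * e : ℕ) : ℤ) ∧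
      0 ≤ 2 * (f 0 : ℤ) + e ∧ 0 ≤ 2 * (f 1 : ℤ) + e ∧ 0 ≤ 2 * (f 2 : ℤ) + e ∧
      0 ≤ (2 * (f 0 : ℤ) + e) - ((f 0 : ℤ) - f 2) ∧ 0 ≤ (2 * (f 1 : ℤ) + e) - ((f 1 : ℤ) - f 2) ∧
      0 ≤ (2 * (f 2 : ℤ) + e) + ((f 0 : ℤ) - f 2) ∧ 0 ≤ (2 * (f 2 : ℤ) + e) + ((f 1 : ℤ) - f 2) ∧
      0 ≤ (2 * (f 1 : ℤ) + e) - ((f 1 : ℤ) - f 2) + ((f 0 : ℤ) - f 2) ∧
      0 ≤ (2 * (f 0 : ℤ) + e) - ((f 0 : ℤ) - f 2) + ((f 1 : ℤ) - f 2)) ∧
      2 * ((f 0 : ℤ) - f 2) = (2 * (f 0 : ℤ) + e) - (2 * (f 2 : ℤ) + e) ∧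
      2 * ((f 1 : ℤ) - f 2) = (2 * (f 1 : ℤ) + e) - (2 * (f 2 : ℤ) + e)
    push_cast
    omega

noncomputable def FF (m : ℕ) : ℤ := ((S2 m).ncard : ℕ)

theorem ch2 (k : ℕ) : 2 * (((3 + k - 1).choose k : ℕ) : ℤ) = (k + 1) * (k + 2) := by
  rw [show 3 + k - 1 = 2 + k by omega, ← Nat.choose_symm_add, Nat.choose_two_right]
  have h : 2 ∣ (2 + k) * (2 + k - 1) := by
    rw [show 2 + k - 1 = k + 1 by omega, show 2 + k = k + 1 + 1 by omega, Nat.mul_comm]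
    exact (Nat.even_mul_succ_self (k + 1)).two_dvd
  have h2 := Nat.mul_div_cancel' h
  rw [show 2 + k - 1 = k + 1 by omega] at h2 ⊢
  have h3 : ((2 * ((2 + k) * (k + 1) / 2) : ℕ) : ℤ) = (((2 + k) * (k + 1) : ℕ) : ℤ) := by rw [h2]
  rw [Nat.cast_mul, Nat.cast_mul] at h3
  push_cast at h3 ⊢
  linarith

theorem F_even (k : ℕ) : 2 * FF (2 * k) = (k + 1) * (k + 2) := by
  have := S2_eq 0 k (by norm_num)
  rw [Nat.mul_zero, Nat.add_zero] at this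
  rw [FF, this, Set.ncard_image_of_injective _ (ev_inj 0), T_card, ch2]

theorem F_odd (k : ℕ) : 2 * FF (2 * k + 1) = k * (k + 1) := by
  rcases k with _ | k
  · have : S2 1 = ∅ := by
      ext x
      simp only [S2, Ineq, Set.mem_ofPred_eq, Set.mem_empty_iff_false, iff_false]
      omega
    simp [FF, this]
  · have := S2_eq 1 k le_rfl
    rw [show 2 * (k + 1) + 1 = 2 * k + 3 * 1 by ring, FF, this,
      Set.ncard_image_of_injective _ (ev_inj 1), T_card, ch2]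
    push_cast
    ring

open PowerSeries in
theorem F_series : PowerSeries.mk FF * (1 - X) * ((1 - X) ^ 2 * (1 + X) ^ 2) = 1 - X + X ^ 2 := by
  have h1 : PowerSeries.mk FF - (X ^ 2 * PowerSeries.mk FF + X ^ 2 * PowerSeries.mk FF +
      X ^ 2 * PowerSeries.mk FF) + (X ^ 4 * PowerSeries.mk FF + X ^ 4 * PowerSeries.mk FF +
      X ^ 4 * PowerSeries.mk FF) - X ^ 6 * PowerSeries.mk FF = 1 + X ^ 3 := by
    ext n
    simp only [map_sub, map_add, coeff_X_pow_mul', coeff_mk, coeff_one, coeff_X_pow]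
    have a0 := F_even 0
    have a1 := F_odd 0
    have a2 := F_even 1
    have a3 := F_odd 1
    have a4 := F_even 2
    have a5 := F_odd 2
    norm_num at a0 a1 a2 a3 a4 a5
    rcases Nat.lt_or_ge n 6 with h | h
    · interval_cases n <;> norm_num <;> omega
    · rw [if_pos (by omega), if_pos (by omega), if_pos (by omega), if_neg (by omega),
        if_neg (by omega)]
      obtain ⟨k, hk | hk⟩ := Nat.even_or_odd' (n - 6)
      · have b0 := F_even k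
        have b1 := F_even (k + 1)
        have b2 := F_even (k + 2)
        have b3 := F_even (k + 3)
        rw [hk, show n - 4 = 2 * (k + 1) by omega, show n - 2 = 2 * (k + 2) by omega,
          show n = 2 * (k + 3) by omega]
        push_cast at b1 b2 b3
        nlinarith
      · have b0 := F_odd k
        have b1 := F_odd (k + 1)
        have b2 := F_odd (k + 2)
        have b3 := F_odd (k + 3)
        rw [hk, show n - 4 = 2 * (k + 1) + 1 by omega, show n - 2 = 2 * (k + 2) + 1 by omega,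
          show n = 2 * (k + 3) + 1 by omega]
        push_cast at b1 b2 b3
        nlinarith
  have hne : (1 + X : PowerSeries ℤ) ≠ 0 := fun h => by
    have := congrArg (PowerSeries.constantCoeff (R := ℤ)) h
    simp at this
  apply mul_left_cancel₀ hne
  linear_combination h1

end Pool.Agent.H11.Birk
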