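import Mathlib
set_option autoImplicit false
namespace Pool.Agent.H11.Box
open Set Filter Topology MeasureTheory
open scoped Pointwise

abbrev E := EuclideanSpace ℝ (Fin 2)

noncomputable def h : E ≃L[ℝ] ℝ × ℝ :=
  (EuclideanSpace.equiv (Fin 2) ℝ).trans (ContinuousLinearEquiv.finTwoArrow ℝ ℝ)

theorem h_apply (p : E) : h p = (p 0, p 1) := rfl

def box (a b c d : ℝ) : Set E := {p | (a ≤ p 0 ∧ p 0 ≤ b) ∧ c ≤ p 1 ∧ p 1 ≤ d}

theorem box_eq (a b c d : ℝ) : box a b c d = h ⁻¹' (Icc a b ×ˢ Icc c d) := rfl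

theorem box_eq' (a b c d : ℝ) : box a b c d = h.symm '' (Icc a b ×ˢ Icc c d) := by
  rw [box_eq, ContinuousLinearEquiv.image_symm_eq_preimage]

theorem ext2 {p q : E} (h0 : p 0 = q 0) (h1 : p 1 = q 1) : p = q := by
  ext i; fin_cases i; exacts [h0, h1]

theorem interior_box (a b c d : ℝ) :
    interior (box a b c d) = {p | (a < p 0 ∧ p 0 < b) ∧ c < p 1 ∧ p 1 < d} := by
  rw [box_eq, ← h.coe_toHomeomorph, ← Homeomorph.preimage_interior, interior_prod_eq, interior_Icc,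
    interior_Icc]
  rfl

theorem closed_box (a b c d : ℝ) : IsClosed (box a b c d) :=
  (isClosed_Icc.prod isClosed_Icc).preimage h.continuous

theorem ext_box (a b c d : ℝ) (h1 : a ≤ b) (h2 : c ≤ d) :
    extremePoints ℝ (box a b c d) = {p | (p 0 = a ∨ p 0 = b) ∧ (p 1 = c ∨ p 1 = d)} := by
  rw [box_eq', ← image_extremePoints h.symm, extremePoints_prod, Set.extremePoints_Icc h1,
    Set.extremePoints_Icc h2, ContinuousLinearEquiv.image_symm_eq_preimage]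
  rfl

theorem hull_box (a b c d : ℝ) (h1 : a ≤ b) (h2 : c ≤ d) :
    box a b c d = convexHull ℝ (h.symm '' (({a, b} : Set ℝ) ×ˢ ({c, d} : Set ℝ))) := by
  have := (h.symm : ℝ × ℝ →ₗ[ℝ] E).image_convexHull (({a, b} : Set ℝ) ×ˢ ({c, d} : Set ℝ))
  rw [convexHull_prod, convexHull_pair, convexHull_pair, segment_eq_Icc h1, segment_eq_Icc h2] at this
  rw [box_eq']; exact this

theorem bdd_box (a b c d : ℝ) : Bornology.IsBounded (box a b c d) := by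
  rw [box_eq']
  exact ((isCompact_Icc.prod isCompact_Icc).image h.symm.continuous).isBounded

theorem vadd_box (t : E) (a b c d : ℝ) :
    t +ᵥ box a b c d = box (a + t 0) (b + t 0) (c + t 1) (d + t 1) := by
  ext p
  rw [mem_vadd_set_iff_neg_vadd_mem]
  simp only [box, mem_ofPred_eq, vadd_eq_add, PiLp.add_apply, PiLp.neg_apply]
  constructor <;> rintro ⟨⟨h1, h2⟩, h3, h4⟩ <;> refine ⟨⟨?_, ?_⟩, ?_, ?_⟩ <;> linarith

theorem smul_box (r : ℝ) (hr : 0 < r) (a b c d : ℝ) :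
    (fun p : E => r • p) '' box a b c d = box (r * a) (r * b) (r * c) (r * d) := by
  ext p
  constructor
  · rintro ⟨q, ⟨⟨h1, h2⟩, h3, h4⟩, rfl⟩
    simp only [box, mem_ofPred_eq, PiLp.smul_apply, smul_eq_mul]
    refine ⟨⟨?_, ?_⟩, ?_, ?_⟩ <;> gcongr
  · rintro ⟨⟨h1, h2⟩, h3, h4⟩
    refine ⟨r⁻¹ • p, ?_, by simp [smul_smul, hr.ne']⟩
    simp only [box, mem_ofPred_eq, PiLp.smul_apply, smul_eq_mul]
    refine ⟨⟨?_, ?_⟩, ?_, ?_⟩
    · rwa [le_inv_mul_iff₀ hr]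
    · rwa [inv_mul_le_iff₀ hr]
    · rwa [le_inv_mul_iff₀ hr]
    · rwa [inv_mul_le_iff₀ hr]

theorem box_inj {a b c d a' b' c' d' : ℝ} (h1 : a ≤ b) (h2 : c ≤ d) (h1' : a' ≤ b') (h2' : c' ≤ d')
    (e : box a b c d = box a' b' c' d') : a = a' ∧ b = b' ∧ c = c' ∧ d = d' := by
  have p1 : (!₂[a, c] : E) ∈ box a b c d := ⟨⟨le_rfl, h1⟩, le_rfl, h2⟩
  have p2 : (!₂[b, d] : E) ∈ box a b c d := ⟨⟨h1, le_rfl⟩, h2, le_rfl⟩
  have q1 : (!₂[a', c'] : E) ∈ box a' b' c' d' := ⟨⟨le_rfl, h1'⟩, le_rfl, h2'⟩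
  have q2 : (!₂[b', d'] : E) ∈ box a' b' c' d' := ⟨⟨h1', le_rfl⟩, h2', le_rfl⟩
  rw [e] at p1 p2
  rw [← e] at q1 q2
  exact ⟨le_antisymm q1.1.1 p1.1.1, le_antisymm p2.1.2 q2.1.2, le_antisymm q1.2.1 p1.2.1,
    le_antisymm p2.2.2 q2.2.2⟩

theorem vol_box (a b c d : ℝ) (h1 : a ≤ b) (h2 : c ≤ d) :
    (volume (box a b c d)).toReal = (b - a) * (d - c) := by
  have := ((volume_preserving_finTwoArrow ℝ).comp (PiLp.volume_preserving_ofLp (Fin 2))).measure_preimage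
    (s := Icc a b ×ˢ Icc c d) (measurableSet_Icc.prod measurableSet_Icc).nullMeasurableSet
  have e : box a b c d = (⇑MeasurableEquiv.finTwoArrow ∘ WithLp.ofLp) ⁻¹' (Icc a b ×ˢ Icc c d) := rfl
  rw [e, this, Measure.volume_eq_prod, Measure.prod_prod, Real.volume_Icc, Real.volume_Icc,
    ENNReal.toReal_mul, ENNReal.toReal_ofReal (by linarith), ENNReal.toReal_ofReal (by linarith)]

theorem seg1 (L x y : ℝ) (hL : 0 < L) (p : E) (h0 : 0 ≤ p 0) (h0' : p 0 ≤ L) (h1 : p 1 = y) (hx : x = 0) :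
    p ∈ segment ℝ (!₂[x, y] : E) !₂[L, y] := by
  refine ⟨1 - p 0 / L, p 0 / L, by rw [sub_nonneg, div_le_one hL]; exact h0', by positivity, by ring, ?_⟩
  apply ext2
  · simp [hx]; field_simp
  · simp [h1]; ring

theorem seg2 (L x y : ℝ) (hL : 0 < L) (p : E) (h0 : 0 ≤ p 1) (h0' : p 1 ≤ L) (h1 : p 0 = y) (hx : x = 0) :
    p ∈ segment ℝ (!₂[y, x] : E) !₂[y, L] := by
  refine ⟨1 - p 1 / L, p 1 / L, by rw [sub_nonneg, div_le_one hL]; exact h0', by positivity, by ring, ?_⟩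
  apply ext2
  · simp [h1]; ring
  · simp [hx]; field_simp

theorem surf_box (L : ℝ) (hL : 0 < L) : (μH[1] (frontier (box 0 L 0 L))).toReal ≤ 4 * L := by
  have hs : frontier (box 0 L 0 L) ⊆
      ((segment ℝ (!₂[0, 0] : E) !₂[L, 0] ∪ segment ℝ (!₂[0, L] : E) !₂[L, L]) ∪
        segment ℝ (!₂[0, 0] : E) !₂[0, L]) ∪ segment ℝ (!₂[L, 0] : E) !₂[L, L] := by
    rw [(closed_box _ _ _ _).frontier_eq, interior_box]
    rintro p ⟨⟨⟨h1, h2⟩, h3, h4⟩, hp⟩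
    simp only [mem_ofPred_eq, not_and_or, not_lt] at hp
    rcases hp with (hp | hp) | hp | hp
    · exact Or.inl (Or.inr (seg2 L 0 0 hL p h3 h4 (le_antisymm hp h1) rfl))
    · exact Or.inr (seg2 L 0 L hL p h3 h4 (le_antisymm h2 hp) rfl)
    · exact Or.inl (Or.inl (Or.inl (seg1 L 0 0 hL p h1 h2 (le_antisymm hp h3) rfl)))
    · exact Or.inl (Or.inl (Or.inr (seg1 L 0 L hL p h1 h2 (le_antisymm h4 hp) rfl)))
  have d1 : ∀ y : ℝ, edist (!₂[0, y] : E) !₂[L, y] = ENNReal.ofReal L := by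
    intro y; rw [edist_dist, EuclideanSpace.dist_eq]; simp [Real.sqrt_sq hL.le, abs_of_pos hL]
  have d2 : ∀ y : ℝ, edist (!₂[y, 0] : E) !₂[y, L] = ENNReal.ofReal L := by
    intro y; rw [edist_dist, EuclideanSpace.dist_eq]; simp [Real.sqrt_sq hL.le, abs_of_pos hL]
  apply ENNReal.toReal_le_of_le_ofReal (by positivity)
  refine (measure_mono hs).trans ((measure_union_le _ _).trans ?_)
  refine (add_le_add_left (measure_union_le _ _) _).trans ?_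
  refine (add_le_add_left (add_le_add_left (measure_union_le _ _) _) _).trans ?_
  simp only [hausdorffMeasure_segment, d1, d2]
  rw [← ENNReal.ofReal_add hL.le hL.le, ← ENNReal.ofReal_add (by positivity) hL.le,
    ← ENNReal.ofReal_add (by positivity) hL.le]
  exact le_of_eq (by congr 1; ring)

theorem find_idx (u : ℤ → ℝ) (N1 N2 : ℤ) (h : N1 + 1 ≤ N2) (x : ℝ) (h1 : u N1 ≤ x) :
    x ≤ u N2 → ∃ n, N1 ≤ n ∧ n < N2 ∧ u n ≤ x ∧ x ≤ u (n + 1) := by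
  induction N2, h using Int.le_induction with
  | base => intro h2; exact ⟨N1, le_rfl, by omega, h1, h2⟩
  | succ n hn ih =>
    intro h2
    by_cases h3 : x ≤ u n
    · obtain ⟨m, a, b, c⟩ := ih h3; exact ⟨m, a, by omega, c⟩
    · exact ⟨n, by omega, by omega, (not_le.mp h3).le, h2⟩

theorem face1 (u : ℤ → ℝ) (hu : StrictMono u) (n n' : ℤ) (z : ℝ) (hz : u n ≤ z ∧ z ≤ u (n + 1))
    (hz' : u n' ≤ z ∧ z ≤ u (n' + 1)) : ∃ e : ℝ, ∀ x, u n ≤ x ∧ x ≤ u (n + 1) →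
      ((u n' ≤ x ∧ x ≤ u (n' + 1)) ↔ ∀ y, u n ≤ y ∧ y ≤ u (n + 1) → e * y ≤ e * x) := by
  have hl := (hu (show n < n + 1 by omega)).le
  rcases lt_trichotomy n n' with h | rfl | h
  · have h1 : u (n + 1) ≤ u n' := hu.monotone (by omega)
    refine ⟨1, fun x hx => ⟨fun h2 y hy => by linarith [h2.1, hy.2], fun h2 => ?_⟩⟩
    have := h2 _ ⟨hl, le_rfl⟩
    constructor <;> linarith [hx.2, hz.2, hz'.1, hz'.2]
  · exact ⟨0, fun x hx => ⟨fun _ y _ => by simp, fun _ => hx⟩⟩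
  · have h1 : u (n' + 1) ≤ u n := hu.monotone (by omega)
    refine ⟨-1, fun x hx => ⟨fun h2 y hy => by linarith [h2.2, hy.1], fun h2 => ?_⟩⟩
    have := h2 _ ⟨le_rfl, hl⟩
    constructor <;> linarith [hx.1, hz.1, hz'.1, hz'.2]

end Pool.Agent.H11.Box
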