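import Mathlib

set_option autoImplicit false

namespace Pool.Agent.H11.Elv

abbrev E := EuclideanSpace ℝ (Fin 3)

lemma dsq (x y : E) : dist x y ^ 2 = (x 0 - y 0) ^ 2 + (x 1 - y 1) ^ 2 + (x 2 - y 2) ^ 2 := by
  rw [EuclideanSpace.dist_eq, Real.sq_sqrt (by positivity)]
  simp [Fin.sum_univ_three, Real.dist_eq, sq_abs]

lemma part8 (K : Set E) (hK : IsCompact K) (hd : Metric.diam K = 1) :
    ∃ f : E → Fin 8, ∀ i : Fin 8, Metric.diam (K ∩ f ⁻¹' {i}) < 1 := by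
  classical
  have hne : K.Nonempty := by
    rcases K.eq_empty_or_nonempty with h | h
    · rw [h, Metric.diam_empty] at hd; norm_num at hd
    · exact h
  have hmin : ∀ i : Fin 3, ∃ a : ℝ, ∀ x ∈ K, a ≤ x i ∧ x i ≤ a + 1 := by
    intro i
    obtain ⟨z, hz, hm⟩ := hK.exists_isMinOn hne (f := fun x : E => x i)
      (Continuous.continuousOn (by fun_prop))
    refine ⟨z i, fun x hx => ⟨hm hx, ?_⟩⟩
    have h1 : dist x z ≤ 1 := hd ▸ Metric.dist_le_diam_of_mem hK.isBounded hx hz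
    have h2 : dist (x i) (z i) ≤ dist x z := PiLp.dist_apply_le x z i
    rw [Real.dist_eq] at h2
    linarith [le_abs_self (x i - z i)]
  choose a ha using hmin
  let e : (Fin 3 → Bool) ≃ Fin 8 := Fintype.equivFinOfCardEq (by simp)
  refine ⟨fun x => e (fun i => decide (x i ≤ a i + 1 / 2)), fun i => ?_⟩
  refine lt_of_le_of_lt (Metric.diam_le_of_forall_dist_le (C := 9 / 10) (by norm_num) ?_)
    (by norm_num)
  rintro x ⟨hx, hx'⟩ y ⟨hy, hy'⟩
  have h : (fun i => decide (x i ≤ a i + 1 / 2)) = (fun i => decide (y i ≤ a i + 1 / 2)) :=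
    e.injective (by simp only [Set.mem_preimage, Set.mem_singleton_iff] at hx' hy'; rw [hx', hy'])
  have hc : ∀ j : Fin 3, (x j - y j) ^ 2 ≤ 1 / 4 := by
    intro j
    have h1 := congrFun h j
    simp only [decide_eq_decide] at h1
    obtain ⟨p1, p2⟩ := ha j x hx
    obtain ⟨p3, p4⟩ := ha j y hy
    by_cases hj : x j ≤ a j + 1 / 2
    · have := h1.1 hj
      nlinarith
    · have h2 : ¬ y j ≤ a j + 1 / 2 := fun h3 => hj (h1.2 h3)
      push Not at hj h2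
      nlinarith
  have := dsq x y
  have h0 := hc 0
  have h1 := hc 1
  have h2 := hc 2
  by_contra hcon
  push Not at hcon
  nlinarith

lemma notin (S : Set E) (x : E) (u v w : ℝ)
    (h : ∀ y ∈ S, y ≠ x → u * y 0 + v * y 1 + w * y 2 < u * x 0 + v * x 1 + w * x 2) :
    x ∉ convexHull ℝ (S \ {x}) := by
  intro hx
  have hl : IsLinearMap ℝ (fun y : E => u * y 0 + v * y 1 + w * y 2) := by
    constructor
    · intro a b; simp; ring
    · intro c a; simp; ring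
  have := convexHull_min (s := S \ {x})
    (t := {y : E | u * y 0 + v * y 1 + w * y 2 < u * x 0 + v * x 1 + w * x 2})
    (fun y hy => h y hy.1 hy.2) (convex_halfSpace_lt hl _) hx
  exact lt_irrefl (u * x 0 + v * x 1 + w * x 2) this

def X : Fin 9 → ℤ := ![100, 100, -100, -100, 162, -162, 0, 0, 0]
def Y : Fin 9 → ℤ := ![162, -162, 162, -162, 0, 0, 100, -100, 0]
def Z : Fin 9 → ℤ := ![0, 0, 0, 0, -100, -100, -162, -162, -360]
def U : Fin 9 → ℤ := ![1, 1, -1, -1, 1, -1, 0, 0, 0]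
def V : Fin 9 → ℤ := ![1, -1, 1, -1, 0, 0, 20, -20, 0]
def W : Fin 9 → ℤ := ![0, 0, 0, 0, 0, 0, -9, -9, -1]

lemma f1 : ∀ i j, i ≠ j → 40000 ≤ (X i - X j) ^ 2 + (Y i - Y j) ^ 2 + (Z i - Z j) ^ 2 := by decide
lemma f2 : ∀ i j, i ≠ j → U i * X j + V i * Y j + W i * Z j < U i * X i + V i * Y i + W i * Z i := by
  decide
lemma f3 : ∀ i, -1 ≤ U i ∧ U i ≤ 1 ∧ -20 ≤ V i ∧ V i ≤ 20 ∧ W i ≤ 0 ∧
    100 ≤ U i * X i + V i * Y i + W i * Z i := by decide
lemma f4 : ∀ i, -162 ≤ X i ∧ X i ≤ 162 ∧ -162 ≤ Y i ∧ Y i ≤ 162 ∧ Z i ≤ 0 := by decide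
lemma f5 : ∀ i, (X i ^ 2 + Y i ^ 2 + Z i ^ 2 = 36244 ∧ -162 ≤ Z i) ∨
    (X i = 0 ∧ Y i = 0 ∧ Z i = -360) := by decide

noncomputable def q (i : Fin 9) : E := !₂[(X i : ℝ), (Y i : ℝ), (Z i : ℝ)]
noncomputable def c (s : ℝ) : E := !₂[3 * s, 3 * Real.sqrt (1 - s ^ 2), 4]

lemma q0 (i : Fin 9) : q i 0 = X i := rfl
lemma q1 (i : Fin 9) : q i 1 = Y i := rfl
lemma q2 (i : Fin 9) : q i 2 = Z i := rfl

def Circ (x : E) : Prop := x 0 ^ 2 + x 1 ^ 2 = 9 ∧ x 2 = 4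

lemma c_circ (s : ℝ) (h0 : 0 ≤ s) (h1 : s ≤ 1) : Circ (c s) := by
  refine ⟨?_, rfl⟩
  show (3 * s) ^ 2 + (3 * Real.sqrt (1 - s ^ 2)) ^ 2 = 9
  rw [mul_pow 3 (Real.sqrt _), Real.sq_sqrt (by nlinarith)]
  ring

lemma circ_bd {x : E} (h : Circ x) : -3 ≤ x 0 ∧ x 0 ≤ 3 ∧ -3 ≤ x 1 ∧ x 1 ≤ 3 := by
  obtain ⟨h, _⟩ := h
  refine ⟨?_, ?_, ?_, ?_⟩ <;> nlinarith [sq_nonneg (x 0), sq_nonneg (x 1)]

lemma q_far (i j : Fin 9) (h : i ≠ j) : 200 ≤ dist (q i) (q j) := by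
  have h1 : (40000 : ℝ) ≤ ((X i : ℝ) - X j) ^ 2 + ((Y i : ℝ) - Y j) ^ 2 + ((Z i : ℝ) - Z j) ^ 2 := by
    exact_mod_cast f1 i j h
  have h2 := dsq (q i) (q j)
  simp only [q0, q1, q2] at h2
  by_contra hcon
  push Not at hcon
  have := dist_nonneg (x := q i) (y := q j)
  nlinarith

lemma cq (x : E) (hx : Circ x) (i : Fin 9) :
    dist x (q i) < 200 ∨ dist x (q i) = Real.sqrt 132505 := by
  have h2 := dsq x (q i)
  simp only [q0, q1, q2] at h2
  obtain ⟨b1, b2, b3, b4⟩ := circ_bd hx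
  obtain ⟨h9, h4⟩ := hx
  rcases f5 i with ⟨h, hz⟩ | ⟨h0, h1, hz⟩
  · left
    obtain ⟨a1, a2, a3, a4, a5⟩ := f4 i
    have h' : (X i : ℝ) ^ 2 + (Y i : ℝ) ^ 2 + (Z i : ℝ) ^ 2 = 36244 := by exact_mod_cast h
    have hz' : (-162 : ℝ) ≤ Z i := by exact_mod_cast hz
    have a1' : (-162 : ℝ) ≤ X i := by exact_mod_cast a1
    have a2' : (X i : ℝ) ≤ 162 := by exact_mod_cast a2
    have a3' : (-162 : ℝ) ≤ Y i := by exact_mod_cast a3
    have a4' : (Y i : ℝ) ≤ 162 := by exact_mod_cast a4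
    have m1 : -(x 0 * X i) ≤ 486 := by nlinarith
    have m2 : -(x 1 * Y i) ≤ 486 := by nlinarith
    have h3 : dist x (q i) ^ 2 < 40000 := by rw [h2, h4]; nlinarith
    by_contra hcon
    push Not at hcon
    nlinarith
  · right
    rw [h0, h1, hz, h4] at h2
    rw [← Real.sqrt_sq (dist_nonneg (x := x) (y := q i)), h2]
    congr 1
    push_cast
    nlinarith

lemma cc (x y : E) (hx : Circ x) (hy : Circ y) : dist x y < 200 := by
  have h2 := dsq x y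
  obtain ⟨b1, b2, b3, b4⟩ := circ_bd hx
  obtain ⟨d1, d2, d3, d4⟩ := circ_bd hy
  rw [hx.2, hy.2] at h2
  have h3 : dist x y ^ 2 < 40000 := by rw [h2]; nlinarith
  by_contra hcon
  push Not at hcon
  nlinarith

lemma conv (S : Set E) (hS : ∀ y ∈ S, (∃ i, y = q i) ∨ Circ y) :
    ∀ x ∈ S, x ∉ convexHull ℝ (S \ {x}) := by
  intro x hx
  rcases hS x hx with ⟨i, rfl⟩ | hc
  · apply notin S (q i) (U i) (V i) (W i)
    intro y hy hne
    rcases hS y hy with ⟨j, rfl⟩ | hc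
    · have hij : i ≠ j := fun h => hne (by rw [h])
      simp only [q0, q1, q2]
      exact_mod_cast f2 i j hij
    · obtain ⟨b1, b2, b3, b4⟩ := circ_bd hc
      obtain ⟨a1, a2, a3, a4, a5, a6⟩ := f3 i
      have a1' : (-1 : ℝ) ≤ U i := by exact_mod_cast a1
      have a2' : (U i : ℝ) ≤ 1 := by exact_mod_cast a2
      have a3' : (-20 : ℝ) ≤ V i := by exact_mod_cast a3
      have a4' : (V i : ℝ) ≤ 20 := by exact_mod_cast a4
      have a5' : (W i : ℝ) ≤ 0 := by exact_mod_cast a5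
      have a6' : (100 : ℝ) ≤ (U i : ℝ) * X i + V i * Y i + W i * Z i := by exact_mod_cast a6
      simp only [q0, q1, q2]
      rw [hc.2]
      have m1 : (U i : ℝ) * y 0 ≤ 3 := by nlinarith
      have m2 : (V i : ℝ) * y 1 ≤ 60 := by nlinarith
      linarith
  · apply notin S x (x 0) (x 1) 300
    intro y hy hne
    obtain ⟨b1, b2, b3, b4⟩ := circ_bd hc
    rcases hS y hy with ⟨j, rfl⟩ | hd
    · obtain ⟨a1, a2, a3, a4, a5⟩ := f4 j
      have a1' : (-162 : ℝ) ≤ X j := by exact_mod_cast a1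
      have a2' : (X j : ℝ) ≤ 162 := by exact_mod_cast a2
      have a3' : (-162 : ℝ) ≤ Y j := by exact_mod_cast a3
      have a4' : (Y j : ℝ) ≤ 162 := by exact_mod_cast a4
      have a5' : (Z j : ℝ) ≤ 0 := by exact_mod_cast a5
      simp only [q0, q1, q2]
      have m1 : x 0 * X j ≤ 486 := by nlinarith
      have m2 : x 1 * Y j ≤ 486 := by nlinarith
      rw [hc.2]
      nlinarith [hc.1]
    · have h2 := dsq y x
      have hp : 0 < dist y x := dist_pos.2 hne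
      have hp2 : 0 < dist y x ^ 2 := by positivity
      rw [hc.2, hd.2] at *
      nlinarith [hc.1, hd.1]

end Pool.Agent.H11.Elv
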