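import Mathlib

set_option autoImplicit false

namespace Pool.Agent.H11.Eul

open List

def D : List ℕ → ℕ
  | a :: b :: l => (if b < a then 1 else 0) + D (b :: l)
  | _ => 0

def Ls : ℕ → List ℕ
  | 0 => []
  | n + 1 => n :: Ls n

lemma D_cons (a b : ℕ) (l : List ℕ) : D (a :: b :: l) = (if b < a then 1 else 0) + D (b :: l) := rfl
lemma D_nil : D [] = 0 := rfl
lemma D_single (a : ℕ) : D [a] = 0 := rfl

lemma ins_cons (M : ℕ) (l : List ℕ) : ∀ (a : ℕ) (x : ℕ → ℝ), a < M → (∀ b ∈ l, b < M) →
    ((permutations'Aux M l).map (fun s => x (D (a :: s)))).sum =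
      ((D (a :: l) : ℝ) + 1) * x (D (a :: l)) + ((l.length : ℝ) - D (a :: l)) * x (D (a :: l) + 1) := by
  induction l with
  | nil =>
    intro a x ha _
    have : ¬ M < a := by omega
    simp [permutations'Aux, D_cons, D_single, this]
  | cons b l ih =>
    intro a x ha hl
    have hb : b < M := hl b (by simp)
    have h1 : ¬ M < a := by omega
    have := ih b (fun k => x ((if b < a then 1 else 0) + k)) hb (fun c hc => hl c (by simp [hc]))
    simp only [permutations'Aux, map_cons, sum_cons, map_map, Function.comp_def, D_cons, h1, hb,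
      if_true, if_false, length_cons]
    rw [this]
    by_cases h : b < a
    · simp only [h, if_true]
      push_cast
      have e1 : 0 + (1 + D (b :: l)) = 1 + D (b :: l) := by omega
      have e2 : 1 + (D (b :: l) + 1) = 1 + D (b :: l) + 1 := by omega
      rw [e1, e2]; ring
    · simp only [h, if_false]
      push_cast
      have e1 : 0 + (1 + D (b :: l)) = D (b :: l) + 1 := by omega
      have e2 : 0 + (D (b :: l) + 1) = D (b :: l) + 1 := by omega
      have e3 : 0 + D (b :: l) = D (b :: l) := by omega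
      rw [e1, e2, e3]; ring

lemma ins (M : ℕ) (l : List ℕ) (x : ℕ → ℝ) (hl : ∀ b ∈ l, b < M) :
    ((permutations'Aux M l).map (fun s => x (D s))).sum =
      ((D l : ℝ) + 1) * x (D l) + ((l.length : ℝ) - D l) * x (D l + 1) := by
  cases l with
  | nil => simp [permutations'Aux, D_nil, D_single]
  | cons b l =>
    have hb : b < M := hl b (by simp)
    have := ins_cons M l b x hb (fun c hc => hl c (by simp [hc]))
    simp only [permutations'Aux, map_cons, sum_cons, map_map, Function.comp_def, D_cons, hb,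
      if_true, length_cons]
    rw [this]
    push_cast
    have e1 : 1 + D (b :: l) = D (b :: l) + 1 := by omega
    rw [e1]; ring

lemma sum_flat (L : List (List ℕ)) (f : List ℕ → List (List ℕ)) (g : List ℕ → ℝ) :
    ((L.flatMap f).map g).sum = (L.map (fun s => ((f s).map g).sum)).sum := by
  induction L with
  | nil => simp
  | cons a L ih => simp only [flatMap_cons, map_append, sum_append, map_cons, sum_cons, ih]

lemma mem_Ls (n : ℕ) : ∀ b, b ∈ Ls n ↔ b < n := by
  induction n with
  | zero => simp [Ls]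
  | succ n ih => intro b; simp only [Ls, mem_cons, ih]; omega

lemma len_Ls (n : ℕ) : (Ls n).length = n := by
  induction n with
  | zero => rfl
  | succ n ih => simp [Ls, ih]

lemma nodup_Ls (n : ℕ) : (Ls n).Nodup := by
  induction n with
  | zero => simp [Ls]
  | succ n ih => simp [Ls, ih, mem_Ls]

noncomputable def Z (n : ℕ) (x : ℕ → ℝ) : ℝ := ((permutations' (Ls n)).map (fun s => x (D s))).sum

lemma Z_succ (n : ℕ) (x : ℕ → ℝ) :
    Z (n + 1) x = Z n (fun d => ((d : ℝ) + 1) * x d + ((n : ℝ) - d) * x (d + 1)) := by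
  unfold Z
  simp only [Ls, permutations']
  rw [sum_flat]
  congr 1
  apply List.map_congr_left
  intro s hs
  have hp := mem_permutations'.1 hs
  rw [ins n s x (fun b hb => (mem_Ls n b).1 (hp.mem_iff.1 hb)), hp.length_eq, len_Ls]

def code {n : ℕ} (σ : Equiv.Perm (Fin n)) : List ℕ := List.ofFn (fun i => (σ i).val)

lemma code_perm {n : ℕ} (σ : Equiv.Perm (Fin n)) : code σ ~ Ls n := by
  have h1 : code σ ~ List.ofFn (fun i : Fin n => i.val) := σ.ofFn_comp_perm (fun i : Fin n => i.val)
  refine h1.trans ?_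
  rw [perm_ext_iff_of_nodup (List.nodup_ofFn.2 Fin.val_injective) (nodup_Ls n)]
  intro a
  rw [mem_Ls, List.mem_ofFn]
  constructor
  · rintro ⟨i, rfl⟩; exact i.2
  · intro h; exact ⟨⟨a, h⟩, rfl⟩

lemma code_inj {n : ℕ} : Function.Injective (code (n := n)) := by
  intro σ τ h
  have := List.ofFn_injective h
  ext i
  exact congrFun this i

lemma Z_eq (n : ℕ) (x : ℕ → ℝ) : Z n x = ∑ σ : Equiv.Perm (Fin n), x (D (code σ)) := by
  classical
  have hnd : (permutations' (Ls n)).Nodup :=
    (permutations_perm_permutations' _).nodup_iff.1 (nodup_permutations _ (nodup_Ls n))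
  have hlen : (permutations' (Ls n)).length = n.factorial := by
    rw [← (permutations_perm_permutations' _).length_eq, length_permutations, len_Ls]
  have himg : (Finset.univ : Finset (Equiv.Perm (Fin n))).image code
      = (permutations' (Ls n)).toFinset := by
    apply Finset.eq_of_subset_of_card_le
    · intro s hs
      obtain ⟨σ, _, rfl⟩ := Finset.mem_image.1 hs
      exact List.mem_toFinset.2 (mem_permutations'.2 (code_perm σ))
    · rw [Finset.card_image_of_injective _ code_inj, List.toFinset_card_of_nodup hnd, hlen]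
      simp [Fintype.card_perm]
  unfold Z
  rw [← List.sum_toFinset _ hnd, ← himg, Finset.sum_image (fun a _ b _ h => code_inj h)]

lemma D_le : ∀ l : List ℕ, D l ≤ l.length
  | [] => by simp [D_nil]
  | [a] => by simp [D_single]
  | a :: b :: l => by
    have := D_le (b :: l)
    rw [D_cons]
    simp only [length_cons] at this ⊢
    split_ifs <;> omega

lemma D_sum : ∀ l : List ℕ, D l = ∑ i ∈ Finset.range (l.length - 1),
    (if l.getD (i + 1) 0 < l.getD i 0 then 1 else 0)
  | [] => by simp [D_nil]
  | [a] => by simp [D_single]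
  | a :: b :: l => by
    have := D_sum (b :: l)
    rw [D_cons, this]
    simp only [length_cons, Nat.add_sub_cancel]
    rw [Finset.sum_range_succ', add_comm]
    simp only [List.getD_cons_succ, List.getD_cons_zero, zero_add]

lemma des_eq {n : ℕ} (σ : Equiv.Perm (Fin n)) :
    ((Finset.univ : Finset (Fin n × Fin n)).filter
      (fun p => p.2.val = p.1.val + 1 ∧ σ p.2 < σ p.1)).card = D (code σ) := by
  have hget : ∀ i (h : i < n), (code σ).getD i 0 = (σ ⟨i, h⟩).val := by
    intro i h
    unfold code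
    rw [List.getD_eq_getElem _ _ (by simpa using h)]
    simp
  have hl : (code σ).length = n := by simp [code]
  rw [D_sum, ← Finset.card_filter, hl]
  apply Finset.card_bij (fun p _ => p.1.val)
  · rintro ⟨i, j⟩ hp
    simp only [Finset.mem_filter, Finset.mem_univ, true_and, Finset.mem_range] at hp ⊢
    have hj := j.2
    have h1 : i.val + 1 < n := by omega
    refine ⟨by omega, ?_⟩
    rw [hget _ h1, hget _ i.2]
    have : (⟨i.val + 1, h1⟩ : Fin n) = j := Fin.ext hp.1.symm
    rw [this]
    exact hp.2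
  · rintro ⟨i, j⟩ hp ⟨i', j'⟩ hp' h
    simp only [Finset.mem_filter, Finset.mem_univ, true_and] at hp hp' h
    have e1 : i = i' := Fin.ext h
    have e2 : j = j' := Fin.ext (by omega)
    rw [e1, e2]
  · intro i hi
    simp only [Finset.mem_filter, Finset.mem_range] at hi
    have h0 : i < n := by omega
    have h1 : i + 1 < n := by omega
    refine ⟨(⟨i, h0⟩, ⟨i + 1, h1⟩), ?_, rfl⟩
    simp only [Finset.mem_filter, Finset.mem_univ, true_and]
    have := hi.2
    rw [hget _ h1, hget _ h0] at this
    exact this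

lemma D_code_le {n : ℕ} (σ : Equiv.Perm (Fin n)) : D (code σ) ≤ n := by
  have := D_le (code σ)
  simpa [code] using this

theorem Z_lc (x : ℕ → ℝ) (hx : ∀ n, 0 ≤ x n) (hc : ∀ k, x (k + 1) ^ 2 ≤ x k * x (k + 2)) (n : ℕ) :
    Z (n + 1) x ^ 2 ≤ Z n x * Z (n + 2) x := by
  rw [Z_succ (n + 1), Z_succ n, Z_succ n, Z_eq, Z_eq, Z_eq]
  have key : ∀ σ : Equiv.Perm (Fin n), (0 : ℝ) ≤ (n : ℝ) - (D (code σ) : ℕ) := by
    intro σ
    have : ((D (code σ) : ℕ) : ℝ) ≤ n := by exact_mod_cast D_code_le σ
    linarith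
  apply Finset.sum_sq_le_sum_mul_sum_of_sq_le_mul
  · intro σ _; exact hx _
  · intro σ _
    have h := key σ
    generalize D (code σ) = d at h ⊢
    have := hx d
    have := hx (d + 1)
    have := hx (d + 1 + 1)
    push_cast
    have h2 : (0 : ℝ) ≤ (n : ℝ) + 1 - d := by linarith
    have h3 : (0 : ℝ) ≤ (n : ℝ) + 1 - (d + 1) := by linarith
    positivity
  · intro σ _
    have h := key σ
    generalize D (code σ) = d at h ⊢
    have h0 := hx d
    have h1 := hx (d + 1)
    have h2 := hc d
    have hd : (0 : ℝ) ≤ d := Nat.cast_nonneg d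
    push_cast
    have e : x (d + 1 + 1) = x (d + 2) := rfl
    rw [e]
    obtain ⟨m, hm⟩ : ∃ m : ℝ, m = (n : ℝ) - d := ⟨_, rfl⟩
    have e1 : (n : ℝ) + 1 - d = m + 1 := by linarith
    have e2 : (n : ℝ) + 1 - (d + 1) = m := by linarith
    rw [e1, e2, ← hm]
    rw [← hm] at h
    have a1 : 0 ≤ m ^ 2 * (x d * x (d + 2) - x (d + 1) ^ 2) :=
      mul_nonneg (sq_nonneg _) (by linarith)
    have a2 : 0 ≤ (d + 1 + m) * (x d * x (d + 1)) := by positivity
    nlinarith [a1, a2]

theorem z_eq (x : ℕ → ℝ) (n : ℕ) :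
    ∑ k ∈ Finset.range (n + 1),
      (((Finset.univ : Finset (Equiv.Perm (Fin n))).filter
        (fun σ => ((Finset.univ : Finset (Fin n × Fin n)).filter
          (fun p => p.2.val = p.1.val + 1 ∧ σ p.2 < σ p.1)).card = k)).card : ℝ) * x k = Z n x := by
  rw [Z_eq]
  simp only [des_eq]
  rw [← Finset.sum_fiberwise_of_maps_to (s := Finset.univ) (t := Finset.range (n + 1))
    (g := fun σ : Equiv.Perm (Fin n) => D (code σ))
    (fun σ _ => Finset.mem_range.2 (Nat.lt_succ_of_le (D_code_le σ)))]
  apply Finset.sum_congr rfl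
  intro k _
  rw [Finset.sum_congr rfl (g := fun _ => x k) (fun σ hσ => by rw [(Finset.mem_filter.1 hσ).2])]
  simp

end Pool.Agent.H11.Eul
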