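import Mathlib

set_option autoImplicit false

namespace Pool.Agent.H11.EvenIneq

noncomputable def B (k : ℕ) (u v : ℕ → ℝ) : ℝ :=
  if k % 2 = 0 then u (k / 2) * v (k / 2) else u (k / 2) * v (k / 2 + 1) + u (k / 2 + 1) * v (k / 2)

lemma B_even (r : ℕ) (u v : ℕ → ℝ) : B (2 * r) u v = u r * v r := by
  unfold B
  rw [if_pos (by omega), show 2 * r / 2 = r by omega]

lemma B_odd (r : ℕ) (u v : ℕ → ℝ) :
    B (2 * r + 1) u v = u r * v (r + 1) + u (r + 1) * v r := by
  unfold B
  rw [if_neg (by omega), show (2 * r + 1) / 2 = r by omega]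

lemma B_comm (k : ℕ) (u v : ℕ → ℝ) : B k u v = B k v u := by
  unfold B
  split_ifs <;> ring

lemma B_mono (k : ℕ) {u v u' v' : ℕ → ℝ} (hu : ∀ i, 0 ≤ u i) (hv : ∀ i, 0 ≤ v i)
    (h1 : ∀ i, u i ≤ u' i) (h2 : ∀ i, v i ≤ v' i) : B k u v ≤ B k u' v' := by
  have key : ∀ i j, u i * v j ≤ u' i * v' j := fun i j =>
    mul_le_mul (h1 i) (h2 j) (hv j) ((hu i).trans (h1 i))
  unfold B
  split_ifs
  · exact key _ _
  · exact add_le_add (key _ _) (key _ _)

lemma B_nonneg (k : ℕ) {u v : ℕ → ℝ} (hu : ∀ i, 0 ≤ u i) (hv : ∀ i, 0 ≤ v i) : 0 ≤ B k u v := by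
  unfold B
  split_ifs
  · exact mul_nonneg (hu _) (hv _)
  · exact add_nonneg (mul_nonneg (hu _) (hv _)) (mul_nonneg (hu _) (hv _))

lemma B_zero (k : ℕ) (v : ℕ → ℝ) : B k (fun _ => 0) v = 0 := by
  unfold B
  split_ifs <;> simp

noncomputable def c : ℕ → ℕ → ℝ
  | 0 => fun _ => 0
  | 1 => fun k => if k = 1 then 1 else 0
  | n + 2 => fun k => c ((n + 2) / 2) k + c ((n + 3) / 2) k + B k (c ((n + 2) / 2)) (c ((n + 3) / 2))
  decreasing_by all_goals omega

lemma c_zero : c 0 = fun _ => 0 := by rw [c]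

lemma c_one (k : ℕ) : c 1 k = if k = 1 then 1 else 0 := by rw [c]

lemma c_even (s k : ℕ) : c (2 * s) k = c s k + c s k + B k (c s) (c s) := by
  rcases s with _ | s
  · simp [c_zero, B_zero]
  · rw [show 2 * (s + 1) = 2 * s + 2 by ring, c, show (2 * s + 2) / 2 = s + 1 by omega,
      show (2 * s + 3) / 2 = s + 1 by omega]

lemma c_odd (s k : ℕ) : c (2 * s + 1) k = c s k + c (s + 1) k + B k (c s) (c (s + 1)) := by
  rcases s with _ | s
  · simp [c_zero, B_zero]
  · rw [show 2 * (s + 1) + 1 = (2 * s + 1) + 2 by ring, c,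
      show (2 * s + 1 + 2) / 2 = s + 1 by omega, show (2 * s + 1 + 3) / 2 = s + 1 + 1 by omega]

lemma c_bal (u v k : ℕ) (h1 : u ≤ v + 1) (h2 : v ≤ u + 1) :
    c (u + v) k = c u k + c v k + B k (c u) (c v) := by
  rcases lt_trichotomy u v with h | h | h
  · obtain rfl : v = u + 1 := by omega
    rw [show u + (u + 1) = 2 * u + 1 by ring, c_odd]
  · subst h
    rw [← two_mul, c_even]
  · obtain rfl : u = v + 1 := by omega
    rw [show v + 1 + v = 2 * v + 1 by ring, c_odd, B_comm]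
    ring

/-- induction along halving -/
lemma half_ind (P : ℕ → Prop) (h0 : P 0) (h1 : P 1)
    (h : ∀ s t, 1 ≤ s → (t = s ∨ t = s + 1) → P s → P t → P (s + t)) : ∀ n, P n := by
  intro n
  induction n using Nat.strong_induction_on with
  | _ n ih =>
    rcases n with _ | _ | n
    · exact h0
    · exact h1
    · have := h ((n + 2) / 2) ((n + 3) / 2) (by omega) (by omega) (ih _ (by omega))
        (ih _ (by omega))
      rwa [show (n + 2) / 2 + (n + 3) / 2 = n + 1 + 1 by omega] at this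

lemma half_ind' (P : ℕ → Prop) (h0 : P 0)
    (h : ∀ s t, 1 ≤ t → (t = s ∨ t = s + 1) → P s → P (s + t)) : ∀ n, P n := by
  intro n
  induction n using Nat.strong_induction_on with
  | _ n ih =>
    rcases n with _ | n
    · exact h0
    · have := h ((n + 1) / 2) ((n + 2) / 2) (by omega) (by omega) (ih _ (by omega))
      rwa [show (n + 1) / 2 + (n + 2) / 2 = n + 1 by omega] at this

lemma c_rec (s t k : ℕ) (h : t = s ∨ t = s + 1) :
    c (s + t) k = c s k + c t k + B k (c s) (c t) := c_bal s t k (by omega) (by omega)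

lemma c_rec' (s t k : ℕ) (h : t = s ∨ t = s + 1) :
    c (s + t + 1) k = c (s + 1) k + c t k + B k (c (s + 1)) (c t) := by
  rw [show s + t + 1 = (s + 1) + t by ring]
  exact c_bal (s + 1) t k (by omega) (by omega)

lemma c_nonneg : ∀ n k, 0 ≤ c n k := by
  refine half_ind _ (by simp [c_zero]) (fun k => by rw [c_one]; split_ifs <;> norm_num) ?_
  intro s t _ h hs ht k
  rw [c_rec s t k h]
  exact add_nonneg (add_nonneg (hs k) (ht k)) (B_nonneg k hs ht)

lemma c_k0 : ∀ n, c n 0 = 0 := by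
  refine half_ind _ (by simp [c_zero]) (by simp [c_one]) ?_
  intro s t _ h hs ht
  rw [c_rec s t 0 h, show (0 : ℕ) = 2 * 0 from rfl, B_even]
  simp [hs, ht]

lemma c_k1 : ∀ n : ℕ, c n 1 = n := by
  refine half_ind _ (by simp [c_zero]) (by simp [c_one]) ?_
  intro s t _ h hs ht
  have := B_odd 0 (c s) (c t)
  rw [c_rec s t 1 h, hs, ht]
  simp only [mul_zero, zero_add, c_k0, zero_mul, add_zero] at this
  rw [this]; push_cast; ring

lemma c_k2 : ∀ n : ℕ, c n 2 = n * (n - 1) / 2 := by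
  refine half_ind _ (by simp [c_zero]) (by simp [c_one]) ?_
  intro s t _ h hs ht
  have := B_even 1 (c s) (c t)
  rw [c_rec s t 2 h, hs, ht]
  simp only [mul_one, c_k1] at this
  rw [this]; push_cast; ring

lemma c_k3 : ∀ n : ℕ, c n 3 = n * (n - 1) * (n - 2) / 6 := by
  refine half_ind _ (by simp [c_zero]) (by simp [c_one]) ?_
  intro s t _ h hs ht
  have := B_odd 1 (c s) (c t)
  rw [c_rec s t 3 h, hs, ht]
  simp only [mul_one, c_k1, Nat.reduceAdd, c_k2] at this
  rw [this]; push_cast; ring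

lemma c_gt : ∀ n k, n < k → c n k = 0 := by
  refine half_ind _ (by simp [c_zero]) (fun k hk => by rw [c_one, if_neg (by omega)]) ?_
  intro s t h1 h hs ht k hk
  rw [c_rec s t k h, hs k (by omega), ht k (by omega)]
  obtain ⟨r, rfl | rfl⟩ := Nat.even_or_odd' k
  · rw [B_even, hs r (by omega)]; simp
  · rw [B_odd, hs (r + 1) (by omega)]
    by_cases hh : s < r
    · rw [hs r hh]; simp
    · rw [ht (r + 1) (by omega)]; simp

lemma c_ge_one : ∀ n k, 1 ≤ k → k ≤ n → 1 ≤ c n k := by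
  refine half_ind _ (fun k h1 h2 => by omega)
    (fun k h1 h2 => by rw [c_one, if_pos (by omega)]) ?_
  intro s t h1 h hs ht k hk1 hk
  by_cases hk' : k = 1
  · subst hk'
    rw [c_k1]; exact_mod_cast hk
  rw [c_rec s t k h]
  have := c_nonneg s k
  have := c_nonneg t k
  obtain ⟨r, rfl | rfl⟩ := Nat.even_or_odd' k
  · rw [B_even]
    have := hs r (by omega) (by omega)
    have := ht r (by omega) (by omega)
    nlinarith
  · rw [B_odd]
    have := hs r (by omega) (by omega)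
    have := ht (r + 1) (by omega) (by omega)
    have := mul_nonneg (c_nonneg s (r + 1)) (c_nonneg t r)
    nlinarith

lemma c_self : ∀ n, 1 ≤ n → c n n = 1 := by
  refine half_ind _ (fun h => by omega) (fun _ => by simp [c_one]) ?_
  intro s t h1 h hs ht _
  rw [c_rec s t _ h, c_gt s _ (by omega), c_gt t _ (by omega)]
  rcases h with rfl | rfl
  · rw [← two_mul t, B_even, hs h1]; simp
  · rw [show s + (s + 1) = 2 * s + 1 by ring, B_odd, hs h1, ht (by omega), c_gt s _ (by omega)]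
    simp

noncomputable def d (n k : ℕ) : ℝ := c (n + 1) k - c n k

lemma d_rec (s t k : ℕ) (h : t = s ∨ t = s + 1) :
    d (s + t) k = d s k + B k (d s) (c t) := by
  unfold d
  rw [c_rec' s t k h, c_rec s t k h]
  unfold B
  split_ifs <;> ring

lemma d_zero (k : ℕ) : d 0 k = if k = 1 then 1 else 0 := by simp [d, c_zero, c_one]

lemma d_nonneg : ∀ n k, 0 ≤ d n k := by
  refine half_ind' _ (fun k => by rw [d_zero]; split_ifs <;> norm_num) ?_
  intro s t _ h hs k
  rw [d_rec s t k h]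
  exact add_nonneg (hs k) (B_nonneg k hs (c_nonneg t))

lemma c_succ (n k : ℕ) : c n k ≤ c (n + 1) k := by
  have := d_nonneg n k
  unfold d at this
  linarith

lemma c_mono {a b : ℕ} (h : a ≤ b) (k : ℕ) : c a k ≤ c b k :=
  monotone_nat_of_le_succ (f := fun n => c n k) (fun n => c_succ n k) h

lemma d_k0 (n : ℕ) : d n 0 = 0 := by simp [d, c_k0]
lemma d_k1 (n : ℕ) : d n 1 = 1 := by simp [d, c_k1]
lemma d_k2 (n : ℕ) : d n 2 = n := by
  simp only [d, c_k2]; push_cast; ring
lemma d_k3 (n : ℕ) : d n 3 = n * (n - 1) / 2 := by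
  simp only [d, c_k3]; push_cast; ring

lemma nat_cases (u : ℕ) : (u : ℝ) = 0 ∨ (u : ℝ) = 1 ∨ (2 : ℝ) ≤ u := by
  rcases u with _ | _ | u
  · simp
  · simp
  · right; right; push_cast; linarith [Nat.cast_nonneg (α := ℝ) u]

/-- doubling bound -/
lemma K3 : ∀ m l, 3 ≤ l → 2 ^ l * c (m + 1) l ≤ c (2 * m + 1) l := by
  intro m
  induction m using Nat.strong_induction_on with
  | _ m ih =>
    intro l hl
    by_cases hl3 : l = 3
    · subst hl3
      rw [c_k3, c_k3]; push_cast
      nlinarith [Nat.cast_nonneg (α := ℝ) m]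
    obtain ⟨u, rfl | rfl⟩ := Nat.even_or_odd' m
    · rcases u with _ | u
      · rw [c_gt _ l (by omega)]; simp
      have h1 : ∀ i, 3 ≤ i → 2 ^ i * c (u + 1) i ≤ c (2 * (u + 1)) i := fun i hi =>
        (ih u (by omega) i hi).trans (c_mono (by omega) i)
      have h2 : ∀ i, 3 ≤ i → 2 ^ i * c (u + 1 + 1) i ≤ c (2 * (u + 1) + 1) i := fun i hi =>
        ih (u + 1) (by omega) i hi
      have hBB : 2 ^ l * B l (c (u + 1)) (c (u + 1 + 1)) ≤
          B l (c (2 * (u + 1))) (c (2 * (u + 1) + 1)) := by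
        obtain ⟨r, rfl | rfl⟩ := Nat.even_or_odd' l
        · rw [B_even, B_even]
          by_cases hr : r = 2
          · subst hr
            simp only [c_k2]; push_cast
            nlinarith [Nat.cast_nonneg (α := ℝ) u, sq_nonneg ((u : ℝ) + 1)]
          · have := mul_le_mul (h1 r (by omega)) (h2 r (by omega))
              (mul_nonneg (by positivity) (c_nonneg _ _)) (c_nonneg _ _)
            calc _ = 2 ^ r * c (u + 1) r * (2 ^ r * c (u + 1 + 1) r) := by ring
              _ ≤ _ := this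
        · rw [B_odd, B_odd]
          by_cases hr : r = 2
          · subst hr
            simp only [c_k2, Nat.reduceAdd, c_k3]; push_cast
            have hu := Nat.cast_nonneg (α := ℝ) u
            nlinarith [pow_nonneg hu 2, pow_nonneg hu 3, pow_nonneg hu 4, pow_nonneg hu 5]
          · have e1 := mul_le_mul (h1 r (by omega)) (h2 (r + 1) (by omega))
              (mul_nonneg (by positivity) (c_nonneg _ _)) (c_nonneg _ _)
            have e2 := mul_le_mul (h1 (r + 1) (by omega)) (h2 r (by omega))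
              (mul_nonneg (by positivity) (c_nonneg _ _)) (c_nonneg _ _)
            calc _ = 2 ^ r * c (u + 1) r * (2 ^ (r + 1) * c (u + 1 + 1) (r + 1)) +
                  2 ^ (r + 1) * c (u + 1) (r + 1) * (2 ^ r * c (u + 1 + 1) r) := by ring
              _ ≤ _ := add_le_add e1 e2
      have e1 := h1 l hl
      have e2 := h2 l hl
      rw [c_odd (2 * (u + 1))]
      rw [c_odd (u + 1)] at e2 ⊢
      nlinarith
    · have h1 : ∀ i, 3 ≤ i → 2 ^ i * c (u + 1) i ≤ c (2 * u + 1) i := fun i hi =>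
        ih u (by omega) i hi
      have h2 : ∀ i, 3 ≤ i → 2 ^ i * c (u + 1) i ≤ c (2 * u + 1 + 1) i := fun i hi =>
        (h1 i hi).trans (c_succ _ i)
      have hBB : 2 ^ l * B l (c (u + 1)) (c (u + 1)) ≤
          B l (c (2 * u + 1)) (c (2 * u + 1 + 1)) := by
        obtain ⟨r, rfl | rfl⟩ := Nat.even_or_odd' l
        · rw [B_even, B_even]
          by_cases hr : r = 2
          · subst hr
            simp only [c_k2]; push_cast
            have hu := Nat.cast_nonneg (α := ℝ) u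
            nlinarith [pow_nonneg hu 2, pow_nonneg hu 3, pow_nonneg hu 4]
          · have := mul_le_mul (h1 r (by omega)) (h2 r (by omega))
              (mul_nonneg (by positivity) (c_nonneg _ _)) (c_nonneg _ _)
            calc _ = 2 ^ r * c (u + 1) r * (2 ^ r * c (u + 1) r) := by ring
              _ ≤ _ := this
        · rw [B_odd, B_odd]
          by_cases hr : r = 2
          · subst hr
            simp only [c_k2, Nat.reduceAdd, c_k3]; push_cast
            have hu := Nat.cast_nonneg (α := ℝ) u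
            rcases nat_cases u with h | h | h
            · rw [h]; norm_num
            · rw [h]; norm_num
            · have h3 : (0 : ℝ) ≤ u * (u + 1) * (24 * u ^ 2 + 32 * u - 2) := by
                have : (0 : ℝ) ≤ 24 * u ^ 2 + 32 * u - 2 := by nlinarith
                positivity
              have h4 : (0 : ℝ) ≤ u * (u + 1) := by positivity
              nlinarith
          · have e1 := mul_le_mul (h1 r (by omega)) (h2 (r + 1) (by omega))
              (mul_nonneg (by positivity) (c_nonneg _ _)) (c_nonneg _ _)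
            have e2 := mul_le_mul (h1 (r + 1) (by omega)) (h2 r (by omega))
              (mul_nonneg (by positivity) (c_nonneg _ _)) (c_nonneg _ _)
            calc _ = 2 ^ r * c (u + 1) r * (2 ^ (r + 1) * c (u + 1) (r + 1)) +
                  2 ^ (r + 1) * c (u + 1) (r + 1) * (2 ^ r * c (u + 1) r) := by ring
              _ ≤ _ := add_le_add e1 e2
      have e1 := h1 l hl
      have e2 := h2 l hl
      rw [c_odd (2 * u + 1)]
      rw [show 2 * u + 1 + 1 = 2 * (u + 1) by ring, c_even (u + 1)] at e2 ⊢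
      rw [show 2 * u + 1 + 1 = 2 * (u + 1) by ring] at hBB
      nlinarith

lemma K3' (s t l : ℕ) (h : t = s ∨ t = s + 1) (hl : 3 ≤ l) : 2 ^ l * c t l ≤ c (s + t) l := by
  rcases t with _ | t
  · simp [c_zero, c_nonneg]
  · exact (K3 t l hl).trans (c_mono (by omega) l)

lemma K2 : ∀ n i, (2 ^ i - 1) * d n (i + 1) ≤ B (i + 1) (d n) (c n) := by
  refine half_ind' _ ?_ ?_
  · intro i
    rw [B_comm, c_zero, B_zero, d_zero]
    split_ifs with h
    · obtain rfl : i = 0 := by omega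
      simp
    · simp
  intro s t ht h hs i
  have hst : s ≤ t := by omega
  have hs' : ∀ i, (2 ^ i - 1) * d s (i + 1) ≤ B (i + 1) (d s) (c t) := fun i =>
    (hs i).trans (B_mono _ (d_nonneg s) (c_nonneg s) (fun _ => le_rfl) (c_mono hst))
  have hA : ∀ j, 1 ≤ j → 2 ^ j * d s j ≤ 2 * d (s + t) j := by
    intro j hj
    obtain ⟨i, rfl⟩ : ∃ i, j = i + 1 := ⟨j - 1, by omega⟩
    rw [d_rec s t _ h, pow_succ]
    have := hs' i
    linarith
  have hs0 := Nat.cast_nonneg (α := ℝ) s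
  by_cases h0 : i = 0
  · subst h0
    simpa using B_nonneg _ (d_nonneg (s + t)) (c_nonneg (s + t))
  by_cases h1 : i = 1
  · subst h1
    have := B_even 1 (d (s + t)) (c (s + t))
    simp only [mul_one] at this
    rw [this, d_k1, d_k2, c_k1]; norm_num
  by_cases h2 : i = 2
  · subst h2
    have := B_odd 1 (d (s + t)) (c (s + t))
    simp only [mul_one, Nat.reduceAdd] at this
    simp only [Nat.reduceAdd]
    rw [this, d_k1, d_k2, d_k3, c_k1, c_k2]
    have := Nat.cast_nonneg (α := ℝ) (s + t)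
    nlinarith
  have hBB : 2 ^ i * B (i + 1) (d s) (c t) ≤ B (i + 1) (d (s + t)) (c (s + t)) := by
    by_cases h3 : i = 3
    · subst h3
      have e1 := B_even 2 (d (s + t)) (c (s + t))
      have e2 := B_even 2 (d s) (c t)
      simp only [Nat.reduceMul] at e1 e2
      simp only [Nat.reduceAdd]
      rw [e1, e2, d_k2, d_k2, c_k2, c_k2]
      rcases h with rfl | rfl
      · push_cast; nlinarith [pow_nonneg hs0 2, pow_nonneg hs0 3]
      · push_cast; nlinarith [pow_nonneg hs0 2, pow_nonneg hs0 3]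
    by_cases h4 : i = 4
    · subst h4
      have e1 := B_odd 2 (d (s + t)) (c (s + t))
      have e2 := B_odd 2 (d s) (c t)
      simp only [Nat.reduceMul, Nat.reduceAdd] at e1 e2
      simp only [Nat.reduceAdd]
      rw [e1, e2, d_k2, d_k2, c_k2, c_k2, d_k3, d_k3, c_k3, c_k3]
      rcases h with rfl | rfl
      · obtain ⟨u, rfl⟩ : ∃ u, t = u + 1 := ⟨t - 1, by omega⟩
        have hu := Nat.cast_nonneg (α := ℝ) u
        push_cast
        nlinarith [pow_nonneg hu 2, pow_nonneg hu 3, pow_nonneg hu 4]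
      · have h5 : (s : ℝ) ≤ s ^ 2 := by exact_mod_cast Nat.le_self_pow (by norm_num) s
        push_cast; nlinarith [pow_nonneg hs0 2, pow_nonneg hs0 3, pow_nonneg hs0 4]
    have key : ∀ a b, 3 ≤ a → 3 ≤ b →
        2 ^ (a + b) * (d s a * c t b) ≤ 2 * (d (s + t) a * c (s + t) b) := by
      intro a b ha hb
      have := mul_le_mul (hA a (by omega)) (K3' s t b h hb)
        (mul_nonneg (by positivity) (c_nonneg _ _))
        (mul_nonneg (by norm_num) (d_nonneg _ _))
      calc _ = 2 ^ a * d s a * (2 ^ b * c t b) := by ring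
        _ ≤ _ := this
        _ = _ := by ring
    obtain ⟨r, hr | hr⟩ := Nat.even_or_odd' (i + 1)
    · rw [hr, B_even, B_even]
      have := key r r (by omega) (by omega)
      rw [show r + r = i + 1 by omega, pow_succ] at this
      linarith
    · rw [hr, B_odd, B_odd]
      have e1 := key r (r + 1) (by omega) (by omega)
      have e2 := key (r + 1) r (by omega) (by omega)
      rw [show r + (r + 1) = i + 1 by omega, pow_succ] at e1
      rw [show r + 1 + r = i + 1 by omega, pow_succ] at e2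
      linarith
  rw [d_rec s t _ h]
  have := hs' i
  nlinarith

lemma d_gt (n k : ℕ) (h : n + 1 < k) : d n k = 0 := by
  simp [d, c_gt (n + 1) k h, c_gt n k (by omega)]

lemma d_top (n : ℕ) : d n (n + 1) = 1 := by
  simp [d, c_gt n (n + 1) (by omega), c_self (n + 1) (by omega)]

lemma Cb : ∀ n j, 1 ≤ j → j ≤ n → d n j ≤ j * c n j := by
  refine half_ind' _ (fun j h1 h2 => by omega) ?_
  intro s t ht h hs j hj1 hj
  by_cases hj' : j = 1
  · subst hj'
    rw [d_k1, c_k1]
    have : (1 : ℝ) ≤ ((s + t : ℕ) : ℝ) := by exact_mod_cast hj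
    rw [Nat.cast_one]
    linarith
  by_cases hsp : j = 2 * s + 1
  · obtain rfl : t = s + 1 := by omega
    rw [d_rec s _ _ h, d_gt s j (by omega), hsp, B_odd, show s + (s + 1) = 2 * s + 1 by ring,
      c_self (2 * s + 1) (by omega), c_self (s + 1) (by omega), d_top]
    have e1 := hs s (by omega) le_rfl
    have e2 : c (s + 1) s = d s s + c s s := by simp [d]
    rw [c_self s (by omega)] at e1 e2
    rw [e2]; push_cast; linarith
  have hB : B j (d s) (c t) + B j (c s) (c t) ≤ j * B j (c s) (c t) ∧ 1 ≤ B j (c s) (c t) := by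
    obtain ⟨r, rfl | rfl⟩ := Nat.even_or_odd' j
    · rw [B_even, B_even]
      have e1 := hs r (by omega) (by omega)
      have e2 := c_ge_one s r (by omega) (by omega)
      have e3 := c_ge_one t r (by omega) (by omega)
      have hr : (1 : ℝ) ≤ r := by exact_mod_cast (show 1 ≤ r by omega)
      have e4 := mul_le_mul_of_nonneg_right e1 (c_nonneg t r)
      have e5 : 0 ≤ (r - 1) * (c s r * c t r) :=
        mul_nonneg (by linarith) (mul_nonneg (c_nonneg _ _) (c_nonneg _ _))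
      push_cast
      constructor <;> nlinarith
    · rw [B_odd, B_odd]
      have e1 := hs r (by omega) (by omega)
      have e1' := hs (r + 1) (by omega) (by omega)
      have e2 := c_ge_one s r (by omega) (by omega)
      have e3 := c_ge_one t (r + 1) (by omega) (by omega)
      have hr : (1 : ℝ) ≤ r := by exact_mod_cast (show 1 ≤ r by omega)
      have e4 := mul_le_mul_of_nonneg_right e1 (c_nonneg t (r + 1))
      have e4' := mul_le_mul_of_nonneg_right e1' (c_nonneg t r)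
      have e5 : 0 ≤ r * (c s r * c t (r + 1)) :=
        mul_nonneg (by linarith) (mul_nonneg (c_nonneg _ _) (c_nonneg _ _))
      have e6 : 0 ≤ (r - 1) * (c s (r + 1) * c t r) :=
        mul_nonneg (by linarith) (mul_nonneg (c_nonneg _ _) (c_nonneg _ _))
      have e7 := mul_nonneg (c_nonneg s (r + 1)) (c_nonneg t r)
      push_cast at e4' ⊢
      constructor <;> nlinarith
  have hj0 := Nat.cast_nonneg (α := ℝ) j
  have hd : d s j ≤ j * c s j + 1 := by
    by_cases h1 : j ≤ s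
    · have := hs j hj1 h1
      linarith
    · have := mul_nonneg hj0 (c_nonneg s j)
      by_cases h2 : j = s + 1
      · rw [h2, d_top]; rw [h2] at this; linarith
      · rw [d_gt s j (by omega)]; linarith
  rw [d_rec s t _ h, c_rec s t _ h]
  have := mul_nonneg hj0 (c_nonneg t j)
  nlinarith [hB.1, hB.2]

lemma T3 : ∀ n : ℕ, 10 * c (n + 1) 4 ≤ 3 * (n + 1) * d n 4 := by
  refine half_ind' _ (by simp [c_one, d_zero]) ?_
  intro s t ht h hs
  have e1 := B_even 2 (d s) (c t)
  have e2 := B_even 2 (c (s + 1)) (c t)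
  simp only [Nat.reduceMul] at e1 e2
  rw [d_rec s t _ h, c_rec' s t _ h, e1, e2, d_k2, c_k2, c_k2]
  have hd := d_nonneg s 4
  have hs0 := Nat.cast_nonneg (α := ℝ) s
  rcases h with rfl | rfl
  · have e3 : c t 4 = c (t + 1) 4 - d t 4 := by simp [d]
    rw [e3]; push_cast
    rcases nat_cases t with h | h | h
    · rw [h] at hs ⊢; nlinarith
    · rw [h] at hs ⊢; nlinarith
    · have : (0 : ℝ) ≤ t * t * (t - 1) * (t - 2) :=
        mul_nonneg (mul_nonneg (mul_nonneg hs0 hs0) (by linarith)) (by linarith)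
      nlinarith
  · push_cast
    nlinarith [pow_nonneg hs0 2, pow_nonneg hs0 3, pow_nonneg hs0 4]

lemma alg_even (a b a' b' p q P P' Y Y' X X' α β η θ : ℝ)
    (ha : 0 ≤ a) (hb : 0 ≤ b) (hp : 0 ≤ p) (hq : 0 ≤ q) (hP : 0 ≤ P) (hP' : 0 ≤ P')
    (hY : 0 ≤ Y) (hbb : b ≤ b') (hYX : Y' ≤ X') (hα : 0 ≤ α)
    (hθ : 0 ≤ θ)
    (hcase : (a' = a ∧ b' = b ∧ X = Y ∧ X' = Y') ∨
      (a' = a + p ∧ b' = b + q ∧ X = Y + P ∧ X' = Y' + P'))
    (F1 : η * (p * b') ≤ q * a' - p * b') (hη : 0 ≤ η)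
    (F2 : θ * (P * X') ≤ P' * X - P * X')
    (F3 : P ≤ β * (p * a)) (F4 : Y' ≤ α * (a * b)) (F5 : 2 * X' ≤ α * (a' * b + b' * a))
    (hnum : 2 * α + 2 * β + 2 * θ * (1 + α + β) ≤ η) :
    θ * ((P + p * a) * (X' + Y' + (a' * b + b' * a))) ≤
      (P' + (p * b + q * a)) * (X + Y + a' * a) - (P + p * a) * (X' + Y' + (a' * b + b' * a)) := by
  have hb' : 0 ≤ b' := hb.trans hbb
  have hD : (P' + (p * b + q * a)) * (X + Y + a' * a) - (P + p * a) * (X' + Y' + (a' * b + b' * a))
      = 2 * (P' * X - P * X') + a ^ 2 * (q * a' - p * b') + a ^ 2 * P' - 2 * a * p * Y'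
        - 2 * a * b * P + 2 * b * Y * p + 2 * a * Y * q := by
    rcases hcase with ⟨rfl, rfl, rfl, rfl⟩ | ⟨rfl, rfl, rfl, rfl⟩ <;> ring
  have hpb : 0 ≤ p * b' := mul_nonneg hp hb'
  have F6 : a' * b ≤ b' * a := by
    have : 0 ≤ q * a' - p * b' := (mul_nonneg hη hpb).trans F1
    rcases hcase with ⟨rfl, rfl, rfl, rfl⟩ | ⟨rfl, rfl, rfl, rfl⟩ <;> nlinarith
  set Z := a ^ 2 * (p * b') with hZ
  have hZ0 : 0 ≤ Z := by positivity
  have hab : a * b ≤ a * b' := mul_le_mul_of_nonneg_left hbb ha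
  have g1 : η * Z ≤ a ^ 2 * (q * a' - p * b') := by
    have := mul_le_mul_of_nonneg_left F1 (sq_nonneg a)
    rw [hZ]; linarith
  have g2 : a * p * Y' ≤ α * Z := by
    have h1 := mul_le_mul_of_nonneg_left F4 (mul_nonneg ha hp)
    have h2 := mul_le_mul_of_nonneg_left hab (mul_nonneg hα (mul_nonneg ha hp))
    rw [hZ]; linarith
  have g3 : a * b' * P ≤ β * Z := by
    have h1 := mul_le_mul_of_nonneg_left F3 (mul_nonneg ha hb')
    rw [hZ]; linarith
  have g3' : a * b * P ≤ a * b' * P := mul_le_mul_of_nonneg_right hab hP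
  have g4 : X' ≤ α * (a * b') := by
    have := mul_le_mul_of_nonneg_left F6 hα
    linarith
  have g5 : p * a * (X' + Y') ≤ 2 * α * Z := by
    have h1 : X' + Y' ≤ 2 * (α * (a * b')) := by linarith
    have := mul_le_mul_of_nonneg_left h1 (mul_nonneg hp ha)
    rw [hZ]; linarith
  have g6 : P * (a' * b + b' * a) ≤ 2 * (a * b' * P) := by
    have := mul_le_mul_of_nonneg_left F6 hP
    linarith
  have g7 : p * a * (a' * b + b' * a) ≤ 2 * Z := by
    have := mul_le_mul_of_nonneg_left F6 (mul_nonneg hp ha)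
    rw [hZ]; linarith
  have g8 : P * (X' + Y') ≤ 2 * (P * X') := by
    have := mul_le_mul_of_nonneg_left hYX hP
    linarith
  have g9 : (P + p * a) * (X' + Y' + (a' * b + b' * a)) ≤
      2 * (P * X') + 2 * (1 + α + β) * Z := by linarith
  have g10 := mul_le_mul_of_nonneg_left g9 hθ
  have g11 := mul_le_mul_of_nonneg_right hnum hZ0
  have g12 : 0 ≤ a ^ 2 * P' := by positivity
  have g13 : 0 ≤ b * Y * p := by positivity
  have g14 : 0 ≤ a * Y * q := by positivity
  rw [hD]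
  linarith

lemma alg_odd (a b a' b' p q P P' Y Y' X X' α γ W θ C : ℝ)
    (ha : 0 ≤ a) (hb : 0 ≤ b) (hp : 0 ≤ p) (hq : 0 ≤ q) (hP : 0 ≤ P) (hP' : 0 ≤ P')
    (hY : 0 ≤ Y) (hbb : b ≤ b') (hYX : Y' ≤ X') (hα : 0 ≤ α) (hγ : 0 ≤ γ)
    (hθ : 0 ≤ θ) (hW : 0 < W)
    (hcase : (a' = a ∧ b' = b ∧ X = Y ∧ X' = Y') ∨
      (a' = a + p ∧ b' = b + q ∧ X = Y + P ∧ X' = Y' + P'))
    (F1 : p * b' ≤ W * (q * a' - p * b'))
    (F2 : θ * (P * X') ≤ P' * X - P * X')
    (F3 : P ≤ α * (p * b + q * a)) (F4 : 2 * Y' ≤ γ * (b * b)) (F5 : 2 * X' ≤ γ * (b' * b))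
    (F6 : b * b' ≤ C * (b * b))
    (hnum : (α + γ) * (1 + 2 * W) + θ * (1 + α + γ) * (C + 2 * W) ≤ 1) :
    θ * ((P + (p * b + q * a)) * (X' + Y' + b' * b)) ≤
      (P' + q * b) * (X + Y + (a' * b + b' * a)) - (P + (p * b + q * a)) * (X' + Y' + b' * b) := by
  have hb' : 0 ≤ b' := hb.trans hbb
  set N := p * b + q * a with hN
  set D := q * a' - p * b' with hDd
  have hN0 : 0 ≤ N := by positivity
  have hD0 : 0 ≤ D := by
    by_contra hneg
    have := mul_neg_of_pos_of_neg hW (not_le.1 hneg)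
    have := mul_nonneg hp hb'
    linarith
  have hND : N = D + 2 * (p * b) := by
    rw [hN, hDd]
    rcases hcase with ⟨rfl, rfl, rfl, rfl⟩ | ⟨rfl, rfl, rfl, rfl⟩ <;> ring
  have hD : (P' + q * b) * (X + Y + (a' * b + b' * a)) - (P + N) * (X' + Y' + b' * b)
      = 2 * (P' * X - P * X') + b ^ 2 * D + 2 * a * b * P' - 2 * Y' * N - b ^ 2 * P
        + 2 * b * Y * q := by
    rw [hN, hDd]
    rcases hcase with ⟨rfl, rfl, rfl, rfl⟩ | ⟨rfl, rfl, rfl, rfl⟩ <;> ring
  set Z := b ^ 2 * D with hZ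
  have hZ0 : 0 ≤ Z := by positivity
  have g1 : b ^ 2 * N ≤ (1 + 2 * W) * Z := by
    have h1 : p * b ≤ W * D := (mul_le_mul_of_nonneg_left hbb hp).trans F1
    have := mul_le_mul_of_nonneg_left h1 (sq_nonneg b)
    rw [hND, hZ]; linarith
  have g2 : b * b' * N ≤ (C + 2 * W) * Z := by
    have h1 := mul_le_mul_of_nonneg_right F6 hD0
    have h2 := mul_le_mul_of_nonneg_left F1 (sq_nonneg b)
    rw [hND, hZ]; linarith
  have g3 : 2 * Y' * N ≤ γ * (b ^ 2 * N) := by
    have := mul_le_mul_of_nonneg_right F4 hN0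
    linarith
  have g4 : b ^ 2 * P ≤ α * (b ^ 2 * N) := by
    have := mul_le_mul_of_nonneg_left F3 (sq_nonneg b)
    linarith
  have g5 : P * (b' * b) ≤ α * (b * b' * N) := by
    have := mul_le_mul_of_nonneg_right F3 (mul_nonneg hb' hb)
    linarith
  have g6 : N * (X' + Y') ≤ γ * (b * b' * N) := by
    have h1 : X' + Y' ≤ γ * (b' * b) := by linarith
    have := mul_le_mul_of_nonneg_left h1 hN0
    linarith
  have g8 : P * (X' + Y') ≤ 2 * (P * X') := by
    have := mul_le_mul_of_nonneg_left hYX hP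
    linarith
  have g9 : (P + N) * (X' + Y' + b' * b) ≤ 2 * (P * X') + (1 + α + γ) * (b * b' * N) := by
    linarith
  have g10 := mul_le_mul_of_nonneg_left g9 hθ
  have g11 := mul_le_mul_of_nonneg_right hnum hZ0
  have g12 := mul_le_mul_of_nonneg_left g1 (add_nonneg hα hγ)
  have g13 := mul_le_mul_of_nonneg_left g2
    (mul_nonneg hθ (show 0 ≤ 1 + α + γ by linarith))
  have g14 : 0 ≤ a * b * P' := by positivity
  have g15 : 0 ≤ b * Y * q := by positivity
  rw [hD]
  linarith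

noncomputable def w (k : ℕ) : ℝ :=
  if k = 1 then 1 else if k = 2 then 2 else if k = 3 then 9 else if k = 4 then 32 else 2 ^ (k + 2)

lemma w_pos (k : ℕ) : 0 < w k := by
  unfold w
  split_ifs <;> positivity

lemma w_big (k : ℕ) (h : 5 ≤ k) : w k = 2 ^ (k + 2) := by
  unfold w
  rw [if_neg (by omega), if_neg (by omega), if_neg (by omega), if_neg (by omega)]

lemma pow_big (r : ℕ) (h : 5 ≤ r) : (32 : ℝ) ≤ 2 ^ r ∧ (r : ℝ) + 2 ≤ 2 ^ r := by
  induction r, h using Nat.le_induction with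
  | base => norm_num
  | succ r hr ih =>
    rw [pow_succ]; push_cast
    constructor <;> linarith [ih.1, ih.2]

lemma num_even (r : ℕ) (h : 2 ≤ r) :
    2 * (1 / (2 ^ (2 * r) - 1)) + 2 * (1 / (2 ^ (2 * r - 1) - 1)) +
      2 * (1 / w (2 * r)) * (1 + 1 / (2 ^ (2 * r) - 1) + 1 / (2 ^ (2 * r - 1) - 1)) ≤ 1 / w r := by
  by_cases h5 : r < 5
  · interval_cases r <;> norm_num [w]
  obtain ⟨h1, -⟩ := pow_big r (by omega)
  rw [w_big r (by omega), w_big (2 * r) (by omega)]
  have e1 : (2 : ℝ) ^ (2 * r) = (2 ^ r) ^ 2 := by ring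
  have e2 : (2 : ℝ) ^ (2 * r - 1) = (2 ^ r) ^ 2 / 2 := by
    rw [← e1, show 2 * r = (2 * r - 1) + 1 by omega, pow_succ]
    simp
  have e3 : (2 : ℝ) ^ (2 * r + 2) = 4 * (2 ^ r) ^ 2 := by ring
  have e4 : (2 : ℝ) ^ (r + 2) = 4 * 2 ^ r := by ring
  rw [e1, e2, e3, e4]
  generalize (2 : ℝ) ^ r = t at h1
  have ht : 0 < t := by linarith
  have h2 : 1024 ≤ t ^ 2 := by nlinarith
  have a1 : 1 / (t ^ 2 - 1) ≤ 1.01 / t ^ 2 := by
    rw [div_le_div_iff₀ (by linarith) (by positivity)]; linarith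
  have a2 : 1 / (t ^ 2 / 2 - 1) ≤ 2.02 / t ^ 2 := by
    rw [div_le_div_iff₀ (by linarith) (by positivity)]; linarith
  have a3 : 1 / t ^ 2 ≤ 1 / 1024 := one_div_le_one_div_of_le (by norm_num) h2
  have a4 : 1 / t ^ 2 ≤ 1 / 32 * (1 / t) := by
    rw [div_mul_div_comm, div_le_div_iff₀ (by positivity) (by positivity)]; nlinarith
  have a5 : (1.01 : ℝ) / t ^ 2 = 1.01 * (1 / t ^ 2) := by ring
  have a6 : (2.02 : ℝ) / t ^ 2 = 2.02 * (1 / t ^ 2) := by ring
  have a7 : 1 / (4 * t ^ 2) = 1 / 4 * (1 / t ^ 2) := by field_simp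
  have a8 : 1 / (4 * t) = 1 / 4 * (1 / t) := by field_simp
  have a9 : 0 ≤ 1 / t ^ 2 := by positivity
  rw [a7, a8]
  have b1 : 1 + 1 / (t ^ 2 - 1) + 1 / (t ^ 2 / 2 - 1) ≤ 2 := by linarith
  have b2 := mul_le_mul_of_nonneg_left b1 a9
  linarith

lemma num_odd (r : ℕ) (h : 2 ≤ r) :
    (1 / (2 ^ (2 * r) - 1) + 1 / (2 ^ (2 * r + 1) - 1)) * (1 + 2 * w r) +
      1 / w (2 * r + 1) * (1 + 1 / (2 ^ (2 * r) - 1) + 1 / (2 ^ (2 * r + 1) - 1)) *
        ((r + 2) + 2 * w r) ≤ 1 := by
  by_cases h5 : r < 5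
  · interval_cases r <;> norm_num [w]
  obtain ⟨h1, h1'⟩ := pow_big r (by omega)
  rw [w_big r (by omega), w_big (2 * r + 1) (by omega)]
  have e1 : (2 : ℝ) ^ (2 * r) = (2 ^ r) ^ 2 := by ring
  have e2 : (2 : ℝ) ^ (2 * r + 1) = 2 * (2 ^ r) ^ 2 := by ring
  have e3 : (2 : ℝ) ^ (2 * r + 1 + 2) = 8 * (2 ^ r) ^ 2 := by ring
  have e4 : (2 : ℝ) ^ (r + 2) = 4 * 2 ^ r := by ring
  rw [e1, e2, e3, e4]
  have hr := Nat.cast_nonneg (α := ℝ) r
  generalize (2 : ℝ) ^ r = t at h1 h1'
  have ht : 0 < t := by linarith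
  have h2 : 1024 ≤ t ^ 2 := by nlinarith
  have a1 : 1 / (t ^ 2 - 1) ≤ 1.01 / t ^ 2 := by
    rw [div_le_div_iff₀ (by linarith) (by positivity)]; linarith
  have a2 : 1 / (2 * t ^ 2 - 1) ≤ 0.51 / t ^ 2 := by
    rw [div_le_div_iff₀ (by linarith) (by positivity)]; linarith
  have a3 : 1 / t ^ 2 ≤ 1 / 1024 := one_div_le_one_div_of_le (by norm_num) h2
  have a4 : 1 / t ^ 2 * t ≤ 1 / 32 := by
    rw [div_mul_eq_mul_div, div_le_div_iff₀ (by positivity) (by positivity)]; nlinarith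
  have a5 : (1.01 : ℝ) / t ^ 2 = 1.01 * (1 / t ^ 2) := by ring
  have a6 : (0.51 : ℝ) / t ^ 2 = 0.51 * (1 / t ^ 2) := by ring
  have a7 : 1 / (8 * t ^ 2) = 1 / 8 * (1 / t ^ 2) := by field_simp
  have a9 : 0 ≤ 1 / t ^ 2 := by positivity
  rw [a7]
  have b1 : 1 + 1 / (t ^ 2 - 1) + 1 / (2 * t ^ 2 - 1) ≤ 2 := by linarith
  have b2 : (1 / (t ^ 2 - 1) + 1 / (2 * t ^ 2 - 1)) * (1 + 2 * (4 * t)) ≤
      1.52 * (1 / t ^ 2) * (9 * t) :=
    mul_le_mul (by linarith) (by linarith) (by positivity) (by positivity)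
  have b3 : 1 / 8 * (1 / t ^ 2) * (1 + 1 / (t ^ 2 - 1) + 1 / (2 * t ^ 2 - 1)) *
      (r + 2 + 2 * (4 * t)) ≤ 1 / 8 * (1 / t ^ 2) * 2 * (9 * t) :=
    mul_le_mul (mul_le_mul_of_nonneg_left b1 (by positivity)) (by linarith) (by positivity)
      (by positivity)
  linarith

lemma le_inv_mul {x y z : ℝ} (hz : 0 < z) (h : z * x ≤ y) : x ≤ 1 / z * y := by
  rw [one_div, ← div_eq_inv_mul, le_div_iff₀ hz]; linarith

lemma TP : ∀ n k, 1 ≤ k → 1 / w k * (d n k * c (n + 1) (k + 1)) ≤
    d n (k + 1) * c (n + 1) k - d n k * c (n + 1) (k + 1) := by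
  refine half_ind' _ ?_ ?_
  · intro k hk
    rw [c_gt (0 + 1) (k + 1) (by omega), d_gt 0 (k + 1) (by omega)]; simp
  intro s t ht h hs k hk
  have hn := Nat.cast_nonneg (α := ℝ) (s + t)
  by_cases h1 : k = 1
  · subst h1
    simp only [Nat.reduceAdd, d_k1, d_k2, c_k1, c_k2, w]
    generalize s + t = n
    push_cast; norm_num; nlinarith
  by_cases h2 : k = 2
  · subst h2
    simp only [Nat.reduceAdd, d_k3, d_k2, c_k3, c_k2, w]
    generalize s + t = n
    push_cast; norm_num; nlinarith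
  by_cases h3 : k = 3
  · subst h3
    have e1 := mul_le_mul_of_nonneg_left (T3 (s + t)) (d_nonneg (s + t) 3)
    simp only [Nat.reduceAdd, d_k3, c_k3, w] at e1 ⊢
    generalize s + t = n at e1 ⊢
    push_cast; norm_num; nlinarith
  have hts : t ≤ s + 1 := by omega
  have hst : s ≤ t := by omega
  have hcase : ∀ i j l m, (c (s + 1) i = c t i ∧ c (s + 1) j = c t j ∧ c (s + 1) l = c t l ∧
      c (s + 1) m = c t m) ∨ (c (s + 1) i = c t i + d s i ∧ c (s + 1) j = c t j + d s j ∧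
      c (s + 1) l = c t l + d s l ∧ c (s + 1) m = c t m + d s m) := by
    intro i j l m
    rcases h with rfl | rfl
    · right; simp [d]
    · left; simp
  have hK2 : ∀ i, (2 ^ i - 1) * d s (i + 1) ≤ B (i + 1) (d s) (c t) := fun i =>
    (K2 s i).trans (B_mono _ (d_nonneg s) (c_nonneg s) (fun _ => le_rfl) (c_mono hst))
  have hY : ∀ l, 3 ≤ l → (2 ^ l - 2) * c t l ≤ B l (c t) (c t) := by
    intro l hl
    have := K3' t t l (Or.inl rfl) hl
    rw [c_rec t t l (Or.inl rfl)] at this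
    linarith
  have hX : ∀ l, 3 ≤ l → (2 ^ l - 2) * c (s + 1) l ≤ B l (c (s + 1)) (c t) := by
    intro l hl
    have := K3' t (s + 1) l (by omega) hl
    rw [show t + (s + 1) = s + t + 1 by ring, c_rec' s t l h] at this
    have := c_mono hts l
    linarith
  rw [d_rec s t _ h, d_rec s t _ h, c_rec' s t _ h, c_rec' s t _ h]
  obtain ⟨r, rfl | rfl⟩ := Nat.even_or_odd' k
  · have p1 : (0 : ℝ) < 2 ^ (2 * r) - 1 := by
      have : (1 : ℝ) < 2 ^ (2 * r) := one_lt_pow₀ (by norm_num) (by omega)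
      linarith
    have p2 : (0 : ℝ) < 2 ^ (2 * r - 1) - 1 := by
      have : (1 : ℝ) < 2 ^ (2 * r - 1) := one_lt_pow₀ (by norm_num) (by omega)
      linarith
    have F3 := hK2 (2 * r - 1)
    rw [show 2 * r - 1 + 1 = 2 * r by omega, B_even] at F3
    have F4 := hY (2 * r + 1) (by omega)
    have F5 := hX (2 * r + 1) (by omega)
    rw [B_odd, pow_succ] at F4 F5
    rw [B_even, B_even, B_odd, B_odd]
    exact alg_even _ _ _ _ _ _ _ _ _ _ _ _ (1 / (2 ^ (2 * r) - 1)) (1 / (2 ^ (2 * r - 1) - 1))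
      (1 / w r) _ (c_nonneg _ _) (c_nonneg _ _) (d_nonneg _ _) (d_nonneg _ _) (d_nonneg _ _)
      (d_nonneg _ _) (c_nonneg _ _) (c_mono hts _) (c_mono hts _) (by positivity)
      (one_div_pos.2 (w_pos _)).le (hcase _ _ _ _) (hs r (by omega)) (one_div_pos.2 (w_pos _)).le
      (hs _ hk) (le_inv_mul p2 F3) (le_inv_mul p1 (by linarith)) (le_inv_mul p1 (by linarith))
      (num_even r (by omega))
  · have p1 : (0 : ℝ) < 2 ^ (2 * r) - 1 := by
      have : (1 : ℝ) < 2 ^ (2 * r) := one_lt_pow₀ (by norm_num) (by omega)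
      linarith
    have p2 : (0 : ℝ) < 2 ^ (2 * r + 1) - 1 := by
      have : (1 : ℝ) < 2 ^ (2 * r + 1) := one_lt_pow₀ (by norm_num) (by omega)
      linarith
    have F3 := hK2 (2 * r)
    rw [B_odd] at F3
    have F4 := hY (2 * r + 1 + 1) (by omega)
    have F5 := hX (2 * r + 1 + 1) (by omega)
    have hB : ∀ u v, B (2 * r + 1 + 1) u v = u (r + 1) * v (r + 1) := fun u v => by
      rw [show 2 * r + 1 + 1 = 2 * (r + 1) by ring, B_even]
    rw [hB, pow_succ] at F4 F5
    have F1 : d s r * c (s + 1) (r + 1) ≤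
        w r * (d s (r + 1) * c (s + 1) r - d s r * c (s + 1) (r + 1)) := by
      have := mul_le_mul_of_nonneg_left (hs r (by omega)) (w_pos r).le
      rwa [← mul_assoc, mul_one_div_cancel (w_pos r).ne', one_mul] at this
    have F6 : c t (r + 1) * c (s + 1) (r + 1) ≤ (r + 2) * (c t (r + 1) * c t (r + 1)) := by
      have hr := Nat.cast_nonneg (α := ℝ) r
      have hc := mul_nonneg (c_nonneg t (r + 1)) (c_nonneg t (r + 1))
      rcases h with rfl | rfl
      · by_cases hh : r + 1 ≤ t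
        · have e1 := Cb t (r + 1) (by omega) hh
          have e2 := mul_le_mul_of_nonneg_left e1 (c_nonneg t (r + 1))
          unfold d at e2
          push_cast at e2
          linarith
        · rw [c_gt t _ (by omega)]; simp
      · nlinarith
    rw [hB, hB, B_odd, B_odd]
    exact alg_odd _ _ _ _ _ _ _ _ _ _ _ _ (1 / (2 ^ (2 * r) - 1)) (1 / (2 ^ (2 * r + 1) - 1))
      (w r) _ (r + 2) (c_nonneg _ _) (c_nonneg _ _) (d_nonneg _ _) (d_nonneg _ _) (d_nonneg _ _)
      (d_nonneg _ _) (c_nonneg _ _) (c_mono hts _) (c_mono hts _) (by positivity) (by positivity)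
      (one_div_pos.2 (w_pos _)).le (w_pos _) (hcase _ _ _ _) F1
      (hs _ hk) (le_inv_mul p1 F3) (le_inv_mul p2 (by linarith)) (le_inv_mul p2 (by linarith)) F6
      (num_odd r (by omega))

lemma tp1 (n k : ℕ) (hk : 1 ≤ k) : c n (k + 1) * c (n + 1) k ≤ c (n + 1) (k + 1) * c n k := by
  have h1 := TP n k hk
  have h2 : 0 ≤ 1 / w k * (d n k * c (n + 1) (k + 1)) :=
    mul_nonneg (one_div_pos.2 (w_pos _)).le (mul_nonneg (d_nonneg _ _) (c_nonneg _ _))
  unfold d at h1 h2
  nlinarith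

lemma c_pos_of {a b i j : ℕ} (h : c a i ≠ 0) (hab : a ≤ b) (hj : 1 ≤ j) (hji : j ≤ i) :
    0 < c b j := by
  have : i ≤ a := by
    by_contra hh
    exact h (c_gt a i (by omega))
  linarith [c_ge_one b j hj (by omega)]

lemma tp2 (n j : ℕ) (hj : 1 ≤ j) (i : ℕ) (hi : j ≤ i) :
    c n i * c (n + 1) j ≤ c (n + 1) i * c n j := by
  induction i, hi using Nat.le_induction with
  | base => linarith
  | succ i hi ih =>
    by_cases h0 : c n (i + 1) = 0
    · rw [h0, zero_mul]; exact mul_nonneg (c_nonneg _ _) (c_nonneg _ _)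
    have p1 : 0 < c n i := c_pos_of h0 le_rfl (by omega) (by omega)
    have p2 : 0 < c (n + 1) i := c_pos_of h0 (by omega) (by omega) (by omega)
    have e := mul_le_mul (tp1 n i (by omega)) ih (mul_nonneg (c_nonneg _ _) (c_nonneg _ _))
      (mul_nonneg (c_nonneg _ _) (c_nonneg _ _))
    refine le_of_mul_le_mul_right ?_ (mul_pos p1 p2)
    linarith

lemma tp (a b i j : ℕ) (hab : a ≤ b) (hji : j ≤ i) : c a i * c b j ≤ c b i * c a j := by
  rcases Nat.eq_zero_or_pos j with rfl | hj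
  · simp [c_k0]
  induction b, hab using Nat.le_induction with
  | base => exact le_rfl
  | succ b hb ih =>
    by_cases h0 : c a i = 0
    · rw [h0, zero_mul]; exact mul_nonneg (c_nonneg _ _) (c_nonneg _ _)
    have p1 : 0 < c b i := c_pos_of h0 hb (by omega) le_rfl
    have p2 : 0 < c b j := c_pos_of h0 hb hj hji
    have e := mul_le_mul ih (tp2 b j hj i hji) (mul_nonneg (c_nonneg _ _) (c_nonneg _ _))
      (mul_nonneg (c_nonneg _ _) (c_nonneg _ _))
    refine le_of_mul_le_mul_right ?_ (mul_pos p1 p2)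
    linarith

lemma core (k : ℕ) (x1 x2 y1 y2 : ℕ → ℝ) (hx0 : x1 0 = 0 ∧ x2 0 = 0 ∧ y1 0 = 0 ∧ y2 0 = 0)
    (m1 : ∀ i, 0 ≤ y1 i - x1 i) (m2 : ∀ i, 0 ≤ y2 i - x2 i)
    (t1 : ∀ i j, j ≤ i → 0 ≤ y1 i * x1 j - x1 i * y1 j)
    (t2 : ∀ i j, j ≤ i → 0 ≤ y2 i * x2 j - x2 i * y2 j) :
    B k x1 x2 + B k y1 y2 +
      B k (fun j => x1 j + x2 j + B j x1 x2) (fun j => y1 j + y2 j + B j y1 y2) ≤
    B k x1 y2 + B k x2 y1 +
      B k (fun j => x1 j + y2 j + B j x1 y2) (fun j => x2 j + y1 j + B j x2 y1) := by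
  obtain ⟨p, rfl | rfl⟩ := Nat.even_or_odd' k
  · simp only [B_even]
    obtain ⟨r, rfl | rfl⟩ := Nat.even_or_odd' p
    · simp only [B_even]
      have e1 := mul_nonneg (m2 r) (t1 (2 * r) r (by omega))
      have e2 := mul_nonneg (m1 r) (t2 (2 * r) r (by omega))
      linarith
    · simp only [B_odd]
      have e1 := mul_nonneg (m2 r) (t1 (2 * r + 1) (r + 1) (by omega))
      have e2 := mul_nonneg (m2 (r + 1)) (t1 (2 * r + 1) r (by omega))
      have e3 := mul_nonneg (m1 r) (t2 (2 * r + 1) (r + 1) (by omega))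
      have e4 := mul_nonneg (m1 (r + 1)) (t2 (2 * r + 1) r (by omega))
      have e5 := mul_nonneg (t1 (r + 1) r (by omega)) (t2 (r + 1) r (by omega))
      linarith
  · simp only [B_odd]
    obtain ⟨r, rfl | rfl⟩ := Nat.even_or_odd' p
    · simp only [B_even, B_odd]
      rcases Nat.eq_zero_or_pos r with rfl | hr
      · simp [hx0.1, hx0.2.1, hx0.2.2.1, hx0.2.2.2]
      have e1 := mul_nonneg (m2 r) (t1 (2 * r) (r + 1) (by omega))
      have e2 := mul_nonneg (m2 (r + 1)) (t1 (2 * r) r (by omega))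
      have e3 := mul_nonneg (m1 r) (t2 (2 * r) (r + 1) (by omega))
      have e4 := mul_nonneg (m1 (r + 1)) (t2 (2 * r) r (by omega))
      have e5 := mul_nonneg (m2 r) (t1 (2 * r + 1) r (by omega))
      have e6 := mul_nonneg (m1 r) (t2 (2 * r + 1) r (by omega))
      linarith
    · have hB : ∀ u v, B (2 * r + 1 + 1) u v = u (r + 1) * v (r + 1) := fun u v => by
        rw [show 2 * r + 1 + 1 = 2 * (r + 1) by ring, B_even]
      simp only [hB, B_odd]
      have e1 := mul_nonneg (m2 r) (t1 (2 * r + 1 + 1) (r + 1) (by omega))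
      have e2 := mul_nonneg (m2 (r + 1)) (t1 (2 * r + 1 + 1) r (by omega))
      have e3 := mul_nonneg (m1 r) (t2 (2 * r + 1 + 1) (r + 1) (by omega))
      have e4 := mul_nonneg (m1 (r + 1)) (t2 (2 * r + 1 + 1) r (by omega))
      have e5 := mul_nonneg (m2 (r + 1)) (t1 (2 * r + 1) (r + 1) (by omega))
      have e6 := mul_nonneg (m1 (r + 1)) (t2 (2 * r + 1) (r + 1) (by omega))
      linarith

theorem main_ineq : ∀ n a b, a + b = n → ∀ k, c a k + c b k + B k (c a) (c b) ≤ c (a + b) k := by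
  intro n
  induction n using Nat.strong_induction_on with
  | _ n ih =>
    have key : ∀ a b, a ≤ b → a + b = n → ∀ k, c a k + c b k + B k (c a) (c b) ≤ c (a + b) k := by
      intro a b hab hn k
      rcases Nat.eq_zero_or_pos a with rfl | ha
      · simp [c_zero, B_zero]
      obtain ⟨a1, a2, ha12, rfl⟩ : ∃ a1 a2, (a2 = a1 ∨ a2 = a1 + 1) ∧ a = a1 + a2 :=
        ⟨a / 2, (a + 1) / 2, by omega, by omega⟩
      obtain ⟨b1, b2, hb12, rfl⟩ : ∃ b1 b2, (b2 = b1 ∨ b2 = b1 + 1) ∧ b = b1 + b2 :=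
        ⟨b / 2, (b + 1) / 2, by omega, by omega⟩
      have h1 : a1 ≤ b1 := by omega
      have h2 : a2 ≤ b2 := by omega
      have i1 := ih (a1 + b2) (by omega) a1 b2 rfl
      have i2 := ih (a2 + b1) (by omega) a2 b1 rfl
      have e1 : c (a1 + a2) = fun j => c a1 j + c a2 j + B j (c a1) (c a2) :=
        funext fun j => c_rec _ _ j ha12
      have e2 : c (b1 + b2) = fun j => c b1 j + c b2 j + B j (c b1) (c b2) :=
        funext fun j => c_rec _ _ j hb12
      have e3 := core k (c a1) (c a2) (c b1) (c b2) ⟨c_k0 _, c_k0 _, c_k0 _, c_k0 _⟩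
        (fun i => sub_nonneg.2 (c_mono h1 i)) (fun i => sub_nonneg.2 (c_mono h2 i))
        (fun i j hij => sub_nonneg.2 (tp _ _ i j h1 hij))
        (fun i j hij => sub_nonneg.2 (tp _ _ i j h2 hij))
      have e4 := B_mono k (u := fun j => c a1 j + c b2 j + B j (c a1) (c b2))
        (v := fun j => c a2 j + c b1 j + B j (c a2) (c b1))
        (fun j => add_nonneg (add_nonneg (c_nonneg _ _) (c_nonneg _ _))
          (B_nonneg _ (c_nonneg _) (c_nonneg _)))
        (fun j => add_nonneg (add_nonneg (c_nonneg _ _) (c_nonneg _ _))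
          (B_nonneg _ (c_nonneg _) (c_nonneg _))) i1 i2
      rw [show a1 + a2 + (b1 + b2) = (a1 + b2) + (a2 + b1) by ring,
        c_bal (a1 + b2) (a2 + b1) k (by omega) (by omega), e1, e2]
      have := i1 k
      have := i2 k
      linarith
    intro a b hn k
    rcases le_total a b with h | h
    · exact key a b h hn k
    · have := key b a h (by omega) k
      rw [B_comm, add_comm a b]
      linarith

end Pool.Agent.H11.EvenIneq
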