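import Mathlib
import Pool.Agent.H11.EvenIneq

set_option autoImplicit false

namespace Pool.Agent.H11.EvenTree

open Finset Pool.Agent.H11.EvenIneq

inductive Tr (α : Type) where
  | leaf (a : α) : Tr α
  | node (l r : Tr α) : Tr α

variable {α β : Type} [DecidableEq α] [DecidableEq β]

def leaves : Tr α → Finset α
  | .leaf a => {a}
  | .node l r => leaves l ∪ leaves r

def cl : Tr α → Finset (Finset α)
  | .leaf a => {{a}}
  | .node l r => insert (leaves l ∪ leaves r) (cl l ∪ cl r)

def WF : Tr α → Prop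
  | .leaf _ => True
  | .node l r => WF l ∧ WF r ∧ Disjoint (leaves l) (leaves r)

def ev : Tr α → Finset α → Prop
  | .leaf _, _ => True
  | .node l r, L => ev l L ∧ ev r L ∧ ((leaves l ∩ L).Nonempty → (leaves r ∩ L).Nonempty →
      (leaves l ∩ L).card ≤ (leaves r ∩ L).card + 1 ∧ (leaves r ∩ L).card ≤ (leaves l ∩ L).card + 1)

def bal : Tr α → Prop
  | .leaf _ => True
  | .node l r => bal l ∧ bal r ∧
      (leaves l).card ≤ (leaves r).card + 1 ∧ (leaves r).card ≤ (leaves l).card + 1

def tr (t : Tr α) (L G : Finset α) : Prop := G.Nonempty ∧ ∃ A ∈ cl t, G = A ∩ L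

def EvFam (P : Finset α → Prop) : Prop :=
  ∀ A B, P A → P B → B ⊂ A → (∀ D, P D → B ⊆ D → D ⊆ A → D = B ∨ D = A) →
    A.card ≤ 2 * B.card + 1 ∧ 2 * B.card ≤ A.card + 1

lemma leaves_nonempty (t : Tr α) : (leaves t).Nonempty := by
  induction t with
  | leaf a => simp [leaves]
  | node l r hl _ => exact hl.mono subset_union_left

lemma leaves_mem (t : Tr α) : leaves t ∈ cl t := by
  cases t <;> simp [leaves, cl]

lemma cl_sub (t : Tr α) : ∀ A ∈ cl t, A ⊆ leaves t ∧ A.Nonempty := by
  induction t with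
  | leaf a => intro A hA; simp [cl] at hA; simp [hA, leaves]
  | node l r hl hr =>
    intro A hA
    simp only [cl, mem_insert, mem_union] at hA
    rcases hA with rfl | hA | hA
    · exact ⟨Subset.rfl, (leaves_nonempty l).mono subset_union_left⟩
    · exact ⟨(hl A hA).1.trans subset_union_left, (hl A hA).2⟩
    · exact ⟨(hr A hA).1.trans subset_union_right, (hr A hA).2⟩

lemma exists_tree (T : Finset (Finset α)) (hne : ∀ A ∈ T, A.Nonempty)
    (hlam : ∀ A ∈ T, ∀ B ∈ T, A ⊆ B ∨ B ⊆ A ∨ Disjoint A B)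
    (hsp : ∀ A ∈ T, 2 ≤ A.card → ∃ B ∈ T, ∃ D ∈ T, Disjoint B D ∧ B ∪ D = A) :
    ∀ m, ∀ A ∈ T, A.card = m → ∃ t : Tr α, WF t ∧ leaves t = A ∧
      ∀ G, G ∈ cl t ↔ G ∈ T ∧ G ⊆ A := by
  intro m
  induction m using Nat.strong_induction_on with
  | _ m ih =>
    intro A hA hm
    by_cases h2 : 2 ≤ A.card
    · obtain ⟨B, hB, D, hD, hdis, rfl⟩ := hsp A hA h2
      have hc := card_union_of_disjoint hdis
      have hBp := (hne B hB).card_pos
      have hDp := (hne D hD).card_pos
      obtain ⟨l, wl, ll, cll⟩ := ih B.card (by omega) B hB rfl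
      obtain ⟨r, wr, lr, clr⟩ := ih D.card (by omega) D hD rfl
      refine ⟨.node l r, ⟨wl, wr, by rw [ll, lr]; exact hdis⟩, by simp [leaves, ll, lr], ?_⟩
      intro G
      simp only [cl, mem_insert, mem_union, cll, clr, ll, lr]
      constructor
      · rintro (rfl | h | h)
        · exact ⟨hA, Subset.rfl⟩
        · exact ⟨h.1, h.2.trans subset_union_left⟩
        · exact ⟨h.1, h.2.trans subset_union_right⟩
      · rintro ⟨hG, hsub⟩
        have k1 : Disjoint G B → G ⊆ D := fun h x hx =>
          (mem_union.1 (hsub hx)).resolve_left (disjoint_left.1 h hx)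
        have k2 : Disjoint G D → G ⊆ B := fun h x hx =>
          (mem_union.1 (hsub hx)).resolve_right (disjoint_left.1 h hx)
        rcases hlam G hG B hB with h | h | h
        · exact Or.inr (Or.inl ⟨hG, h⟩)
        · rcases hlam G hG D hD with h' | h' | h'
          · exact Or.inr (Or.inr ⟨hG, h'⟩)
          · exact Or.inl (Subset.antisymm hsub (union_subset h h'))
          · exact Or.inr (Or.inl ⟨hG, k2 h'⟩)
        · exact Or.inr (Or.inr ⟨hG, k1 h⟩)
    · have hp := (hne A hA).card_pos
      obtain ⟨a, rfl⟩ := card_eq_one.1 (show A.card = 1 by omega)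
      refine ⟨.leaf a, trivial, rfl, fun G => ?_⟩
      simp only [cl, mem_singleton]
      constructor
      · rintro rfl; exact ⟨hA, Subset.rfl⟩
      · rintro ⟨hG, hsub⟩
        exact (hne G hG).subset_singleton_iff.1 hsub

lemma tr_sub {t : Tr α} {L G : Finset α} (h : tr t L G) : G ⊆ leaves t ∩ L := by
  obtain ⟨-, A, hA, rfl⟩ := h
  exact inter_subset_inter_right (cl_sub t A hA).1

lemma tr_top {t : Tr α} {L : Finset α} (h : (leaves t ∩ L).Nonempty) : tr t L (leaves t ∩ L) :=
  ⟨h, _, leaves_mem t, rfl⟩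

lemma tr_node (l r : Tr α) (L G : Finset α) : tr (.node l r) L G ↔
    (G.Nonempty ∧ G = (leaves l ∪ leaves r) ∩ L) ∨ tr l L G ∨ tr r L G := by
  simp only [tr, cl, mem_insert, mem_union]
  constructor
  · rintro ⟨h, A, rfl | hA | hA, rfl⟩
    · exact Or.inl ⟨h, rfl⟩
    · exact Or.inr (Or.inl ⟨h, A, hA, rfl⟩)
    · exact Or.inr (Or.inr ⟨h, A, hA, rfl⟩)
  · rintro (⟨h, rfl⟩ | ⟨h, A, hA, rfl⟩ | ⟨h, A, hA, rfl⟩)
    · exact ⟨h, _, Or.inl rfl, rfl⟩
    · exact ⟨h, A, Or.inr (Or.inl hA), rfl⟩
    · exact ⟨h, A, Or.inr (Or.inr hA), rfl⟩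

lemma not_both {l r : Tr α} (hd : Disjoint (leaves l) (leaves r)) {L B D : Finset α}
    (hB : B.Nonempty) (h1 : B ⊆ leaves l ∩ L) (h2 : tr r L D) (h3 : B ⊆ D) : False := by
  obtain ⟨x, hx⟩ := hB
  exact disjoint_left.1 hd (mem_inter.1 (h1 hx)).1 (mem_inter.1 (tr_sub h2 (h3 hx))).1

lemma card_split {l r : Tr α} (hd : Disjoint (leaves l) (leaves r)) (L : Finset α) :
    ((leaves l ∪ leaves r) ∩ L).card = (leaves l ∩ L).card + (leaves r ∩ L).card := by
  rw [union_inter_distrib_right, card_union_of_disjoint]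
  exact hd.mono inter_subset_left inter_subset_left

lemma ev_of_fam (L : Finset α) (t : Tr α) (hw : WF t) (h : EvFam (tr t L)) : ev t L := by
  induction t with
  | leaf a => trivial
  | node l r hl hr =>
    obtain ⟨wl, wr, hd⟩ := hw
    refine ⟨hl wl ?_, hr wr ?_, fun h1 h2 => ?_⟩
    · intro A B hA hB hBA hbt
      refine h A B ((tr_node _ _ _ _).2 (Or.inr (Or.inl hA)))
        ((tr_node _ _ _ _).2 (Or.inr (Or.inl hB))) hBA (fun D hD k1 k2 => ?_)
      rcases (tr_node _ _ _ _).1 hD with ⟨-, rfl⟩ | hD | hD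
      · exact Or.inr (Subset.antisymm k2
          ((tr_sub hA).trans (inter_subset_inter_right subset_union_left)))
      · exact hbt D hD k1 k2
      · exact (not_both hd hB.1 (tr_sub hB) hD k1).elim
    · intro A B hA hB hBA hbt
      refine h A B ((tr_node _ _ _ _).2 (Or.inr (Or.inr hA)))
        ((tr_node _ _ _ _).2 (Or.inr (Or.inr hB))) hBA (fun D hD k1 k2 => ?_)
      rcases (tr_node _ _ _ _).1 hD with ⟨-, rfl⟩ | hD | hD
      · exact Or.inr (Subset.antisymm k2
          ((tr_sub hA).trans (inter_subset_inter_right subset_union_right)))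
      · exact (not_both hd.symm hB.1 (tr_sub hB) hD k1).elim
      · exact hbt D hD k1 k2
    · have hs : leaves l ∩ L ⊆ (leaves l ∪ leaves r) ∩ L :=
        inter_subset_inter_right subset_union_left
      have hc := card_split hd L
      have hp := h2.card_pos
      have := h ((leaves l ∪ leaves r) ∩ L) (leaves l ∩ L)
        ((tr_node _ _ _ _).2 (Or.inl ⟨h1.mono hs, rfl⟩))
        ((tr_node _ _ _ _).2 (Or.inr (Or.inl (tr_top h1))))
        (ssubset_of_subset_of_ne hs (fun e => by rw [← e] at hc; omega))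
        (fun D hD k1 k2 => by
          rcases (tr_node _ _ _ _).1 hD with ⟨-, rfl⟩ | hD | hD
          · exact Or.inr rfl
          · exact Or.inl (Subset.antisymm (tr_sub hD) k1)
          · exact (not_both hd h1 Subset.rfl hD k1).elim)
      omega

lemma bal_of_ev (U : Finset α) (t : Tr α) (hU : leaves t ⊆ U) (h : ev t U) : bal t := by
  induction t with
  | leaf a => trivial
  | node l r hl hr =>
    have h1 : leaves l ⊆ U := subset_union_left.trans hU
    have h2 : leaves r ⊆ U := subset_union_right.trans hU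
    obtain ⟨e1, e2, e3⟩ := h
    rw [inter_eq_left.2 h1, inter_eq_left.2 h2] at e3
    exact ⟨hl h1 e1, hr h2 e2, e3 (leaves_nonempty l) (leaves_nonempty r)⟩

def Iso (t : Tr α) (L : Finset α) (p : Tr β) (f : β → α) : Prop :=
  Set.InjOn f (leaves p) ∧ (leaves p).image f = leaves t ∩ L ∧
    ∀ G, tr t L G ↔ ∃ B ∈ cl p, B.image f = G

lemma iso_glue {l r : Tr α} (hd : Disjoint (leaves l) (leaves r)) {L : Finset α} {p q : Tr β}
    (hpq : Disjoint (leaves p) (leaves q)) {f g : β → α} (hf : Iso l L p f) (hg : Iso r L q g) :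
    ∃ h : β → α, Set.InjOn h (leaves p ∪ leaves q : Finset β) ∧
      (leaves p ∪ leaves q).image h = (leaves l ∪ leaves r) ∩ L ∧
      (∀ G, tr l L G ↔ ∃ B ∈ cl p, B.image h = G) ∧ (∀ G, tr r L G ↔ ∃ B ∈ cl q, B.image h = G) := by
  let h : β → α := fun x => if x ∈ leaves p then f x else g x
  have h1 : ∀ B, B ⊆ leaves p → B.image h = B.image f := fun B hB =>
    image_congr (fun x hx => by simp [h, hB hx])
  have h2 : ∀ B, B ⊆ leaves q → B.image h = B.image g := fun B hB =>
    image_congr (fun x hx => by simp [h, disjoint_right.1 hpq (hB hx)])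
  have him : (leaves p ∪ leaves q).image h = (leaves l ∪ leaves r) ∩ L := by
    rw [image_union, h1 _ Subset.rfl, h2 _ Subset.rfl, hf.2.1, hg.2.1, union_inter_distrib_right]
  refine ⟨h, ?_, him, fun G => ?_, fun G => ?_⟩
  · rw [← card_image_iff, him, card_split hd, card_union_of_disjoint hpq, ← hf.2.1, ← hg.2.1,
      card_image_of_injOn hf.1, card_image_of_injOn hg.1]
  · rw [hf.2.2]
    exact exists_congr fun B => and_congr_right fun hB => by rw [h1 B (cl_sub p B hB).1]
  · rw [hg.2.2]
    exact exists_congr fun B => and_congr_right fun hB => by rw [h2 B (cl_sub q B hB).1]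

lemma exists_iso (L : Finset α) (t : Tr α) (hw : WF t) (he : ev t L) :
    ∀ p : Tr β, WF p → bal p → (leaves t ∩ L).card = (leaves p).card → ∃ f, Iso t L p f := by
  induction t with
  | leaf a =>
    intro p wp _ hc
    have hp := (leaves_nonempty p).card_pos
    have hle : (leaves (Tr.leaf a) ∩ L).card ≤ 1 := (card_le_card inter_subset_left).trans (by
      simp [leaves])
    have haL : leaves (Tr.leaf a) ∩ L = {a} :=
      eq_of_subset_of_card_le inter_subset_left (by simp only [card_singleton]; omega)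
    cases p with
    | leaf b =>
      refine ⟨fun _ => a, ?_, by rw [haL]; simp [leaves], fun G => ?_⟩
      · simp [leaves]
      · simp only [tr, cl, mem_singleton, exists_eq_left, image_singleton]
        have : ({a} : Finset α) ∩ L = {a} := haL
        rw [this]
        constructor
        · rintro ⟨-, rfl⟩; rfl
        · rintro rfl; exact ⟨by simp, rfl⟩
    | node p q =>
      exfalso
      have h1 := (leaves_nonempty p).card_pos
      have h2 := (leaves_nonempty q).card_pos
      have h3 : (leaves (Tr.node p q)).card = _ := card_union_of_disjoint wp.2.2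
      omega
  | node l r hl hr =>
    intro p wp bp hc
    obtain ⟨wl, wr, hd⟩ := hw
    obtain ⟨el, er, eb⟩ := he
    have hcs : (leaves (Tr.node l r) ∩ L).card = _ := card_split hd L
    by_cases h2 : (leaves r ∩ L).Nonempty
    swap
    · have h2' := not_nonempty_iff_eq_empty.1 h2
      have e : leaves (Tr.node l r) ∩ L = leaves l ∩ L := by
        show (leaves l ∪ leaves r) ∩ L = _
        rw [union_inter_distrib_right, h2', union_empty]
      obtain ⟨f, f1, f2, f3⟩ := hl wl el p wp bp (by rw [← e, hc])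
      refine ⟨f, f1, by rw [e, f2], fun G => ?_⟩
      rw [← f3, tr_node]
      constructor
      · rintro (⟨h, rfl⟩ | h | h)
        · have e' : (leaves l ∪ leaves r) ∩ L = leaves l ∩ L := e
          rw [e'] at h ⊢
          exact tr_top h
        · exact h
        · exact (h2 (h.1.mono (tr_sub h))).elim
      · exact fun h => Or.inr (Or.inl h)
    by_cases h1 : (leaves l ∩ L).Nonempty
    swap
    · have h1' := not_nonempty_iff_eq_empty.1 h1
      have e : leaves (Tr.node l r) ∩ L = leaves r ∩ L := by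
        show (leaves l ∪ leaves r) ∩ L = _
        rw [union_inter_distrib_right, h1', empty_union]
      obtain ⟨f, f1, f2, f3⟩ := hr wr er p wp bp (by rw [← e, hc])
      refine ⟨f, f1, by rw [e, f2], fun G => ?_⟩
      rw [← f3, tr_node]
      constructor
      · rintro (⟨h, rfl⟩ | h | h)
        · have e' : (leaves l ∪ leaves r) ∩ L = leaves r ∩ L := e
          rw [e'] at h ⊢
          exact tr_top h
        · exact (h1 (h.1.mono (tr_sub h))).elim
        · exact h
      · exact fun h => Or.inr (Or.inr h)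
    have k1 := h1.card_pos
    have k2 := h2.card_pos
    have eb' := eb h1 h2
    have hne : ((leaves l ∪ leaves r) ∩ L).Nonempty :=
      h1.mono (inter_subset_inter_right subset_union_left)
    cases p with
    | leaf b =>
      exfalso
      have : (leaves (Tr.leaf b)).card = 1 := by simp [leaves]
      omega
    | node p q =>
      obtain ⟨wp, wq, hpq⟩ := wp
      obtain ⟨bp, bq, bb⟩ := bp
      have h3 : (leaves (Tr.node p q)).card = _ := card_union_of_disjoint hpq
      by_cases hcase : (leaves l ∩ L).card = (leaves p).card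
      · obtain ⟨f, hf⟩ := hl wl el p wp bp hcase
        obtain ⟨g, hg⟩ := hr wr er q wq bq (by omega)
        obtain ⟨h, i1, i2, i3, i4⟩ := iso_glue hd hpq hf hg
        refine ⟨h, i1, i2, fun G => ?_⟩
        rw [tr_node, i3, i4]
        simp only [cl, mem_insert, mem_union, or_and_right, exists_or, exists_eq_left, i2]
        refine or_congr_left ⟨fun h => h.2.symm, fun h => ⟨h ▸ hne, h.symm⟩⟩
      · obtain ⟨f, hf⟩ := hl wl el q wq bq (by omega)
        obtain ⟨g, hg⟩ := hr wr er p wp bp (by omega)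
        obtain ⟨h, i1, i2, i3, i4⟩ := iso_glue hd hpq.symm hf hg
        rw [union_comm] at i1 i2
        refine ⟨h, i1, i2, fun G => ?_⟩
        rw [tr_node, i3, i4]
        simp only [cl, mem_insert, mem_union, or_and_right, exists_or, exists_eq_left, i2]
        refine or_congr ⟨fun h => h.2.symm, fun h => ⟨h ▸ hne, h.symm⟩⟩ or_comm

lemma ev_congr (t : Tr α) (L M : Finset α) (h : ∀ x ∈ leaves t, x ∈ L ↔ x ∈ M) :
    ev t L ↔ ev t M := by
  induction t with
  | leaf a => rfl
  | node l r hl hr =>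
    have h1 : ∀ x ∈ leaves l, x ∈ L ↔ x ∈ M := fun x hx => h x (mem_union_left _ hx)
    have h2 : ∀ x ∈ leaves r, x ∈ L ↔ x ∈ M := fun x hx => h x (mem_union_right _ hx)
    have e1 : leaves l ∩ L = leaves l ∩ M := by
      ext x; simp only [mem_inter]; exact and_congr_right (h1 x)
    have e2 : leaves r ∩ L = leaves r ∩ M := by
      ext x; simp only [mem_inter]; exact and_congr_right (h2 x)
    simp only [ev, hl h1, hr h2, e1, e2]

lemma ev_empty (t : Tr α) : ev t ∅ := by
  induction t with
  | leaf a => trivial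
  | node l r hl hr => exact ⟨hl, hr, by simp⟩

lemma ev_of_disj (t : Tr α) (L : Finset α) (h : Disjoint (leaves t) L) : ev t L :=
  (ev_congr t L ∅ (fun x hx => by simpa using disjoint_left.1 h hx)).2 (ev_empty t)

lemma ev_inter (t : Tr α) (L : Finset α) : ev t (leaves t ∩ L) ↔ ev t L :=
  ev_congr t _ _ (fun x hx => by simp [hx])

open Classical in
noncomputable def S (t : Tr α) (k : ℕ) : Finset (Finset α) :=
  (leaves t).powerset.filter (fun L => L.card = k ∧ L.Nonempty ∧ ev t L)

lemma mem_S {t : Tr α} {k : ℕ} {L : Finset α} :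
    L ∈ S t k ↔ L ⊆ leaves t ∧ L.card = k ∧ L.Nonempty ∧ ev t L := by
  simp [S]

noncomputable def part (l r : Tr α) (i j : ℕ) : Finset (Finset α) :=
  (leaves l ∪ leaves r).powerset.filter (fun L => leaves l ∩ L ∈ S l i ∧ leaves r ∩ L ∈ S r j)

lemma mem_part {l r : Tr α} {i j : ℕ} {L : Finset α} : L ∈ part l r i j ↔
    L ⊆ leaves l ∪ leaves r ∧ leaves l ∩ L ∈ S l i ∧ leaves r ∩ L ∈ S r j := by
  rw [part, mem_filter, mem_powerset]

lemma card_part {l r : Tr α} (hd : Disjoint (leaves l) (leaves r)) (i j : ℕ) :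
    (part l r i j).card = (S l i).card * (S r j).card := by
  rw [← card_product]
  have k1 : ∀ A B : Finset α, A ⊆ leaves l → B ⊆ leaves r →
      leaves l ∩ (A ∪ B) = A ∧ leaves r ∩ (A ∪ B) = B := by
    intro A B hA hB
    constructor
    · rw [inter_union_distrib_left, inter_eq_right.2 hA,
        disjoint_iff_inter_eq_empty.1 (hd.mono_right hB), union_empty]
    · rw [inter_union_distrib_left, inter_eq_right.2 hB,
        disjoint_iff_inter_eq_empty.1 (hd.symm.mono_right hA), empty_union]
  refine card_nbij' (fun L => (leaves l ∩ L, leaves r ∩ L)) (fun x => x.1 ∪ x.2) ?_ ?_ ?_ ?_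
  · intro L hL
    have := mem_part.1 hL
    exact mem_coe.2 (mem_product.2 this.2)
  · intro x hx
    obtain ⟨h1, h2⟩ := mem_product.1 (mem_coe.1 hx)
    have := k1 _ _ (mem_S.1 h1).1 (mem_S.1 h2).1
    refine mem_coe.2 (mem_part.2 ⟨union_subset_union (mem_S.1 h1).1 (mem_S.1 h2).1, ?_⟩)
    rw [this.1, this.2]
    exact ⟨h1, h2⟩
  · intro L hL
    have := mem_part.1 hL
    show leaves l ∩ L ∪ leaves r ∩ L = L
    rw [← union_inter_distrib_right, inter_eq_right.2 this.1]
  · intro x hx
    obtain ⟨h1, h2⟩ := mem_product.1 (mem_coe.1 hx)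
    have := k1 _ _ (mem_S.1 h1).1 (mem_S.1 h2).1
    exact Prod.ext this.1 this.2

lemma mem_node {l r : Tr α} (hd : Disjoint (leaves l) (leaves r)) (k : ℕ) (L : Finset α) :
    L ∈ S (.node l r) k ↔ L ∈ S l k ∨ L ∈ S r k ∨
      ∃ i j, i + j = k ∧ i ≤ j + 1 ∧ j ≤ i + 1 ∧ L ∈ part l r i j := by
  constructor
  · intro h
    obtain ⟨h1, h2, h3, el, er, eb⟩ := mem_S.1 h
    have h1' : L ⊆ leaves l ∪ leaves r := h1
    by_cases k2 : (leaves r ∩ L).Nonempty
    · by_cases k1 : (leaves l ∩ L).Nonempty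
      · right; right
        have hc := card_split hd L
        rw [inter_eq_right.2 h1'] at hc
        refine ⟨_, _, by rw [← hc, h2], (eb k1 k2).1, (eb k1 k2).2, mem_part.2 ⟨h1', ?_, ?_⟩⟩
        · exact mem_S.2 ⟨inter_subset_left, rfl, k1, (ev_inter _ _).2 el⟩
        · exact mem_S.2 ⟨inter_subset_left, rfl, k2, (ev_inter _ _).2 er⟩
      · right; left
        refine mem_S.2 ⟨fun x hx => ?_, h2, h3, er⟩
        exact (mem_union.1 (h1' hx)).resolve_left fun h => k1 ⟨x, mem_inter.2 ⟨h, hx⟩⟩
    · left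
      refine mem_S.2 ⟨fun x hx => ?_, h2, h3, el⟩
      exact (mem_union.1 (h1' hx)).resolve_right fun h => k2 ⟨x, mem_inter.2 ⟨h, hx⟩⟩
  · rintro (h | h | ⟨i, j, hij, b1, b2, h⟩)
    · obtain ⟨h1, h2, h3, h4⟩ := mem_S.1 h
      have hdd : Disjoint (leaves r) L := hd.symm.mono_right h1
      refine mem_S.2 ⟨h1.trans subset_union_left, h2, h3, h4, ev_of_disj _ _ hdd, ?_⟩
      rw [disjoint_iff_inter_eq_empty.1 hdd]; simp
    · obtain ⟨h1, h2, h3, h4⟩ := mem_S.1 h
      have hdd : Disjoint (leaves l) L := hd.mono_right h1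
      refine mem_S.2 ⟨h1.trans subset_union_right, h2, h3, ev_of_disj _ _ hdd, h4, ?_⟩
      rw [disjoint_iff_inter_eq_empty.1 hdd]; simp
    · obtain ⟨h1, h2, h3⟩ := mem_part.1 h
      obtain ⟨-, a2, a3, a4⟩ := mem_S.1 h2
      obtain ⟨-, c2, c3, c4⟩ := mem_S.1 h3
      have hc := card_split hd L
      rw [inter_eq_right.2 h1] at hc
      refine mem_S.2 ⟨h1, by omega, a3.mono inter_subset_right, (ev_inter _ _).1 a4,
        (ev_inter _ _).1 c4, fun _ _ => by omega⟩

noncomputable def N (t : Tr α) (k : ℕ) : ℝ := (S t k).card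

lemma N_node {l r : Tr α} (hd : Disjoint (leaves l) (leaves r)) (k : ℕ) :
    N (.node l r) k = N l k + N r k + B k (N l) (N r) := by
  have d1 : Disjoint (S l k) (S r k) := by
    rw [disjoint_left]
    intro L h1 h2
    obtain ⟨x, hx⟩ := (mem_S.1 h1).2.2.1
    exact disjoint_left.1 hd ((mem_S.1 h1).1 hx) ((mem_S.1 h2).1 hx)
  have d2 : ∀ i j, Disjoint (S l k ∪ S r k) (part l r i j) := by
    intro i j
    rw [disjoint_left]
    intro L h1 h2
    obtain ⟨-, a, b⟩ := mem_part.1 h2
    obtain ⟨x, hx⟩ := (mem_S.1 a).2.2.1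
    obtain ⟨y, hy⟩ := (mem_S.1 b).2.2.1
    rcases mem_union.1 h1 with h | h
    · exact disjoint_left.1 hd ((mem_S.1 h).1 (mem_inter.1 hy).2) (mem_inter.1 hy).1
    · exact disjoint_left.1 hd (mem_inter.1 hx).1 ((mem_S.1 h).1 (mem_inter.1 hx).2)
  obtain ⟨p, rfl | rfl⟩ := Nat.even_or_odd' k
  · have e : S (.node l r) (2 * p) = S l (2 * p) ∪ S r (2 * p) ∪ part l r p p := by
      ext L
      rw [mem_node hd, mem_union, mem_union, or_assoc]
      refine or_congr_right (or_congr_right ⟨?_, fun h => ⟨p, p, by omega, by omega, by omega, h⟩⟩)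
      rintro ⟨i, j, h1, h2, h3, h⟩
      obtain rfl : i = p := by omega
      obtain rfl : j = i := by omega
      exact h
    rw [B_even]
    unfold N
    rw [e, card_union_of_disjoint (d2 _ _), card_union_of_disjoint d1, card_part hd]
    push_cast; ring
  · have e : S (.node l r) (2 * p + 1) =
        S l (2 * p + 1) ∪ S r (2 * p + 1) ∪ (part l r p (p + 1) ∪ part l r (p + 1) p) := by
      ext L
      rw [mem_node hd, mem_union, mem_union, mem_union, or_assoc]
      refine or_congr_right (or_congr_right ⟨?_, ?_⟩)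
      · rintro ⟨i, j, h1, h2, h3, h⟩
        by_cases hi : i = p
        · subst hi
          obtain rfl : j = i + 1 := by omega
          exact Or.inl h
        · obtain rfl : i = p + 1 := by omega
          obtain rfl : j = p := by omega
          exact Or.inr h
      · rintro (h | h)
        · exact ⟨_, _, by omega, by omega, by omega, h⟩
        · exact ⟨_, _, by omega, by omega, by omega, h⟩
    have d3 : Disjoint (part l r p (p + 1)) (part l r (p + 1) p) := by
      rw [disjoint_left]
      intro L h1 h2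
      have a := (mem_S.1 (mem_part.1 h1).2.1).2.1
      have b := (mem_S.1 (mem_part.1 h2).2.1).2.1
      omega
    rw [B_odd]
    unfold N
    rw [e, card_union_of_disjoint (disjoint_union_right.2 ⟨d2 _ _, d2 _ _⟩),
      card_union_of_disjoint d1, card_union_of_disjoint d3, card_part hd, card_part hd]
    push_cast; ring

lemma N_leaf (a : α) (k : ℕ) : N (.leaf a) k = c 1 k := by
  rw [c_one]
  unfold N
  split_ifs with h
  · subst h
    have : S (.leaf a) 1 = {{a}} := by
      ext L
      rw [mem_S, mem_singleton]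
      constructor
      · rintro ⟨h1, -, h3, -⟩
        exact h3.subset_singleton_iff.1 h1
      · rintro rfl
        exact ⟨Subset.rfl, by simp, by simp, trivial⟩
    rw [this]; simp
  · have : S (.leaf a) k = ∅ := by
      refine eq_empty_of_forall_notMem fun L hL => h ?_
      obtain ⟨h1, h2, h3, -⟩ := mem_S.1 hL
      rw [← h2, h3.subset_singleton_iff.1 h1]; simp
    rw [this]; simp

lemma N_le (t : Tr α) (hw : WF t) : ∀ k, N t k ≤ c (leaves t).card k := by
  induction t with
  | leaf a => intro k; rw [N_leaf]; simp [leaves]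
  | node l r hl hr =>
    intro k
    obtain ⟨wl, wr, hd⟩ := hw
    have h3 : (leaves (Tr.node l r)).card = _ := card_union_of_disjoint hd
    rw [N_node hd, h3]
    have e1 := B_mono k (u := N l) (v := N r) (fun _ => Nat.cast_nonneg _)
      (fun _ => Nat.cast_nonneg _) (hl wl) (hr wr)
    have e2 := main_ineq _ (leaves l).card (leaves r).card rfl k
    have := hl wl k
    have := hr wr k
    linarith

lemma N_eq (t : Tr α) (hw : WF t) (hb : bal t) : N t = c (leaves t).card := by
  induction t with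
  | leaf a => funext k; rw [N_leaf]; simp [leaves]
  | node l r hl hr =>
    funext k
    obtain ⟨wl, wr, hd⟩ := hw
    obtain ⟨bl, br, b1, b2⟩ := hb
    have h3 : (leaves (Tr.node l r)).card = _ := card_union_of_disjoint hd
    rw [N_node hd, h3, hl wl bl, hr wr br, c_bal _ _ _ b1 b2]

lemma tree_of [Fintype α] (T : Finset (Finset α)) (hne : ∀ A ∈ T, A.Nonempty) (hu : univ ∈ T)
    (hlam : ∀ A ∈ T, ∀ B ∈ T, A ⊆ B ∨ B ⊆ A ∨ Disjoint A B)
    (hsp : ∀ A ∈ T, 2 ≤ A.card → ∃ B ∈ T, ∃ D ∈ T, Disjoint B D ∧ B ∪ D = A) :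
    ∃ t : Tr α, WF t ∧ leaves t = univ ∧ cl t = T := by
  obtain ⟨t, h1, h2, h3⟩ := exists_tree T hne hlam hsp _ univ hu rfl
  exact ⟨t, h1, h2, by ext G; simp [h3]⟩

lemma bal_of_fam [Fintype α] (t : Tr α) (hw : WF t)
    (h : ∀ A ∈ cl t, ∀ B ∈ cl t, B ⊂ A → (∀ D ∈ cl t, B ⊆ D → D ⊆ A → D = B ∨ D = A) →
      A.card ≤ 2 * B.card + 1 ∧ 2 * B.card ≤ A.card + 1) : bal t := by
  have e : ∀ G, tr t univ G ↔ G ∈ cl t := by
    intro G
    constructor
    · rintro ⟨-, A, hA, rfl⟩; simpa using hA
    · intro hG; exact ⟨(cl_sub t G hG).2, G, hG, by simp⟩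
  refine bal_of_ev univ t (subset_univ _) (ev_of_fam univ t hw ?_)
  intro A B hA hB hBA hbt
  exact h A ((e A).1 hA) B ((e B).1 hB) hBA (fun D hD => hbt D ((e D).2 hD))

omit [DecidableEq β] in
lemma fam_of_map [Fintype β] (F : Finset (Finset β))
    (h : ∀ A ∈ F, ∀ B ∈ F, B ⊂ A → (∀ D ∈ F, B ⊆ D → D ⊆ A → D = B ∨ D = A) →
      A.card ≤ 2 * B.card + 1 ∧ 2 * B.card ≤ A.card + 1)
    (t : Tr α) (L : Finset α) (f : β → α) (hf : Function.Injective f) (hL : univ.image f = L)
    (hF : ∀ B : Finset β, B ∈ F ↔ (B.Nonempty ∧ ∃ A ∈ cl t, B.image f = A ∩ L)) :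
    EvFam (tr t L) := by
  have e : ∀ B : Finset β, B ∈ F ↔ tr t L (B.image f) := fun B => by
    rw [hF, tr, image_nonempty]
  have hs : ∀ G, tr t L G → ∃ B : Finset β, B.image f = G := by
    intro G hG
    have : G ⊆ univ.image f := by rw [hL]; exact (tr_sub hG).trans inter_subset_right
    obtain ⟨B, -, hB⟩ := subset_image_iff.1 this
    exact ⟨B, hB⟩
  intro A B hA hB hBA hbt
  obtain ⟨A, rfl⟩ := hs A hA
  obtain ⟨B, rfl⟩ := hs B hB
  rw [card_image_of_injective _ hf, card_image_of_injective _ hf]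
  refine h A ((e A).2 hA) B ((e B).2 hB) ?_ (fun D hD k1 k2 => ?_)
  · exact ssubset_of_subset_of_ne ((image_subset_image_iff hf).1 hBA.subset)
      (fun h => hBA.ne (by rw [h]))
  · rcases hbt _ ((e D).1 hD) (image_subset_image k1) (image_subset_image k2) with h | h
    · exact Or.inl (image_injective hf h)
    · exact Or.inr (image_injective hf h)

end Pool.Agent.H11.EvenTree
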