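import Mathlib

namespace Pool.Agent.H11.F64

def tE : Nat := 0x21c79f7ff9fb97a95af468d9f266ddfa76fd9bb162e4489973e1c387891a75efc78f993a142858f060c183810204081
def tL : Nat := 0xeb9ed456af1dae75b27aef4aa37b25cf55cfbd17e22d9f85e13a5c9b1b49da4d0e42160449bc088cd803687302181000
def tI : Nat := 0x803437ebb224f1174a4a612aa4c787170bcd4f227855b0bf1add4b8943d760e8da9f3dbd656a2e734979b1faf1fa1040

def look (t i : Nat) : Nat := Nat.mod (Nat.shiftRight t (Nat.mul 6 i)) 64

def addN (a b : Nat) : Nat := Nat.mod (Nat.xor a b) 64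
def mulN (a b : Nat) : Nat :=
  Nat.mod (cond (Nat.beq a 0) 0 (cond (Nat.beq b 0) 0
    (look tE (Nat.mod (Nat.add (look tL a) (look tL b)) 63)))) 64
def invN (a : Nat) : Nat := Nat.mod (look tI a) 64

/-- The field with 64 elements, coded by binary words modulo `x^6 + x + 1`. -/
def K : Type := Fin 64

instance : DecidableEq K := inferInstanceAs (DecidableEq (Fin 64))
instance : Fintype K := inferInstanceAs (Fintype (Fin 64))

def mk (n : Nat) : K := (⟨n % 64, Nat.mod_lt _ (by decide)⟩ : Fin 64)
def vl (a : K) : Nat := Fin.val (n := 64) a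

instance : Add K := ⟨fun a b => (⟨addN (vl a) (vl b), Nat.mod_lt _ (by decide)⟩ : Fin 64)⟩
instance : Mul K := ⟨fun a b => (⟨mulN (vl a) (vl b), Nat.mod_lt _ (by decide)⟩ : Fin 64)⟩
instance : Neg K := ⟨fun a => a⟩
instance : Inv K := ⟨fun a => (⟨invN (vl a), Nat.mod_lt _ (by decide)⟩ : Fin 64)⟩
instance : Zero K := ⟨mk 0⟩
instance : One K := ⟨mk 1⟩

noncomputable def allLt (n : Nat) (p : Nat → Bool) : Bool :=
  Nat.rec (motive := fun _ => Bool) true (fun k ih => cond (p k) ih false) n

theorem allLt_spec {n : Nat} {p : Nat → Bool} (h : allLt n p = true) : ∀ k, k < n → p k = true := by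
  induction n with
  | zero => intro k hk; omega
  | succ n ih =>
    intro k hk
    have h' : cond (p n) (allLt n p) false = true := h
    have h1 : p n = true := by
      cases hp : p n
      · rw [hp] at h'; exact absurd h' (by simp)
      · rfl
    rw [h1] at h'
    rcases Nat.lt_succ_iff_lt_or_eq.1 hk with h2 | rfl
    · exact ih h' k h2
    · exact h1

theorem all3 {p : Nat → Nat → Nat → Bool}
    (h : allLt 64 (fun a => allLt 64 fun b => allLt 64 fun c => p a b c) = true) (a b c : K) :
    p (vl a) (vl b) (vl c) = true :=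
  allLt_spec (allLt_spec (allLt_spec h _ (Fin.isLt a)) _ (Fin.isLt b)) _ (Fin.isLt c)

theorem c_add : allLt 64 (fun a => allLt 64 fun b => allLt 64 fun c =>
    Nat.beq (addN (addN a b) c) (addN a (addN b c))) = true := by decide +kernel

theorem c_mul : allLt 64 (fun a => allLt 64 fun b => allLt 64 fun c =>
    Nat.beq (mulN (mulN a b) c) (mulN a (mulN b c))) = true := by decide +kernel

theorem c_dis : allLt 64 (fun a => allLt 64 fun b => allLt 64 fun c =>
    Nat.beq (mulN a (addN b c)) (addN (mulN a b) (mulN a c))) = true := by decide +kernel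

instance : Field K := Field.ofMinimalAxioms K
  (fun a b c => Fin.ext (Nat.eq_of_beq_eq_true (all3 c_add a b c)))
  (by decide +kernel) (by decide +kernel)
  (fun a b c => Fin.ext (Nat.eq_of_beq_eq_true (all3 c_mul a b c)))
  (by decide +kernel) (by decide +kernel) (by decide +kernel) (by decide +kernel)
  (fun a b c => Fin.ext (Nat.eq_of_beq_eq_true (all3 c_dis a b c)))
  (by decide +kernel)

theorem card_K : Fintype.card K = 2 ^ 6 := by decide +kernel

end Pool.Agent.H11.F64
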