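import Mathlib

set_option autoImplicit false
open MeasureTheory Metric Set

namespace Pool.Agent.H11.FairCut

abbrev E := EuclideanSpace ℝ (Fin 3)

inductive IP : Set E → List (Set E) → Prop
  | one (A : Set E) : IP A [A]
  | cut (A : Set E) (l₁ l₂ : List (Set E)) (v : E) (c : ℝ) : v ≠ 0 →
      IP (A ∩ {x | inner ℝ v x ≤ c}) l₁ → IP (A ∩ {x | c < inner ℝ v x}) l₂ → IP A (l₁ ++ l₂)

lemma meas_le (v : E) (c : ℝ) : MeasurableSet {x : E | inner ℝ v x ≤ c} :=
  (isClosed_le (by fun_prop) continuous_const).measurableSet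

lemma meas_lt (v : E) (c : ℝ) : MeasurableSet {x : E | c < inner ℝ v x} :=
  (isOpen_lt continuous_const (by fun_prop)).measurableSet

lemma IP.len_pos {A : Set E} {l : List (Set E)} (h : IP A l) : 0 < l.length := by
  induction h with
  | one A => simp
  | cut A l₁ l₂ v c hv h1 h2 ih1 ih2 => simp; omega

lemma IP.sum {A : Set E} {l : List (Set E)} (h : IP A l) (μ : Measure E) [IsFiniteMeasure μ]
    (m : ℝ) (hm : ∀ P ∈ l, μ.real P = m) : μ.real A = l.length * m := by
  induction h with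
  | one A => simp [hm A (by simp)]
  | cut A l₁ l₂ v c hv h1 h2 ih1 ih2 =>
    have e1 := ih1 (fun P hP => hm P (by simp [hP]))
    have e2 := ih2 (fun P hP => hm P (by simp [hP]))
    have e3 := measureReal_inter_add_sdiff (μ := μ) (s := A) (meas_le v c)
    have e4 : A \ {x : E | inner ℝ v x ≤ c} = A ∩ {x | c < inner ℝ v x} := by
      ext x; simp
    rw [e4, e1, e2] at e3
    rw [← e3, List.length_append]; push_cast; ring

lemma IP.split {A : Set E} {l : List (Set E)} (h : IP A l) (h2 : 2 ≤ l.length) :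
    ∃ (l₁ l₂ : List (Set E)) (v : E) (c : ℝ), v ≠ 0 ∧ l = l₁ ++ l₂ ∧
      IP (A ∩ {x | inner ℝ v x ≤ c}) l₁ ∧ IP (A ∩ {x | c < inner ℝ v x}) l₂ := by
  cases h with
  | one => simp at h2
  | cut _ l₁ l₂ v c hv h1 h3 => exact ⟨l₁, l₂, v, c, hv, rfl, h1, h3⟩

/-- measurable and stable under the point reflection property of half spaces -/
def Hs (K : Set E) : Prop := MeasurableSet K ∧ ∀ y ∈ K, ∀ x, x ∉ K → (y + y) - x ∈ K

lemma hs_le (v : E) (c : ℝ) : Hs {x : E | inner ℝ v x ≤ c} := by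
  refine ⟨meas_le v c, fun y hy x hx => ?_⟩
  simp only [mem_ofPred_eq, not_le, inner_sub_right, inner_add_right] at *
  linarith

lemma hs_lt (v : E) (c : ℝ) : Hs {x : E | c < inner ℝ v x} := by
  refine ⟨meas_lt v c, fun y hy x hx => ?_⟩
  simp only [mem_ofPred_eq, not_lt, inner_sub_right, inner_add_right] at *
  linarith

noncomputable def V : ℝ := (volume : Measure E).real (closedBall 0 1)

lemma V_pos : 0 < V :=
  ENNReal.toReal_pos (measure_closedBall_pos volume _ one_pos).ne' measure_closedBall_lt_top.ne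

lemma vol_ball (x : E) {r : ℝ} (hr : 0 ≤ r) :
    (volume : Measure E).real (closedBall x r) = r ^ 3 * V := by
  rw [Measure.addHaar_real_closedBall' volume x hr]; simp [V]

noncomputable def f (K : Set E) (y : E) (s : ℝ) : ℝ := (volume : Measure E).real (K ∩ closedBall y s)

lemma fin_ball (K : Set E) (y : E) (s : ℝ) : (volume : Measure E) (K ∩ closedBall y s) ≠ ⊤ :=
  measure_ne_top_of_subset inter_subset_right measure_closedBall_lt_top.ne

lemma f_nonneg (K : Set E) (y : E) (s : ℝ) : 0 ≤ f K y s := measureReal_nonneg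

lemma f_mono {K K' : Set E} {y y' : E} {s s' : ℝ} (h : K ∩ closedBall y s ⊆ K' ∩ closedBall y' s') :
    f K y s ≤ f K' y' s' := measureReal_mono h (fin_ball _ _ _)

lemma f_full {K : Set E} {y : E} {s : ℝ} (hs : 0 ≤ s) (h : closedBall y s ⊆ K) :
    f K y s = s ^ 3 * V := by
  unfold f; rw [inter_eq_right.2 h, vol_ball y hs]

lemma f_empty {K : Set E} {y : E} {s : ℝ} (h : ∀ x ∈ closedBall y s, x ∉ K) : f K y s = 0 := by
  have : K ∩ closedBall y s = ∅ := by
    ext x; simp only [mem_inter_iff, mem_empty_iff_false, iff_false, not_and]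
    intro h1 h2; exact h x h2 h1
  unfold f; rw [this]; simp

lemma pair {K : Set E} (hK : Hs K) {y : E} (hy : y ∈ K) (q : E) {s : ℝ} (hs : 0 ≤ s) :
    s ^ 3 * V ≤ f K (y + q) s + f K (y - q) s := by
  have e1 := measureReal_inter_add_sdiff (μ := (volume : Measure E)) (s := closedBall (y - q) s) hK.1
    measure_closedBall_lt_top.ne
  rw [vol_ball _ hs, inter_comm] at e1
  have mp := Measure.measurePreserving_sub_left (volume : Measure E) (y + y)
  have hm : MeasurableSet (K ∩ closedBall (y + q) s) := hK.1.inter measurableSet_closedBall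
  have e2 := mp.measureReal_preimage hm.nullMeasurableSet
  have e2' := mp.measure_preimage hm.nullMeasurableSet
  have hsub : closedBall (y - q) s \ K ⊆ (fun t => y + y - t) ⁻¹' (K ∩ closedBall (y + q) s) := by
    rintro x ⟨h1, h2⟩
    refine ⟨hK.2 y hy x h2, ?_⟩
    rw [mem_closedBall, dist_eq_norm] at h1 ⊢
    have : y + y - x - (y + q) = -(x - (y - q)) := by abel
    rw [this, norm_neg]; exact h1
  have e3 := measureReal_mono (μ := (volume : Measure E)) hsub (by rw [e2']; exact fin_ball _ _ _)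
  rw [e2] at e3
  unfold f; linarith

noncomputable def ρ : ℝ := 1 / 200
noncomputable def c1 : E := EuclideanSpace.single 0 (1 / 20)
noncomputable def c3 : E := EuclideanSpace.single 1 1
noncomputable def p : E := EuclideanSpace.single 2 2

noncomputable def R (y : E) (s : ℝ) : Measure E := (volume : Measure E).restrict (closedBall y s)

instance (y : E) (s : ℝ) : IsFiniteMeasure (R y s) :=
  isFiniteMeasure_restrict.2 measure_closedBall_lt_top.ne

lemma R_ac (y : E) (s : ℝ) : R y s ≪ (volume : Measure E) :=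
  Measure.absolutelyContinuous_of_le Measure.restrict_le_self

lemma R_real (y : E) (s : ℝ) {K : Set E} (hK : MeasurableSet K) : (R y s).real K = f K y s :=
  measureReal_restrict_apply hK

noncomputable def μ0 : Measure E := R c1 ρ
noncomputable def μ1 : Measure E := R p 1 + R (-p) 1 + R 0 ρ
noncomputable def μ2 : Measure E :=
  R p ρ + R p ρ + R (c3 - (p - c3)) ρ + R (c3 - (p - c3)) ρ + R c3 ρ

instance : IsFiniteMeasure μ0 := by unfold μ0; infer_instance
instance : IsFiniteMeasure μ1 := by unfold μ1; infer_instance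
instance : IsFiniteMeasure μ2 := by unfold μ2; infer_instance

lemma μ0_real {K : Set E} (hK : MeasurableSet K) : μ0.real K = f K c1 ρ := R_real _ _ hK
lemma μ1_real {K : Set E} (hK : MeasurableSet K) :
    μ1.real K = f K p 1 + f K (-p) 1 + f K 0 ρ := by
  unfold μ1
  rw [measureReal_add_apply, measureReal_add_apply, R_real _ _ hK, R_real _ _ hK, R_real _ _ hK]
lemma μ2_real {K : Set E} (hK : MeasurableSet K) :
    μ2.real K = 2 * f K p ρ + 2 * f K (c3 - (p - c3)) ρ + f K c3 ρ := by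
  unfold μ2
  rw [measureReal_add_apply, measureReal_add_apply, measureReal_add_apply, measureReal_add_apply,
    R_real _ _ hK, R_real _ _ hK, R_real _ _ hK]
  ring

lemma ρ_pos : 0 < ρ := by unfold ρ; norm_num

lemma tot0 : μ0.real univ = ρ ^ 3 * V := by
  rw [μ0_real MeasurableSet.univ, f_full ρ_pos.le (subset_univ _)]
lemma tot1 : μ1.real univ = (2 + ρ ^ 3) * V := by
  rw [μ1_real MeasurableSet.univ, f_full ρ_pos.le (subset_univ _),
    f_full zero_le_one (subset_univ _), f_full zero_le_one (subset_univ _)]; ring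
lemma tot2 : μ2.real univ = 5 * (ρ ^ 3 * V) := by
  rw [μ2_real MeasurableSet.univ, f_full ρ_pos.le (subset_univ _),
    f_full ρ_pos.le (subset_univ _), f_full ρ_pos.le (subset_univ _)]; ring

lemma norm_c1 : ‖c1‖ = 1 / 20 := by simp [c1]

lemma meet0 {K : Set E} (hK : MeasurableSet K) (h : 0 < μ0.real K) :
    ∃ y ∈ closedBall c1 ρ, y ∈ K := by
  by_contra hc
  push Not at hc
  rw [μ0_real hK, f_empty hc] at h
  exact lt_irrefl _ h

lemma big {K : Set E} (hK : Hs K) (h : 0 < μ0.real K) : (2 + ρ ^ 3) * V / 3 < μ1.real K := by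
  obtain ⟨y, hy1, hy2⟩ := meet0 hK.1 h
  have hn : ‖y‖ ≤ 11 / 200 := by
    rw [mem_closedBall, dist_eq_norm] at hy1
    have := norm_add_le (y - c1) c1
    rw [sub_add_cancel, norm_c1] at this
    unfold ρ at hy1; linarith
  have e := pair hK hy2 p (s := 189 / 200) (by norm_num)
  have a1 : f K (y + p) (189 / 200) ≤ f K p 1 := by
    apply f_mono
    apply inter_subset_inter_right
    apply closedBall_subset_closedBall'
    rw [dist_eq_norm, add_sub_cancel_right]; linarith
  have a2 : f K (y - p) (189 / 200) ≤ f K (-p) 1 := by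
    apply f_mono
    apply inter_subset_inter_right
    apply closedBall_subset_closedBall'
    rw [dist_eq_norm, sub_neg_eq_add, sub_add_cancel]; linarith
  have a3 := f_nonneg K 0 ρ
  have hV := V_pos
  rw [μ1_real hK.1]
  unfold ρ at *
  nlinarith

lemma pin1 {K : Set E} (hK : Hs K) (h : μ1.real K = (2 + ρ ^ 3) * V / 2) :
    ∃ y ∈ closedBall (0 : E) ρ, y ∉ K := by
  by_contra hc
  push Not at hc
  have h0 : (0 : E) ∈ K := hc 0 (mem_closedBall_self ρ_pos.le)
  have e := pair hK h0 p (s := 1) zero_le_one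
  rw [zero_add, zero_sub] at e
  rw [μ1_real hK.1, f_full ρ_pos.le hc] at h
  have := mul_pos (pow_pos ρ_pos 3) V_pos
  nlinarith

lemma pin2 {K : Set E} (hK : Hs K) (h : μ2.real K = 5 * (ρ ^ 3 * V) / 2) :
    ∃ y ∈ closedBall c3 ρ, y ∉ K := by
  by_contra hc
  push Not at hc
  have h0 : c3 ∈ K := hc c3 (mem_closedBall_self ρ_pos.le)
  have e := pair hK h0 (p - c3) (s := ρ) ρ_pos.le
  rw [add_sub_cancel] at e
  rw [μ2_real hK.1, f_full ρ_pos.le hc] at h
  have := mul_pos (pow_pos ρ_pos 3) V_pos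
  nlinarith

lemma near {v z : E} {c : ℝ} (h1 : ∃ y ∈ closedBall z ρ, inner ℝ v y ≤ c)
    (h2 : ∃ y ∈ closedBall z ρ, c < inner ℝ v y) : |inner ℝ v z - c| ≤ ‖v‖ / 200 := by
  obtain ⟨y1, a1, b1⟩ := h1
  obtain ⟨y2, a2, b2⟩ := h2
  rw [mem_closedBall, dist_eq_norm] at a1 a2
  have k1 := abs_real_inner_le_norm v (y1 - z)
  have k2 := abs_real_inner_le_norm v (y2 - z)
  rw [inner_sub_right] at k1 k2
  have hv := norm_nonneg v
  have m1 : ‖v‖ * ‖y1 - z‖ ≤ ‖v‖ / 200 := by
    have := mul_le_mul_of_nonneg_left a1 hv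
    unfold ρ at this; linarith
  have m2 : ‖v‖ * ‖y2 - z‖ ≤ ‖v‖ / 200 := by
    have := mul_le_mul_of_nonneg_left a2 hv
    unfold ρ at this; linarith
  rw [abs_le] at k1 k2 ⊢
  constructor <;> linarith [k1.1, k1.2, k2.1, k2.2]

lemma geom {v : E} {c : ℝ} (hv : v ≠ 0) (h0 : |inner ℝ v (0 : E) - c| ≤ ‖v‖ / 200)
    (h1 : |inner ℝ v c1 - c| ≤ ‖v‖ / 200) (h3 : |inner ℝ v c3 - c| ≤ ‖v‖ / 200) :
    closedBall p 1 ⊆ {x : E | inner ℝ v x ≤ c} ∨ closedBall p 1 ⊆ {x : E | c < inner ℝ v x} := by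
  have hN : 0 < ‖v‖ := norm_pos_iff.2 hv
  have hsq := EuclideanSpace.real_norm_sq_eq v
  rw [Fin.sum_univ_three] at hsq
  have i1 : inner ℝ v c1 = v 0 / 20 := by
    unfold c1; rw [EuclideanSpace.inner_single_right]; simp; ring
  have i3 : inner ℝ v c3 = v 1 := by
    unfold c3; rw [EuclideanSpace.inner_single_right]; simp
  have ip : inner ℝ v p = 2 * v 2 := by
    unfold p; rw [EuclideanSpace.inner_single_right]; simp
  rw [inner_zero_right] at h0
  rw [i1] at h1
  rw [i3] at h3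
  rw [abs_le] at h0 h1 h3
  have ha : v 0 ^ 2 ≤ (‖v‖ / 5) ^ 2 := sq_le_sq' (by linarith [h0.1, h0.2, h1.1]) (by linarith [h0.1, h0.2, h1.2])
  have hb : v 1 ^ 2 ≤ (‖v‖ / 100) ^ 2 := sq_le_sq' (by linarith [h0.1, h0.2, h3.1]) (by linarith [h0.1, h0.2, h3.2])
  have he : (9 / 10 * ‖v‖) ^ 2 ≤ v 2 ^ 2 := by nlinarith
  have key : ∀ x ∈ closedBall p 1, |inner ℝ v x - 2 * v 2| ≤ ‖v‖ := by
    intro x hx
    rw [mem_closedBall, dist_eq_norm] at hx
    have k := abs_real_inner_le_norm v (x - p)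
    rw [inner_sub_right, ip] at k
    have := mul_le_mul_of_nonneg_left hx hN.le
    linarith
  rcases le_total (v 2) 0 with hz | hz
  · left
    intro x hx
    have k := abs_le.1 (key x hx)
    have : 9 / 10 * ‖v‖ ≤ -v 2 := by
      apply abs_le_of_sq_le_sq' _ (by linarith) |>.2
      rw [neg_sq]; exact he
    simp only [mem_ofPred_eq]
    linarith [k.2, h0.1, h0.2]
  · right
    intro x hx
    have k := abs_le.1 (key x hx)
    have : 9 / 10 * ‖v‖ ≤ v 2 := (abs_le_of_sq_le_sq' he hz).2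
    simp only [mem_ofPred_eq]
    linarith [k.1, h0.1, h0.2]

lemma last {K G : Set E} (hK : MeasurableSet K) (hG : Hs G) (hp : closedBall p 1 ⊆ K)
    (h1 : μ1.real (K ∩ G) = (2 + ρ ^ 3) * V / 6) (h2 : μ2.real (K ∩ G) = 5 * (ρ ^ 3 * V) / 6)
    (h3 : μ2.real K = 5 * (ρ ^ 3 * V) / 2) : False := by
  have hw := mul_pos (pow_pos ρ_pos 3) V_pos
  have hsmall : closedBall p ρ ⊆ closedBall p 1 :=
    closedBall_subset_closedBall (by unfold ρ; norm_num)
  by_cases hc : ∃ y ∈ closedBall p ρ, y ∈ G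
  · obtain ⟨y, hy1, hy2⟩ := hc
    have e := pair hG hy2 0 (s := 199 / 200) (by norm_num)
    rw [add_zero, sub_zero] at e
    have hs : closedBall y (199 / 200) ⊆ closedBall p 1 := by
      apply closedBall_subset_closedBall'
      rw [mem_closedBall] at hy1
      unfold ρ at hy1; linarith
    have a1 : f G y (199 / 200) ≤ f (K ∩ G) p 1 := by
      apply f_mono
      rintro x ⟨a, b⟩
      exact ⟨⟨hp (hs b), a⟩, hs b⟩
    rw [μ1_real (hK.inter hG.1)] at h1
    have a2 := f_nonneg (K ∩ G) (-p) 1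
    have a3 := f_nonneg (K ∩ G) 0 ρ
    have hV := V_pos
    unfold ρ at *
    nlinarith
  · push Not at hc
    have e := measureReal_inter_add_sdiff (μ := μ2) (s := K) hG.1
    have e2 := μ2_real (hK.diff hG.1)
    have a0 : f (K \ G) p ρ = ρ ^ 3 * V :=
      f_full ρ_pos.le (fun x hx => ⟨hp (hsmall hx), hc x hx⟩)
    have a2 := f_nonneg (K \ G) (c3 - (p - c3)) ρ
    have a3 := f_nonneg (K \ G) c3 ρ
    linarith

lemma three {K : Set E} {l : List (Set E)} (hK : MeasurableSet K) (hp : closedBall p 1 ⊆ K)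
    (h : IP K l) (hl : l.length = 3)
    (m1 : ∀ P ∈ l, μ1.real P = (2 + ρ ^ 3) * V / 6)
    (m2 : ∀ P ∈ l, μ2.real P = 5 * (ρ ^ 3 * V) / 6) : False := by
  have t := h.sum μ2 _ m2
  rw [hl] at t
  have t' : μ2.real K = 5 * (ρ ^ 3 * V) / 2 := by rw [t]; push_cast; ring
  obtain ⟨l₁, l₂, v, c, hv, rfl, h1, h2⟩ := h.split (by omega)
  have p1 := h1.len_pos
  have p2 := h2.len_pos
  rw [List.length_append] at hl
  rcases (by omega : l₁.length = 1 ∨ l₂.length = 1) with e | e
  · have s1 := h1.sum μ1 _ (fun P hP => m1 P (by simp [hP]))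
    have s2 := h1.sum μ2 _ (fun P hP => m2 P (by simp [hP]))
    rw [e] at s1 s2
    exact last hK (hs_le v c) hp (by rw [s1]; simp) (by rw [s2]; simp) t'
  · have s1 := h2.sum μ1 _ (fun P hP => m1 P (by simp [hP]))
    have s2 := h2.sum μ2 _ (fun P hP => m2 P (by simp [hP]))
    rw [e] at s1 s2
    exact last hK (hs_lt v c) hp (by rw [s1]; simp) (by rw [s2]; simp) t'

lemma share {L : List (Set E)} (h : IP univ L) (hL : L.length = 6) (μ : Measure E)
    [IsFiniteMeasure μ] (he : ∀ P ∈ L, ∀ Q ∈ L, μ P = μ Q) :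
    ∀ P ∈ L, μ.real P = μ.real univ / 6 := by
  intro P hP
  have := h.sum μ (μ.real P) (fun Q hQ => by unfold Measure.real; rw [he Q hQ P hP])
  rw [this, hL]; push_cast; ring

theorem main {L : List (Set E)} (h : IP univ L) (hL : L.length = 6)
    (e0 : ∀ P ∈ L, ∀ Q ∈ L, μ0 P = μ0 Q) (e1 : ∀ P ∈ L, ∀ Q ∈ L, μ1 P = μ1 Q)
    (e2 : ∀ P ∈ L, ∀ Q ∈ L, μ2 P = μ2 Q) : False := by
  have m0 := share h hL μ0 e0
  have m1 := share h hL μ1 e1
  have m2 := share h hL μ2 e2
  rw [tot0] at m0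
  rw [tot1] at m1
  rw [tot2] at m2
  obtain ⟨l₁, l₂, v, c, hv, rfl, h1, h2⟩ := h.split (by omega)
  rw [univ_inter] at h1 h2
  have p1 := h1.len_pos
  have p2 := h2.len_pos
  rw [List.length_append] at hL
  have hw := mul_pos (pow_pos ρ_pos 3) V_pos
  have hV := V_pos
  have hr := pow_pos ρ_pos 3
  have a0 := h1.sum μ0 _ (fun P hP => m0 P (by simp [hP]))
  have a1 := h1.sum μ1 _ (fun P hP => m1 P (by simp [hP]))
  have a2 := h1.sum μ2 _ (fun P hP => m2 P (by simp [hP]))
  have b0 := h2.sum μ0 _ (fun P hP => m0 P (by simp [hP]))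
  have b1 := h2.sum μ1 _ (fun P hP => m1 P (by simp [hP]))
  have b2 := h2.sum μ2 _ (fun P hP => m2 P (by simp [hP]))
  have q1 : (0 : ℝ) < l₁.length := by exact_mod_cast p1
  have q2 : (0 : ℝ) < l₂.length := by exact_mod_cast p2
  have pa : 0 < μ0.real {x : E | inner ℝ v x ≤ c} := by rw [a0]; positivity
  have pb : 0 < μ0.real {x : E | c < inner ℝ v x} := by rw [b0]; positivity
  have ga := big (hs_le v c) pa
  have gb := big (hs_lt v c) pb
  have hT : 0 < (2 + ρ ^ 3) * V := by positivity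
  have la : 2 < l₁.length := by
    rw [a1] at ga
    have : (2 : ℝ) < l₁.length := by nlinarith
    exact_mod_cast this
  have lb : 2 < l₂.length := by
    rw [b1] at gb
    have : (2 : ℝ) < l₂.length := by nlinarith
    exact_mod_cast this
  have l1 : l₁.length = 3 := by omega
  have l2 : l₂.length = 3 := by omega
  rw [l1] at a1 a2
  rw [l2] at b1 b2
  have u1 := pin1 (hs_le v c) (by rw [a1]; push_cast; ring)
  have u2 := pin1 (hs_lt v c) (by rw [b1]; push_cast; ring)
  have w1 := pin2 (hs_le v c) (by rw [a2]; push_cast; ring)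
  have w2 := pin2 (hs_lt v c) (by rw [b2]; push_cast; ring)
  simp only [mem_ofPred_eq, not_le, not_lt] at u1 u2 w1 w2
  have n0 := near u2 u1
  have n3 := near w2 w1
  have n1 : |inner ℝ v c1 - c| ≤ ‖v‖ / 200 := near (meet0 (meas_le v c) pa) (meet0 (meas_lt v c) pb)
  rcases geom hv n0 n1 n3 with g | g
  · exact three (meas_le v c) g h1 l1 (fun P hP => m1 P (by simp [hP]))
      (fun P hP => m2 P (by simp [hP]))
  · exact three (meas_lt v c) g h2 l2 (fun P hP => m1 P (by simp [hP]))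
      (fun P hP => m2 P (by simp [hP]))

lemma ac0 : μ0 ≪ (volume : Measure E) := R_ac _ _
lemma ac1 : μ1 ≪ (volume : Measure E) :=
  ((R_ac _ _).add_left (R_ac _ _)).add_left (R_ac _ _)
lemma ac2 : μ2 ≪ (volume : Measure E) :=
  ((((R_ac _ _).add_left (R_ac _ _)).add_left (R_ac _ _)).add_left (R_ac _ _)).add_left (R_ac _ _)

end Pool.Agent.H11.FairCut
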