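import Mathlib

set_option autoImplicit false

namespace Pool.Agent.H11.Freud

open Finset

/-- Jacobi operator in the monic basis. -/
def J (b : ℕ → ℝ) (v : ℕ → ℝ) : ℕ → ℝ
  | 0 => b 1 * v 1
  | (m + 1) => v m + b (m + 2) * v (m + 2)

def vec (b : ℕ → ℝ) : ℕ → ℕ → ℝ
  | 0 => fun n => if n = 0 then 1 else 0
  | (k + 1) => J b (vec b k)

def mom (b : ℕ → ℝ) (k : ℕ) : ℝ := vec b k 0

def hh (b : ℕ → ℝ) : ℕ → ℝ
  | 0 => 1
  | (n + 1) => hh b n * b (n + 1)

lemma vec_zero (b : ℕ → ℝ) : ∀ k n, k < n → vec b k n = 0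
  | 0, n, h => by simp [vec, h.ne']
  | (k + 1), 0, h => by omega
  | (k + 1), (n + 1), h => by
    simp [vec, J, vec_zero b k n (by omega), vec_zero b k (n + 2) (by omega)]

lemma selfadj (b u v : ℕ → ℝ) (N : ℕ) :
    ∑ n ∈ range (N + 1), hh b n * (J b u n * v n - u n * J b v n) =
      hh b (N + 1) * (u (N + 1) * v N - u N * v (N + 1)) := by
  induction N with
  | zero => simp [J, hh]; ring
  | succ N ih => rw [sum_range_succ, ih]; simp only [J, hh]; ring

lemma bil (b : ℕ → ℝ) (N : ℕ) : ∀ a c, a + c ≤ N →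
    ∑ n ∈ range (N + 1), hh b n * (vec b a n * vec b c n) = mom b (a + c)
  | 0, c, _ => by
    rw [sum_range_succ']; simp [vec, mom, hh]
  | (a + 1), c, h => by
    have h1 := selfadj b (vec b a) (vec b c) N
    rw [vec_zero b a (N + 1) (by omega), vec_zero b c (N + 1) (by omega)] at h1
    have h2 := bil b N a (c + 1) (by omega)
    rw [show a + 1 + c = a + (c + 1) by ring, ← h2]
    simp only [mul_sub, sum_sub_distrib] at h1
    simp only [vec]
    linarith

lemma hh_nonneg (b : ℕ → ℝ) (hb : ∀ n, 1 ≤ n → 0 < b n) : ∀ n, 0 ≤ hh b n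
  | 0 => by simp [hh]
  | (n + 1) => mul_nonneg (hh_nonneg b hb n) (hb _ (by omega)).le

lemma cs (b : ℕ → ℝ) (hb : ∀ n, 1 ≤ n → 0 < b n) (t : ℕ → ℂ) (M j : ℕ) :
    ‖∑ k ∈ range M, t k * mom b (j + k)‖ ≤ (mom b (j + j) +
      (∑ a ∈ range M, ∑ c ∈ range M, t a * (starRingEnd ℂ) (t c) * mom b (a + c)).re) / 2 := by
  set N := 2 * M + 2 * j with hN
  set w : ℕ → ℂ := fun n => ∑ k ∈ range M, t k * vec b k n with hw
  have h1 : ∑ k ∈ range M, t k * mom b (j + k) =
      ∑ n ∈ range (N + 1), (hh b n * vec b j n : ℝ) * w n := by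
    simp only [hw, mul_sum]
    rw [sum_comm]
    refine sum_congr rfl fun k hk => ?_
    rw [← bil b N j k (by have := mem_range.mp hk; omega)]
    push_cast
    rw [mul_sum]
    exact sum_congr rfl fun n _ => by ring
  have h2 : ∑ a ∈ range M, ∑ c ∈ range M, t a * (starRingEnd ℂ) (t c) * mom b (a + c) =
      ((∑ n ∈ range (N + 1), hh b n * ‖w n‖ ^ 2 : ℝ) : ℂ) := by
    push_cast
    simp only [← Complex.mul_conj', hw, map_sum, map_mul, Complex.conj_ofReal, sum_mul_sum]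
    simp only [mul_sum]
    rw [sum_comm (s := range (N + 1))]
    refine sum_congr rfl fun a ha => ?_
    rw [sum_comm (s := range (N + 1))]
    refine sum_congr rfl fun c hc => ?_
    rw [← bil b N a c (by have := mem_range.mp ha; have := mem_range.mp hc; omega)]
    push_cast
    rw [mul_sum]
    exact sum_congr rfl fun n _ => by ring
  rw [h1, h2, Complex.ofReal_re, ← bil b N j j (by omega), ← sum_add_distrib, sum_div]
  refine (norm_sum_le _ _).trans (sum_le_sum fun n _ => ?_)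
  rw [norm_mul, Complex.norm_real, Real.norm_eq_abs, abs_mul, abs_of_nonneg (hh_nonneg b hb n)]
  have h3 := hh_nonneg b hb n
  have h4 : |vec b j n| * ‖w n‖ ≤ (vec b j n * vec b j n + ‖w n‖ ^ 2) / 2 := by
    rw [← abs_mul_abs_self]
    nlinarith [sq_nonneg (|vec b j n| - ‖w n‖)]
  have := mul_le_mul_of_nonneg_left h4 h3
  nlinarith

/-- the left side of the string equation -/
def lhs (τ t : ℝ) (b : ℕ → ℝ) (n : ℕ) : ℝ :=
  6 * b n * (b (n - 2) * b (n - 1) + b (n - 1) ^ 2 + 2 * b (n - 1) * b n + b (n - 1) * b (n + 1)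
    + b n ^ 2 + 2 * b n * b (n + 1) + b (n + 1) ^ 2 + b (n + 1) * b (n + 2))
    - 4 * τ * b n * (b (n - 1) + b n + b (n + 1)) - 2 * t * b n

def low (τ t : ℝ) (b v : ℕ → ℝ) (m : ℕ) : ℝ :=
  lhs τ t b (m + 1) * v (m + 1) + b (m + 1) * b (m + 2) * b (m + 3) *
    (6 * (b m + b (m + 1) + b (m + 2) + b (m + 3) + b (m + 4)) - 4 * τ) * v (m + 3) +
    6 * (b (m + 1) * b (m + 2) * b (m + 3) * b (m + 4) * b (m + 5)) * v (m + 5)

lemma comm (τ t : ℝ) (b : ℕ → ℝ) (h0 : b 0 = 0) (hE : ∀ n, 1 ≤ n → lhs τ t b n = n)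
    (v : ℕ → ℝ) (m : ℕ) : low τ t b (J b v) m = J b (low τ t b v) m + v m := by
  have e1 := hE (m + 1) (by omega)
  match m with
  | 0 =>
    simp only [low, J, zero_add] at e1 ⊢
    have : lhs τ t b 1 * (v 0 + b 2 * v 2) = v 0 + lhs τ t b 1 * b 2 * v 2 := by
      rw [e1]; push_cast; ring
    rw [this]
    simp only [lhs, h0]
    norm_num [h0]
    ring
  | (m + 1) =>
    have e0 := hE (m + 1) (by omega)
    simp only [low, J] at e1 ⊢
    have : lhs τ t b (m + 1 + 1) * (v (m + 1) + b (m + 1 + 2) * v (m + 1 + 2)) =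
        v (m + 1) + lhs τ t b (m + 1) * v (m + 1) +
          lhs τ t b (m + 1 + 1) * b (m + 3) * v (m + 3) := by
      rw [e1, e0]; push_cast; ring
    rw [this]
    generalize lhs τ t b (m + 1) = L
    simp only [lhs, add_assoc]
    norm_num
    rw [show m + 3 - 2 = m + 1 by omega]
    ring

lemma J_smul (b v : ℕ → ℝ) (c : ℝ) (m : ℕ) : J b (fun n => c * v n) m = c * J b v m := by
  cases m <;> simp only [J] <;> ring

lemma low_vec (τ t : ℝ) (b : ℕ → ℝ) (h0 : b 0 = 0) (hE : ∀ n, 1 ≤ n → lhs τ t b n = n) :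
    ∀ k, low τ t b (vec b k) = fun m => k * vec b (k - 1) m
  | 0 => by funext m; simp [low, vec]
  | (k + 1) => by
    funext m
    rw [vec, comm τ t b h0 hE, low_vec τ t b h0 hE k, J_smul]
    cases k with
    | zero => simp
    | succ k => simp only [add_tsub_cancel_right, vec]; push_cast; ring

lemma pearson (τ t : ℝ) (b : ℕ → ℝ) (h0 : b 0 = 0) (hE : ∀ n, 1 ≤ n → lhs τ t b n = n) (k : ℕ) :
    k * mom b (k - 1) = 6 * mom b (k + 5) - 4 * τ * mom b (k + 3) - 2 * t * mom b (k + 1) := by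
  have h := congrFun (low_vec τ t b h0 hE k) 0
  simp only [mom, ← h, vec, low, J, lhs]
  norm_num [h0]
  ring

lemma mom0 (b : ℕ → ℝ) : mom b 0 = 1 := by simp [mom, vec]
lemma mom2 (b : ℕ → ℝ) : mom b 2 = b 1 := by simp [mom, vec, J]
lemma mom4 (b : ℕ → ℝ) : mom b 4 = b 1 * (b 1 + b 2) := by simp [mom, vec, J]

end Pool.Agent.H11.Freud
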