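import Mathlib

set_option autoImplicit false

namespace Pool.Agent.H11.Freud

open Finset Filter Topology

def Ent (a : ℕ → ℂ) : Prop := ∀ R : ℝ, 0 ≤ R → Summable fun k => ‖a k‖ * R ^ k / k.factorial

noncomputable def E (a : ℕ → ℂ) (ξ : ℝ) : ℂ := ∑' k, a k * (ξ : ℂ) ^ k / k.factorial

lemma HasSum.congr_fun' {f g : ℕ → ℂ} {a : ℂ} (h : HasSum f a) (e : ∀ k, g k = f k) :
    HasSum g a := by
  rwa [show g = f from funext e]

lemma Ent.aux {a : ℕ → ℂ} (h : Ent a) (R : ℝ) (hR : 0 ≤ R) :
    Summable fun k => ‖a k‖ * (k * R ^ (k - 1)) / k.factorial := by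
  refine Summable.of_nonneg_of_le (fun k => by positivity) (fun k => ?_)
    (h (2 * (R + 1)) (by positivity))
  have h1 : (k : ℝ) ≤ 2 ^ k := by exact_mod_cast (Nat.lt_two_pow_self).le
  have h2 : R ^ (k - 1) ≤ (R + 1) ^ k :=
    (pow_le_pow_left₀ hR (by linarith) _).trans (pow_le_pow_right₀ (by linarith) (by omega))
  rw [mul_pow]
  gcongr

lemma Ent.shift {a : ℕ → ℂ} (h : Ent a) : Ent fun k => a (k + 1) := by
  intro R hR
  have := (summable_nat_add_iff 1).mpr (h.aux R hR)
  refine this.congr fun k => ?_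
  simp only [add_tsub_cancel_right, Nat.factorial_succ]
  push_cast
  field_simp

lemma Ent.hasSum {a : ℕ → ℂ} (h : Ent a) (ξ : ℝ) :
    HasSum (fun k => a k * (ξ : ℂ) ^ k / k.factorial) (E a ξ) := by
  refine (Summable.of_norm ?_).hasSum
  refine (h |ξ| (abs_nonneg _)).congr fun k => ?_
  simp

lemma Ent.deriv {a : ℕ → ℂ} (h : Ent a) (ξ : ℝ) :
    HasDerivAt (E a) (E (fun k => a (k + 1)) ξ) ξ := by
  set R := |ξ| + 1 with hR
  have hξ : ξ ∈ Set.Ioo (-R) R := by
    constructor <;> linarith [neg_abs_le ξ, le_abs_self ξ]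
  have key := hasDerivAt_tsum_of_isPreconnected (h.aux R (by positivity)) isOpen_Ioo
    isPreconnected_Ioo (g := fun k (y : ℝ) => a k * (y : ℂ) ^ k / k.factorial)
    (g' := fun k (y : ℝ) => a k * (k * (y : ℂ) ^ (k - 1)) / k.factorial)
    (fun k y _ => by
      have := ((hasDerivAt_pow k (y : ℂ)).comp_ofReal.const_mul (a k)).div_const (k.factorial : ℂ)
      simpa using this)
    (fun k y hy => by
      have hy' : |y| ≤ R := abs_le.mpr ⟨hy.1.le, hy.2.le⟩
      simp only [norm_div, norm_mul, norm_pow, Complex.norm_natCast, Complex.norm_real,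
        Real.norm_eq_abs]
      gcongr) hξ (h.hasSum ξ).summable hξ
  have h2 := h.shift.hasSum ξ
  have h3 : HasSum (fun k => a k * (k * (ξ : ℂ) ^ (k - 1)) / k.factorial)
      (E (fun k => a (k + 1)) ξ) := by
    rw [← hasSum_nat_add_iff' 1]
    simp only [range_one, sum_singleton, CharP.cast_eq_zero, zero_mul, mul_zero, zero_div, sub_zero,
      add_tsub_cancel_right]
    refine HasSum.congr_fun' h2 fun k => ?_
    have : ((k : ℂ) + 1) ≠ 0 := by exact_mod_cast Nat.succ_ne_zero k
    rw [Nat.factorial_succ]; push_cast; field_simp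
  rw [h3.tsum_eq] at key
  exact key

lemma Ent.mul {a : ℕ → ℂ} (h : Ent a) (ξ : ℝ) :
    HasSum (fun k : ℕ => k * a (k - 1) * (ξ : ℂ) ^ k / k.factorial) (ξ * E a ξ) := by
  rw [← hasSum_nat_add_iff' 1]
  simp only [range_one, sum_singleton, CharP.cast_eq_zero, zero_mul, zero_div, sub_zero,
    add_tsub_cancel_right]
  refine HasSum.congr_fun' ((h.hasSum ξ).mul_left (ξ : ℂ)) fun k => ?_
  have : ((k : ℂ) + 1) ≠ 0 := by exact_mod_cast Nat.succ_ne_zero k
  have h2 : (k.factorial : ℂ) ≠ 0 := by exact_mod_cast Nat.factorial_ne_zero k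
  rw [Nat.factorial_succ]; push_cast; field_simp; ring

lemma growth (τ t : ℝ) (μ : ℕ → ℝ)
    (hP : ∀ k : ℕ, k * μ (k - 1) = 6 * μ (k + 5) - 4 * τ * μ (k + 3) - 2 * t * μ (k + 1)) :
    ∃ C A : ℝ, 0 ≤ C ∧ 0 ≤ A ∧ ∀ k, |μ k| ≤ C * A ^ k * (k / 2).factorial := by
  set A := 1 + |τ| + |t| with hA
  have hA1 : 1 ≤ A := by have := abs_nonneg τ; have := abs_nonneg t; linarith
  set C := ∑ i ∈ range 6, |μ i| with hC
  have hC0 : 0 ≤ C := sum_nonneg fun _ _ => abs_nonneg _
  refine ⟨C, A, hC0, by linarith, fun k => ?_⟩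
  induction k using Nat.strong_induction_on with
  | _ k ih =>
    rcases lt_or_ge k 6 with hk | hk
    · have h1 : |μ k| ≤ C := single_le_sum (f := fun i => |μ i|) (fun _ _ => abs_nonneg _)
        (mem_range.mpr hk)
      have h2 : 1 ≤ A ^ k := one_le_pow₀ hA1
      have h3 : (1 : ℝ) ≤ (k / 2).factorial := by exact_mod_cast Nat.factorial_pos _
      calc |μ k| ≤ C * 1 * 1 := by linarith
        _ ≤ _ := by gcongr
    · obtain ⟨k, rfl⟩ := Nat.exists_eq_add_of_le' hk
      have e := hP (k + 1)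
      simp only [add_tsub_cancel_right, add_assoc] at e
      norm_num at e
      set F : ℝ := Nat.cast ((k + 6) / 2).factorial with hF
      have hF0 : 0 ≤ F := by positivity
      have b0 : (k + 1) * |μ k| ≤ C * A ^ (k + 5) * F := by
        have h1 := ih k (by omega)
        have h2 : ((k + 1) * (k / 2).factorial : ℝ) ≤ F := by
          rw [hF, show (k + 6) / 2 = k / 2 + 1 + 1 + 1 by omega, Nat.factorial_succ,
            Nat.factorial_succ, Nat.factorial_succ]
          have h3 : k + 1 ≤ (k / 2 + 1 + 1 + 1) * ((k / 2 + 1 + 1) * (k / 2 + 1)) := by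
            have : k + 1 ≤ 2 * (k / 2 + 1) := by omega
            nlinarith [Nat.zero_le (k / 2), Nat.zero_le ((k / 2) * (k / 2)),
              Nat.zero_le ((k / 2) * (k / 2) * (k / 2))]
          have h4 := Nat.mul_le_mul_right (k / 2).factorial h3
          have h5 : (k + 1) * (k / 2).factorial ≤
            (k / 2 + 1 + 1 + 1) * ((k / 2 + 1 + 1) * ((k / 2 + 1) * (k / 2).factorial)) := by
            linarith
          exact_mod_cast h5
        have h3 : A ^ k ≤ A ^ (k + 5) := pow_le_pow_right₀ hA1 (by omega)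
        calc (k + 1) * |μ k| ≤ (k + 1) * (C * A ^ k * (k / 2).factorial) := by gcongr
          _ = C * A ^ k * ((k + 1) * (k / 2).factorial) := by ring
          _ ≤ _ := by gcongr
      have bb : ∀ i, i < 6 → |μ (k + i)| ≤ C * A ^ (k + 5) * F := fun i hi => by
        have h1 := ih (k + i) (by omega)
        have h2 : (((k + i) / 2).factorial : ℝ) ≤ F := by
          rw [hF]; exact_mod_cast Nat.factorial_le (by omega)
        have h3 : A ^ (k + i) ≤ A ^ (k + 5) := pow_le_pow_right₀ hA1 (by omega)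
        exact h1.trans (by gcongr)
      have b4 := bb 4 (by omega)
      have b2 := bb 2 (by omega)
      have e2 : μ (k + 6) = ((k + 1) * μ k + 4 * τ * μ (k + 4) + 2 * t * μ (k + 2)) / 6 := by
        linarith
      have h6 : |μ (k + 6)| ≤ ((k + 1) * |μ k| + 4 * |τ| * |μ (k + 4)| +
          2 * |t| * |μ (k + 2)|) / 6 := by
        rw [e2, abs_div, abs_of_pos (by norm_num : (0 : ℝ) < 6)]
        gcongr
        refine (abs_add_three _ _ _).trans (le_of_eq ?_)
        simp only [abs_mul]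
        rw [abs_of_nonneg (by positivity : (0 : ℝ) ≤ k + 1)]
        norm_num
      set X := C * A ^ (k + 5) * F with hX
      have hX0 : 0 ≤ X := by positivity
      have : C * A ^ (k + 6) * F = A * X := by rw [hX]; ring
      rw [this, hA]
      have := abs_nonneg τ
      have := abs_nonneg t
      have c4 := mul_le_mul_of_nonneg_left b4 (abs_nonneg τ)
      have c2 := mul_le_mul_of_nonneg_left b2 (abs_nonneg t)
      nlinarith [mul_nonneg (abs_nonneg τ) hX0, mul_nonneg (abs_nonneg t) hX0]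

lemma ent_of_growth (a : ℕ → ℂ) (C A : ℝ) (hC : 0 ≤ C) (hA : 0 ≤ A)
    (h : ∀ k, ‖a k‖ ≤ C * A ^ k * (k / 2).factorial) : Ent a := by
  intro R hR
  have hs : Summable fun k : ℕ => C * ((A * R) ^ k / (k / 2).factorial) := by
    apply Summable.mul_left
    apply Summable.even_add_odd
    · refine (Real.summable_pow_div_factorial ((A * R) ^ 2)).congr fun k => ?_
      rw [← pow_mul, show 2 * k / 2 = k by omega]
    · refine ((Real.summable_pow_div_factorial ((A * R) ^ 2)).mul_left (A * R)).congr fun k => ?_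
      rw [← pow_mul, show (2 * k + 1) / 2 = k by omega, pow_succ]; ring
  refine Summable.of_nonneg_of_le (fun k => by positivity) (fun k => ?_) hs
  have h1 : (k / 2).factorial * (k / 2).factorial ≤ k.factorial := by
    refine le_trans (Nat.le_of_dvd (Nat.factorial_pos _)
      (Nat.factorial_mul_factorial_dvd_factorial_add _ _)) (Nat.factorial_le (by omega))
  have h2 : ((k / 2).factorial * (k / 2).factorial : ℝ) ≤ k.factorial := by exact_mod_cast h1
  have h3 : (0 : ℝ) < (k / 2).factorial := by positivity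
  calc ‖a k‖ * R ^ k / k.factorial
      ≤ C * A ^ k * (k / 2).factorial * R ^ k / ((k / 2).factorial * (k / 2).factorial) := by
        gcongr; exact h k
    _ = _ := by rw [mul_pow]; field_simp

lemma binom {K : Type*} [Field K] [CharZero K] (x y : K) (n : ℕ) :
    ∑ p ∈ antidiagonal n, x ^ p.1 / p.1.factorial * (y ^ p.2 / p.2.factorial) =
      (x + y) ^ n / n.factorial := by
  rw [(Commute.all x y).add_pow', sum_div]
  refine sum_congr rfl fun p hp => ?_
  rw [← mem_antidiagonal.mp hp, nsmul_eq_mul, Nat.cast_add_choose]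
  have h1 : (p.1.factorial : K) ≠ 0 := by exact_mod_cast Nat.factorial_ne_zero _
  have h2 : (p.2.factorial : K) ≠ 0 := by exact_mod_cast Nat.factorial_ne_zero _
  have h3 : ((p.1 + p.2).factorial : K) ≠ 0 := by exact_mod_cast Nat.factorial_ne_zero _
  field_simp

lemma dbl (μ : ℕ → ℝ) (hμ : Ent fun k => (μ k : ℂ)) (z : ℂ) (hz : (starRingEnd ℂ) z = -z) :
    Tendsto (fun M => ∑ a ∈ range M, ∑ c ∈ range M,
      (z ^ a / a.factorial) * (starRingEnd ℂ) (z ^ c / c.factorial) * μ (a + c)) atTop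
      (𝓝 (μ 0)) := by
  set g : ℕ × ℕ → ℂ := fun p =>
    (z ^ p.1 / p.1.factorial) * (starRingEnd ℂ) (z ^ p.2 / p.2.factorial) * μ (p.1 + p.2) with hg
  have hsum : Summable g := by
    apply Summable.of_norm
    rw [← Finset.HasAntidiagonal.sigmaAntidiagonalEquivProd.summable_iff]
    refine (summable_sigma_of_nonneg fun _ => norm_nonneg _).mpr
      ⟨fun n => (hasSum_fintype _).summable, ?_⟩
    refine (hμ (‖z‖ + ‖z‖) (by positivity)).congr fun n => ?_
    rw [tsum_fintype]
    simp only [Finset.HasAntidiagonal.sigmaAntidiagonalEquivProd_apply]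
    rw [Finset.sum_coe_sort (antidiagonal n) fun p => ‖g p‖, mul_div_assoc, ← binom, mul_sum]
    refine sum_congr rfl fun p hp => ?_
    rw [← mem_antidiagonal.mp hp]
    simp [hg]; ring
  have hval : HasSum g (μ 0) := by
    have h1 := (Finset.HasAntidiagonal.sigmaAntidiagonalEquivProd.hasSum_iff.mpr hsum.hasSum).sigma
      (g := fun n => (μ n : ℂ) * ((z + -z) ^ n / n.factorial)) (fun n => by
        have := hasSum_fintype fun p : antidiagonal n => g p
        rw [Finset.sum_coe_sort (antidiagonal n) fun p => g p] at this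
        have e : ∑ p ∈ antidiagonal n, g p = (μ n : ℂ) * ((z + -z) ^ n / n.factorial) := by
          rw [← binom, mul_sum]
          refine sum_congr rfl fun p hp => ?_
          rw [← mem_antidiagonal.mp hp]
          simp [hg, hz]; ring
        rw [e] at this
        exact this)
    have h2 : HasSum (fun n : ℕ => (μ n : ℂ) * ((z + -z) ^ n / n.factorial)) (μ 0) := by
      have := hasSum_single (f := fun n : ℕ => (μ n : ℂ) * ((z + -z) ^ n / n.factorial)) 0
        (fun n hn => by simp [hn])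
      simpa using this
    rw [← h1.unique h2]
    exact hsum.hasSum
  have h1 : Tendsto (fun M : ℕ => range M ×ˢ range M) atTop atTop :=
    tendsto_finsetProd_atTop.comp (tendsto_finset_range.prod_atTop tendsto_finset_range |>.comp
      (tendsto_atTop_diagonal))
  have := Tendsto.comp hval h1
  refine this.congr fun M => ?_
  simp only [Function.comp, sum_product, hg]

lemma Ent.shiftN {a : ℕ → ℂ} (h : Ent a) : ∀ j, Ent fun k => a (j + k)
  | 0 => by simpa using h
  | (j + 1) => by
    have := (Ent.shiftN h j).shift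
    simpa only [add_assoc, add_comm 1] using this

noncomputable def phi (μ : ℕ → ℝ) (j : ℕ) : ℝ → ℂ :=
  E fun k => μ (j + k) * Complex.I ^ (j + k)

section
variable {μ : ℕ → ℝ} (hμ : Ent fun k => (μ k : ℂ))
include hμ

lemma entI (j : ℕ) : Ent fun k => (μ (j + k) : ℂ) * Complex.I ^ (j + k) := by
  intro R hR
  simpa using hμ.shiftN j R hR

lemma phi_deriv (j : ℕ) (ξ : ℝ) : HasDerivAt (phi μ j) (phi μ (j + 1) ξ) ξ := by
  have := (entI hμ j).deriv ξ
  simpa only [phi, add_assoc, add_comm 1] using this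

lemma phi_zero (j : ℕ) : phi μ j 0 = μ j * Complex.I ^ j := by
  have h1 := (entI hμ j).hasSum 0
  have h2 := hasSum_single (f := fun k : ℕ => (μ (j + k) : ℂ) * Complex.I ^ (j + k) *
    ((0 : ℝ) : ℂ) ^ k / k.factorial) 0 (fun n hn => by simp [hn])
  simpa [phi] using h1.unique h2

lemma phi_bdd (hcs : ∀ (t : ℕ → ℂ) (M j : ℕ), ‖∑ k ∈ range M, t k * μ (j + k)‖ ≤ (μ (j + j) +
      (∑ a ∈ range M, ∑ c ∈ range M, t a * (starRingEnd ℂ) (t c) * μ (a + c)).re) / 2)
    (j : ℕ) (ξ : ℝ) : ‖phi μ j ξ‖ ≤ (μ (j + j) + μ 0) / 2 := by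
  have h1 := ((entI hμ j).hasSum ξ).tendsto_sum_nat.norm
  have h2 := ((Complex.continuous_re.tendsto _).comp
    (dbl μ hμ (Complex.I * ξ) (by simp))).const_add (μ (j + j)) |>.div_const 2
  rw [Complex.ofReal_re] at h2
  refine le_of_tendsto_of_tendsto' h1 h2 fun M => ?_
  refine le_trans (le_of_eq ?_) (hcs (fun k => (Complex.I * ξ) ^ k / k.factorial) M j)
  have : ∑ k ∈ range M, (μ (j + k) : ℂ) * Complex.I ^ (j + k) * (ξ : ℂ) ^ k / k.factorial =
      Complex.I ^ j * ∑ k ∈ range M, (Complex.I * ξ) ^ k / k.factorial * μ (j + k) := by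
    rw [mul_sum]; exact sum_congr rfl fun k _ => by ring
  rw [this]; simp

lemma phi_ode (τ t : ℝ)
    (hP : ∀ k : ℕ, k * μ (k - 1) = 6 * μ (k + 5) - 4 * τ * μ (k + 3) - 2 * t * μ (k + 1))
    (j : ℕ) (ξ : ℝ) : ξ * phi μ j ξ + j * phi μ (j - 1) ξ =
      -6 * phi μ (j + 5) ξ - 4 * τ * phi μ (j + 3) ξ + 2 * t * phi μ (j + 1) ξ := by
  have h1 := ((entI hμ j).mul ξ).add (((entI hμ (j - 1)).hasSum ξ).mul_left (j : ℂ))
  have h2 := ((((entI hμ (j + 5)).hasSum ξ).mul_left (-6 : ℂ)).sub
    (((entI hμ (j + 3)).hasSum ξ).mul_left (4 * τ : ℂ))).add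
    (((entI hμ (j + 1)).hasSum ξ).mul_left (2 * t : ℂ))
  refine h1.unique (HasSum.congr_fun' h2 fun k => ?_)
  have key : ∀ m : ℕ, (m : ℂ) * (μ (m - 1) * Complex.I ^ (m - 1)) =
      -6 * (μ (m + 5) * Complex.I ^ (m + 5)) - 4 * τ * (μ (m + 3) * Complex.I ^ (m + 3)) +
        2 * t * (μ (m + 1) * Complex.I ^ (m + 1)) := by
    intro m
    have e : ((m : ℂ) * μ (m - 1)) = 6 * μ (m + 5) - 4 * τ * μ (m + 3) - 2 * t * μ (m + 1) := by
      exact_mod_cast hP m
    have i2 : Complex.I ^ 2 = -1 := Complex.I_sq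
    cases m with
    | zero =>
      simp only [CharP.cast_eq_zero, zero_mul, zero_add] at e ⊢
      linear_combination (-Complex.I) * e + (6 * μ 5 * Complex.I * (Complex.I ^ 2 - 1) +
        4 * τ * μ 3 * Complex.I) * i2
    | succ m =>
      simp only [add_tsub_cancel_right] at e ⊢
      linear_combination Complex.I ^ m * e + Complex.I ^ m *
        (6 * μ (m + 1 + 5) * (Complex.I ^ 4 - Complex.I ^ 2 + 1) +
          4 * τ * μ (m + 1 + 3) * (Complex.I ^ 2 - 1) - 2 * t * μ (m + 1 + 1)) * i2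
  have k1 := key (j + k)
  have k2 : (k : ℂ) * (μ (j + (k - 1)) * Complex.I ^ (j + (k - 1))) =
      k * (μ (j + k - 1) * Complex.I ^ (j + k - 1)) := by
    cases k with
    | zero => simp
    | succ k => rfl
  have k3 : (j : ℂ) * (μ (j - 1 + k) * Complex.I ^ (j - 1 + k)) =
      j * (μ (j + k - 1) * Complex.I ^ (j + k - 1)) := by
    cases j with
    | zero => simp
    | succ j => rw [show j + 1 - 1 + k = j + 1 + k - 1 by omega]
  rw [show j + 5 + k = j + k + 5 by ring, show j + 3 + k = j + k + 3 by ring,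
    show j + 1 + k = j + k + 1 by ring]
  push_cast at k1
  linear_combination ((ξ : ℂ) ^ k / k.factorial) * (k1 + k2 + k3)

end

end Pool.Agent.H11.Freud
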