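import Mathlib

namespace Pool.Agent.H11.Ham

open Equiv Finset

set_option linter.unusedSectionVars false

variable {G : Type} [Fintype G] [DecidableEq G]

def ee (a b : G) (c : Perm G) : ℤ := if c a = b then 1 else 0

def ss (φ : Perm G) (x : G) (c : Perm G) : ℤ := ee x (φ x) c - ee (φ x) x c

open Classical in
noncomputable def CC (G : Type) [Fintype G] [DecidableEq G] : Finset (Perm G) :=
  univ.filter fun c => c.IsCycle ∧ c.support = univ

omit [Fintype G] in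
theorem ee_conj (τ c : Perm G) (a b : G) : ee (τ a) (τ b) (τ * c * τ⁻¹) = ee a b c := by
  simp [ee]

theorem mem_CC {c : Perm G} : c ∈ CC G ↔ c.IsCycle ∧ ∀ x, c x ≠ x := by
  simp only [CC, mem_filter, mem_univ, true_and]
  refine and_congr_right fun _ => ⟨fun h x => ?_, fun h => ?_⟩
  · rw [← Perm.mem_support, h]; exact mem_univ _
  · exact eq_univ_of_forall fun x => Perm.mem_support.2 (h x)

theorem conj_mem (τ : Perm G) {c : Perm G} (h : c ∈ CC G) : τ * c * τ⁻¹ ∈ CC G := by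
  rw [mem_CC] at h ⊢
  refine ⟨h.1.conj, fun x hx => h.2 (τ⁻¹ x) ?_⟩
  have : τ (c (τ⁻¹ x)) = x := hx
  exact Perm.eq_inv_iff_eq.2 this

theorem sum_zero (f : Perm G → ℤ) (τ : Perm G) (h : ∀ c, f (τ * c * τ⁻¹) = - f c) :
    ∑ c ∈ CC G, f c = 0 := by
  have h1 : ∑ c ∈ CC G, f (τ * c * τ⁻¹) = ∑ c ∈ CC G, f c := by
    refine Finset.sum_nbij' (fun c => τ * c * τ⁻¹) (fun c => τ⁻¹ * c * τ⁻¹⁻¹) ?_ ?_ ?_ ?_ ?_
    · intro c hc; exact conj_mem τ hc
    · intro c hc; exact conj_mem τ⁻¹ hc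
    · intro c _; group
    · intro c _; group
    · intro c _; rfl
  simp only [h, sum_neg_distrib] at h1
  omega

theorem ss_cases (φ : Perm G) (x : G) (c : Perm G) :
    ss φ x c = 0 ∨ (ss φ x c = 1 ∧ c x = φ x) ∨ (ss φ x c = -1 ∧ c (φ x) = x) := by
  unfold ss ee
  by_cases h1 : c x = φ x <;> by_cases h2 : c (φ x) = x <;> simp [h1, h2]

theorem ss_pair (φ : Perm G) (h2 : ∀ x, φ (φ x) = x → φ x = x) {c : Perm G} (hc : ∀ x, c x ≠ x)
    (y : G) : 0 ≤ ss φ y c * ss φ (φ y) c := by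
  rcases ss_cases φ y c with h | ⟨h, k⟩ | ⟨h, k⟩ <;>
    rcases ss_cases φ (φ y) c with h' | ⟨h', k'⟩ | ⟨h', k'⟩ <;> rw [h, h'] <;> try norm_num
  · have e : φ (φ y) = y := c.injective (k'.trans k.symm)
    exact hc y (k.trans (h2 y e))
  · have e : φ (φ y) = y := k'.symm.trans k
    have e2 := h2 y e
    rw [e2] at k
    exact hc y k

theorem reach (ψ d : Perm G) (o x : G) (ho : ψ o = o) (hd : d.IsCycle) (hf : ∀ y, d y ≠ y)
    (h : ∀ i : ℕ, d ((ψ ^ i) x) = (ψ ^ (i + 1)) x) : x = o := by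
  have h1 : ∀ i : ℕ, (d ^ i) x = (ψ ^ i) x := by
    intro i
    induction i with
    | zero => rfl
    | succ i ih => rw [pow_succ', Perm.mul_apply, ih, h]
  obtain ⟨i, hi⟩ := hd.exists_pow_eq (hf x) (hf o)
  rw [h1] at hi
  have h2 : (ψ ^ i) o = o := Perm.pow_apply_eq_self_of_apply_eq_self ho i
  exact (ψ ^ i).injective (hi.trans h2.symm)

theorem closed (φ : Perm G) (h2 : ∀ x, φ (φ x) = x → φ x = x) (o : G) (ho : φ o = o)
    (F : Finset G) (x : G) (hx : x ∈ F) (hF : ∀ y ∈ F, φ⁻¹ y ∈ F) {c : Perm G} (hc : c ∈ CC G) :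
    ∏ y ∈ F, ss φ y c = 0 := by
  by_contra hne
  rw [← ne_eq, prod_ne_zero_iff] at hne
  obtain ⟨hcy, hf⟩ := mem_CC.1 hc
  have hm : ∀ i : ℕ, (φ⁻¹ ^ i) x ∈ F := by
    intro i
    induction i with
    | zero => exact hx
    | succ i ih => rw [pow_succ', Perm.mul_apply]; exact hF _ ih
  have hst : ∀ i : ℕ, φ ((φ⁻¹ ^ (i + 1)) x) = (φ⁻¹ ^ i) x := by
    intro i
    rw [pow_succ', Perm.mul_apply]; simp
  have hs : ∀ i : ℕ, ss φ ((φ⁻¹ ^ i) x) c = ss φ x c := by
    intro i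
    induction i with
    | zero => rfl
    | succ i ih =>
      have h3 := ss_pair φ h2 hf ((φ⁻¹ ^ (i + 1)) x)
      rw [hst, ih] at h3
      have n1 := hne _ (hm (i + 1))
      have n2 := hne _ hx
      rcases ss_cases φ ((φ⁻¹ ^ (i + 1)) x) c with h | ⟨h, -⟩ | ⟨h, -⟩ <;>
        rcases ss_cases φ x c with h' | ⟨h', -⟩ | ⟨h', -⟩ <;> simp_all
  have ho' : φ⁻¹ o = o := Perm.inv_eq_iff_eq.2 ho.symm
  have hxo : x = o := by
    rcases ss_cases φ x c with h | ⟨h, -⟩ | ⟨h, -⟩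
    · exact absurd h (hne _ hx)
    · refine reach φ⁻¹ c⁻¹ o x ho' hcy.inv (fun y hy => hf y (Perm.inv_eq_iff_eq.1 hy).symm)
        fun i => ?_
      rcases ss_cases φ ((φ⁻¹ ^ (i + 1)) x) c with k | ⟨-, k⟩ | ⟨k, -⟩
      · exact absurd k (hne _ (hm _))
      · rw [hst] at k
        exact Perm.inv_eq_iff_eq.2 k.symm
      · rw [hs, h] at k; omega
    · refine reach φ⁻¹ c o x ho' hcy hf fun i => ?_
      rcases ss_cases φ ((φ⁻¹ ^ (i + 1)) x) c with k | ⟨k, -⟩ | ⟨-, k⟩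
      · exact absurd k (hne _ (hm _))
      · rw [hs, h] at k; omega
      · rwa [hst] at k
  apply hne _ hx
  rw [hxo]
  simp [ss, ho]

theorem even_prod (φ : Perm G) (h2 : ∀ x, φ (φ x) = x → φ x = x) {c : Perm G} (hc : ∀ x, c x ≠ x)
    (x : G) (m : ℕ) : 0 ≤ ∏ i ∈ range (2 * m), ss φ ((φ ^ i) x) c := by
  induction m with
  | zero => simp
  | succ m ih =>
    rw [show 2 * (m + 1) = 2 * m + 1 + 1 by ring, prod_range_succ, prod_range_succ, mul_assoc]
    refine mul_nonneg ih ?_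
    rw [pow_succ', Perm.mul_apply]
    exact ss_pair φ h2 hc _

def Alt (φ : Perm G) (F : Finset G) : Prop :=
  (∃ τ : Perm G, (∀ y, y ∉ F → φ⁻¹ y ∉ F → τ y = y) ∧
    ∀ c, ∏ y ∈ F, ss φ y (τ * c * τ⁻¹) = - ∏ y ∈ F, ss φ y c) ∨
  ∀ c ∈ CC G, 0 ≤ ∏ y ∈ F, ss φ y c

omit [Fintype G] in
theorem ss_fix (φ τ c : Perm G) (y : G) (h1 : τ y = y) (h2 : τ (φ y) = φ y) :
    ss φ y (τ * c * τ⁻¹) = ss φ y c := by
  unfold ss
  rw [← ee_conj τ c y (φ y), ← ee_conj τ c (φ y) y, h1, h2]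

theorem alt (φ : Perm G) (h2 : ∀ x, φ (φ x) = x → φ x = x) (o : G) (ho : φ o = o)
    (F : Finset G) : Alt φ F := by
  induction F using Finset.strongInduction with
  | H F ih =>
  by_cases hst : ∃ x ∈ F, φ⁻¹ x ∉ F
  swap
  · right
    intro c hc
    rcases F.eq_empty_or_nonempty with rfl | ⟨x, hx⟩
    · simp
    · refine (closed φ h2 o ho F x hx (fun y hy => ?_) hc).ge
      by_contra hn
      exact hst ⟨y, hy, hn⟩
  obtain ⟨x, hx, hxs⟩ := hst
  have hex : ∃ k : ℕ, (φ ^ k) x ∉ F := by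
    refine ⟨orderOf φ - 1, ?_⟩
    have h1 : φ ^ (orderOf φ - 1) = φ⁻¹ := by
      rw [eq_inv_iff_mul_eq_one, ← pow_succ, Nat.sub_add_cancel (orderOf_pos φ), pow_orderOf_eq_one]
    rwa [h1]
  obtain ⟨k, hk, hlt⟩ : ∃ k : ℕ, (φ ^ k) x ∉ F ∧ ∀ i < k, (φ ^ i) x ∈ F :=
    ⟨Nat.find hex, Nat.find_spec hex, fun i hi => not_not.1 (Nat.find_min hex hi)⟩
  have hk0 : 0 < k := by
    rcases k with _ | k
    · exact absurd hx hk
    · omega
  have hstep : ∀ i : ℕ, φ ((φ ^ i) x) = (φ ^ (i + 1)) x := fun i => by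
    rw [pow_succ', Perm.mul_apply]
  have hback : ∀ i : ℕ, φ⁻¹ ((φ ^ (i + 1)) x) = (φ ^ i) x := fun i => by
    rw [← hstep]; simp
  have hinj0 : ∀ i j : ℕ, i < j → j ≤ k → (φ ^ i) x ≠ (φ ^ j) x := by
    intro i j hij hj h
    obtain ⟨d, rfl⟩ : ∃ d, j = i + (d + 1) := ⟨j - i - 1, by omega⟩
    rw [pow_add, Perm.mul_apply] at h
    have h3 := (φ ^ i).injective h
    apply hxs
    rw [h3, hback]
    exact hlt d (by omega)
  have hinj : ∀ i j : ℕ, i ≤ k → j ≤ k → (φ ^ i) x = (φ ^ j) x → i = j := by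
    intro i j hi hj h
    rcases lt_trichotomy i j with h1 | h1 | h1
    · exact absurd h (hinj0 i j h1 hj)
    · exact h1
    · exact absurd h.symm (hinj0 j i h1 hi)
  set P : Finset G := (range k).image fun i => (φ ^ i) x with hP
  have hPF : P ⊆ F := by
    intro y hy
    obtain ⟨i, hi, rfl⟩ := mem_image.1 hy
    exact hlt i (mem_range.1 hi)
  have hmemP : ∀ i < k, (φ ^ i) x ∈ P := fun i hi => mem_image.2 ⟨i, mem_range.2 hi, rfl⟩
  have hprod : ∀ c, ∏ y ∈ F, ss φ y c =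
      (∏ y ∈ F \ P, ss φ y c) * ∏ i ∈ range k, ss φ ((φ ^ i) x) c := by
    intro c
    rw [← prod_sdiff hPF, hP, prod_image]
    intro i hi j hj h
    exact hinj i j (mem_range.1 hi).le (mem_range.1 hj).le h
  have hout : ∀ i ≤ k, (φ ^ i) x ∉ F \ P ∧ φ⁻¹ ((φ ^ i) x) ∉ F \ P := by
    intro i hi
    constructor
    · intro h
      rcases hi.lt_or_eq with h1 | rfl
      · exact (mem_sdiff.1 h).2 (hmemP i h1)
      · exact hk (mem_sdiff.1 h).1
    · intro h
      rcases i with _ | i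
      · exact hxs (mem_sdiff.1 h).1
      · rw [hback] at h
        exact (mem_sdiff.1 h).2 (hmemP i (by omega))
  rcases Nat.even_or_odd' k with ⟨m, hm | hm⟩
  · have hss : F \ P ⊂ F := by
      refine sdiff_ssubset hPF ⟨_, hmemP 0 hk0⟩
    rcases ih _ hss with ⟨τ, h1, h3⟩ | h3
    · left
      refine ⟨τ, fun y hy hy' => h1 y (fun h => hy (mem_sdiff.1 h).1)
        (fun h => hy' (mem_sdiff.1 h).1), fun c => ?_⟩
      rw [hprod, hprod, h3, neg_mul]
      congr 2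
      refine prod_congr rfl fun i hi => ?_
      have hi' := mem_range.1 hi
      refine ss_fix φ τ c _ (h1 _ (hout i hi'.le).1 (hout i hi'.le).2) ?_
      rw [hstep]
      exact h1 _ (hout (i + 1) hi').1 (hout (i + 1) hi').2
    · right
      intro c hc
      rw [hprod, hm]
      exact mul_nonneg (h3 c hc) (even_prod φ h2 (mem_CC.1 hc).2 x m)
  · left
    let e : Fin (k + 1) ↪ G := ⟨fun i => (φ ^ (i : ℕ)) x, fun i j h =>
      Fin.ext (hinj i j (Nat.lt_succ_iff.1 i.2) (Nat.lt_succ_iff.1 j.2) h)⟩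
    let τ : Perm G := (Fin.revPerm).viaFintypeEmbedding e
    have t1 : ∀ i ≤ k, τ ((φ ^ i) x) = (φ ^ (k - i)) x := by
      intro i hi
      have := Perm.viaFintypeEmbedding_apply_image (Fin.revPerm) e ⟨i, Nat.lt_succ_iff.2 hi⟩
      refine this.trans ?_
      show (φ ^ ((Fin.rev ⟨i, Nat.lt_succ_iff.2 hi⟩ : Fin (k + 1)) : ℕ)) x = _
      rw [Fin.val_rev]
      congr 2
      simp
    have t2 : ∀ y, (∀ i ≤ k, (φ ^ i) x ≠ y) → τ y = y := by
      intro y hy
      apply Perm.viaFintypeEmbedding_apply_notMem_range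
      rintro ⟨i, hi⟩
      exact hy i (Nat.lt_succ_iff.1 i.2) hi
    refine ⟨τ, fun y hy hy' => t2 y fun i hi h => ?_, fun c => ?_⟩
    · rcases hi.lt_or_eq with h1 | h1
      · exact hy (h ▸ hlt i h1)
      · obtain ⟨j, rfl⟩ : ∃ j, i = j + 1 := ⟨i - 1, by omega⟩
        apply hy'
        rw [← h, hback]
        exact hlt j (by omega)
    · rw [hprod, hprod]
      have a1 : ∏ y ∈ F \ P, ss φ y (τ * c * τ⁻¹) = ∏ y ∈ F \ P, ss φ y c := by
        refine prod_congr rfl fun y hy => ss_fix φ τ c y (t2 _ fun i hi h => ?_)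
          (t2 _ fun i hi h => ?_)
        · exact (hout i hi).1 (h ▸ hy)
        · apply (hout i hi).2
          rw [h]
          simpa using hy
      have a2 : ∀ i ∈ range k, ss φ ((φ ^ i) x) (τ * c * τ⁻¹) =
          (-1) * ss φ ((φ ^ (k - 1 - i)) x) c := by
        intro i hi
        have hi' := mem_range.1 hi
        have b1 : (φ ^ i) x = τ (φ ((φ ^ (k - 1 - i)) x)) := by
          rw [hstep, t1 _ (by omega)]
          congr 2
          omega
        have b2 : φ ((φ ^ i) x) = τ ((φ ^ (k - 1 - i)) x) := by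
          rw [hstep, t1 _ (by omega)]
          congr 2
          omega
        unfold ss
        rw [b2]
        conv_lhs => rw [b1]
        rw [ee_conj, ee_conj]
        ring
      rw [a1, prod_congr rfl a2, prod_mul_distrib,
        prod_range_reflect (fun i => ss φ ((φ ^ i) x) c) k, prod_const, card_range, hm, pow_succ,
        pow_mul]
      ring

theorem weight (φ : Perm G) (h2 : ∀ x, φ (φ x) = x → φ x = x) (o : G) (ho : φ o = o) :
    ((CC G).card : ℤ) ≤ ∑ c ∈ CC G, ∏ y, (1 + ss φ y c) := by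
  simp only [prod_one_add]
  rw [sum_comm]
  have h0 : ((CC G).card : ℤ) = ∑ c ∈ CC G, ∏ y ∈ (∅ : Finset G), ss φ y c := by simp
  rw [h0]
  refine single_le_sum (f := fun F : Finset G => ∑ c ∈ CC G, ∏ y ∈ F, ss φ y c) (fun F _ => ?_)
    (mem_powerset.2 (empty_subset _))
  rcases alt φ h2 o ho F with ⟨τ, -, h⟩ | h
  · exact (sum_zero (fun c => ∏ y ∈ F, ss φ y c) τ h).ge
  · exact sum_nonneg h

theorem card_CC (h : 2 ≤ Fintype.card G) : (CC G).card = (Fintype.card G - 1).factorial := by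
  have h1 := Perm.card_of_cycleType_singleton (α := G) h le_rfl
  rw [Nat.choose_self, mul_one] at h1
  rw [← h1]
  congr 1
  ext c
  simp only [CC, mem_filter, mem_univ, true_and]
  constructor
  · rintro ⟨a, b⟩
    rw [a.cycleType, b, card_univ]
  · intro a
    have b : c.IsCycle := Perm.card_cycleType_eq_one.1 (by rw [a]; rfl)
    refine ⟨b, ?_⟩
    rw [b.cycleType, Multiset.singleton_inj] at a
    exact (card_eq_iff_eq_univ _).1 a

end Pool.Agent.H11.Ham
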