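import Pool.Agent.H11.HamA

namespace Pool.Agent.H11.Ham

open Equiv Finset

set_option linter.unusedSectionVars false

variable {G : Type} [Fintype G] [DecidableEq G] [CommRing G] [LinearOrder G]

def Cyc (x y z : G) : Prop := (x < y ∧ y < z) ∨ (y < z ∧ z < x) ∨ (z < x ∧ x < y)

theorem cyc_rot (x y z : G) : Cyc y z x ↔ Cyc x y z := by unfold Cyc; tauto

theorem cyc_swap (x y z : G) (h1 : x ≠ y) (h2 : x ≠ z) (h3 : y ≠ z) : Cyc y x z ↔ ¬ Cyc x y z := by
  unfold Cyc
  rcases lt_or_gt_of_ne h1 with a | a <;> rcases lt_or_gt_of_ne h2 with b | b <;>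
    rcases lt_or_gt_of_ne h3 with c | c <;>
    simp [a, b, c, a.not_gt, b.not_gt, c.not_gt]

def adj (σ : Finset G → Bool) (x y : G) : Prop :=
  x ≠ y ∧ (y = -2 * x ∨ (x ≠ -2 * y ∧ (σ {x, y, -x - y} = true ↔ Cyc x y (-x - y))))

theorem no2 (x : G) (h : -2 * (-2 * x) = x) : -2 * x = x := by linear_combination -h

theorem antisym (σ : Finset G → Bool) (x y : G) (h : x ≠ y) : adj σ x y ↔ ¬ adj σ y x := by
  unfold adj
  by_cases h1 : y = -2 * x
  · have h2 : x ≠ -2 * y := fun h2 => h (by rw [h1]; exact (no2 x (by rw [← h1, ← h2])).symm)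
    simp only [h, h.symm, h2, ne_eq, not_false_eq_true, true_and, false_or]
    tauto
  · by_cases h2 : x = -2 * y
    · simp only [h, h.symm, h1, ne_eq, not_false_eq_true, true_and, false_or]
      tauto
    · have e1 : -y - x = -x - y := by ring
      have e2 : ({y, x, -x - y} : Finset G) = {x, y, -x - y} := insert_comm _ _ _
      have n1 : x ≠ -x - y := fun k => h1 (by linear_combination k)
      have n2 : y ≠ -x - y := fun k => h2 (by linear_combination k)
      rw [e1, e2, cyc_swap x y _ h n1 n2]
      simp only [h, h.symm, h1, h2, ne_eq, not_false_eq_true, true_and, false_or]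
      by_cases a : σ {x, y, -x - y} = true <;> by_cases b : Cyc x y (-x - y) <;> simp [a, b]

theorem rot (σ : Finset G → Bool) (x y : G) (h : adj σ x y) (h1 : y ≠ -2 * x) :
    adj σ (-x - y) x ∧ adj σ y (-x - y) ∧ x ≠ -2 * y := by
  obtain ⟨h0, h2 | ⟨h2, h3⟩⟩ := h
  · exact absurd h2 h1
  refine ⟨⟨fun k => h1 (by linear_combination -k), Or.inr ⟨fun k => h0 (by linear_combination k), ?_⟩⟩,
    ⟨fun k => h2 (by linear_combination k), Or.inr ⟨fun k => ?_, ?_⟩⟩, h2⟩
  · have e1 : -(-x - y) - x = y := by ring
    have e2 : ({-x - y, x, y} : Finset G) = {x, y, -x - y} := by ext; simp; tauto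
    rw [e1, e2, h3]
    exact cyc_rot _ _ _
  · exact h1 (by linear_combination -k)
  · have e1 : -y - (-x - y) = x := by ring
    have e2 : ({y, -x - y, x} : Finset G) = {x, y, -x - y} := by ext; simp; tauto
    rw [e1, e2, h3]
    exact (cyc_rot _ _ _).symm

noncomputable def ph (h2 : ∀ x : G, 2 * x = 0 → x = 0) : Perm G :=
  Equiv.ofBijective (fun x => -2 * x) (Finite.injective_iff_bijective.1 fun x y h =>
    sub_eq_zero.1 (h2 _ (by have h' : -2 * x = -2 * y := h; linear_combination -h')))

theorem ph_apply (h2 : ∀ x : G, 2 * x = 0 → x = 0) (x : G) : ph h2 x = -2 * x := rfl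

theorem degree (h2 : ∀ x : G, 2 * x = 0 → x = 0) (σ : Finset G → Bool) (v : G) :
    {w | adj σ v w}.ncard = (Fintype.card G - 1) / 2 := by
  classical
  obtain ⟨u, hu⟩ := (ph h2).surjective v
  rw [ph_apply] at hu
  have hinj : ∀ a, -2 * a = v → a = u := fun a ha => (ph h2).injective (ha.trans hu.symm)
  have h1 : (univ.filter fun w => adj σ v w).card = (univ.filter fun w => adj σ w v).card := by
    refine card_nbij' (fun y => if y = -2 * v then u else -v - y)
      (fun z => if z = u then -2 * v else -v - z) ?_ ?_ ?_ ?_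
    · intro y hy
      have hy' : adj σ v y := by simpa using hy
      simp only [coe_filter, mem_univ, true_and, Set.mem_ofPred_eq]
      split_ifs with h
      · exact ⟨fun k => hy'.1 (by rw [h, ← k, hu, k]), Or.inl hu.symm⟩
      · exact (rot σ v y hy' h).1
    · intro z hz
      have hz' : adj σ z v := by simpa using hz
      simp only [coe_filter, mem_univ, true_and, Set.mem_ofPred_eq]
      split_ifs with h
      · exact ⟨fun k => hz'.1 (by rw [h]; exact (hinj v k.symm).symm), Or.inl rfl⟩
      · have := (rot σ z v hz' fun k => h (hinj z k.symm)).2.1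
        rwa [show -z - v = -v - z by ring] at this
    · intro y hy
      have hy' : adj σ v y := by simpa using hy
      by_cases h : y = -2 * v
      · simp [h]
      · have h3 := (rot σ v y hy' h).2.2
        have h4 : -v - y ≠ u := fun k => h3 (by
          have : y = u := by linear_combination -k + hu
          rw [this, hu])
        simp only [h, h4, if_false]
        ring
    · intro z hz
      have hz' : adj σ z v := by simpa using hz
      by_cases h : z = u
      · simp [h]
      · have h4 : -v - z ≠ -2 * v := fun k => hz'.1 (by linear_combination -k)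
        simp only [h, h4, if_false]
        ring
  have h3 : (univ.filter fun w => adj σ v w).card + (univ.filter fun w => adj σ w v).card =
      Fintype.card G - 1 := by
    rw [← card_union_of_disjoint, ← card_univ, ← card_erase_of_mem (mem_univ v)]
    · congr 1
      ext w
      simp only [mem_union, mem_filter, mem_univ, true_and, mem_erase, and_true]
      constructor
      · rintro (h | h)
        · exact h.1.symm
        · exact h.1
      · intro h
        have := antisym σ w v h
        tauto
    · rw [disjoint_left]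
      intro w a b
      simp only [mem_filter, mem_univ, true_and] at a b
      exact (antisym σ v w a.1).1 a b
  have h5 : {w | adj σ v w} = ((univ.filter fun w => adj σ v w : Finset G) : Set G) := by simp
  rw [h5, Set.ncard_coe_finset]
  omega

theorem no_two (h3 : 3 ≤ Fintype.card G) {c : Perm G} (hc : c ∈ CC G) (v : G) : c (c v) ≠ v := by
  intro h
  obtain ⟨hcy, hf⟩ := mem_CC.1 hc
  have h1 : ∀ i : ℕ, (c ^ i) v = v ∨ (c ^ i) v = c v := by
    intro i
    induction i with
    | zero => exact Or.inl rfl
    | succ i ih =>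
      rw [pow_succ', Perm.mul_apply]
      rcases ih with k | k <;> rw [k]
      · exact Or.inr rfl
      · exact Or.inl h
  have h2 : (univ : Finset G) ⊆ {v, c v} := by
    intro y _
    obtain ⟨i, hi⟩ := hcy.exists_pow_eq (hf v) (hf y)
    rw [← hi]
    simpa using h1 i
  have h4 := card_le_card h2
  have h5 : ({v, c v} : Finset G).card ≤ 2 := card_le_two
  rw [card_univ] at h4
  omega

open Classical in
theorem fiber (h2 : ∀ x : G, 2 * x = 0 → x = 0) (h3 : 3 ≤ Fintype.card G) {c : Perm G}
    (hc : c ∈ CC G) : (2 : ℤ) ^ Fintype.card (Finset G) * ∏ y, (1 + ss (ph h2) y c) ≤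
      2 ^ Fintype.card G * ((univ.filter fun σ : Finset G → Bool => ∀ v, adj σ v (c v)).card : ℤ) := by
  obtain ⟨-, hf⟩ := mem_CC.1 hc
  by_cases hb : ∃ x, c (-2 * x) = x
  · obtain ⟨x, hx⟩ := hb
    have h0 : 1 + ss (ph h2) x c = 0 := by
      have : c x ≠ -2 * x := fun k => no_two h3 hc x (by rw [k, hx])
      unfold ss ee
      rw [ph_apply, if_neg this, if_pos hx]
      norm_num
    rw [prod_eq_zero (mem_univ x) h0, mul_zero]
    positivity
  have hb' : ∀ x, c (-2 * x) ≠ x := fun x h => hb ⟨x, h⟩
  set N : Finset G := univ.filter fun v => c v ≠ -2 * v with hN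
  set D : Finset (Finset G) := N.image fun v => ({v, c v, -v - c v} : Finset G) with hD
  have hw : ∏ y, (1 + ss (ph h2) y c) = 2 ^ (Fintype.card G - N.card) := by
    have : ∀ y, 1 + ss (ph h2) y c = if y ∈ N then 1 else 2 := by
      intro y
      unfold ss ee
      rw [ph_apply, if_neg (hb' y)]
      by_cases h : c y = -2 * y
      · have hy : y ∉ N := fun k => (mem_filter.1 k).2 h
        rw [if_pos h, if_neg hy]
        norm_num
      · have hy : y ∈ N := mem_filter.2 ⟨mem_univ _, h⟩
        rw [if_neg h, if_pos hy]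
        norm_num
    simp only [this]
    rw [prod_ite, prod_const_one, one_mul, prod_const]
    congr 1
    rw [← card_compl]
    congr 1
    ext y
    simp
  have hnv : ∀ v, v ≠ -2 * c v := fun v k => hb' (c v) (by rw [← k])
  let g : Finset G → Bool := fun t => decide (∃ v ∈ N, ({v, c v, -v - c v} : Finset G) = t ∧
    Cyc v (c v) (-v - c v))
  have hg : ∀ v ∈ N, (g {v, c v, -v - c v} = true ↔ Cyc v (c v) (-v - c v)) := by
    intro v hv
    simp only [g, decide_eq_true_eq]
    refine ⟨?_, fun h => ⟨v, hv, rfl, h⟩⟩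
    rintro ⟨w, -, he, hw⟩
    have m1 : w ∈ ({v, c v, -v - c v} : Finset G) := he ▸ by simp
    have m2 : c w ∈ ({v, c v, -v - c v} : Finset G) := he ▸ by simp
    simp only [mem_insert, mem_singleton] at m1 m2
    rcases m1 with m1 | m1 | m1
    · rwa [m1] at hw
    · rcases m2 with m2 | m2 | m2
      · exact absurd (m1 ▸ m2) (no_two h3 hc v)
      · exact absurd (m2.trans m1.symm) (hf w)
      · rw [m2, m1, show -c v - (-v - c v) = v by ring] at hw
        exact (cyc_rot _ _ _).1 hw
    · rcases m2 with m2 | m2 | m2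
      · rw [m2, m1, show -(-v - c v) - v = c v by ring] at hw
        exact (cyc_rot _ _ _).2 hw
      · rw [c.injective m2] at hw
        exact hw
      · exact absurd (m2.trans m1.symm) (hf w)
  have hsub : Fintype.piFinset (fun t : Finset G => if t ∈ D then ({g t} : Finset Bool) else univ) ⊆
      univ.filter fun σ : Finset G → Bool => ∀ v, adj σ v (c v) := by
    intro σ hσ
    rw [Fintype.mem_piFinset] at hσ
    simp only [mem_filter, mem_univ, true_and]
    intro v
    refine ⟨(hf v).symm, ?_⟩
    by_cases h : c v = -2 * v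
    · exact Or.inl h
    · have hv : v ∈ N := mem_filter.2 ⟨mem_univ _, h⟩
      have k := hσ {v, c v, -v - c v}
      rw [if_pos (mem_image.2 ⟨v, hv, rfl⟩), mem_singleton] at k
      exact Or.inr ⟨hnv v, by rw [k]; exact hg v hv⟩
  have hcard := card_le_card hsub
  rw [Fintype.card_piFinset] at hcard
  have hp : ∏ t : Finset G, (if t ∈ D then ({g t} : Finset Bool) else univ).card =
      2 ^ (Fintype.card (Finset G) - D.card) := by
    have : ∀ t : Finset G, (if t ∈ D then ({g t} : Finset Bool) else univ).card =
        if t ∈ D then 1 else 2 := by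
      intro t
      split_ifs <;> simp
    simp only [this]
    rw [prod_ite, prod_const_one, one_mul, prod_const]
    congr 1
    rw [← card_compl]
    congr 1
    ext y
    simp
  rw [hp] at hcard
  have d1 : D.card ≤ N.card := card_image_le
  have d2 : N.card ≤ Fintype.card G := card_le_univ _
  have d3 : D.card ≤ Fintype.card (Finset G) := card_le_univ _
  rw [hw]
  have hz : ((2 ^ (Fintype.card (Finset G) - D.card) : ℕ) : ℤ) ≤ _ := Int.ofNat_le.2 hcard
  refine le_trans ?_ (mul_le_mul_of_nonneg_left hz (by positivity))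
  push_cast
  rw [← pow_add, ← pow_add]
  exact pow_le_pow_right₀ (by norm_num) (by omega)

open Classical in
theorem exists_good (h2 : ∀ x : G, 2 * x = 0 → x = 0) (h3 : 3 ≤ Fintype.card G) :
    ∃ σ : Finset G → Bool, ((Fintype.card G - 1).factorial : ℤ) ≤
      2 ^ Fintype.card G * (((CC G).filter fun c => ∀ v, adj σ v (c v)).card : ℤ) := by
  have hw := weight (ph h2) (fun x h => no2 x h) 0 (by simp [ph_apply])
  rw [card_CC (by omega)] at hw
  have h1 : ∑ _σ : Finset G → Bool, ((Fintype.card G - 1).factorial : ℤ) ≤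
      ∑ σ : Finset G → Bool,
        2 ^ Fintype.card G * (((CC G).filter fun c => ∀ v, adj σ v (c v)).card : ℤ) := by
    have e1 : ∑ σ : Finset G → Bool, (((CC G).filter fun c => ∀ v, adj σ v (c v)).card : ℤ) =
        ∑ c ∈ CC G, ((univ.filter fun σ : Finset G → Bool => ∀ v, adj σ v (c v)).card : ℤ) := by
      simp only [card_filter]
      push_cast
      exact sum_comm
    rw [← mul_sum, e1, mul_sum, sum_const, card_univ, Fintype.card_fun, Fintype.card_bool,
      nsmul_eq_mul]
    push_cast
    refine le_trans (mul_le_mul_of_nonneg_left hw (by positivity)) ?_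
    rw [mul_sum]
    exact sum_le_sum fun c hc => fiber h2 h3 hc
  obtain ⟨σ, -, h⟩ := exists_le_of_sum_le univ_nonempty h1
  exact ⟨σ, h⟩

end Pool.Agent.H11.Ham
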