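import Mathlib

set_option autoImplicit false

namespace Pool.Agent.H11.KL

open Cardinal Set Topology Filter

/-- the bound for small sets -/
noncomputable def c (n : ℕ) : Cardinal.{0} := Cardinal.aleph (n : Ordinal)

lemma c_inf (n : ℕ) : ℵ₀ ≤ c n := Cardinal.aleph0_le_aleph _

lemma c_lt (n : ℕ) : c n < c (n + 1) := by
  unfold c
  rw [Cardinal.aleph_lt_aleph]
  exact_mod_cast Nat.lt_succ_self n

lemma c_mono {m n : ℕ} (h : m ≤ n) : c m ≤ c n := by
  unfold c
  rw [Cardinal.aleph_le_aleph]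
  exact_mod_cast h

/-- test spaces -/
def A (n : ℕ) : Type := (c (n + 1)).out

lemma mk_A (n : ℕ) : #(A n) = c (n + 1) := Cardinal.mk_out _

lemma small_union {α : Type} {n : ℕ} {s t : Set α} (hs : #s ≤ c n) (ht : #t ≤ c n) :
    #(s ∪ t : Set α) ≤ c n :=
  (Cardinal.mk_union_le s t).trans (Cardinal.add_le_of_le (c_inf n) hs ht)

lemma small_mono {α : Type} {n : ℕ} {s t : Set α} (h : s ⊆ t) (ht : #t ≤ c n) : #s ≤ c n :=
  (Cardinal.mk_le_mk_of_subset h).trans ht

lemma small_single {α : Type} (n : ℕ) (a : α) : #({a} : Set α) ≤ c n := by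
  rw [Cardinal.mk_singleton]
  exact Cardinal.one_le_aleph0.trans (c_inf n)

lemma small_iUnion {α ι : Type} {n : ℕ} (f : ι → Set α) (hι : #ι ≤ c n) (hf : ∀ i, #(f i) ≤ c n) :
    #(⋃ i, f i) ≤ c n := by
  refine (Cardinal.mk_iUnion_le_sum_mk).trans ?_
  refine (Cardinal.sum_le_sum _ (fun _ => c n) hf).trans ?_
  rw [Cardinal.sum_const']
  calc #ι * c n ≤ c n * c n := by gcongr
    _ = c n := Cardinal.mul_eq_self (c_inf n)

lemma exists_not_mem {n : ℕ} {s : Set (A n)} (hs : #s ≤ c n) : ∃ a, a ∉ s := by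
  by_contra h
  push Not at h
  have : s = Set.univ := eq_univ_of_forall h
  rw [this, Cardinal.mk_univ, mk_A] at hs
  exact absurd (c_lt n) (not_lt.2 hs)

instance topA (n : ℕ) : TopologicalSpace (A n) where
  IsOpen U := U = ∅ ∨ #(Uᶜ : Set (A n)) ≤ c n
  isOpen_univ := Or.inr (by simp)
  isOpen_inter s t hs ht := by
    rcases hs with rfl | hs
    · left; simp
    rcases ht with rfl | ht
    · left; simp
    right; rw [compl_inter]; exact small_union hs ht
  isOpen_sUnion S hS := by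
    by_cases h : ∀ U ∈ S, U = ∅
    · left; simpa [sUnion_eq_empty] using h
    · push Not at h
      obtain ⟨U, hU, hne⟩ := h
      rcases hS U hU with h | h
      · exact absurd h hne.ne_empty
      · right; exact small_mono (compl_subset_compl.2 (subset_sUnion_of_mem hU)) h

lemma isOpen_A {n : ℕ} {U : Set (A n)} : IsOpen U ↔ (U = ∅ ∨ #(Uᶜ : Set (A n)) ≤ c n) := Iff.rfl

/-- the reflections -/
def R (n : ℕ) : Type := Option (A n)

def inf (n : ℕ) : R n := (none : Option (A n))

def eta (n : ℕ) (a : A n) : R n := (some a : Option (A n))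

lemma eta_ne {n : ℕ} (a : A n) : eta n a ≠ inf n := Option.some_ne_none a

lemma eta_inj {n : ℕ} : Function.Injective (eta n) := Option.some_injective _

lemma cases_R {n : ℕ} (x : R n) : x = inf n ∨ ∃ a, x = eta n a := by
  rcases x with _ | a
  · left; rfl
  · right; exact ⟨a, rfl⟩

instance topR (n : ℕ) : TopologicalSpace (R n) where
  IsOpen U := U = ∅ ∨ (inf n ∈ U ∧ #(Uᶜ : Set (R n)) ≤ c n)
  isOpen_univ := Or.inr (by simp)
  isOpen_inter s t hs ht := by
    rcases hs with rfl | hs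
    · left; simp
    rcases ht with rfl | ht
    · left; simp
    right; refine ⟨⟨hs.1, ht.1⟩, ?_⟩; rw [compl_inter]; exact small_union hs.2 ht.2
  isOpen_sUnion S hS := by
    by_cases h : ∀ U ∈ S, U = ∅
    · left; simpa [sUnion_eq_empty] using h
    · push Not at h
      obtain ⟨U, hU, hne⟩ := h
      rcases hS U hU with h | h
      · exact absurd h hne.ne_empty
      · right
        exact ⟨⟨U, hU, h.1⟩, small_mono (compl_subset_compl.2 (subset_sUnion_of_mem hU)) h.2⟩

lemma isOpen_R {n : ℕ} {U : Set (R n)} :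
    IsOpen U ↔ (U = ∅ ∨ (inf n ∈ U ∧ #(Uᶜ : Set (R n)) ≤ c n)) := Iff.rfl

lemma open_compl_A {n : ℕ} {s : Set (A n)} (hs : #s ≤ c n) : IsOpen sᶜ :=
  isOpen_A.2 (Or.inr (by rwa [compl_compl]))

lemma open_compl_R {n : ℕ} {s : Set (R n)} (h : inf n ∉ s) (hs : #s ≤ c n) : IsOpen sᶜ :=
  isOpen_R.2 (Or.inr ⟨h, by rwa [compl_compl]⟩)

instance t0A (n : ℕ) : T0Space (A n) := by
  rw [t0Space_iff_exists_isOpen_xor_mem]
  intro a b hab
  exact ⟨{a}ᶜ, open_compl_A (small_single n a), Or.inr ⟨by simpa using hab.symm, by simp⟩⟩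

instance t0R (n : ℕ) : T0Space (R n) := by
  rw [t0Space_iff_exists_isOpen_xor_mem]
  intro a b hab
  by_cases ha : a = inf n
  · refine ⟨{b}ᶜ, open_compl_R ?_ (small_single n b), Or.inl ⟨by simpa using hab, by simp⟩⟩
    rw [← ha]; simpa using hab
  · exact ⟨{a}ᶜ, open_compl_R (by simpa using fun h => ha h.symm) (small_single n a),
      Or.inr ⟨by simpa using hab.symm, by simp⟩⟩

instance neA (n : ℕ) : Nonempty (A n) := by
  obtain ⟨a, -⟩ := exists_not_mem (n := n) (s := ∅) (by simp)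
  exact ⟨a⟩

/-- the filter of sets with small complement -/
def F (n : ℕ) : Filter (A n) where
  sets := {U | #(Uᶜ : Set (A n)) ≤ c n}
  univ_sets := by simp
  sets_of_superset hx hxy := small_mono (compl_subset_compl.2 hxy) hx
  inter_sets hx hy := by
    show #(_ : Set (A n)) ≤ c n
    rw [compl_inter]; exact small_union hx hy

lemma mem_F {n : ℕ} {U : Set (A n)} : U ∈ F n ↔ #(Uᶜ : Set (A n)) ≤ c n := Iff.rfl

instance F_ne (n : ℕ) : (F n).NeBot := by
  rw [← forall_mem_nonempty_iff_neBot]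
  intro U hU
  obtain ⟨a, ha⟩ := exists_not_mem (mem_F.1 hU)
  exact ⟨a, by simpa using ha⟩

lemma tendsto_F {m : ℕ} {T : Type} [TopologicalSpace T] {f : A m → T} (hf : Continuous f) {y : T}
    (hy : y ∈ closure (range f)) : Tendsto f (F m) (𝓝 y) := by
  rw [tendsto_nhds]
  intro U hU hyU
  obtain ⟨_, hz, a, rfl⟩ := mem_closure_iff.1 hy U hU hyU
  rcases isOpen_A.1 (hU.preimage hf) with h | h
  · exact absurd h (Set.Nonempty.ne_empty ⟨a, hz⟩)
  · exact h

lemma irred (m : ℕ) : IsIrreducible (univ : Set (A m)) := by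
  refine ⟨univ_nonempty, ?_⟩
  rintro U V hU hV ⟨a, -, ha⟩ ⟨b, -, hb⟩
  have h1 : U ∈ F m := (isOpen_A.1 hU).resolve_left (Set.Nonempty.ne_empty ⟨a, ha⟩)
  have h2 : V ∈ F m := (isOpen_A.1 hV).resolve_left (Set.Nonempty.ne_empty ⟨b, hb⟩)
  simpa using (F_ne m).nonempty_of_mem (inter_mem h1 h2)

/-- `y` is the generic point of the closure of the image of `f` -/
def Gen {α T : Type} [TopologicalSpace T] (f : α → T) (y : T) : Prop :=
  (∀ a, y ⤳ f a) ∧ y ∈ closure (range f)

lemma Gen.unique {α T : Type} [TopologicalSpace T] [T0Space T] {f : α → T} {y z : T}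
    (hy : Gen f y) (hz : Gen f z) : y = z := by
  have key : ∀ {y z : T}, Gen f y → Gen f z → y ⤳ z := by
    intro y z hy hz
    rw [specializes_iff_mem_closure]
    refine closure_minimal ?_ isClosed_closure hz.2
    rintro _ ⟨a, rfl⟩
    exact specializes_iff_mem_closure.1 (hy.1 a)
  exact (Specializes.antisymm (key hy hz) (key hz hy)).eq

lemma Gen.map {α T T' : Type} [TopologicalSpace T] [TopologicalSpace T'] {f : α → T} {y : T}
    (hy : Gen f y) {g : T → T'} (hg : Continuous g) : Gen (g ∘ f) (g y) := by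
  refine ⟨fun a => (hy.1 a).map hg, ?_⟩
  rw [range_comp]
  exact image_closure_subset_closure_image hg ⟨y, hy.2, rfl⟩

lemma Gen.of_sub {α T : Type} [TopologicalSpace T] {B : Set T} {f : α → B} {y : B}
    (hy : Gen (Subtype.val ∘ f) y.1) : Gen f y := by
  refine ⟨fun a => (subtype_specializes_iff _ _).2 (hy.1 a), ?_⟩
  rw [closure_subtype, ← range_comp]
  exact hy.2

/-- the Keimel Lawson class -/
def K (Y : Type) [TopologicalSpace Y] : Prop :=
  T0Space Y ∧ ∀ (m : ℕ) (f : A m → Y), Continuous f → ∃ y, Gen f y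

lemma sober_gen {Y : Type} [TopologicalSpace Y] [QuasiSober Y] {m : ℕ} {f : A m → Y}
    (hf : Continuous f) : ∃ y, Gen f y := by
  have h1 : IsIrreducible (range f) := by
    rw [← image_univ]; exact (irred m).image f hf.continuousOn
  obtain ⟨y, hy⟩ := QuasiSober.sober h1.closure isClosed_closure
  exact ⟨y, fun a => hy.specializes (subset_closure ⟨a, rfl⟩), hy.mem⟩

lemma K_sober (X : Type) [TopologicalSpace X] [T0Space X] [QuasiSober X] : K X :=
  ⟨inferInstance, fun _ _ hf => sober_gen hf⟩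

lemma K_homeo (X Y : Type) [TopologicalSpace X] [TopologicalSpace Y] (h : Nonempty (X ≃ₜ Y))
    (hX : K X) : K Y := by
  obtain ⟨e⟩ := h
  have := hX.1
  refine ⟨e.t0Space, fun m f hf => ?_⟩
  obtain ⟨y, hy⟩ := hX.2 m (e.symm ∘ f) (e.symm.continuous.comp hf)
  have := hy.map e.continuous
  have e2 : e ∘ e.symm ∘ f = f := by funext a; simp
  rw [e2] at this
  exact ⟨_, this⟩

lemma K_inter (Y : Type) [TopologicalSpace Y] [T0Space Y] [QuasiSober Y] (S : Set (Set Y))
    (hS : ∀ B ∈ S, K ↥B) : K ↥(⋂₀ S) := by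
  refine ⟨inferInstance, fun m f hf => ?_⟩
  obtain ⟨s, hs⟩ := sober_gen (continuous_subtype_val.comp hf)
  have : s ∈ ⋂₀ S := by
    intro B hB
    obtain ⟨b, hb⟩ := (hS B hB).2 m (fun a => ⟨(f a).1, (f a).2 B hB⟩)
      ((continuous_subtype_val.comp hf).subtype_mk _)
    have h2 := hb.map continuous_subtype_val
    have : s = b.1 := hs.unique h2
    rw [this]; exact b.2
  exact ⟨⟨s, this⟩, Gen.of_sub hs⟩

lemma K_pre (X Y : Type) [TopologicalSpace X] [TopologicalSpace Y] [T0Space X] [QuasiSober X]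
    [T0Space Y] [QuasiSober Y] (g : X → Y) (hg : Continuous g) (B : Set Y) (hB : K ↥B) :
    K ↥(g ⁻¹' B) := by
  refine ⟨inferInstance, fun m f hf => ?_⟩
  obtain ⟨s, hs⟩ := sober_gen (continuous_subtype_val.comp hf)
  have : s ∈ g ⁻¹' B := by
    obtain ⟨b, hb⟩ := hB.2 m (fun a => ⟨g (f a).1, (f a).2⟩)
      ((hg.comp (continuous_subtype_val.comp hf)).subtype_mk _)
    have h2 := hb.map continuous_subtype_val
    have h3 := hs.map hg
    have : g s = b.1 := h3.unique h2
    show g s ∈ B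
    rw [this]; exact b.2
  exact ⟨⟨s, this⟩, Gen.of_sub hs⟩

lemma inf_spec {n : ℕ} (x : R n) : inf n ⤳ x := by
  rw [specializes_iff_forall_open]
  intro U hU hx
  exact ((isOpen_R.1 hU).resolve_left (Set.Nonempty.ne_empty ⟨x, hx⟩)).1

/-- small fibres of a non-constant map -/
lemma fibre_small {m n : ℕ} {f : A m → R n} (hf : Continuous f)
    (hc : ¬ ∃ a, ∀ x, f x = eta n a) (a : A n) : #(f ⁻¹' {eta n a}) ≤ c m := by
  have h1 : IsOpen ({eta n a}ᶜ : Set (R n)) :=
    open_compl_R (by simpa using (eta_ne a).symm) (small_single n _)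
  rcases isOpen_A.1 (h1.preimage hf) with h | h
  · exfalso
    refine hc ⟨a, fun x => ?_⟩
    have : x ∉ f ⁻¹' ({eta n a}ᶜ) := by rw [h]; simp
    simpa using this
  · simpa [preimage_compl] using h

lemma pre_small {m n : ℕ} {f : A m → R n} (hf : Continuous f)
    (hc : ¬ ∃ a, ∀ x, f x = eta n a) {s : Set (R n)} (h1 : inf n ∉ s) (h2 : #s ≤ c n) :
    #(f ⁻¹' s) ≤ c m := by
  by_cases hne : (f ⁻¹' s) = ∅
  · rw [hne]; simp
  obtain ⟨x, hx⟩ := nonempty_iff_ne_empty.2 hne
  rcases cases_R (f x) with h | ⟨a, ha⟩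
  · exact absurd (h ▸ hx) h1
  have h3 : IsOpen ((s \ {eta n a})ᶜ : Set (R n)) :=
    open_compl_R (fun h => h1 h.1) (small_mono sdiff_subset h2)
  rcases isOpen_A.1 (h3.preimage hf) with h | h
  · exfalso
    have : x ∈ f ⁻¹' ((s \ {eta n a})ᶜ) := by simp [ha]
    rw [h] at this; exact this
  · refine small_mono ?_ (small_union h (fibre_small hf hc a))
    intro y hy
    by_cases hy' : f y = eta n a
    · right; exact hy'
    · left; simpa using ⟨hy, hy'⟩

lemma gen_inf {m n : ℕ} {f : A m → R n} (hf : Continuous f)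
    (hc : ¬ ∃ a, ∀ x, f x = eta n a) : Gen f (inf n) := by
  refine ⟨fun a => inf_spec _, ?_⟩
  rw [mem_closure_iff]
  intro U hU hi
  have h := ((isOpen_R.1 hU).resolve_left (Set.Nonempty.ne_empty ⟨_, hi⟩)).2
  obtain ⟨x, hx⟩ := exists_not_mem (pre_small hf hc (s := Uᶜ) (by simpa using hi) h)
  exact ⟨f x, by simpa using hx, x, rfl⟩

lemma gen_const {m n : ℕ} {f : A m → R n} {a : A n} (h : ∀ x, f x = eta n a) :
    Gen f (eta n a) := by
  refine ⟨fun x => by rw [h x], subset_closure ?_⟩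
  obtain ⟨x⟩ := neA m
  exact ⟨x, h x⟩

lemma K_R (n : ℕ) : K (R n) := by
  refine ⟨inferInstance, fun m f hf => ?_⟩
  by_cases hc : ∃ a, ∀ x, f x = eta n a
  · obtain ⟨a, ha⟩ := hc
    exact ⟨_, gen_const ha⟩
  · exact ⟨_, gen_inf hf hc⟩

lemma eta_cont (n : ℕ) : Continuous (eta n) := by
  refine ⟨fun U hU => ?_⟩
  rcases isOpen_R.1 hU with rfl | h
  · simp
  · refine isOpen_A.2 (Or.inr ?_)
    rw [← preimage_compl]
    exact (Cardinal.mk_preimage_of_injective _ _ eta_inj).trans h.2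

lemma eta_nonconst (n : ℕ) : ¬ ∃ a, ∀ x, eta n x = eta n a := by
  rintro ⟨a, ha⟩
  obtain ⟨b, hb⟩ := exists_not_mem (small_single n a)
  exact hb (eta_inj (ha b))

lemma refl_R (n : ℕ) (Z : Type) [TopologicalSpace Z] (hZ : K Z) (g : A n → Z)
    (hg : Continuous g) : ∃! h : R n → Z, Continuous h ∧ h ∘ eta n = g := by
  have := hZ.1
  obtain ⟨y, hy⟩ := hZ.2 n g hg
  let h : R n → Z := fun x => Option.elim (x : Option (A n)) y g
  have h0 : h (inf n) = y := rfl
  have h1 : ∀ a, h (eta n a) = g a := fun a => rfl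
  refine ⟨h, ⟨⟨fun U hU => ?_⟩, rfl⟩, ?_⟩
  · by_cases hyU : y ∈ U
    · refine isOpen_R.2 (Or.inr ⟨hyU, ?_⟩)
      have h2 : g ⁻¹' U ∈ F n := tendsto_F hg hy.2 (hU.mem_nhds hyU)
      refine small_mono (t := eta n '' (g ⁻¹' U)ᶜ) ?_ (Cardinal.mk_image_le.trans h2)
      intro x hx
      rcases cases_R x with rfl | ⟨a, rfl⟩
      · exact absurd hyU hx
      · exact ⟨a, hx, rfl⟩
    · refine isOpen_R.2 (Or.inl ?_)
      rw [eq_empty_iff_forall_notMem]
      intro x hx
      rcases cases_R x with rfl | ⟨a, rfl⟩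
      · exact hyU hx
      · exact hyU ((hy.1 a).mem_open hU hx)
  · rintro h' ⟨hc, he⟩
    have h3 := (gen_inf (eta_cont n) (eta_nonconst n)).map hc
    rw [he] at h3
    funext x
    rcases cases_R x with rfl | ⟨a, rfl⟩
    · rw [h0]; exact h3.unique hy
    · rw [h1, ← he]; rfl

lemma off_small {m n : ℕ} (hmn : n ≠ m) {f : A m → R n} (hf : Continuous f)
    (hc : ¬ ∃ a, ∀ x, f x = eta n a) : #{x | f x ≠ inf n} ≤ c m := by
  rcases lt_or_gt_of_ne hmn with h | h
  · refine small_mono (t := ⋃ a : A n, f ⁻¹' {eta n a}) ?_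
      (small_iUnion _ (by rw [mk_A]; exact c_mono h) (fibre_small hf hc))
    intro x hx
    rcases cases_R (f x) with h | ⟨a, ha⟩
    · exact absurd h hx
    · exact mem_iUnion.2 ⟨a, ha⟩
  · refine small_mono (t := f ⁻¹' (range f \ {inf n})) ?_ (pre_small hf hc (by simp) ?_)
    · intro x hx
      exact ⟨⟨x, rfl⟩, hx⟩
    · refine small_mono sdiff_subset (Cardinal.mk_range_le.trans ?_)
      rw [mk_A]; exact c_mono h

/-- points of the product with finitely many coordinates at infinity -/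
def Z : Set (∀ n, R n) := {x | {n | x n = inf n}.Finite}

lemma K_Z : K ↥Z := by
  classical
  refine ⟨inferInstance, fun m f hf => ?_⟩
  have hfn : ∀ n, Continuous (fun a => (f a).1 n) := fun n =>
    (continuous_apply n).comp (continuous_subtype_val.comp hf)
  choose s hs using fun n => (K_R n).2 m _ (hfn n)
  have hsZ : s ∈ Z := by
    let bad : ℕ → Set (A m) := fun n => if s n = inf n ∧ n ≠ m then {x | (f x).1 n ≠ inf n} else ∅
    have hbad : ∀ n, #(bad n) ≤ c m := by
      intro n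
      by_cases h : s n = inf n ∧ n ≠ m
      · simp only [bad, if_pos h]
        refine off_small h.2 (hfn n) ?_
        rintro ⟨a, ha⟩
        exact eta_ne a (((gen_const ha).unique (hs n)).trans h.1)
      · simp only [bad, if_neg h]; simp
    obtain ⟨x, hx⟩ := exists_not_mem (small_iUnion bad (by simpa using c_inf m) hbad)
    refine ((f x).2.insert m).subset ?_
    intro n hn
    by_cases h : n = m
    · left; exact h
    · right
      by_contra h2
      apply hx
      refine mem_iUnion.2 ⟨n, ?_⟩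
      have h' : s n = inf n ∧ n ≠ m := ⟨hn, h⟩
      simp only [bad, if_pos h']
      exact h2
  refine ⟨⟨s, hsZ⟩, Gen.of_sub ⟨fun a => specializes_pi.2 fun n => (hs n).1 a, ?_⟩⟩
  have : Tendsto (Subtype.val ∘ f) (F m) (𝓝 s) :=
    tendsto_pi_nhds.2 fun n => tendsto_F (hfn n) (hs n).2
  exact mem_closure_of_tendsto this (Eventually.of_forall fun a => ⟨a, rfl⟩)

/-- the inclusion of the product of the test spaces in `Z` -/
def incl (x : ∀ n, A n) : ↥Z :=
  ⟨fun n => eta n (x n), by
    have : {n | eta n (x n) = inf n} = ∅ := by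
      rw [eq_empty_iff_forall_notMem]; intro n hn; exact eta_ne _ hn
    show {n | eta n (x n) = inf n}.Finite
    rw [this]; exact finite_empty⟩

lemma incl_cont : Continuous incl :=
  (continuous_pi fun n => (eta_cont n).comp (continuous_apply n)).subtype_mk _

lemma spec_eta {n : ℕ} {x : R n} (h : ∀ a, x ⤳ eta n a) : x = inf n := by
  rcases cases_R x with h1 | ⟨a, rfl⟩
  · exact h1
  · exfalso
    obtain ⟨b, hb⟩ := exists_not_mem (small_single n a)
    have h1 : IsOpen ({eta n a}ᶜ : Set (R n)) :=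
      open_compl_R (by simpa using (eta_ne a).symm) (small_single n _)
    have := (h b).mem_open h1 (fun e => hb (eta_inj e))
    simp at this

lemma no_top (z : ↥Z) : ¬ ∀ x : ∀ n, A n, z ⤳ incl x := by
  classical
  intro h
  have h1 : ∀ n, z.1 n = inf n := by
    intro n
    apply spec_eta
    intro a
    have x0 : ∀ n, A n := fun n => Classical.choice (neA n)
    have := specializes_pi.1 ((subtype_specializes_iff _ _).1 (h (Function.update x0 n a))) n
    simpa [incl] using this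
  have h2 : {n | z.1 n = inf n} = Set.univ := eq_univ_of_forall h1
  have h3 : {n | z.1 n = inf n}.Finite := z.2
  rw [h2] at h3
  exact infinite_univ h3

lemma no_ext : ¬ ∃ h : (∀ n, R n) → ↥Z, Continuous h ∧
    (h ∘ fun (x : ∀ n, A n) (n : ℕ) => eta n (x n)) = incl := by
  rintro ⟨h, hc, he⟩
  apply no_top (h fun n => inf n)
  intro x
  rw [← he]
  exact (specializes_pi.2 fun n => inf_spec _).map hc

end Pool.Agent.H11.KL
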