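import Mathlib

set_option autoImplicit false

namespace Pool.Agent.H11.Mac

open Finset Filter Topology

noncomputable def bump (k n : ℕ) : ℝ := max 0 (k - |(n : ℝ) - 2 * 100 ^ k| / (k + 1))

noncomputable def u (n : ℕ) : ℝ := bump (Nat.log 100 n) n

lemma pw (k : ℕ) : k * (k + 1) + 1 ≤ 100 ^ k := by
  induction k with
  | zero => simp
  | succ k ih => rw [pow_succ]; nlinarith

lemma bump_zero (k n : ℕ) (h : (k : ℝ) * (k + 1) ≤ |(n : ℝ) - 2 * 100 ^ k|) : bump k n = 0 := by
  apply max_eq_left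
  rw [sub_nonpos, le_div_iff₀ (by positivity)]
  exact h

lemma u_nonneg (n : ℕ) : 0 ≤ u n := le_max_left _ _

lemma u_step (n : ℕ) : |u (n + 1) - u n| ≤ 1 / (Nat.log 100 n + 1) := by
  set k := Nat.log 100 n with hk
  by_cases h : Nat.log 100 (n + 1) = k
  · rw [u, u, h, ← hk, bump, bump, max_comm, max_comm 0]
    refine (abs_max_sub_max_le_abs _ _ _).trans ?_
    rw [sub_sub_sub_cancel_left, ← sub_div, abs_div, abs_of_pos (by positivity : (0 : ℝ) < k + 1)]
    gcongr
    refine (abs_abs_sub_abs_le _ _).trans ?_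
    push_cast
    simp
  · have h1 : n < 100 ^ (k + 1) := Nat.lt_pow_succ_log_self (by norm_num) n
    have h2 : n + 1 = 100 ^ (k + 1) := by
      by_contra h2
      apply h
      apply le_antisymm
      · exact Nat.lt_succ_iff.mp (Nat.log_lt_of_lt_pow (by omega) (by omega))
      · exact Nat.log_mono_right (by omega)
    have h3 : Nat.log 100 (n + 1) = k + 1 := by rw [h2, Nat.log_pow (by norm_num)]
    have h4 : (n : ℝ) + 1 = 100 ^ (k + 1) := by exact_mod_cast h2
    have p1 : (k : ℝ) * (k + 1) + 1 ≤ 100 ^ k := by exact_mod_cast pw k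
    have p2 : ((k + 1 : ℕ) : ℝ) * ((k + 1 : ℕ) + 1) + 1 ≤ 100 ^ (k + 1) := by exact_mod_cast pw (k + 1)
    have p3 : (0 : ℝ) < 100 ^ k := by positivity
    rw [u, u, h3, ← hk, bump_zero, bump_zero]
    · simp; positivity
    · refine le_trans ?_ (le_abs_self _)
      rw [pow_succ] at h4; linarith
    · refine le_trans ?_ (neg_le_abs _)
      push_cast at p2 ⊢; linarith

lemma u_slow : Tendsto (fun n => u (n + 1) - u n) atTop (𝓝 0) := by
  have h1 : Tendsto (Nat.log 100) atTop atTop := by
    refine tendsto_atTop_atTop.mpr fun b => ⟨100 ^ b, fun a ha => ?_⟩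
    exact Nat.le_log_of_pow_le (by norm_num) ha
  exact squeeze_zero_norm u_step (tendsto_one_div_add_atTop_nhds_zero_nat.comp h1)

lemma u_big (M : ℝ) : ∃ᶠ n in atTop, M ≤ u n := by
  rw [frequently_atTop]
  intro a
  obtain ⟨k, hk⟩ := exists_nat_ge M
  refine ⟨2 * 100 ^ (k + a), ?_, ?_⟩
  · have := pw (k + a); nlinarith
  · have : Nat.log 100 (2 * 100 ^ (k + a)) = k + a := by
      have : 0 < 100 ^ (k + a) := by positivity
      apply Nat.log_eq_of_pow_le_of_lt_pow
      · omega
      · rw [pow_succ]; omega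
    rw [u, this, bump]
    refine le_trans ?_ (le_max_right _ _)
    push_cast
    simp only [sub_self, abs_zero, zero_div, sub_zero]
    have : (0 : ℝ) ≤ a := by positivity
    linarith

lemma block (k : ℕ) : ∑ i ∈ Ico (100 ^ k) (100 ^ (k + 1)), u i ≤ k * (2 * (k * (k + 1))) := by
  rw [← sum_filter_ne_zero]
  have h1 : ∀ i ∈ Ico (100 ^ k) (100 ^ (k + 1)), u i = bump k i := fun i hi => by
    rw [mem_Ico] at hi
    rw [u, Nat.log_eq_of_pow_le_of_lt_pow hi.1 hi.2]
  refine (sum_le_card_nsmul _ _ (k : ℝ) fun i hi => ?_).trans ?_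
  · rw [h1 i (mem_filter.mp hi).1, bump]
    refine max_le (by positivity) (sub_le_self _ (by positivity))
  · have : filter (fun i => u i ≠ 0) (Ico (100 ^ k) (100 ^ (k + 1))) ⊆
        Ico (2 * 100 ^ k - k * (k + 1)) (2 * 100 ^ k + k * (k + 1)) := by
      intro i hi
      rw [mem_filter] at hi
      have h2 := hi.2
      rw [h1 i hi.1] at h2
      have h3 := mt (bump_zero k i) h2
      rw [not_le, abs_lt] at h3
      have h4 : 2 * 100 ^ k < i + k * (k + 1) := by
        have : (2 * 100 ^ k : ℝ) < i + k * (k + 1) := by linarith [h3.1]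
        exact_mod_cast this
      have h5 : i < 2 * 100 ^ k + k * (k + 1) := by
        have : (i : ℝ) < 2 * 100 ^ k + k * (k + 1) := by linarith [h3.2]
        exact_mod_cast this
      rw [mem_Ico]; omega
    have h6 := card_le_card this
    rw [Nat.card_Ico] at h6
    have h7 : #(filter (fun i => u i ≠ 0) (Ico (100 ^ k) (100 ^ (k + 1)))) ≤ 2 * (k * (k + 1)) := by
      omega
    rw [nsmul_eq_mul, mul_comm]
    gcongr
    exact_mod_cast h7

lemma blocks (k : ℕ) : ∑ i ∈ range (100 ^ (k + 1)), u i ≤ 100 ^ k / 2 := by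
  induction k with
  | zero =>
    rw [sum_eq_zero]
    · norm_num
    · intro i hi
      rw [u, Nat.log_of_lt (by simpa using hi)]
      exact bump_zero _ _ (by simp)
  | succ k ih =>
    rw [← sum_range_add_sum_Ico _ (Nat.pow_le_pow_right (by norm_num) (Nat.le_succ (k + 1)))]
    have h1 := block (k + 1)
    have h2 : ∀ k : ℕ, (k + 1) * (2 * ((k + 1) * (k + 1 + 1))) ≤ 49 * 100 ^ k := by
      intro k
      induction k with
      | zero => norm_num
      | succ k ih => rw [pow_succ]; nlinarith [Nat.zero_le (k * k), Nat.zero_le (k * k * k)]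
    have h3 : ((k + 1 : ℕ) * (2 * ((k + 1 : ℕ) * ((k + 1 : ℕ) + 1))) : ℝ) ≤ 49 * 100 ^ k := by
      exact_mod_cast h2 k
    have p3 : (0 : ℝ) < 100 ^ k := by positivity
    rw [pow_succ (100 : ℝ)]
    linarith

lemma u_sum : Tendsto (fun n : ℕ => (n : ℝ) - ∑ i ∈ range n, u i) atTop atTop := by
  refine tendsto_atTop_mono' atTop ?_ (tendsto_natCast_atTop_atTop.atTop_div_const two_pos)
  filter_upwards [eventually_ne_atTop 0] with n hn
  have h1 : n < 100 ^ (Nat.log 100 n + 1) := Nat.lt_pow_succ_log_self (by norm_num) n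
  have h2 : (100 : ℝ) ^ Nat.log 100 n ≤ n := by exact_mod_cast Nat.pow_log_le_self 100 hn
  have h3 : ∑ i ∈ range n, u i ≤ ∑ i ∈ range (100 ^ (Nat.log 100 n + 1)), u i :=
    sum_le_sum_of_subset_of_nonneg (range_subset_range.mpr h1.le) fun i _ _ => u_nonneg i
  have := blocks (Nat.log 100 n)
  linarith

noncomputable def r (n : ℕ) : ℝ := Real.exp (1 - u n)
noncomputable def s (n : ℕ) : ℝ := Real.exp (n - ∑ i ∈ range n, u i)

lemma s_pos (n : ℕ) : 0 < s n := Real.exp_pos _
lemma r_pos (n : ℕ) : 0 < r n := Real.exp_pos _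
lemma s_succ (n : ℕ) : s (n + 1) = s n * r n := by
  rw [s, s, r, ← Real.exp_add, sum_range_succ]; push_cast; ring_nf
lemma r_le (n : ℕ) : r n ≤ 3 := by
  have := u_nonneg n
  exact (Real.exp_le_exp.mpr (by linarith)).trans Real.exp_one_lt_three.le
lemma s_top : Tendsto s atTop atTop := Real.tendsto_exp_atTop.comp u_sum
lemma s_le (n j : ℕ) : s (n + j) ≤ s n * 3 ^ j := by
  induction j with
  | zero => simp
  | succ j ih =>
    rw [← add_assoc, s_succ, pow_succ, ← mul_assoc]
    exact mul_le_mul ih (r_le _) (r_pos _).le (by have := s_pos n; positivity)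

lemma r_slow : Tendsto (fun n => r (n + 1) - r n) atTop (𝓝 0) := by
  have h1 : Tendsto (fun n => 3 * ‖Real.exp (-(u (n + 1) - u n)) - 1‖) atTop (𝓝 0) := by
    have := (((Real.continuous_exp.tendsto _).comp u_slow.neg).sub_const 1).norm.const_mul 3
    simpa using this
  refine squeeze_zero_norm (fun n => ?_) h1
  have : r (n + 1) - r n = r n * (Real.exp (-(u (n + 1) - u n)) - 1) := by
    rw [mul_sub, r, r, ← Real.exp_add]; ring_nf
  rw [this, norm_mul, Real.norm_of_nonneg (r_pos n).le]
  gcongr; exact r_le n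

lemma r_slowN (j : ℕ) : Tendsto (fun n => r (n + j) - r n) atTop (𝓝 0) := by
  induction j with
  | zero => simp
  | succ j ih =>
    have := (r_slow.comp (tendsto_add_atTop_nat j)).add ih
    simpa [add_assoc] using this

lemma s_ratio (j : ℕ) : Tendsto (fun n => s (n + j) / s n - r n ^ j) atTop (𝓝 0) := by
  induction j with
  | zero => simp [(s_pos _).ne']
  | succ j ih =>
    have h1 := (ih.norm.mul_const 3).add ((r_slowN j).norm.const_mul (3 ^ j))
    simp only [norm_zero, zero_mul, mul_zero, add_zero] at h1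
    refine squeeze_zero_norm (fun n => ?_) h1
    have : s (n + (j + 1)) / s n - r n ^ (j + 1) =
        (s (n + j) / s n - r n ^ j) * r (n + j) + r n ^ j * (r (n + j) - r n) := by
      rw [← add_assoc, s_succ]; ring
    rw [this]
    refine (norm_add_le _ _).trans ?_
    rw [norm_mul, norm_mul, Real.norm_of_nonneg (r_pos _).le, norm_pow,
      Real.norm_of_nonneg (r_pos _).le]
    have := r_pos n
    gcongr <;> exact r_le _

end Pool.Agent.H11.Mac
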