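import Mathlib
import Pool.Agent.H11.MacA

set_option autoImplicit false

namespace Pool.Agent.H11.Mac

open Finset Filter Topology

noncomputable def E (a : ℕ → ℂ) (z : ℂ) : ℂ := ∑' k, a k * z ^ k / k.factorial

def Geo (a : ℕ → ℂ) : Prop := ∃ C, ∀ k, ‖a k‖ ≤ C * 3 ^ k

lemma Geo.shift {a : ℕ → ℂ} (h : Geo a) : Geo fun k => a (k + 1) := by
  obtain ⟨C, h⟩ := h
  exact ⟨C * 3, fun k => (h (k + 1)).trans (le_of_eq (by ring))⟩

lemma term_le {a : ℕ → ℂ} {C : ℝ} (h : ∀ k, ‖a k‖ ≤ C * 3 ^ k) {R : ℝ} {z : ℂ} (hz : ‖z‖ ≤ R)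
    (k : ℕ) : ‖a k * z ^ k / k.factorial‖ ≤ C * ((3 * R) ^ k / k.factorial) := by
  have hC : 0 ≤ C * 3 ^ k := (norm_nonneg _).trans (h k)
  rw [norm_div, norm_mul, norm_pow, Complex.norm_natCast, mul_pow, ← mul_div_assoc, ← mul_assoc]
  gcongr
  exact h k

lemma Geo.hasSum {a : ℕ → ℂ} (h : Geo a) (z : ℂ) :
    HasSum (fun k => a k * z ^ k / k.factorial) (E a z) := by
  obtain ⟨C, h⟩ := h
  exact (Summable.of_norm_bounded ((Real.summable_pow_div_factorial _).mul_left C)
    (term_le h le_rfl)).hasSum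

lemma Geo.deriv {a : ℕ → ℂ} (h : Geo a) (z : ℂ) :
    HasDerivAt (E a) (E (fun k => a (k + 1)) z) z := by
  have h2 := h.shift.hasSum z
  obtain ⟨C, h⟩ := h
  have hz : z ∈ Metric.ball (0 : ℂ) (‖z‖ + 1) := by simp
  have hb : ∀ (i : ℕ) (w : ℂ), w ∈ Metric.ball (0 : ℂ) (‖z‖ + 1) →
      ‖a i * w ^ i / i.factorial‖ ≤ C * ((3 * (‖z‖ + 1)) ^ i / i.factorial) := fun i w hw =>
    term_le h (by simpa using (Metric.mem_ball.mp hw).le) i
  have hs := (Real.summable_pow_div_factorial (3 * (‖z‖ + 1))).mul_left C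
  have hd : ∀ i : ℕ, DifferentiableOn ℂ (fun w : ℂ => a i * w ^ i / i.factorial)
      (Metric.ball (0 : ℂ) (‖z‖ + 1)) := fun i => by fun_prop
  have k1 := (Complex.differentiableOn_tsum_of_summable_norm hs hd Metric.isOpen_ball
    hb).differentiableAt (Metric.isOpen_ball.mem_nhds hz)
  have k2 := Complex.hasSum_deriv_of_summable_norm hs hd Metric.isOpen_ball hb hz
  rw [← hasSum_nat_add_iff' 1] at k2
  have e : ∀ i : ℕ, _root_.deriv (fun w : ℂ => a i * w ^ i / i.factorial) z =
      a i * (i * z ^ (i - 1)) / i.factorial := fun i =>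
    (((hasDerivAt_pow i z).const_mul (a i)).div_const (i.factorial : ℂ)).deriv
  simp only [e, range_one, sum_singleton, CharP.cast_eq_zero, zero_mul, mul_zero, zero_div,
    sub_zero, add_tsub_cancel_right] at k2
  have e2 : (fun n : ℕ => a (n + 1) * (((n + 1 : ℕ) : ℂ) * z ^ n) / ((n + 1).factorial : ℂ)) =
      fun k => a (k + 1) * z ^ k / k.factorial := by
    funext k
    have : ((k : ℂ) + 1) ≠ 0 := by exact_mod_cast Nat.succ_ne_zero k
    rw [Nat.factorial_succ]; push_cast; field_simp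
  rw [e2] at k2
  rw [← k2.unique h2]
  exact k1.hasDerivAt

lemma Geo.shiftN {a : ℕ → ℂ} (h : Geo a) : ∀ j, Geo fun k => a (j + k)
  | 0 => by simpa using h
  | (j + 1) => by
    have := (Geo.shiftN h j).shift
    simpa only [add_assoc, add_comm 1] using this

lemma Geo.iter {a : ℕ → ℂ} (h : Geo a) : ∀ j, iteratedDeriv j (E a) = E fun k => a (j + k)
  | 0 => by simp
  | (j + 1) => by
    rw [iteratedDeriv_succ, Geo.iter h j]
    funext z
    have := ((h.shiftN j).deriv z).deriv
    simpa only [add_assoc, add_comm 1] using this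

section
variable (z : ℕ → ℂ) (N : ℕ → ℕ)

open Classical in
noncomputable def co (n : ℕ) : ℂ :=
  if h : ∃ k, N k = n then -z h.choose * s (n + 1) else s n

variable {z N} (hN : ∀ k, N k + 2 ≤ N (k + 1)) (hu : ∀ k : ℕ, k + 1 + ‖z k‖ ≤ u (N k))
include hN

lemma mono : StrictMono N := strictMono_nat_of_lt_succ fun k => by have := hN k; omega

lemma co_N (k : ℕ) : co z N (N k) = -z k * s (N k + 1) := by
  have h : ∃ k', N k' = N k := ⟨k, rfl⟩
  rw [co, dif_pos h, (mono hN).injective h.choose_spec]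

lemma co_N1 (k : ℕ) : co z N (N k + 1) = s (N k + 1) := by
  rw [co, dif_neg]
  rintro ⟨k', h⟩
  have h1 : k < k' := (mono hN).lt_iff_lt.mp (by omega)
  have h2 := (mono hN).monotone (Nat.succ_le_of_lt h1)
  have := hN k
  simp only [Nat.succ_eq_add_one] at h2
  omega

include hu

lemma co_le (n : ℕ) : ‖co z N n‖ ≤ s n := by
  by_cases h : ∃ k, N k = n
  · obtain ⟨k, rfl⟩ := h
    rw [co_N hN, s_succ, norm_mul, norm_neg, Complex.norm_real,
      Real.norm_of_nonneg (mul_pos (s_pos _) (r_pos _)).le, mul_left_comm]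
    refine mul_le_of_le_one_right (s_pos _).le ?_
    have h1 : r (N k) ≤ Real.exp (-‖z k‖) := by
      have := hu k
      have : (0 : ℝ) ≤ k := by positivity
      exact Real.exp_le_exp.mpr (by linarith)
    have h2 : ‖z k‖ ≤ Real.exp ‖z k‖ := by linarith [Real.add_one_le_exp ‖z k‖]
    calc ‖z k‖ * r (N k) ≤ Real.exp ‖z k‖ * Real.exp (-‖z k‖) := by
          gcongr; exact (r_pos _).le
      _ = 1 := by rw [← Real.exp_add]; simp
  · rw [co, dif_neg h, Complex.norm_real, Real.norm_of_nonneg (s_pos _).le]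

lemma co_geo : Geo (co z N) :=
  ⟨s 0, fun k => (co_le hN hu k).trans (by simpa using s_le 0 k)⟩

lemma r_N : Tendsto (fun k => r (N k)) atTop (𝓝 0) := by
  refine Real.tendsto_exp_atBot.comp (tendsto_atBot_mono (f := fun k : ℕ => -(k : ℝ)) (fun k => ?_)
    (tendsto_neg_atTop_atBot.comp tendsto_natCast_atTop_atTop))
  have := hu k
  have := norm_nonneg (z k)
  linarith

lemma w_lim : Tendsto (fun m => ‖co z N (m + 1) - s (m + 1)‖ / s m) atTop (𝓝 0) := by
  rw [NormedAddGroup.tendsto_nhds_zero]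
  intro ε hε
  obtain ⟨K, hK⟩ := eventually_atTop.mp (NormedAddGroup.tendsto_nhds_zero.mp (r_N hN hu) (ε / 4)
    (by positivity))
  filter_upwards [NormedAddGroup.tendsto_nhds_zero.mp r_slow (ε / 4) (by positivity),
    eventually_ge_atTop (N K)] with m h1 h2
  by_cases h : ∃ k, N k = m + 1
  · obtain ⟨k, hk⟩ := h
    have h3 := hK k ((mono hN).lt_iff_lt.mp (by omega)).le
    rw [hk, Real.norm_of_nonneg (r_pos _).le] at h3
    rw [Real.norm_eq_abs, abs_lt] at h1
    have h4 : ‖co z N (m + 1) - s (m + 1)‖ ≤ 2 * (s m * r m) := by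
      refine (norm_sub_le _ _).trans ?_
      have := co_le hN hu (m + 1)
      rw [Complex.norm_real, Real.norm_of_nonneg (s_pos _).le, ← s_succ]
      linarith
    rw [Real.norm_of_nonneg (div_nonneg (norm_nonneg _) (s_pos _).le), div_lt_iff₀ (s_pos _)]
    have := s_pos m
    nlinarith [h1.1]
  · rw [co, dif_neg h]; simpa using hε

lemma approx1 (R ε : ℝ) (hε : 0 < ε) : ∀ᶠ n in atTop, (¬ ∃ k, N k = n) → ∀ w : ℂ, ‖w‖ ≤ R →
    ‖E (fun k => co z N (n + k)) w / s n - Complex.exp (r n * w)‖ < ε := by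
  set d : ℕ → ℕ → ℝ := fun n j => if j = 0 then 0 else
    ‖co z N (n + j) / s n - (r n ^ j : ℝ)‖ * |R| ^ j / j.factorial with hd
  have hb : ∀ n j, ‖co z N (n + j) / s n - (r n ^ j : ℝ)‖ ≤ 2 * 3 ^ j := fun n j => by
    refine (norm_sub_le _ _).trans ?_
    rw [norm_div, Complex.norm_real, Complex.norm_real, Real.norm_of_nonneg (s_pos _).le,
      norm_pow, Real.norm_of_nonneg (r_pos _).le]
    have h1 : ‖co z N (n + j)‖ / s n ≤ 3 ^ j := by
      rw [div_le_iff₀ (s_pos _), mul_comm]; exact (co_le hN hu _).trans (s_le n j)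
    have h2 : r n ^ j ≤ 3 ^ j := pow_le_pow_left₀ (r_pos _).le (r_le _) _
    linarith
  have hdb : ∀ n j, ‖d n j‖ ≤ 2 * ((3 * |R|) ^ j / j.factorial) := fun n j => by
    simp only [hd]
    split_ifs
    · rw [norm_zero]; positivity
    · rw [Real.norm_of_nonneg (by positivity), mul_pow, ← mul_div_assoc, ← mul_assoc]
      gcongr; exact hb n j
  have hs := (Real.summable_pow_div_factorial (3 * |R|)).mul_left 2
  have hlim : Tendsto (fun n => ∑' j, d n j) atTop (𝓝 (∑' _ : ℕ, (0 : ℝ))) := by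
    refine tendsto_tsum_of_dominated_convergence hs (fun j => ?_) (Eventually.of_forall hdb)
    cases j with
    | zero => simp [hd]
    | succ j =>
      simp only [hd, Nat.succ_ne_zero, if_false]
      have h1 := (((w_lim hN hu).comp (tendsto_add_atTop_nat j)).const_mul (3 ^ j)).add
        (s_ratio (j + 1)).norm
      simp only [mul_zero, norm_zero, add_zero] at h1
      have h2 : Tendsto (fun n => ‖co z N (n + (j + 1)) / s n - (r n ^ (j + 1) : ℝ)‖) atTop
          (𝓝 0) := by
        refine squeeze_zero (fun _ => norm_nonneg _) (fun n => ?_) h1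
        have e : co z N (n + (j + 1)) / s n - (r n ^ (j + 1) : ℝ) =
            (co z N (n + j + 1) - s (n + j + 1)) / s n +
              ((s (n + (j + 1)) / s n - r n ^ (j + 1) : ℝ) : ℂ) := by
          push_cast; rw [add_assoc]; ring
        rw [e]
        refine (norm_add_le _ _).trans (add_le_add ?_ (by rw [Complex.norm_real]))
        rw [norm_div, Complex.norm_real, Real.norm_of_nonneg (s_pos _).le, Function.comp,
          div_le_iff₀ (s_pos _)]
        have h3 := s_le n j
        have h4 := s_pos (n + j)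
        calc _ = ‖co z N (n + j + 1) - s (n + j + 1)‖ / s (n + j) * s (n + j) := by field_simp
          _ ≤ ‖co z N (n + j + 1) - s (n + j + 1)‖ / s (n + j) * (s n * 3 ^ j) := by gcongr
          _ = _ := by ring
      simpa using (h2.mul_const (|R| ^ (j + 1))).div_const ((j + 1).factorial : ℝ)
  rw [tsum_zero] at hlim
  filter_upwards [hlim.eventually (gt_mem_nhds hε)] with n hn hns w hw
  have h1 := (((co_geo hN hu).shiftN n).hasSum w).div_const (s n : ℂ)
  have h2 := NormedSpace.expSeries_div_hasSum_exp (r n * w : ℂ)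
  rw [← Complex.exp_eq_exp_ℂ] at h2
  refine lt_of_le_of_lt ((h1.sub h2).norm_le_of_bounded
    (Summable.of_norm_bounded hs (hdb n)).hasSum fun j => ?_) hn
  have e : co z N (n + j) * w ^ j / j.factorial / s n - (r n * w) ^ j / j.factorial =
      (co z N (n + j) / s n - (r n ^ j : ℝ)) * w ^ j / j.factorial := by
    push_cast; ring
  rw [e]
  simp only [hd]
  split_ifs with hj
  · subst hj
    have : (s n : ℂ) ≠ 0 := by exact_mod_cast (s_pos n).ne'
    simp [co, hns, this]
  · rw [norm_div, norm_mul, norm_pow, Complex.norm_natCast]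
    gcongr
    exact hw.trans (le_abs_self _)

lemma approx2 (R ε : ℝ) (hε : 0 < ε) : ∀ᶠ k in atTop, ∀ w : ℂ, ‖w‖ ≤ R →
    ‖E (fun j => co z N (N k + j)) w / s (N k + 1) - (w - z k)‖ < ε := by
  have h0 : Tendsto (fun k => r (N k + 1)) atTop (𝓝 0) := by
    simpa using (r_slow.comp (mono hN).tendsto_atTop).add (r_N hN hu)
  have h1 := h0.mul_const (∑' j : ℕ, (3 * |R|) ^ j / j.factorial)
  rw [zero_mul] at h1
  filter_upwards [h1.eventually (gt_mem_nhds hε)] with k hk w hw
  have hs0 : (s (N k + 1) : ℂ) ≠ 0 := by exact_mod_cast (s_pos _).ne'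
  have h2 := (((co_geo hN hu).shiftN (N k)).hasSum w).div_const (s (N k + 1) : ℂ)
  have h3 : HasSum (fun j : ℕ => if j < 2 then
      co z N (N k + j) * w ^ j / j.factorial / s (N k + 1) else 0) (w - z k) := by
    have := hasSum_sum_of_ne_finset_zero (f := fun j : ℕ => if j < 2 then
      co z N (N k + j) * w ^ j / j.factorial / s (N k + 1) else 0) (s := range 2)
      (L := SummationFilter.unconditional ℕ) (fun j hj => by rw [if_neg (by simpa using hj)])
    have e : ∑ j ∈ range 2, (if j < 2 then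
        co z N (N k + j) * w ^ j / j.factorial / s (N k + 1) else 0) = w - z k := by
      simp [sum_range_succ, co_N hN, co_N1 hN]
      field_simp
      ring
    rwa [e] at this
  refine lt_of_le_of_lt ((h2.sub h3).norm_le_of_bounded
    ((Real.summable_pow_div_factorial (3 * |R|)).hasSum.mul_left _) fun j => ?_) hk
  have := r_pos (N k + 1)
  split_ifs with hj
  · rw [sub_self, norm_zero]; positivity
  · obtain ⟨j, rfl⟩ := Nat.exists_eq_add_of_le' (not_lt.mp hj)
    rw [sub_zero, norm_div, norm_div, norm_mul, norm_pow, Complex.norm_natCast, Complex.norm_real,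
      Real.norm_of_nonneg (s_pos _).le, div_le_iff₀ (s_pos _)]
    have h4 : ‖co z N (N k + (j + 2))‖ ≤ s (N k + 1) * r (N k + 1) * 3 ^ (j + 2) := by
      refine (co_le hN hu _).trans ?_
      rw [show N k + (j + 2) = N k + 1 + 1 + j by ring, ← s_succ]
      refine (s_le _ _).trans ?_
      have := s_pos (N k + 1 + 1)
      gcongr <;> norm_num
    have h5 : ‖w‖ ≤ |R| := hw.trans (le_abs_self _)
    have := s_pos (N k + 1)
    calc _ ≤ s (N k + 1) * r (N k + 1) * 3 ^ (j + 2) * |R| ^ (j + 2) / (j + 2).factorial := by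
          gcongr
      _ = _ := by rw [mul_pow]; ring

end

end Pool.Agent.H11.Mac
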