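import Mathlib
import Pool.Agent.H11.MacB

set_option autoImplicit false

namespace Pool.Agent.H11.Mac

open Filter Topology

/-- A family `F` of functions is normal on `N`: every sequence in `F` has a subsequence that
converges uniformly on compact subsets of `N` to an analytic function or to `∞`. -/
def Normal (F : Set (ℂ → ℂ)) (N : Set ℂ) : Prop :=
  ∀ g : ℕ → ℂ → ℂ, (∀ i, g i ∈ F) → ∃ φ : ℕ → ℕ, StrictMono φ ∧
    ((∃ h : ℂ → ℂ, DifferentiableOn ℂ h N ∧
        ∀ K ⊆ N, IsCompact K → TendstoUniformlyOn (fun i => g (φ i)) h atTop K) ∨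
      ∀ K ⊆ N, IsCompact K → ∀ M : ℝ, ∀ᶠ i in atTop, ∀ z ∈ K, M ≤ ‖g (φ i) z‖)

/-- The set of MacLane points of `f` in `G`. -/
def MacLane (G : Set ℂ) (f : ℂ → ℂ) : Set ℂ :=
  {z₀ | z₀ ∈ G ∧ ∃ N : Set ℂ, IsOpen N ∧ z₀ ∈ N ∧ N ⊆ G ∧
    Normal (Set.range fun n : ℕ => iteratedDeriv n f) N}

section
variable {z : ℕ → ℂ} {N : ℕ → ℕ}
  (hN : ∀ k, N k + 2 ≤ N (k + 1)) (hu : ∀ k : ℕ, k + 1 + ‖z k‖ ≤ u (N k))
include hN hu

lemma big (R ρ : ℝ) (hρ : 0 < ρ) (M : ℝ) : ∀ᶠ n in atTop, ∀ w : ℂ, ‖w‖ ≤ R →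
    (∀ k, ρ ≤ ‖w - z k‖) → M ≤ ‖iteratedDeriv n (E (co z N)) w‖ := by
  set δ := Real.exp (-(3 * |R|)) with hδ
  have hδ0 : 0 < δ := Real.exp_pos _
  obtain ⟨K, hK⟩ := eventually_atTop.mp (approx2 hN hu R (ρ / 2) (by positivity))
  filter_upwards [approx1 hN hu R (δ / 2) (by positivity), eventually_ge_atTop (N K),
    s_top.eventually_ge_atTop (M / (δ / 2)),
    (s_top.comp (tendsto_add_atTop_nat 1)).eventually_ge_atTop (M / (ρ / 2))]
    with n h1 h2 h3 h4 w hw hz
  rw [(co_geo hN hu).iter]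
  by_cases h : ∃ k, N k = n
  · obtain ⟨k, rfl⟩ := h
    have h5 := hK k ((mono hN).le_iff_le.mp h2) w hw
    have h6 := norm_sub_norm_le (w - z k) (E (fun j => co z N (N k + j)) w / s (N k + 1))
    rw [norm_sub_rev (w - z k), norm_div, Complex.norm_real,
      Real.norm_of_nonneg (s_pos _).le] at h6
    have h7 : ρ / 2 ≤ ‖E (fun j => co z N (N k + j)) w‖ / s (N k + 1) := by linarith [hz k]
    rw [le_div_iff₀ (s_pos _)] at h7
    rw [Function.comp, div_le_iff₀ (by positivity)] at h4
    linarith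
  · have h5 := h1 h w hw
    have h6 := norm_sub_norm_le (Complex.exp (r n * w)) (E (fun j => co z N (n + j)) w / s n)
    rw [norm_sub_rev (Complex.exp (r n * w)), norm_div, Complex.norm_real,
      Real.norm_of_nonneg (s_pos _).le] at h6
    have h8 : δ ≤ ‖Complex.exp (r n * w)‖ := by
      rw [Complex.norm_exp, Complex.re_ofReal_mul]
      apply Real.exp_le_exp.mpr
      have a1 := (abs_le.mp ((Complex.abs_re_le_norm w).trans (hw.trans (le_abs_self R)))).1
      have a2 := r_pos n
      have a3 := r_le n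
      have a4 := abs_nonneg R
      nlinarith
    have h7 : δ / 2 ≤ ‖E (fun j => co z N (n + j)) w‖ / s n := by linarith
    rw [le_div_iff₀ (s_pos _)] at h7
    rw [div_le_iff₀ (by positivity)] at h3
    linarith

lemma diff (n : ℕ) : Differentiable ℂ (iteratedDeriv n (E (co z N))) := by
  rw [(co_geo hN hu).iter]
  exact fun w => (((co_geo hN hu).shiftN n).deriv w).differentiableAt

lemma normal (c : ℂ) (ρ : ℝ) (hρ : 0 < ρ) (hz : ∀ k, 2 * ρ ≤ ‖c - z k‖) :
    Normal (Set.range fun n : ℕ => iteratedDeriv n (E (co z N))) (Metric.ball c ρ) := by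
  intro g hg
  choose n hn using hg
  by_cases h : Tendsto n atTop atTop
  · refine ⟨id, strictMono_id, Or.inr fun K hK _ M => ?_⟩
    filter_upwards [h.eventually (big hN hu (‖c‖ + ρ) ρ hρ M)] with i hi w hw
    have h1 : ‖w - c‖ < ρ := by simpa [dist_eq_norm] using hK hw
    rw [id, ← hn i]
    refine hi w ?_ fun k => ?_
    · linarith [norm_sub_norm_le w c]
    · have := norm_sub_le (w - z k) (w - c)
      rw [show w - z k - (w - c) = c - z k by ring] at this
      linarith [hz k]
  · obtain ⟨m, hm⟩ : ∃ m, ∃ᶠ i in atTop, n i = m := by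
      by_contra h2
      simp only [not_exists, not_frequently] at h2
      refine h (tendsto_atTop.mpr fun b => ?_)
      have := (eventually_all_finset (Finset.range b)).mpr fun m _ => h2 m
      filter_upwards [this] with i hi
      by_contra h3
      exact hi (n i) (Finset.mem_range.mpr (not_le.mp h3)) rfl
    obtain ⟨φ, hφ, h2⟩ := extraction_of_frequently_atTop hm
    refine ⟨φ, hφ, Or.inl ⟨iteratedDeriv m (E (co z N)), (diff hN hu m).differentiableOn,
      fun K _ _ => ?_⟩⟩
    have : (fun i => g (φ i)) = fun _ => iteratedDeriv m (E (co z N)) := by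
      funext i; rw [← hn, h2]
    rw [this]
    exact fun v hv => Eventually.of_forall fun _ _ _ => refl_mem_uniformity hv

lemma not_normal (V : Set ℂ) (hV : IsOpen V) (e : ℂ) (he : e ∈ V) (κ : ℕ → ℕ) (hκ : StrictMono κ)
    (hz : ∀ i, z (κ i) = e) :
    ¬ Normal (Set.range fun n : ℕ => iteratedDeriv n (E (co z N))) V := by
  intro h
  obtain ⟨ρ, hρ, hb⟩ := Metric.nhds_basis_closedBall.mem_iff.mp (hV.mem_nhds he)
  obtain ⟨φ, hφ, h⟩ := h (fun i => iteratedDeriv (N (κ i)) (E (co z N))) fun i => ⟨_, rfl⟩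
  have ht : Tendsto (fun i => κ (φ i)) atTop atTop := (hκ.comp hφ).tendsto_atTop
  have hs : Tendsto (fun i => s (N (κ (φ i)) + 1)) atTop atTop :=
    s_top.comp ((tendsto_add_atTop_nat 1).comp ((mono hN).tendsto_atTop.comp ht))
  have key : ∀ᶠ i in atTop, (∀ w, ‖w - e‖ = ρ → 2 * ρ / 3 * s (N (κ (φ i)) + 1) <
      ‖iteratedDeriv (N (κ (φ i))) (E (co z N)) w‖) ∧
      ‖iteratedDeriv (N (κ (φ i))) (E (co z N)) e‖ < ρ / 3 * s (N (κ (φ i)) + 1) := by
    filter_upwards [ht.eventually (approx2 hN hu (‖e‖ + ρ) (ρ / 3) (by positivity))] with i hi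
    rw [(co_geo hN hu).iter]
    rw [hz] at hi
    refine ⟨fun w hw => ?_, ?_⟩
    · have h5 := hi w (by linarith [norm_sub_norm_le w e])
      have h6 := norm_sub_norm_le (w - e)
        (E (fun j => co z N (N (κ (φ i)) + j)) w / s (N (κ (φ i)) + 1))
      rw [norm_sub_rev (w - e), norm_div, Complex.norm_real,
        Real.norm_of_nonneg (s_pos _).le] at h6
      rw [← lt_div_iff₀ (s_pos _)]
      linarith
    · have h5 := hi e (by linarith)
      rwa [sub_self, sub_zero, norm_div, Complex.norm_real, Real.norm_of_nonneg (s_pos _).le,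
        div_lt_iff₀ (s_pos _)] at h5
  rcases h with ⟨g, -, h⟩ | h
  · have hw : e + ρ ∈ V := hb (by simp [abs_of_pos hρ])
    have h1 := (h {e + ρ} (by simpa using hw) isCompact_singleton).tendsto_at rfl
    have h2 : Tendsto (fun i => ‖iteratedDeriv (N (κ (φ i))) (E (co z N)) (e + ρ)‖) atTop atTop := by
      refine tendsto_atTop_mono' atTop ?_ (hs.const_mul_atTop (r := 2 * ρ / 3) (by positivity))
      filter_upwards [key] with i hi
      exact (hi.1 _ (by simp [abs_of_pos hρ])).le
    exact not_tendsto_atTop_of_tendsto_nhds h1.norm h2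
  · obtain ⟨i, hi, h1, h2⟩ := ((h _ hb (isCompact_closedBall e ρ) 1).and key).exists
    set F := iteratedDeriv (N (κ (φ i))) (E (co z N)) with hF
    have hF0 : ∀ w ∈ Metric.closedBall e ρ, F w ≠ 0 := fun w hw h0 => by
      have := hi w hw
      rw [h0, norm_zero] at this
      linarith
    have hd : DiffContOnCl ℂ (fun w => (F w)⁻¹) (Metric.ball e ρ) := by
      apply DifferentiableOn.diffContOnCl
      rw [closure_ball e hρ.ne']
      exact (diff hN hu _).differentiableOn.inv hF0
    have hS := s_pos (N (κ (φ i)) + 1)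
    have h3 := Complex.norm_le_of_forall_mem_frontier_norm_le Metric.isBounded_ball hd
      (C := (2 * ρ / 3 * s (N (κ (φ i)) + 1))⁻¹) (fun w hw => by
        rw [frontier_ball e hρ.ne'] at hw
        rw [norm_inv]
        exact inv_anti₀ (by positivity) (h1 w (by simpa [dist_eq_norm] using hw)).le)
      (z := e) (subset_closure (Metric.mem_ball_self hρ))
    rw [norm_inv, inv_le_inv₀ (norm_pos_iff.mpr (hF0 e (Metric.mem_closedBall_self hρ.le)))
      (by positivity)] at h3
    nlinarith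

end

theorem main (G U : Set ℂ) (hU : IsOpen U) (hUG : U ⊆ G) :
    ∃ f : ℂ → ℂ, Differentiable ℂ f ∧ MacLane G f = U := by
  by_cases hne : (G \ U).Nonempty
  · have : Nonempty ↥(G \ U) := hne.to_subtype
    obtain ⟨d, hd⟩ := TopologicalSpace.exists_dense_seq ↥(G \ U)
    set z : ℕ → ℂ := fun k => d (Nat.unpair k).1 with hz
    obtain ⟨ψ, hψ, h⟩ := extraction_forall_of_frequently
      (P := fun k n => ((k / 2 : ℕ) : ℝ) + 1 + ‖z (k / 2)‖ ≤ u n) fun k => u_big _
    have hN : ∀ k, ψ (2 * k) + 2 ≤ ψ (2 * (k + 1)) := fun k => by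
      have h1 := hψ (show 2 * k < 2 * k + 1 by omega)
      have h2 := hψ (show 2 * k + 1 < 2 * (k + 1) by omega)
      omega
    have hu : ∀ k : ℕ, k + 1 + ‖z k‖ ≤ u (ψ (2 * k)) := fun k => by
      simpa using h (2 * k)
    refine ⟨E (co z fun k => ψ (2 * k)), by simpa using diff hN hu 0, ?_⟩
    ext c
    constructor
    · rintro ⟨hc, V, hV, hcV, -, hn⟩
      by_contra hcU
      obtain ⟨i, hi⟩ := hd.exists_mem_open (hV.preimage continuous_subtype_val) ⟨⟨c, hc, hcU⟩, hcV⟩
      exact not_normal hN hu V hV (d i) hi (Nat.pair i) (fun a b => Nat.pair_lt_pair_right i)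
        (fun m => by simp [hz]) hn
    · intro hc
      obtain ⟨ρ, hρ, hb⟩ := Metric.isOpen_iff.mp hU c hc
      refine ⟨hUG hc, Metric.ball c (ρ / 2), Metric.isOpen_ball, Metric.mem_ball_self (by positivity),
        ((Metric.ball_subset_ball (by linarith)).trans hb).trans hUG,
        normal hN hu c _ (by positivity) fun k => ?_⟩
      by_contra h1
      refine (d (Nat.unpair k).1).2.2 (hb ?_)
      rw [Metric.mem_ball, dist_comm, dist_eq_norm]
      linarith
  · have hGU : G ⊆ U := Set.diff_eq_empty.mp (Set.not_nonempty_iff_eq_empty.mp hne)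
    refine ⟨fun _ => 0, differentiable_const _, Set.Subset.antisymm (fun c hc => hGU hc.1)
      fun c hc => ⟨hUG hc, U, hU, hc, hUG, fun g hg => ⟨id, strictMono_id, Or.inl ⟨fun _ => 0,
        differentiableOn_const _, fun K _ _ => ?_⟩⟩⟩⟩
    have : (fun i => g (id i)) = fun _ _ => 0 := by
      funext i w
      obtain ⟨n, hn⟩ := hg i
      rw [id, ← hn]
      simp [iteratedDeriv_const]
    rw [this]
    exact fun v hv => Eventually.of_forall fun _ _ _ => refl_mem_uniformity hv

end Pool.Agent.H11.Mac
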