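import Mathlib
set_option autoImplicit false
namespace Pool.Agent.H11.Merge
open Finset

theorem quot_card_congr {D : Type} (r r' : D → D → Prop)
    (h1 : ∀ x y, r x y → Relation.EqvGen r' x y) (h2 : ∀ x y, r' x y → Relation.EqvGen r x y) :
    Nat.card (Quot r) = Nat.card (Quot r') := by
  refine Nat.card_congr ⟨Quot.lift (Quot.mk r') (fun x y h => Quot.eqvGen_sound (h1 x y h)),
    Quot.lift (Quot.mk r) (fun x y h => Quot.eqvGen_sound (h2 x y h)), ?_, ?_⟩
  · intro q; induction q using Quot.ind; rfl
  · intro q; induction q using Quot.ind; rfl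

def mg {D : Type} (lab : D → ℕ) (a b : D) : D → ℕ :=
  fun x => if lab x = max (lab a) (lab b) then min (lab a) (lab b) else lab x

def mc {D : Type} : (D → ℕ) → List (D × D) → ℕ
  | _, [] => 0
  | lab, p :: L => (if lab p.1 = lab p.2 then 0 else 1) + mc (mg lab p.1 p.2) L

theorem card_ker {D : Type} [Fintype D] (lab : D → ℕ) :
    Nat.card (Quot (fun x y => lab x = lab y)) = (univ.image lab).card := by
  rw [← Nat.card_eq_finsetCard]
  refine Nat.card_congr (Equiv.ofBijective
    (Quot.lift (fun x => (⟨lab x, mem_image_of_mem _ (mem_univ x)⟩ : univ.image lab))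
      (fun x y h => Subtype.ext h)) ⟨?_, ?_⟩)
  · intro p q
    induction p using Quot.ind
    induction q using Quot.ind
    intro h
    exact Quot.sound (congrArg Subtype.val h)
  · rintro ⟨v, hv⟩
    obtain ⟨x, -, rfl⟩ := mem_image.mp hv
    exact ⟨Quot.mk _ x, rfl⟩

theorem card_mg {D : Type} [Fintype D] (lab : D → ℕ) (a b : D) :
    (univ.image (mg lab a b)).card + (if lab a = lab b then 0 else 1) = (univ.image lab).card := by
  by_cases h : lab a = lab b
  · have : mg lab a b = lab := by
      funext x; unfold mg; rw [h, max_self, min_self]; split_ifs with h' <;> simp [h']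
    rw [this, if_pos h, add_zero]
  · rw [if_neg h]
    have hM : max (lab a) (lab b) ∈ univ.image lab := by
      rcases max_choice (lab a) (lab b) with h' | h' <;> rw [h'] <;>
        exact mem_image_of_mem _ (mem_univ _)
    have : univ.image (mg lab a b) = (univ.image lab).erase (max (lab a) (lab b)) := by
      ext v
      simp only [mem_image, mem_univ, true_and, mem_erase]
      constructor
      · rintro ⟨x, rfl⟩
        unfold mg
        split_ifs with h'
        · refine ⟨by omega, ?_⟩
          rcases min_choice (lab a) (lab b) with h'' | h'' <;> rw [h''] <;> exact ⟨_, rfl⟩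
        · exact ⟨h', x, rfl⟩
      · rintro ⟨hv, x, rfl⟩
        exact ⟨x, by unfold mg; rw [if_neg hv]⟩
    rw [this, card_erase_add_one hM]

theorem key {D : Type} [Fintype D] (L : List (D × D)) : ∀ lab : D → ℕ,
    Nat.card (Quot (fun x y => lab x = lab y ∨ (x, y) ∈ L)) + mc lab L = (univ.image lab).card := by
  induction L with
  | nil => intro lab; simp only [List.not_mem_nil, or_false, mc, add_zero]; exact card_ker lab
  | cons p L ih =>
    intro lab
    obtain ⟨a, b⟩ := p
    rw [← card_mg lab a b, ← ih (mg lab a b), mc,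
      quot_card_congr _ (fun x y => mg lab a b x = mg lab a b y ∨ (x, y) ∈ L)]
    · simp only; omega
    · intro x y h
      apply Relation.EqvGen.rel
      rcases h with h | h
      · left; unfold mg; rw [h]
      · rcases List.mem_cons.mp h with h | h
        · obtain ⟨rfl, rfl⟩ := Prod.mk.inj h
          left; unfold mg; split_ifs <;> omega
        · right; exact h
    · intro x y h
      have hab : Relation.EqvGen (fun x y => lab x = lab y ∨ (x, y) ∈ (a, b) :: L) a b :=
        Relation.EqvGen.rel _ _ (Or.inr List.mem_cons_self)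
      have hk : ∀ u v, lab u = lab v →
          Relation.EqvGen (fun x y => lab x = lab y ∨ (x, y) ∈ (a, b) :: L) u v :=
        fun u v h => Relation.EqvGen.rel _ _ (Or.inl h)
      rcases h with h | h
      · by_cases h0 : lab x = lab y
        · exact hk _ _ h0
        · have : (lab x = lab a ∧ lab y = lab b) ∨ (lab x = lab b ∧ lab y = lab a) := by
            unfold mg at h; split_ifs at h <;> omega
          rcases this with ⟨h1, h2⟩ | ⟨h1, h2⟩
          · exact (hk _ _ h1).trans _ _ _ (hab.trans _ _ _ (hk _ _ h2.symm))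
          · exact (hk _ _ h1).trans _ _ _ ((hab.symm _ _).trans _ _ _ (hk _ _ h2.symm))
      · exact Relation.EqvGen.rel _ _ (Or.inr (List.mem_cons_of_mem _ h))

theorem key' {D : Type} [Fintype D] (L : List (D × D)) (lab : D → ℕ)
    (h : Function.Injective lab) :
    Nat.card (Quot (fun x y => (x, y) ∈ L)) + mc lab L = Fintype.card D := by
  have := key L lab
  rw [card_image_of_injective _ h, card_univ] at this
  rw [← this, quot_card_congr _ (fun x y => lab x = lab y ∨ (x, y) ∈ L)]
  · intro x y h; exact Relation.EqvGen.rel _ _ (Or.inr h)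
  · intro x y h'
    rcases h' with h' | h'
    · rw [h h']; exact Relation.EqvGen.refl _
    · exact Relation.EqvGen.rel _ _ h'

theorem mc_map {D : Type} (f : D → ℕ) (L : List (D × D)) : ∀ lab : ℕ → ℕ,
    mc (fun x => lab (f x)) L = mc lab (L.map (Prod.map f f)) := by
  induction L with
  | nil => intro lab; rfl
  | cons p L ih => intro lab; rw [List.map_cons, mc, mc, ← ih]; rfl

theorem mg_congr (m : ℕ) (lab lab' : ℕ → ℕ) (h : ∀ x < m, lab x = lab' x) (a b : ℕ)
    (ha : a < m) (hb : b < m) : ∀ x < m, mg lab a b x = mg lab' a b x := by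
  intro x hx; unfold mg; rw [h a ha, h b hb, h x hx]

theorem mc_congr (m : ℕ) (L : List (ℕ × ℕ)) : ∀ lab lab' : ℕ → ℕ, (∀ x < m, lab x = lab' x) →
    (∀ p ∈ L, p.1 < m ∧ p.2 < m) → mc lab L = mc lab' L := by
  induction L with
  | nil => intros; rfl
  | cons p L ih =>
    intro lab lab' h hL
    have hp := hL p List.mem_cons_self
    rw [mc, mc, h _ hp.1, h _ hp.2,
      ih _ _ (mg_congr m lab lab' h _ _ hp.1 hp.2) (fun q hq => hL q (List.mem_cons_of_mem _ hq))]

def gt (k i : ℕ) : ℕ := k / 64 ^ i % 64

def enc : List ℕ → ℕ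
  | [] => 0
  | a :: l => a + 64 * enc l

theorem gt_lt (k i : ℕ) : gt k i < 64 := Nat.mod_lt _ (by norm_num)

theorem gt_enc (l : List ℕ) : (∀ a ∈ l, a < 64) → ∀ i, gt (enc l) i = l.getD i 0 := by
  induction l with
  | nil => intro _ i; simp [gt, enc]
  | cons a l ih =>
    intro h i
    have ha := h a List.mem_cons_self
    cases i with
    | zero => simp only [gt, enc, pow_zero, Nat.div_one, List.getD_cons_zero]; omega
    | succ i =>
      rw [List.getD_cons_succ, ← ih (fun b hb => h b (List.mem_cons_of_mem _ hb))]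
      unfold gt
      rw [pow_succ', ← Nat.div_div_eq_div_mul, enc]
      congr 2; omega

def code (f : ℕ → ℕ) (m : ℕ) : ℕ := enc ((List.range m).map f)

theorem gt_code (f : ℕ → ℕ) (m : ℕ) (hf : ∀ x, f x < 64) : ∀ x < m, gt (code f m) x = f x := by
  intro x hx
  unfold code
  rw [gt_enc]
  · simp [List.getD_eq_getElem?_getD, hx]
  · intro a ha; obtain ⟨y, -, rfl⟩ := List.mem_map.mp ha; exact hf y

theorem mg_lt (f : ℕ → ℕ) (hf : ∀ x, f x < 64) (a b : ℕ) : ∀ x, mg f a b x < 64 := by
  intro x; have := hf a; have := hf x; unfold mg; split_ifs <;> omega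

def frcN {α : Type} (n : ℕ) (f : ℕ → α) : α := Nat.casesOn n (f 0) (fun k => f (k + 1))

theorem frcN_eq {α : Type} (n : ℕ) (f : ℕ → α) : frcN n f = f n := by cases n <;> rfl

def frcI {α : Type} (c : ℤ) (f : ℤ → α) : α :=
  Int.casesOn c (fun n => frcN n (fun n => f (Int.ofNat n))) (fun n => frcN n (fun n => f (Int.negSucc n)))

theorem frcI_eq {α : Type} (c : ℤ) (f : ℤ → α) : frcI c f = f c := by
  cases c <;> simp only [frcI, frcN_eq]

def mcC (m : ℕ) : List (ℕ × ℕ) → ℕ → ℕ
  | [], _ => 0
  | p :: L, k => (if gt k p.1 = gt k p.2 then 0 else 1) +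
      frcN (code (mg (gt k) p.1 p.2) m) (fun k' => mcC m L k')

theorem mcC_eq (m : ℕ) (L : List (ℕ × ℕ)) : ∀ k, (∀ p ∈ L, p.1 < m ∧ p.2 < m) →
    mcC m L k = mc (gt k) L := by
  induction L with
  | nil => intros; rfl
  | cons p L ih =>
    intro k hL
    have hL' := fun q hq => hL q (List.mem_cons_of_mem _ hq)
    rw [mcC, mc, frcN_eq, ih _ hL',
      mc_congr m L _ _ (gt_code _ m (mg_lt _ (gt_lt k) _ _)) hL']

/-- sum over all lists of a given length -/
def sumL {X : Type} [Fintype X] : ℕ → (List X → ℤ) → ℤ
  | 0, W => W []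
  | n + 1, W => ∑ a : X, sumL n (fun l => W (a :: l))

theorem sum_eq_sumL {X : Type} [Fintype X] [DecidableEq X] (n : ℕ) : ∀ W : List X → ℤ,
    ∑ c : Fin n → X, W (List.ofFn c) = sumL n W := by
  induction n with
  | zero => intro W; simp [sumL]
  | succ n ih =>
    intro W
    rw [sumL, ← (Fin.consEquiv (fun _ : Fin (n + 1) => X)).sum_comp, Fintype.sum_prod_type]
    refine Finset.sum_congr rfl (fun a _ => ?_)
    rw [← ih]
    refine Finset.sum_congr rfl (fun c _ => ?_)
    simp [Fin.consEquiv, List.ofFn_succ]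

theorem sumL_mul {X : Type} [Fintype X] (n : ℕ) (c : ℤ) : ∀ W : List X → ℤ,
    sumL n (fun l => c * W l) = c * sumL n W := by
  induction n with
  | zero => intro W; rfl
  | succ n ih => intro W; simp only [sumL, ih, Finset.mul_sum]

theorem count_ofFn (n : ℕ) : ∀ s : Fin n → Bool,
    (univ.filter (fun e => s e = true)).card = (List.ofFn s).count true := by
  induction n with
  | zero => intro s; simp
  | succ n ih =>
    intro s
    rw [List.ofFn_succ, List.count_cons, ← ih, card_filter, card_filter, Fin.sum_univ_succ, add_comm]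
    simp

end Pool.Agent.H11.Merge
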