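import Mathlib

set_option autoImplicit false

namespace Pool.Agent.H11

open Finset

variable {V : Type} [Fintype V] [DecidableEq V]

open Classical in
/-- Partitions of `S` into `k` nonempty independent sets, as sets of blocks. -/
noncomputable def Parts (G : SimpleGraph V) (S : Finset V) (k : ℕ) : Finset (Finset (Finset V)) :=
  univ.filter fun Q => Q.card = k ∧ (∀ s ∈ Q, s.Nonempty ∧ G.IsIndepSet (s : Set V)) ∧
    (∀ s ∈ Q, ∀ t ∈ Q, s ≠ t → Disjoint s t) ∧ Q.biUnion id = S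

lemma mem_Parts {G : SimpleGraph V} {S : Finset V} {k : ℕ} {Q : Finset (Finset V)} :
    Q ∈ Parts G S k ↔ Q.card = k ∧ (∀ s ∈ Q, s.Nonempty ∧ G.IsIndepSet (s : Set V)) ∧
    (∀ s ∈ Q, ∀ t ∈ Q, s ≠ t → Disjoint s t) ∧ Q.biUnion id = S := by
  simp [Parts]

lemma ncard_eq (G : SimpleGraph V) (k : ℕ) :
    {P : Finpartition (Finset.univ : Finset V) |
      P.parts.card = k ∧ ∀ s ∈ P.parts, G.IsIndepSet (↑s : Set V)}.ncard =
      (Parts G univ k).card := by
  rw [← Set.ncard_coe_finset]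
  refine Set.ncard_congr (fun P _ => P.parts) ?_ ?_ ?_
  · intro P hP
    refine mem_coe.2 (mem_Parts.2 ⟨hP.1, fun s hs => ⟨P.nonempty_of_mem_parts hs, hP.2 s hs⟩,
      fun s hs t ht hst => P.disjoint hs ht hst, P.biUnion_parts⟩)
  · intro P Q _ _ h
    exact Finpartition.ext h
  · intro Q hQ
    obtain ⟨h1, h2, h3, h4⟩ := mem_Parts.1 (mem_coe.1 hQ)
    refine ⟨⟨Q, Finset.supIndep_iff_pairwiseDisjoint.2 fun s hs t ht hst => h3 s hs t ht hst,
      by rw [sup_eq_biUnion, h4], fun h => ?_⟩, ⟨h1, fun s hs => (h2 s hs).2⟩, rfl⟩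
    simpa using (h2 _ h).1

lemma Parts_empty (G : SimpleGraph V) (k : ℕ) :
    (Parts G ∅ k).card = if k = 0 then 1 else 0 := by
  have key : ∀ Q, Q ∈ Parts G ∅ k ↔ Q = ∅ ∧ k = 0 := by
    intro Q
    rw [mem_Parts]
    constructor
    · rintro ⟨h1, h2, -, h4⟩
      have : Q = ∅ := by
        by_contra h
        obtain ⟨s, hs⟩ := nonempty_iff_ne_empty.2 h
        obtain ⟨x, hx⟩ := (h2 s hs).1
        have : x ∈ Q.biUnion id := mem_biUnion.2 ⟨s, hs, hx⟩
        simp [h4] at this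
      subst this
      exact ⟨rfl, by simpa using h1.symm⟩
    · rintro ⟨rfl, rfl⟩
      simp
  split_ifs with h
  · rw [card_eq_one]
    exact ⟨∅, by ext Q; rw [key]; simp [h]⟩
  · rw [card_eq_zero]
    ext Q; rw [key]; simp [h]

lemma Parts_big (G : SimpleGraph V) (a : ℕ) (ha : ∀ s : Finset V, G.IsIndepSet (s : Set V) → s.card ≤ a)
    (S : Finset V) (k : ℕ) (h : a * k < S.card) : (Parts G S k).card = 0 := by
  rw [card_eq_zero]
  ext Q
  simp only [notMem_empty, iff_false]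
  intro hQ
  obtain ⟨h1, h2, -, h4⟩ := mem_Parts.1 hQ
  have h5 : (Q.biUnion id).card ≤ Q.card * a :=
    card_biUnion_le_card_mul Q id a fun s hs => ha s (h2 s hs).2
  rw [h4, h1, mul_comm] at h5
  omega

open Classical in
lemma Parts_rec (G : SimpleGraph V) (S : Finset V) (k : ℕ) (v : V) (hv : v ∈ S) :
    (Parts G S (k + 1)).card =
      ∑ C ∈ univ.filter (fun C : Finset V => v ∈ C ∧ C ⊆ S ∧ G.IsIndepSet (C : Set V)),
        (Parts G (S \ C) k).card := by
  rw [← card_sigma]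
  symm
  have hsub : ∀ {T : Finset V} {j : ℕ} {Q : Finset (Finset V)}, Q ∈ Parts G T j →
      ∀ s ∈ Q, s ⊆ T := by
    intro T j Q hQ s hs x hx
    rw [← (mem_Parts.1 hQ).2.2.2]
    exact mem_biUnion.2 ⟨s, hs, hx⟩
  have hnot : ∀ {C D : Finset V} {Q : Finset (Finset V)}, v ∈ C → v ∈ D → Q ∈ Parts G (S \ D) k →
      C ∉ Q := by
    intro C D Q hC hD hQ h
    exact (mem_sdiff.1 (hsub hQ C h hC)).2 hD
  refine card_bij (fun p _ => insert p.1 p.2) ?_ ?_ ?_
  · rintro ⟨C, Q⟩ hp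
    simp only [mem_sigma, mem_filter, mem_univ, true_and] at hp
    obtain ⟨⟨hC, hCS, hI⟩, hQ⟩ := hp
    obtain ⟨h1, h2, h3, h4⟩ := mem_Parts.1 hQ
    have hd : ∀ s ∈ Q, Disjoint C s := fun s hs =>
      disjoint_left.2 fun x hx hxs => (mem_sdiff.1 (hsub hQ s hs hxs)).2 hx
    refine mem_Parts.2 ⟨by rw [card_insert_of_notMem (hnot hC hC hQ), h1], ?_, ?_, ?_⟩
    · intro s hs
      rcases mem_insert.1 hs with rfl | hs
      · exact ⟨⟨v, hC⟩, hI⟩
      · exact h2 s hs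
    · intro s hs t ht hst
      rcases mem_insert.1 hs with rfl | hs <;> rcases mem_insert.1 ht with rfl | ht
      · exact absurd rfl hst
      · exact hd t ht
      · exact (hd s hs).symm
      · exact h3 s hs t ht hst
    · rw [biUnion_insert, h4]
      exact union_sdiff_of_subset hCS
  · rintro ⟨C, Q⟩ hp ⟨D, R⟩ hq h
    simp only [mem_sigma, mem_filter, mem_univ, true_and] at hp hq h
    have hCD : C = D := by
      have : C ∈ insert D R := h ▸ mem_insert_self C Q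
      rcases mem_insert.1 this with h1 | h1
      · exact h1
      · exact absurd h1 (hnot hp.1.1 hq.1.1 hq.2)
    subst hCD
    have : Q = R := by
      rw [← erase_insert (hnot hp.1.1 hp.1.1 hp.2), h, erase_insert (hnot hq.1.1 hq.1.1 hq.2)]
    subst this
    rfl
  · intro Q hQ
    obtain ⟨h1, h2, h3, h4⟩ := mem_Parts.1 hQ
    obtain ⟨C, hC, hvC⟩ : ∃ C ∈ Q, v ∈ C := by
      rw [← h4] at hv
      simpa using hv
    refine ⟨⟨C, Q.erase C⟩, ?_, insert_erase hC⟩
    simp only [mem_sigma, mem_filter, mem_univ, true_and]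
    refine ⟨⟨hvC, hsub hQ C hC, (h2 C hC).2⟩, mem_Parts.2 ⟨by rw [card_erase_of_mem hC, h1]; rfl,
      fun s hs => h2 s (mem_of_mem_erase hs),
      fun s hs t ht => h3 s (mem_of_mem_erase hs) t (mem_of_mem_erase ht), ?_⟩⟩
    ext x
    simp only [mem_biUnion, mem_erase, id, mem_sdiff]
    constructor
    · rintro ⟨s, ⟨hsC, hs⟩, hx⟩
      exact ⟨hsub hQ s hs hx, fun hxC => disjoint_left.1 (h3 s hs C hC hsC) hx hxC⟩
    · rintro ⟨hxS, hxC⟩
      rw [← h4] at hxS
      obtain ⟨s, hs, hx⟩ := mem_biUnion.1 hxS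
      exact ⟨s, ⟨fun e => hxC (e ▸ hx), hs⟩, hx⟩

end Pool.Agent.H11
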