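import Mathlib
import Pool.Agent.H11.Merge
set_option autoImplicit false
namespace Pool.Agent.H11.PenDP
open Finset Pool.Agent.H11.Merge

def prs {α : Type} : List (α × α × α × α) → List Bool → List (α × α)
  | e :: es, b :: l =>
      (if b then [(e.2.1, e.2.2.2), (e.1, e.2.2.1)] else [(e.1, e.2.2.2), (e.2.2.1, e.2.1)]) ++ prs es l
  | _, _ => []

theorem prs_map {α β : Type} (f : α → β) (es : List (α × α × α × α)) : ∀ l : List Bool,
    (prs es l).map (Prod.map f f) =
      prs (es.map (fun e => (f e.1, f e.2.1, f e.2.2.1, f e.2.2.2))) l := by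
  induction es with
  | nil => intro l; simp [prs]
  | cons e es ih =>
    intro l
    cases l with
    | nil => simp [prs]
    | cons b l => rw [List.map_cons, prs, prs, List.map_append, ih]; cases b <;> rfl

theorem mem_prs {α : Type} (n : ℕ) : ∀ (g : Fin n → α × α × α × α) (s : Fin n → Bool) (p : α × α),
    p ∈ prs (List.ofFn g) (List.ofFn s) ↔ ∃ e,
      (s e = false ∧ (p = ((g e).1, (g e).2.2.2) ∨ p = ((g e).2.2.1, (g e).2.1))) ∨
      (s e = true ∧ (p = ((g e).2.1, (g e).2.2.2) ∨ p = ((g e).1, (g e).2.2.1))) := by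
  induction n with
  | zero => intro g s p; simp [prs]
  | succ n ih =>
    intro g s p
    rw [List.ofFn_succ, List.ofFn_succ, prs, List.mem_append, ih, Fin.exists_fin_succ]
    cases s 0 <;> simp

def bd (m : ℕ) (es : List (ℕ × ℕ × ℕ × ℕ)) : Prop :=
  ∀ e ∈ es, e.1 < m ∧ e.2.1 < m ∧ e.2.2.1 < m ∧ e.2.2.2 < m

instance (m : ℕ) (es : List (ℕ × ℕ × ℕ × ℕ)) : Decidable (bd m es) := by unfold bd; infer_instance

theorem prs_bd (m : ℕ) (es : List (ℕ × ℕ × ℕ × ℕ)) : bd m es → ∀ l : List Bool,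
    ∀ p ∈ prs es l, p.1 < m ∧ p.2 < m := by
  induction es with
  | nil => intro _ l; simp [prs]
  | cons e es ih =>
    intro h l
    cases l with
    | nil => simp [prs]
    | cons b l =>
      intro p hp
      rw [prs, List.mem_append] at hp
      have he := h e List.mem_cons_self
      rcases hp with hp | hp
      · cases b <;> simp at hp <;> rcases hp with rfl | rfl <;> simp [he]
      · exact ih (fun q hq => h q (List.mem_cons_of_mem _ hq)) l p hp

def G (lab : ℕ → ℕ) (es : List (ℕ × ℕ × ℕ × ℕ)) : ℤ :=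
  sumL es.length (fun l => (-1) ^ l.count true * (-1) ^ mc lab (prs es l))

theorem G_congr (m : ℕ) (es : List (ℕ × ℕ × ℕ × ℕ)) (h : bd m es) (lab lab' : ℕ → ℕ)
    (hl : ∀ x < m, lab x = lab' x) : G lab es = G lab' es := by
  unfold G
  congr 1
  funext l
  rw [mc_congr m _ lab lab' hl (prs_bd m es h l)]

def sg (lab : ℕ → ℕ) (a b : ℕ) : ℤ := if lab a = lab b then 1 else -1

theorem pw (lab : ℕ → ℕ) (a b : ℕ) (L : List (ℕ × ℕ)) :
    (-1 : ℤ) ^ mc lab ((a, b) :: L) = sg lab a b * (-1) ^ mc (mg lab a b) L := by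
  rw [mc, pow_add, sg]; split_ifs <;> simp

theorem G_cons (lab : ℕ → ℕ) (p q r t : ℕ) (es : List (ℕ × ℕ × ℕ × ℕ)) :
    G lab ((p, q, r, t) :: es) =
      sg lab p t * sg (mg lab p t) r q * G (mg (mg lab p t) r q) es +
      -(sg lab q t * sg (mg lab q t) p r) * G (mg (mg lab q t) p r) es := by
  unfold G
  rw [List.length_cons, sumL, Fintype.sum_bool, ← sumL_mul, ← sumL_mul, add_comm]
  congr 2 <;> funext l <;> simp [prs, pw, pow_succ] <;> ring

def tot (L : List (ℕ × ℤ)) (es : List (ℕ × ℕ × ℕ × ℕ)) : ℤ :=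
  (L.map (fun kc => kc.2 * G (gt kc.1) es)).sum

noncomputable def fN {α : Type} (n : ℕ) (f : ℕ → α) : α :=
  Nat.rec (f 0) (fun k _ => f (Nat.succ k)) n

theorem fN_eq {α : Type} (n : ℕ) (f : ℕ → α) : fN n f = f n := by cases n <;> rfl

noncomputable def fI {α : Type} (c : ℤ) (f : ℤ → α) : α :=
  Int.rec (fun n => fN n (fun n => f (Int.ofNat n))) (fun n => fN n (fun n => f (Int.negSucc n))) c

theorem fI_eq {α : Type} (c : ℤ) (f : ℤ → α) : fI c f = f c := by
  cases c <;> simp only [fI, fN_eq]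

def g (k i : ℕ) : ℕ := Nat.mod (Nat.div k (Nat.pow 64 i)) 64

theorem g_eq (k i : ℕ) : g k i = gt k i := rfl

noncomputable def repl (M m n : ℕ) : ℕ → ℕ :=
  Nat.rec (fun _ => 0) (fun _ ih k => Nat.add (cond (Nat.beq (Nat.mod k 64) M) m (Nat.mod k 64))
    (Nat.mul 64 (fN (Nat.div k 64) ih))) n

theorem gt_succ (a k i : ℕ) (ha : a < 64) : gt (a + 64 * k) (i + 1) = gt k i := by
  unfold gt
  rw [pow_succ', ← Nat.div_div_eq_div_mul]
  congr 2; omega

theorem gt_repl (M m : ℕ) (hm : m < 64) (n : ℕ) : ∀ k, ∀ x < n,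
    gt (repl M m n k) x = if gt k x = M then m else gt k x := by
  induction n with
  | zero => intro k x hx; omega
  | succ n ih =>
    intro k x hx
    have e : repl M m (n + 1) k =
        (if k % 64 = M then m else k % 64) + 64 * repl M m n (k / 64) := by
      show cond (Nat.beq (k % 64) M) m (k % 64) + 64 * fN (k / 64) (repl M m n) = _
      rw [fN_eq]
      by_cases h : k % 64 = M
      · rw [if_pos h, h, Nat.beq_refl]; rfl
      · rw [if_neg h, Bool.eq_false_iff.2 (fun h' => h (Nat.eq_of_beq_eq_true h'))]; rfl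
    have hl : (if k % 64 = M then m else k % 64) < 64 := by split_ifs <;> omega
    rw [e]
    cases x with
    | zero => simp only [gt, pow_zero, Nat.div_one]; omega
    | succ x =>
      rw [gt_succ _ _ _ hl, ih _ x (by omega)]
      have : gt (k / 64) x = gt k (x + 1) := by
        unfold gt; rw [pow_succ', ← Nat.div_div_eq_div_mul]
      rw [this]

noncomputable def mk (k a b n : ℕ) : ℕ :=
  repl (max (gt k a) (gt k b)) (min (gt k a) (gt k b)) n k

theorem gt_mk (k a b n : ℕ) : ∀ x < n, gt (mk k a b n) x = mg (gt k) a b x :=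
  gt_repl _ _ (by have := gt_lt k a; omega) n k

noncomputable def mgC {α : Type} (k a b n : ℕ) (c : ℤ) (f : ℕ → ℤ → α) : α :=
  fN (g k a) fun u => fN (g k b) fun v =>
    fN (cond (Nat.ble u v) (repl v u n k) (repl u v n k)) fun k' =>
      fI (cond (Nat.beq u v) c (Int.neg c)) (f k')

theorem mgC_eq {α : Type} (k a b n : ℕ) (c : ℤ) (f : ℕ → ℤ → α) :
    mgC k a b n c f = f (mk k a b n) (c * sg (gt k) a b) := by
  simp only [mgC, fN_eq, fI_eq, g_eq, mk, sg]
  congr 1
  · by_cases h : gt k a ≤ gt k b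
    · rw [Nat.ble_eq_true_of_le h, max_eq_right h, min_eq_left h]; rfl
    · rw [Bool.eq_false_iff.2 (fun h' => h (Nat.le_of_ble_eq_true h')),
        max_eq_left (by omega), min_eq_right (by omega)]; rfl
  · by_cases h : gt k a = gt k b
    · rw [if_pos h, h, Nat.beq_refl, mul_one]; rfl
    · rw [if_neg h, Bool.eq_false_iff.2 (fun h' => h (Nat.eq_of_beq_eq_true h')), mul_neg_one]; rfl

noncomputable def ins (k : ℕ) (c : ℤ) (L : List (ℕ × ℤ)) : List (ℕ × ℤ) :=
  List.rec [(k, c)] (fun h L ih => Prod.rec (fun k1 c1 =>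
    cond (Nat.beq k k1) (fI (Int.add c c1) (fun c' => (k, c') :: L)) (h :: ih)) h) L

theorem tot_ins (k : ℕ) (c : ℤ) (es : List (ℕ × ℕ × ℕ × ℕ)) (L : List (ℕ × ℤ)) :
    tot (ins k c L) es = c * G (gt k) es + tot L es := by
  induction L with
  | nil => simp [ins, tot]
  | cons h L ih =>
    obtain ⟨k1, c1⟩ := h
    have e : ins k c ((k1, c1) :: L) = cond (Nat.beq k k1) (fI (c + c1) (fun c' => (k, c') :: L))
      ((k1, c1) :: ins k c L) := rfl
    rw [e]
    by_cases hk : k = k1
    · subst hk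
      rw [Nat.beq_refl, cond_true, fI_eq]; simp only [tot, List.map_cons, List.sum_cons]; ring
    · rw [Bool.eq_false_iff.2 (fun h' => hk (Nat.eq_of_beq_eq_true h')), cond_false]
      simp only [tot, List.map_cons, List.sum_cons] at ih ⊢; rw [ih]; ring

noncomputable def one (m k : ℕ) (c : ℤ) (a b a' b' : ℕ) (acc : List (ℕ × ℤ)) : List (ℕ × ℤ) :=
  mgC k a b 42 c fun k1 c1 => mgC k1 a' b' m c1 fun k2 c2 => ins k2 c2 acc

theorem tot_one (m k : ℕ) (c : ℤ) (a b a' b' : ℕ) (acc : List (ℕ × ℤ))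
    (es : List (ℕ × ℕ × ℕ × ℕ)) (h : bd m es) (hm : m ≤ 42) (ha : a' < 42) (hb : b' < 42) :
    tot (one m k c a b a' b' acc) es =
      c * (sg (gt k) a b * sg (mg (gt k) a b) a' b') * G (mg (mg (gt k) a b) a' b') es +
        tot acc es := by
  rw [one, mgC_eq, mgC_eq, tot_ins, G_congr m es h _ (mg (mg (gt k) a b) a' b')]
  · have : sg (gt (mk k a b 42)) a' b' = sg (mg (gt k) a b) a' b' := by
      unfold sg; rw [gt_mk _ _ _ _ _ ha, gt_mk _ _ _ _ _ hb]
    rw [this]; ring
  · intro x hx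
    rw [gt_mk _ _ _ _ _ hx]
    exact mg_congr 42 _ _ (gt_mk _ _ _ _) _ _ ha hb x (by omega)

noncomputable def step (m p q r t : ℕ) (L : List (ℕ × ℤ)) : List (ℕ × ℤ) :=
  List.rec [] (fun h _ ih => Prod.rec (fun k c =>
    one m k c p t r q (one m k (Int.neg c) q t p r ih)) h) L

theorem tot_step (m p q r t : ℕ) (es : List (ℕ × ℕ × ℕ × ℕ)) (h : bd m es) (hm : m ≤ 42)
    (hp : p < 42) (hq : q < 42) (hr : r < 42) (L : List (ℕ × ℤ)) :
    tot (step m p q r t L) es = tot L ((p, q, r, t) :: es) := by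
  induction L with
  | nil => rfl
  | cons x L ih =>
    obtain ⟨k, c⟩ := x
    have e : step m p q r t ((k, c) :: L) =
      one m k c p t r q (one m k (-c) q t p r (step m p q r t L)) := rfl
    rw [e, tot_one _ _ _ _ _ _ _ _ _ h hm hr hq, tot_one _ _ _ _ _ _ _ _ _ h hm hp hr, ih]
    simp only [tot, List.map_cons, List.sum_cons, G_cons]; ring

noncomputable def run : List (ℕ × ℕ × ℕ × ℕ) → List ℕ → List (ℕ × ℤ) → ℤ
  | e :: es, m :: ms, L => run es ms (step m e.1 e.2.1 e.2.2.1 e.2.2.2 L)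
  | _, _, L => (L.map (fun kc => kc.2)).sum

def okb : List (ℕ × ℕ × ℕ × ℕ) → List ℕ → Bool
  | e :: es, m :: ms =>
      decide (bd m es ∧ m ≤ 42 ∧ e.1 < 42 ∧ e.2.1 < 42 ∧ e.2.2.1 < 42) && okb es ms
  | [], _ => true
  | _, [] => false

theorem run_eq (es : List (ℕ × ℕ × ℕ × ℕ)) : ∀ (ms : List ℕ) (L : List (ℕ × ℤ)),
    okb es ms = true → run es ms L = tot L es := by
  induction es with
  | nil => intro ms L _; simp [run, tot, G, sumL, prs, mc]
  | cons e es ih =>
    intro ms L h
    cases ms with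
    | nil => simp [okb] at h
    | cons m ms =>
      simp only [okb, Bool.and_eq_true, decide_eq_true_eq] at h
      rw [run, ih _ _ h.2, tot_step _ _ _ _ _ _ h.1.1 h.1.2.1 h.1.2.2.1 h.1.2.2.2.1 h.1.2.2.2.2]

/-- backtracking count -/
def chk (cf : ℕ → List ℕ) (p : List (Fin 3)) (a : Fin 3) : Bool :=
  (cf p.length).all (fun j => p.getD j 0 != a)

def okR (cf : ℕ → List ℕ) : List (Fin 3) → List (Fin 3) → Bool
  | _, [] => true
  | p, a :: l => chk cf p a && okR cf (p ++ [a]) l

def cnt (cf : ℕ → List ℕ) : ℕ → List (Fin 3) → ℤ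
  | 0, _ => 1
  | n + 1, p => (if chk cf p 0 then cnt cf n (p ++ [0]) else 0) +
      (if chk cf p 1 then cnt cf n (p ++ [1]) else 0) + (if chk cf p 2 then cnt cf n (p ++ [2]) else 0)

theorem cnt_eq (cf : ℕ → List ℕ) (n : ℕ) : ∀ p,
    sumL n (fun l => if okR cf p l then 1 else 0) = cnt cf n p := by
  induction n with
  | zero => intro p; simp [sumL, okR, cnt]
  | succ n ih =>
    intro p
    have : ∀ a, sumL n (fun l => if okR cf p (a :: l) then 1 else 0) =
        if chk cf p a then cnt cf n (p ++ [a]) else 0 := by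
      intro a
      rw [← ih]
      by_cases h : chk cf p a = true
      · simp [okR, h]
      · have := sumL_mul n 0 (fun _ : List (Fin 3) => 0)
        simpa [okR, h] using this
    rw [sumL, Fin.sum_univ_three, this, this, this, cnt]

theorem okR_iff (cf : ℕ → List ℕ) (hcf : ∀ i, ∀ j ∈ cf i, j < i) (l : List (Fin 3)) : ∀ p,
    okR cf p l = true ↔ ∀ i, p.length ≤ i → i < p.length + l.length →
      ∀ j ∈ cf i, (p ++ l).getD j 0 ≠ (p ++ l).getD i 0 := by
  induction l with
  | nil => intro p; simp only [okR, List.length_nil, true_iff]; intro i h1 h2; omega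
  | cons a l ih =>
    intro p
    rw [okR, Bool.and_eq_true, ih]
    have hc : chk cf p a = true ↔
        ∀ j ∈ cf p.length, (p ++ a :: l).getD j 0 ≠ (p ++ a :: l).getD p.length 0 := by
      simp only [chk, List.all_eq_true, bne_iff_ne]
      refine forall₂_congr (fun j hj => ?_)
      rw [List.getD_append _ _ _ _ (hcf _ _ hj), List.getD_append_right _ _ _ _ le_rfl]
      simp
    rw [hc]
    simp only [List.append_assoc, List.singleton_append, List.length_append, List.length_cons,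
      List.length_nil]
    constructor
    · rintro ⟨h1, h2⟩ i hi hi'
      rcases hi.eq_or_lt with rfl | hi
      · exact h1
      · exact h2 i (by omega) (by omega)
    · intro h
      exact ⟨h _ le_rfl (by omega), fun i hi hi' => h i (by omega) (by omega)⟩

end Pool.Agent.H11.PenDP
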