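import Mathlib

set_option autoImplicit false

namespace Pool.Agent.H11.QG

def f (x : ℕ) : ℕ := (x * x + x) % 1113643

noncomputable def force {α : Type} (n : ℕ) (k : ℕ → α) : α :=
  Nat.rec (motive := fun _ => α) (k 0) (fun m _ => k (Nat.succ m)) n

lemma force_eq {α : Type} (n : ℕ) (k : ℕ → α) : force n k = k n := by
  cases n <;> rfl

@[irreducible] def c1 (y : ℕ) : ℕ := Nat.mod (Nat.add 1 (Nat.mul 4 y)) 1113643

@[irreducible] def c2 (d : ℕ) : ℕ := Nat.mod (Nat.pow d 67) 1113643

@[irreducible] def c3 (r d : ℕ) : ℕ := Nat.mod (Nat.mul (Nat.pow r 64) (Nat.pow d 62)) 1113643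

@[irreducible] def c4 (r d : ℕ) : ℕ :=
  Nat.mul (Nat.add (Nat.mul (Nat.pow r 64) (Nat.pow d 11)) 1113642) 556822

noncomputable def fin (y x : ℕ) (st : List ℕ) (k : List ℕ → List ℕ) : List ℕ :=
  Bool.rec (motive := fun _ => List ℕ) (k st)
    (Bool.rec (motive := fun _ => List ℕ)
      (force (Nat.sub 1113642 x) fun x' => k (x :: x' :: st)) (k (x :: st)) (Nat.beq x 556821))
    (Nat.beq (Nat.mod (Nat.add (Nat.mul x x) x) 1113643) y)

noncomputable def step (y : ℕ) (st : List ℕ) (k : List ℕ → List ℕ) : List ℕ :=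
  force (c1 y) fun d => force (c2 d) fun r1 => force (c3 r1 d) fun r2 =>
  force (Nat.mod (c4 r2 d) 1113643) fun x => fin y x st k

noncomputable def run (n : ℕ) : List ℕ → List ℕ :=
  Nat.rec (motive := fun _ => List ℕ → List ℕ) (fun st => st)
    (fun _ ih st => List.rec (motive := fun _ => List ℕ) [0] (fun y t _ => step y t ih) st) n

lemma run_zero (st : List ℕ) : run 0 st = st := rfl

lemma run_nil (n : ℕ) : run (n + 1) [] = [0] := rfl

lemma run_cons (n y : ℕ) (t : List ℕ) : run (n + 1) (y :: t) = step y t (run n) := rfl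

lemma fin_spec (y x : ℕ) (st : List ℕ) (k : List ℕ → List ℕ) :
    fin y x st k = k st ∨ (f x = y ∧ fin y x st k = k (x :: st)) ∨
      (f x = y ∧ x ≠ 556821 ∧ fin y x st k = k (x :: (1113642 - x) :: st)) := by
  unfold fin
  cases h1 : Nat.beq (Nat.mod (Nat.add (Nat.mul x x) x) 1113643) y with
  | false => left; rfl
  | true =>
    right
    have e1 : f x = y := Nat.eq_of_beq_eq_true h1
    cases h2 : Nat.beq x 556821 with
    | false =>
      right
      exact ⟨e1, Nat.ne_of_beq_eq_false h2, force_eq _ _⟩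
    | true => left; exact ⟨e1, rfl⟩

lemma step_spec (y : ℕ) (st : List ℕ) (k : List ℕ → List ℕ) :
    ∃ x, x < 1113643 ∧ step y st k = fin y x st k := by
  refine ⟨Nat.mod (c4 (c3 (c2 (c1 y)) (c1 y)) (c1 y)) 1113643, Nat.mod_lt _ (by decide), ?_⟩
  unfold step
  rw [force_eq, force_eq, force_eq, force_eq]

lemma f_symm (x : ℕ) (hx : x < 1113643) : f (1113642 - x) = f x := by
  obtain ⟨z, hz⟩ : ∃ z, z + x = 1113642 := ⟨1113642 - x, by omega⟩
  have e : 1113642 - x = z := by omega
  rw [e]
  unfold f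
  have h1 : z * z + z + 1113643 * x = x * x + x + 1113643 * z := by
    have : (1113643 : ℕ) = z + x + 1 := by omega
    rw [this]; ring
  have h2 : (z * z + z + 1113643 * x) % 1113643 = (z * z + z) % 1113643 :=
    Nat.add_mul_mod_self_left _ _ _
  have h3 : (x * x + x + 1113643 * z) % 1113643 = (x * x + x) % 1113643 :=
    Nat.add_mul_mod_self_left _ _ _
  rw [← h2, h1, h3]

def Good (st : List ℕ) (n : ℕ) : Prop :=
  ∃ A : Finset ℕ, A.card = n ∧ (∀ x ∈ A, x < 1113643 ∧ (∃ k, f^[k] x = 0) ∧ f x ∈ A) ∧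
    st.Nodup ∧ ∀ x ∈ st, x < 1113643 ∧ x ∉ A ∧ f x ∈ A

lemma good_push {y n : ℕ} {t : List ℕ} (h : Good (y :: t) n) (l : List ℕ) (hl : l.Nodup)
    (hl2 : ∀ x ∈ l, x < 1113643 ∧ f x = y) : Good (l ++ t) (n + 1) := by
  obtain ⟨A, hc, hA, hnd, hst⟩ := h
  obtain ⟨hy1, hy2, hy3⟩ := hst y (by simp)
  rw [List.nodup_cons] at hnd
  refine ⟨insert y A, by rw [Finset.card_insert_of_notMem hy2, hc], ?_, ?_, ?_⟩
  · intro x hx
    rcases Finset.mem_insert.1 hx with rfl | hx
    · obtain ⟨-, ⟨k, hk⟩, -⟩ := hA _ hy3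
      exact ⟨hy1, ⟨k + 1, hk⟩, Finset.mem_insert_of_mem hy3⟩
    · obtain ⟨a, b, c⟩ := hA x hx
      exact ⟨a, b, Finset.mem_insert_of_mem c⟩
  · rw [List.nodup_append]
    refine ⟨hl, hnd.2, ?_⟩
    rintro a ha b hb rfl
    have h1 := (hst a (List.mem_cons_of_mem _ hb)).2.2
    rw [(hl2 a ha).2] at h1
    exact hy2 h1
  · intro x hx
    rcases List.mem_append.1 hx with hx | hx
    · obtain ⟨a, b⟩ := hl2 x hx
      refine ⟨a, ?_, by rw [b]; exact Finset.mem_insert_self _ _⟩
      intro hm
      rcases Finset.mem_insert.1 hm with rfl | hm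
      · rw [b] at hy3; exact hy2 hy3
      · have := (hA x hm).2.2
        rw [b] at this; exact hy2 this
    · obtain ⟨a, b, c⟩ := hst x (List.mem_cons_of_mem _ hx)
      refine ⟨a, ?_, Finset.mem_insert_of_mem c⟩
      intro hm
      rcases Finset.mem_insert.1 hm with rfl | hm
      · exact hnd.1 hx
      · exact b hm

lemma run_good (n : ℕ) : ∀ (st : List ℕ) (m : ℕ), Good st m → 0 ∉ run n st →
    Good (run n st) (m + n) := by
  induction n with
  | zero => intro st m h _; exact h
  | succ n ih =>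
    intro st m h h0
    cases st with
    | nil => rw [run_nil] at h0; simp at h0
    | cons y t =>
      rw [run_cons] at h0 ⊢
      obtain ⟨x, hx, e⟩ := step_spec y t (run n)
      rw [e] at h0 ⊢
      have em : m + (n + 1) = m + 1 + n := by omega
      rw [em]
      rcases fin_spec y x t (run n) with e | ⟨e1, e⟩ | ⟨e1, e2, e⟩ <;> rw [e] at h0 ⊢
      · exact ih _ _ (good_push h [] (by simp) (by simp)) h0
      · exact ih _ _ (good_push h [x] (by simp) (by simpa using ⟨hx, e1⟩)) h0
      · refine ih _ _ (good_push h [x, 1113642 - x] ?_ ?_) h0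
        · simp; omega
        · intro z hz
          simp only [List.mem_cons, List.not_mem_nil, or_false] at hz
          rcases hz with rfl | rfl
          · exact ⟨hx, e1⟩
          · exact ⟨by omega, by rw [f_symm x hx, e1]⟩

/-- boolean equality of lists of positive numbers -/
noncomputable def chk (a : List ℕ) : List ℕ → Bool :=
  List.rec (motive := fun _ => List ℕ → Bool)
    (fun b => List.rec (motive := fun _ => Bool) true (fun _ _ _ => false) b)
    (fun x _ ih b => List.rec (motive := fun _ => Bool) false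
      (fun y t _ => Nat.beq x y && (Nat.ble 1 x && ih t)) b) a

lemma chk_spec : ∀ a b : List ℕ, chk a b = true → a = b ∧ 0 ∉ a := by
  intro a
  induction a with
  | nil =>
    intro b h
    cases b with
    | nil => simp
    | cons y t => exact absurd h (by simp [chk])
  | cons x s ih =>
    intro b h
    cases b with
    | nil => exact absurd h (by simp [chk])
    | cons y t =>
      have h' : (Nat.beq x y && (Nat.ble 1 x && chk s t)) = true := h
      simp only [Bool.and_eq_true] at h'
      obtain ⟨h1, h2, h3⟩ := h'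
      obtain ⟨h4, h5⟩ := ih t h3
      have h6 := Nat.le_of_ble_eq_true h2
      refine ⟨by rw [Nat.eq_of_beq_eq_true h1, h4], ?_⟩
      simp only [List.mem_cons, not_or]
      exact ⟨by omega, h5⟩

lemma chunk {a b : List ℕ} {n m : ℕ} (h : chk (run n a) b = true) (g : Good a m) :
    Good b (m + n) := by
  obtain ⟨h1, h2⟩ := chk_spec _ _ h
  rw [← h1]
  exact run_good n a m g h2

lemma good_start : Good [1113642] 1 := by
  refine ⟨{0}, by simp, ?_, by simp, ?_⟩
  · intro x hx
    rw [Finset.mem_singleton] at hx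
    subst hx
    exact ⟨by decide, ⟨0, rfl⟩, by decide⟩
  · intro x hx
    rw [List.mem_singleton] at hx
    subst hx
    exact ⟨by decide, by decide, by decide⟩

lemma good_end (h : Good [] 1113643) : ∀ x < 1113643, ∃ k, f^[k] x = 0 := by
  obtain ⟨A, hc, hA, -, -⟩ := h
  have h1 : A ⊆ Finset.range 1113643 := fun x hx => Finset.mem_range.2 (hA x hx).1
  have h2 : A = Finset.range 1113643 :=
    Finset.eq_of_subset_of_card_le h1 (by rw [Finset.card_range, hc])
  intro x hx
  exact (hA x (h2 ▸ Finset.mem_range.2 hx)).2.1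

end Pool.Agent.H11.QG
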