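import Pool.Agent.H11.QG

set_option autoImplicit false

namespace Pool.Agent.H11.QG

def s10_60 : List ℕ :=
  [696300, 120552, 135893, 498526, 809821, 442649, 364636, 1063286, 1101661, 103604, 512456, 946009, 677139, 1039288, 645824, 87060, 374599, 895750, 968001, 157994, 917407, 386557, 1040522, 882786, 889458, 18549, 31736, 641482, 199837, 867806, 848879, 774988, 540341, 795789, 340241, 108796, 799803, 923374, 204551, 91548, 743011, 155257, 1025071, 976700, 197692, 37026, 1046473, 739705, 470071, 521343, 6516, 717223, 1084678, 358435, 530677, 931889, 771189, 500976, 928428, 247961, 982036, 218736, 901419, 384155, 67607, 730458, 416057, 824613, 1008387, 913926, 670958, 419455, 427446, 442075, 235083, 222324, 861254, 861863, 97511, 904944, 627470, 82848, 621499, 991477, 361100, 660483, 9473, 992542, 1094849, 878067, 355418, 442633, 946741, 164157, 1095008, 727973, 181506, 291326, 717070, 72698, 277775, 746406, 126739, 285771, 318263, 687517]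

def s10_61 : List ℕ :=
  [1075067, 871490, 1038908, 463809, 938733, 307744, 162120, 31922, 1050981, 1083025, 256099, 6455, 96656, 920435, 791944, 919087, 882989, 1029976, 276675, 260233, 6799, 480131, 1036418, 1048507, 516330, 39825, 870824, 109286, 295651, 354377, 994960, 934500, 745574, 250257, 238727, 974911, 727872, 954230, 109675, 856385, 787599, 655958, 272412, 144791, 91732, 927713, 987439, 722983, 1019065, 990712, 360199, 184271, 573860, 774487, 1084204, 392315, 267570, 165486, 926973, 495201, 776640, 520583, 319811, 514556, 231557, 251523, 804965, 534216, 454522, 96280, 29651, 566517, 925649, 1018205, 169690, 1050187, 332607, 988277, 335068, 1019352, 744552, 810070, 1036422, 649369, 174419, 337493, 429854, 671844, 66721, 586151, 875549, 339694, 1107043, 741521, 414429, 554635, 85566, 576802, 59175, 582526, 628103, 118843, 686356, 223186, 1037607, 650261, 154609, 148179, 740553, 690845, 907424, 363478, 120552, 135893, 498526, 809821, 442649, 364636, 1063286, 1101661, 103604, 512456, 946009, 677139, 1039288, 645824, 87060, 374599, 895750, 968001, 157994, 917407, 386557, 1040522, 882786, 889458, 18549, 31736, 641482, 199837, 867806,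 848879, 774988, 540341, 795789, 340241, 108796, 799803, 923374, 204551, 91548, 743011, 155257, 1025071, 976700, 197692, 37026, 1046473, 739705, 470071, 521343, 6516, 717223, 1084678, 358435, 530677, 931889, 771189, 500976, 928428, 247961, 982036, 218736, 901419, 384155, 67607, 730458, 416057, 824613, 1008387, 913926, 670958, 419455, 427446, 442075, 235083, 222324, 861254, 861863, 97511, 904944, 627470, 82848, 621499, 991477, 361100, 660483, 9473, 992542, 1094849, 878067, 355418, 442633, 946741, 164157, 1095008, 727973, 181506, 291326, 717070, 72698, 277775, 746406, 126739, 285771, 318263, 687517]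

def s10_62 : List ℕ :=
  []

lemma t60 : chk (run 17687 s10_60) s10_61 = true := by
  decide +kernel

lemma t61 : chk (run 18876 s10_61) s10_62 = true := by
  decide +kernel

lemma part10 (g : Good s10_60 1077080) : Good s10_62 1113643 :=
  (chunk t61 (chunk t60 g))

end Pool.Agent.H11.QG
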