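import Mathlib

set_option autoImplicit false
open Finset
open scoped Pointwise

namespace Pool.Agent.H11.SumDiff

lemma exists_hom {ι : Type} [Fintype ι] [DecidableEq ι] (T : Finset (ι → ℤ)) :
    ∃ φ : (ι → ℤ) →+ ℤ, Set.InjOn φ T := by
  classical
  let e := Fintype.equivFin ι
  let P : (ι → ℤ) → Polynomial ℤ := fun y => ∑ i, Polynomial.monomial (e i : ℕ) (y i)
  have hP : ∀ y, y ≠ 0 → P y ≠ 0 := by
    intro y hy h0
    apply hy
    funext j
    have := congrArg (fun p => Polynomial.coeff p (e j : ℕ)) h0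
    simp only [P, Polynomial.finsetSum_coeff, Polynomial.coeff_monomial, Polynomial.coeff_zero] at this
    rw [Finset.sum_eq_single j] at this
    · simpa using this
    · intro b _ hb
      rw [if_neg]
      intro h
      exact hb (e.injective (Fin.ext h))
    · simp
  obtain ⟨N, hN⟩ := Infinite.exists_notMem_finset ((T - T).biUnion (fun y => (P y).roots.toFinset))
  refine ⟨{ toFun := fun y => ∑ i, y i * N ^ (e i : ℕ)
            map_zero' := by simp
            map_add' := by intro x y; simp [add_mul, Finset.sum_add_distrib] }, ?_⟩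
  intro x hx y hy hxy
  by_contra hne
  apply hN
  refine Finset.mem_biUnion.2 ⟨x - y, Finset.sub_mem_sub hx hy, ?_⟩
  rw [Multiset.mem_toFinset, Polynomial.mem_roots (hP _ (sub_ne_zero.2 hne))]
  simp only [AddMonoidHom.coe_mk, ZeroHom.coe_mk] at hxy
  simp only [P, Polynomial.IsRoot, Polynomial.eval_finsetSum, Polynomial.eval_monomial,
    Pi.sub_apply, sub_mul, Finset.sum_sub_distrib]
  exact sub_eq_zero.2 hxy

variable {ι : Type} [Fintype ι] [DecidableEq ι]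

def val (w : ι → ℕ × ℕ) : ι → ℤ := fun i => 8 * ((w i).1 : ℤ) + 9 * ((w i).2 : ℤ)

def cost (w : ι → ℕ × ℕ) : ℕ := ∑ i, ((w i).1 + (w i).2)

def W (ι : Type) [Fintype ι] [DecidableEq ι] (B K : ℕ) : Finset (ι → ℕ × ℕ) :=
  (Fintype.piFinset (fun _ : ι => range B ×ˢ range (K + 1))).filter (fun w => cost w ≤ K)

lemma mem_W {B K : ℕ} {w : ι → ℕ × ℕ} (h1 : ∀ i, (w i).1 < B) (h : cost w ≤ K) : w ∈ W ι B K := by
  refine Finset.mem_filter.2 ⟨Fintype.mem_piFinset.2 (fun i => ?_), h⟩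
  have : (w i).1 + (w i).2 ≤ cost w :=
    Finset.single_le_sum (f := fun i => (w i).1 + (w i).2) (fun _ _ => Nat.zero_le _) (mem_univ i)
  exact Finset.mem_product.2 ⟨mem_range.2 (h1 i), mem_range.2 (by omega)⟩

def A0 (ι : Type) [Fintype ι] [DecidableEq ι] (K : ℕ) : Finset (ι → ℤ) :=
  (W ι (K + 1) K).image val

lemma mem_A0 {K : ℕ} {w : ι → ℕ × ℕ} (h : cost w ≤ K) : val w ∈ A0 ι K := by
  refine Finset.mem_image_of_mem _ (mem_W (fun i => ?_) h)
  have : (w i).1 + (w i).2 ≤ cost w :=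
    Finset.single_le_sum (f := fun i => (w i).1 + (w i).2) (fun _ _ => Nat.zero_le _) (mem_univ i)
  omega

lemma sum_sub (K : ℕ) : A0 ι K + A0 ι K ⊆ (W ι 9 (2 * K)).image val := by
  intro z hz
  obtain ⟨x, hx, y, hy, rfl⟩ := Finset.mem_add.1 hz
  obtain ⟨u, hu, rfl⟩ := Finset.mem_image.1 hx
  obtain ⟨v, hv, rfl⟩ := Finset.mem_image.1 hy
  have hu' := (Finset.mem_filter.1 hu).2
  have hv' := (Finset.mem_filter.1 hv).2
  refine Finset.mem_image.2 ⟨fun i => (((u i).1 + (v i).1) % 9,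
    (u i).2 + (v i).2 + 8 * (((u i).1 + (v i).1) / 9)), mem_W (fun i => by simp only; omega) ?_, ?_⟩
  · have : cost (fun i => (((u i).1 + (v i).1) % 9,
        (u i).2 + (v i).2 + 8 * (((u i).1 + (v i).1) / 9))) ≤ cost u + cost v := by
      unfold cost
      rw [← Finset.sum_add_distrib]
      exact Finset.sum_le_sum (fun i _ => by simp only; omega)
    omega
  · funext i
    simp only [val, Pi.add_apply]
    omega

lemma card_W (K : ℕ) :
    ((W ι 9 K).card : ℝ) * (1 / 2) ^ K ≤ (511 / 128) ^ Fintype.card ι := by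
  have h1 : ∑ t ∈ range 9 ×ˢ range (K + 1), (1 / 2 : ℝ) ^ (t.1 + t.2) ≤ 511 / 128 := by
    simp only [pow_add]
    rw [Finset.sum_product, ← Finset.sum_mul_sum]
    have h2 := sum_geometric_two_le (K + 1)
    have h3 : ∑ i ∈ range 9, (1 / 2 : ℝ) ^ i = 511 / 256 := by
      simp [Finset.sum_range_succ]; norm_num
    rw [h3]
    linarith
  calc ((W ι 9 K).card : ℝ) * (1 / 2) ^ K = ∑ _w ∈ W ι 9 K, (1 / 2 : ℝ) ^ K := by simp
    _ ≤ ∑ w ∈ W ι 9 K, ∏ i, (1 / 2 : ℝ) ^ ((w i).1 + (w i).2) := by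
        refine Finset.sum_le_sum (fun w hw => ?_)
        rw [Finset.prod_pow_eq_pow_sum]
        exact pow_le_pow_of_le_one (by norm_num) (by norm_num) (Finset.mem_filter.1 hw).2
    _ ≤ ∑ w ∈ Fintype.piFinset (fun _ : ι => range 9 ×ˢ range (K + 1)),
          ∏ i, (1 / 2 : ℝ) ^ ((w i).1 + (w i).2) :=
        Finset.sum_le_sum_of_subset_of_nonneg (Finset.filter_subset _ _)
          (fun _ _ _ => by positivity)
    _ = ∏ _i : ι, ∑ t ∈ range 9 ×ˢ range (K + 1), (1 / 2 : ℝ) ^ (t.1 + t.2) :=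
        (Finset.prod_univ_sum (fun _ : ι => range 9 ×ˢ range (K + 1))
          (fun _ t => (1 / 2 : ℝ) ^ (t.1 + t.2))).symm
    _ ≤ (511 / 128) ^ Fintype.card ι := by
        rw [Finset.prod_const, Finset.card_univ]
        exact pow_le_pow_left₀ (Finset.sum_nonneg (fun _ _ => by positivity)) h1 _

lemma card_sum (K : ℕ) :
    ((A0 ι K + A0 ι K).card : ℝ) ≤ (511 / 128) ^ Fintype.card ι * 2 ^ (2 * K) := by
  have h1 : (A0 ι K + A0 ι K).card ≤ (W ι 9 (2 * K)).card :=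
    (Finset.card_le_card (sum_sub K)).trans Finset.card_image_le
  have h2 := card_W (ι := ι) (2 * K)
  have h3 : ((A0 ι K + A0 ι K).card : ℝ) ≤ (W ι 9 (2 * K)).card := by exact_mod_cast h1
  rw [one_div, inv_pow, ← div_eq_mul_inv, div_le_iff₀ (by positivity)] at h2
  linarith

noncomputable def Z0 : Finset (ℤ × ℤ) :=
  (Icc (-8 : ℤ) 8 ×ˢ Icc (-10 : ℤ) 10).filter
    (fun z => (0 ≤ z.1 ∧ 0 ≤ z.2) ∨ (z.1 ≤ 0 ∧ z.2 ≤ 0) ∨ z.1.natAbs + z.2.natAbs ≤ 8)

def pa (z : ℤ × ℤ) : ℕ := z.1.toNat + z.2.toNat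
def pb (z : ℤ × ℤ) : ℕ := (-z.1).toNat + (-z.2).toNat

lemma Z0_mem {z : ℤ × ℤ} (h : z ∈ Z0) : -8 ≤ z.1 ∧ z.1 ≤ 8 ∧ -10 ≤ z.2 ∧ z.2 ≤ 10 ∧
    ((0 ≤ z.1 ∧ 0 ≤ z.2) ∨ (z.1 ≤ 0 ∧ z.2 ≤ 0) ∨ z.1.natAbs + z.2.natAbs ≤ 8) := by
  simp only [Z0, Finset.mem_filter, Finset.mem_product, Finset.mem_Icc] at h
  tauto

lemma Z0_inj {z z' : ℤ × ℤ} (h : z ∈ Z0) (h' : z' ∈ Z0)
    (e : 8 * z.1 + 9 * z.2 = 8 * z'.1 + 9 * z'.2) : z = z' := by
  have a := Z0_mem h
  have b := Z0_mem h'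
  ext <;> omega

lemma FQ : (58149 / 10000 : ℚ) ≤ ∑ z ∈ Z0, (70 / 169 : ℚ) ^ (pa z + pb z) := by decide +kernel

lemma FR : (58149 / 10000 : ℝ) ≤ ∑ z ∈ Z0, (70 / 169 : ℝ) ^ (pa z + pb z) := by
  have := FQ
  have h2 : ((58149 / 10000 : ℚ) : ℝ) ≤ ((∑ z ∈ Z0, (70 / 169 : ℚ) ^ (pa z + pb z) : ℚ) : ℝ) :=
    Rat.cast_le.2 this
  push_cast at h2
  exact h2

noncomputable def S (d a b : ℕ) : Finset (Fin d → ℤ × ℤ) :=
  (Fintype.piFinset (fun _ : Fin d => Z0)).filter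
    (fun z => (∑ i, pa (z i), ∑ i, pb (z i)) = (a, b))

lemma pigeon (d : ℕ) : ∃ a b : ℕ, (58149 / 10000 : ℝ) ^ d ≤
    (18 * d + 1) ^ 2 * (((S d a b).card : ℝ) * (70 / 169) ^ (a + b)) := by
  have hM : (0 : ℝ) < (18 * d + 1) ^ 2 := by positivity
  obtain ⟨⟨a, b⟩, -, h⟩ := Finset.exists_le_sum_fiber_of_maps_to_of_nsmul_le_sum
    (s := Fintype.piFinset (fun _ : Fin d => Z0)) (t := range (18 * d + 1) ×ˢ range (18 * d + 1))
    (f := fun z => (∑ i, pa (z i), ∑ i, pb (z i)))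
    (w := fun z => ∏ i, (70 / 169 : ℝ) ^ (pa (z i) + pb (z i)))
    (b := (58149 / 10000 : ℝ) ^ d / (18 * d + 1) ^ 2)
    (by
      intro z hz
      have hz' := Fintype.mem_piFinset.1 hz
      have h1 : ∑ i, pa (z i) ≤ ∑ _i : Fin d, 18 := Finset.sum_le_sum (fun i _ => by
        have := Z0_mem (hz' i); unfold pa; omega)
      have h2 : ∑ i, pb (z i) ≤ ∑ _i : Fin d, 18 := Finset.sum_le_sum (fun i _ => by
        have := Z0_mem (hz' i); unfold pb; omega)
      simp only [Finset.sum_const, Finset.card_univ, Fintype.card_fin, smul_eq_mul] at h1 h2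
      exact Finset.mem_product.2 ⟨mem_range.2 (by omega), mem_range.2 (by omega)⟩)
    ⟨(0, 0), by simp⟩
    (by
      rw [← Finset.prod_univ_sum (fun _ : Fin d => Z0)
        (fun _ z => (70 / 169 : ℝ) ^ (pa z + pb z))]
      simp only [Finset.card_product, Finset.card_range, nsmul_eq_mul, Finset.prod_const,
        Finset.card_univ, Fintype.card_fin]
      push_cast
      rw [← sq, mul_div_cancel₀ _ hM.ne']
      exact pow_le_pow_left₀ (by norm_num) FR d)
  refine ⟨a, b, ?_⟩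
  rw [div_le_iff₀' hM] at h
  refine h.trans (le_of_eq ?_)
  congr 1
  rw [← nsmul_eq_mul, ← Finset.sum_const]
  refine Finset.sum_congr rfl (fun z hz => ?_)
  have := (Finset.mem_filter.1 hz).2
  rw [Finset.prod_pow_eq_pow_sum, Finset.sum_add_distrib]
  simp only [Prod.mk.injEq] at this
  rw [this.1, this.2]

lemma card_diff (d a b : ℕ) : (S d a b).card * (S d a b).card ≤
    (A0 (Fin d ⊕ Fin d) (a + b) - A0 (Fin d ⊕ Fin d) (a + b)).card := by
  rw [← Finset.card_product]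
  refine Finset.card_le_card_of_injOn
    (fun p => Sum.elim (fun i => 8 * (p.1 i).1 + 9 * (p.1 i).2)
      (fun i => -(8 * (p.2 i).1 + 9 * (p.2 i).2))) ?_ ?_
  · rintro ⟨z, z'⟩ hp
    obtain ⟨hz, hz'⟩ := Finset.mem_product.1 hp
    have e := (Finset.mem_filter.1 hz).2
    have e' := (Finset.mem_filter.1 hz').2
    simp only [Prod.mk.injEq, pa, pb] at e e'
    have hx := mem_A0 (K := a + b) (w := Sum.elim (fun i => ((z i).1.toNat, (z i).2.toNat))
      (fun i => ((-(z' i).1).toNat, (-(z' i).2).toNat)))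
      (by simp only [cost, Fintype.sum_sum_type, Sum.elim_inl, Sum.elim_inr]; omega)
    have hy := mem_A0 (K := a + b) (w := Sum.elim (fun i => ((-(z i).1).toNat, (-(z i).2).toNat))
      (fun i => ((z' i).1.toNat, (z' i).2.toNat)))
      (by simp only [cost, Fintype.sum_sum_type, Sum.elim_inl, Sum.elim_inr]; omega)
    have := Finset.sub_mem_sub hx hy
    simp only [Finset.mem_coe]
    convert this using 1
    funext i
    rcases i with i | i <;> simp only [val, Sum.elim_inl, Sum.elim_inr, Pi.sub_apply] <;> omega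
  · rintro ⟨z, z'⟩ hp ⟨y, y'⟩ hq e
    obtain ⟨hz, hz'⟩ := Finset.mem_product.1 hp
    obtain ⟨hy, hy'⟩ := Finset.mem_product.1 hq
    have m1 := Fintype.mem_piFinset.1 (Finset.mem_filter.1 hz).1
    have m2 := Fintype.mem_piFinset.1 (Finset.mem_filter.1 hz').1
    have m3 := Fintype.mem_piFinset.1 (Finset.mem_filter.1 hy).1
    have m4 := Fintype.mem_piFinset.1 (Finset.mem_filter.1 hy').1
    refine Prod.ext (funext fun i => ?_) (funext fun i => ?_)
    · exact Z0_inj (m1 i) (m3 i) (by simpa using congrFun e (Sum.inl i))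
    · refine Z0_inj (m2 i) (m4 i) ?_
      have := congrFun e (Sum.inr i)
      simp only [Sum.elim_inr] at this
      show 8 * (z' i).1 + 9 * (z' i).2 = 8 * (y' i).1 + 9 * (y' i).2
      omega

lemma transfer (A : Finset (ι → ℤ)) : ∃ B : Finset ℤ,
    (B - B).card = (A - A).card ∧ (B + B).card ≤ (A + A).card := by
  obtain ⟨φ, hφ⟩ := exists_hom (A - A)
  refine ⟨A.image φ, ?_, ?_⟩
  · have : A.image φ - A.image φ = (A - A).image φ :=
      (Finset.image_image₂_distrib (map_sub φ)).symm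
    rw [this, Finset.card_image_of_injOn hφ]
  · rw [← Finset.image_add]
    exact Finset.card_image_le

theorem main (d : ℕ) : ∃ (B : Finset ℤ) (K : ℕ),
    (58149 / 10000 : ℝ) ^ (2 * d) ≤ (18 * d + 1) ^ 4 * ((B - B).card * (70 / 169) ^ (2 * K)) ∧
    ((B + B).card : ℝ) ≤ (511 / 128) ^ (2 * d) * 2 ^ (2 * K) := by
  obtain ⟨a, b, h⟩ := pigeon d
  obtain ⟨B, h1, h2⟩ := transfer (A0 (Fin d ⊕ Fin d) (a + b))
  refine ⟨B, a + b, ?_, ?_⟩
  · have h3 : (((S d a b).card : ℝ) * (S d a b).card) ≤ (B - B).card := by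
      rw [h1]; exact_mod_cast card_diff d a b
    calc (58149 / 10000 : ℝ) ^ (2 * d) = ((58149 / 10000 : ℝ) ^ d) ^ 2 := by ring
      _ ≤ ((18 * d + 1) ^ 2 * (((S d a b).card : ℝ) * (70 / 169) ^ (a + b))) ^ 2 :=
          pow_le_pow_left₀ (by positivity) h 2
      _ = (18 * d + 1) ^ 4 * ((((S d a b).card : ℝ) * (S d a b).card) *
            (70 / 169) ^ (2 * (a + b))) := by ring
      _ ≤ _ := by gcongr
  · have h4 := card_sum (ι := Fin d ⊕ Fin d) (a + b)
    have h5 : ((B + B).card : ℝ) ≤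
        (A0 (Fin d ⊕ Fin d) (a + b) + A0 (Fin d ⊕ Fin d) (a + b)).card := by exact_mod_cast h2
    rw [Fintype.card_sum, Fintype.card_fin, ← two_mul] at h4
    linarith

end Pool.Agent.H11.SumDiff
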