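import Mathlib

set_option autoImplicit false

namespace Pool.Agent.H11.TotDom

open Finset

variable {V : Type} [DecidableEq V]

/-- Core count: `R x y` is adjacency between `x ∈ A` and `y ∈ B`. -/
lemma core (R : V → V → Prop) [DecidableRel R] (A B P : Finset V) (t s : ℕ)
    (hPA : P ⊆ A) (hP : P.card = t + s + 2) (hPd : ∀ y ∈ B, ∃ x ∈ P, R x y)
    (hmin : ∀ Q : Finset V, (∀ y ∈ B, ∃ x ∈ Q, R x y) → t + s + 2 ≤ Q.card)
    (hA : ∀ x ∈ A, ∃ y, R x y)
    (hq : ∀ D : Finset V, (∀ x ∈ A, ∃ y ∈ D, R x y) → t + 1 ≤ D.card) :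
    t * B.card + (t + s + 1) * (A.card - (t + s + 2)) + (s + 1) * (t + s + 2) ≤
      ∑ y ∈ B, (A.filter fun x => ¬ R x y).card := by
  classical
  choose! f hf using hA
  have h1 : ∀ y, t ≤ (A.filter fun x => ¬ R x y).card := by
    intro y
    have := hq (insert y ((A.filter fun x => ¬ R x y).image f)) fun x hx => by
      by_cases h : R x y
      · exact ⟨y, mem_insert_self _ _, h⟩
      · exact ⟨f x, mem_insert_of_mem (mem_image_of_mem f (mem_filter.2 ⟨hx, h⟩)), hf x hx⟩
    have h2 := card_insert_le y ((A.filter fun x => ¬ R x y).image f)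
    have h3 := card_image_le (s := A.filter fun x => ¬ R x y) (f := f)
    omega
  set B2 := B.filter fun y => (P.filter fun x => R x y).card ≤ 2 with hB2
  set B1 := B2.filter fun y => (P.filter fun x => R x y).card ≤ 1 with hB1
  have hnd : ∀ Q : Finset V, Q.card < t + s + 2 → ∃ y ∈ B, ∀ x ∈ Q, ¬ R x y := by
    intro Q hQ
    by_contra h
    push Not at h
    exact absurd (hmin Q h) (by omega)
  have h4 : t + s + 2 ≤ B1.card := by
    have : ∀ i ∈ P, ∃ y ∈ B, ∀ k ∈ P, R k y ↔ k = i := by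
      intro i hi
      obtain ⟨y, hy, h⟩ := hnd (P.erase i) (by rw [card_erase_of_mem hi]; omega)
      have h5 : ∀ k ∈ P, R k y → k = i := fun k hk e => by
        by_contra hne
        exact h k (mem_erase.2 ⟨hne, hk⟩) e
      obtain ⟨x, hx, hxy⟩ := hPd y hy
      exact ⟨y, hy, fun k hk => ⟨h5 k hk, fun e => by rw [e, ← h5 x hx hxy]; exact hxy⟩⟩
    choose! g hg using this
    rw [← hP]
    refine card_le_card_of_injOn g (fun i hi => ?_) fun i hi j hj e => ?_
    · have hi' : i ∈ P := hi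
      have : (P.filter fun x => R x (g i)).card ≤ 1 :=
        card_le_one.2 fun a ha b hb => by
          rw [((hg i hi').2 a (mem_filter.1 ha).1).1 (mem_filter.1 ha).2,
            ((hg i hi').2 b (mem_filter.1 hb).1).1 (mem_filter.1 hb).2]
      exact mem_coe.2 (mem_filter.2 ⟨mem_filter.2 ⟨(hg i hi').1, by omega⟩, this⟩)
    · have := ((hg i hi).2 i hi).2 rfl
      rw [e] at this
      exact ((hg j hj).2 i hi).1 this
  have h5 : ∀ x, t + s + 1 ≤ (B2.filter fun y => ¬ R x y).card := by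
    intro x
    obtain ⟨i0, hi0, h⟩ : ∃ i0 ∈ P, ∀ i ∈ P.erase i0, ∃ y ∈ B, ¬ R x y ∧ R i y ∧
        ∀ k ∈ P, R k y → k = i ∨ k = i0 := by
      by_cases hc : ∀ i ∈ P, ∃ y ∈ B, ¬ R x y ∧ ∀ k ∈ P, R k y → k = i
      · obtain ⟨i0, hi0⟩ : P.Nonempty := card_pos.1 (by omega)
        refine ⟨i0, hi0, fun i hi => ?_⟩
        obtain ⟨y, hy, h1, h2⟩ := hc i (mem_of_mem_erase hi)
        obtain ⟨z, hz, hzy⟩ := hPd y hy
        exact ⟨y, hy, h1, h2 z hz hzy ▸ hzy, fun k hk e => Or.inl (h2 k hk e)⟩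
      · push Not at hc
        obtain ⟨i0, hi0, hc⟩ := hc
        refine ⟨i0, hi0, fun i hi => ?_⟩
        obtain ⟨y, hy, h⟩ := hnd (insert x ((P.erase i0).erase i)) (by
          have := card_insert_le x ((P.erase i0).erase i)
          rw [card_erase_of_mem hi, card_erase_of_mem hi0] at this
          omega)
        have h6 : ∀ k ∈ P, R k y → k = i ∨ k = i0 := fun k hk e => by
          by_contra hne
          push Not at hne
          exact h k (mem_insert_of_mem (mem_erase.2 ⟨hne.1, mem_erase.2 ⟨hne.2, hk⟩⟩)) e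
        have hx := h x (mem_insert_self _ _)
        obtain ⟨k, hk, hky, hki⟩ := hc y hy hx
        exact ⟨y, hy, hx, ((h6 k hk hky).resolve_right hki) ▸ hky, h6⟩
    choose! g hg using h
    have : (P.erase i0).card = t + s + 1 := by rw [card_erase_of_mem hi0]; omega
    rw [← this]
    refine card_le_card_of_injOn g (fun i hi => ?_) fun i hi j hj e => ?_
    · have hi' : i ∈ P.erase i0 := hi
      obtain ⟨a1, a2, -, a4⟩ := hg i hi'
      refine mem_coe.2 (mem_filter.2 ⟨mem_filter.2 ⟨a1, ?_⟩, a2⟩)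
      refine (card_le_card (t := {i, i0}) fun k hk => ?_).trans card_le_two
      simpa using a4 k (mem_filter.1 hk).1 (mem_filter.1 hk).2
    · have hi' : i ∈ P.erase i0 := hi
      have := (hg i hi').2.2.1
      rw [e] at this
      exact ((hg j hj).2.2.2 i (mem_of_mem_erase hi') this).resolve_right (mem_erase.1 hi').1
  have h6 : ∀ y, (A.filter fun x => ¬ R x y).card + (P.filter fun x => R x y).card =
      t + s + 2 + ((A \ P).filter fun x => ¬ R x y).card := by
    intro y
    have e1 : (A.filter fun x => ¬ R x y) =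
        (P.filter fun x => ¬ R x y) ∪ ((A \ P).filter fun x => ¬ R x y) := by
      rw [← filter_union, union_sdiff_of_subset hPA]
    have e2 := card_filter_add_card_filter_not (s := P) fun x => R x y
    rw [e1, card_union_of_disjoint (disjoint_filter_filter disjoint_sdiff)]
    omega
  have h7 : (t + s + 1) * (A.card - (t + s + 2)) ≤
      ∑ y ∈ B2, ((A \ P).filter fun x => ¬ R x y).card := by
    have : ∑ y ∈ B2, ((A \ P).filter fun x => ¬ R x y).card =
        ∑ x ∈ A \ P, (B2.filter fun y => ¬ R x y).card := by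
      simp only [card_filter]
      exact sum_comm
    rw [this, ← hP, ← card_sdiff_of_subset hPA, mul_comm]
    simpa using sum_le_sum (s := A \ P) fun x _ => h5 x
  have h8 : ∑ y ∈ B2, (P.filter fun x => R x y).card + B1.card ≤ 2 * B2.card := by
    rw [hB1, card_filter, ← sum_add_distrib, mul_comm]
    refine (sum_le_card_nsmul _ _ 2 fun y hy => ?_).trans (by simp)
    have := (mem_filter.1 hy).2
    split_ifs <;> omega
  have h9 : ∑ y ∈ B2, (A.filter fun x => ¬ R x y).card +
      ∑ y ∈ B2, (P.filter fun x => R x y).card =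
      B2.card * (t + s + 2) + ∑ y ∈ B2, ((A \ P).filter fun x => ¬ R x y).card := by
    rw [← sum_add_distrib, sum_congr rfl fun y _ => h6 y, sum_add_distrib]
    simp
  have h10 : B2 ⊆ B := filter_subset _ _
  have h11 : (B \ B2).card * t ≤ ∑ y ∈ B \ B2, (A.filter fun x => ¬ R x y).card := by
    simpa using sum_le_sum (s := B \ B2) fun y _ => h1 y
  have h12 : B1.card ≤ B2.card := card_le_card (filter_subset _ _)
  rw [← sum_sdiff h10, ← card_sdiff_add_card_eq_card h10]
  have h13 : s * (t + s + 2) ≤ s * B2.card := Nat.mul_le_mul_left _ (by omega)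
  nlinarith

variable [Fintype V]

lemma half (G : SimpleGraph V) [DecidableRel G.Adj] (A B : Finset V)
    (hAB : G.IsBipartiteWith A B) (hu : A ∪ B = univ) (hiso : ∀ v, ∃ w, G.Adj v w) (S : Finset V)
    (hS : ∀ v, ∃ w ∈ S, G.Adj v w)
    (hmin : ∀ T : Finset V, (∀ v, ∃ w ∈ T, G.Adj v w) → S.card ≤ T.card)
    (hlt : (S ∩ B).card < (S ∩ A).card) :
    4 * (G.edgeFinset.card : ℤ) ≤ ((Fintype.card V : ℤ) - S.card) *
      ((Fintype.card V : ℤ) - S.card + 4) + 2 * S.card - 2 := by
  have hd : Disjoint A B := disjoint_coe.1 hAB.disjoint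
  have hA : ∀ x ∈ A, ∀ y, G.Adj x y → y ∈ B := fun x hx y h => by
    rcases hAB.mem_of_adj h with h1 | h1
    · exact h1.2
    · exact absurd h1.1 (disjoint_left.1 hd hx)
  have hB : ∀ y ∈ B, ∀ x, G.Adj x y → x ∈ A := fun y hy x h => by
    rcases hAB.mem_of_adj h with h1 | h1
    · exact h1.1
    · exact absurd hy (disjoint_left.1 hd h1.2)
  have hmem : ∀ v, v ∈ A ∨ v ∈ B := fun v => mem_union.1 (hu ▸ mem_univ v)
  have hSc : S.card = (S ∩ A).card + (S ∩ B).card := by
    rw [← card_union_of_disjoint (hd.mono inter_subset_right inter_subset_right),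
      ← inter_union_distrib_left, hu, inter_univ]
  have dA : ∀ y ∈ B, ∃ x ∈ S ∩ A, G.Adj x y := fun y hy => by
    obtain ⟨w, hw, h⟩ := hS y
    exact ⟨w, mem_inter.2 ⟨hw, hB y hy w h.symm⟩, h.symm⟩
  have dB : ∀ x ∈ A, ∃ y ∈ S ∩ B, G.Adj x y := fun x hx => by
    obtain ⟨w, hw, h⟩ := hS x
    exact ⟨w, mem_inter.2 ⟨hw, hA x hx w h⟩, h⟩
  have hpos : 0 < (S ∩ B).card := by
    obtain ⟨x, hx⟩ : (S ∩ A).Nonempty := card_pos.1 (by omega)
    obtain ⟨y, hy, -⟩ := dB x (mem_inter.1 hx).2
    exact card_pos.2 ⟨y, hy⟩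
  obtain ⟨t, ht⟩ : ∃ t, (S ∩ B).card = t + 1 := ⟨(S ∩ B).card - 1, by omega⟩
  obtain ⟨s, hs⟩ : ∃ s, (S ∩ A).card = t + s + 2 := ⟨(S ∩ A).card - t - 2, by omega⟩
  have key := core G.Adj A B (S ∩ A) t s inter_subset_right hs dA (fun Q hQ => by
      have := hmin (Q ∪ S ∩ B) fun v => by
        rcases hmem v with h | h
        · obtain ⟨y, hy, e⟩ := dB v h
          exact ⟨y, mem_union_right _ hy, e⟩
        · obtain ⟨x, hx, e⟩ := hQ v h
          exact ⟨x, mem_union_left _ hx, e.symm⟩
      have := card_union_le Q (S ∩ B)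
      omega) (fun x _ => hiso x) (fun D hD => by
      have := hmin (D ∪ S ∩ A) fun v => by
        rcases hmem v with h | h
        · obtain ⟨y, hy, e⟩ := hD v h
          exact ⟨y, mem_union_left _ hy, e⟩
        · obtain ⟨x, hx, e⟩ := dA v h
          exact ⟨x, mem_union_right _ hx, e.symm⟩
      have := card_union_le D (S ∩ A)
      omega)
  have hm : G.edgeFinset.card + ∑ y ∈ B, (A.filter fun x => ¬ G.Adj x y).card =
      B.card * A.card := by
    rw [← SimpleGraph.isBipartiteWith_sum_degrees_eq_card_edges' hAB, ← sum_add_distrib,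
      ← smul_eq_mul, ← sum_const]
    refine sum_congr rfl fun y hy => ?_
    rw [← card_filter_add_card_filter_not (s := A) fun x => G.Adj x y,
      ← SimpleGraph.card_neighborFinset_eq_degree]
    congr 2
    ext x
    simp only [SimpleGraph.mem_neighborFinset, mem_filter]
    exact ⟨fun h => ⟨hB y hy x h.symm, h.symm⟩, fun h => h.2.symm⟩
  have hn : Fintype.card V = A.card + B.card := by
    rw [← card_union_of_disjoint hd, hu, card_univ]
  have hle : t + s + 2 ≤ A.card := hs ▸ card_le_card inter_subset_right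
  obtain ⟨a, ha⟩ := Nat.exists_eq_add_of_le hle
  rw [ha, Nat.add_sub_cancel_left] at key
  rw [hn, hSc, hs, ht, ha]
  rw [ha] at hm
  zify at key hm
  push_cast
  generalize (B.card : ℤ) = b at *
  have hs0 : (0 : ℤ) ≤ s := Int.natCast_nonneg s
  nlinarith [sq_nonneg ((s : ℤ) + 2 + a - (b - t - s - 1))]

theorem bound (G : SimpleGraph V) [DecidableRel G.Adj] (hG : G.IsBipartite)
    (hiso : ∀ v, ∃ w, G.Adj v w) (γ : ℕ)
    (hγ : IsLeast {k : ℕ | ∃ S : Finset V, S.card = k ∧ ∀ v, ∃ w ∈ S, G.Adj v w} γ)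
    (hodd : Odd γ) :
    4 * (G.edgeFinset.card : ℤ) ≤ ((Fintype.card V : ℤ) - γ) *
      ((Fintype.card V : ℤ) - γ + 4) + 2 * γ - 2 := by
  classical
  obtain ⟨c, hc⟩ := hG
  obtain ⟨⟨S, rfl, hS⟩, hmin⟩ := hγ
  have hmin' : ∀ T : Finset V, (∀ v, ∃ w ∈ T, G.Adj v w) → S.card ≤ T.card :=
    fun T hT => hmin ⟨T, rfl, hT⟩
  let A := univ.filter fun v => c v = 0
  let B := univ.filter fun v => ¬ c v = 0
  have hAB : G.IsBipartiteWith A B := by
    refine ⟨disjoint_coe.2 (disjoint_filter_filter_not _ _ _), fun v w h => ?_⟩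
    have := hc h
    simp only [A, B, coe_filter, mem_univ, true_and, Set.mem_ofPred_eq] at this ⊢
    simp only [SimpleGraph.top_adj] at this
    omega
  have hu : A ∪ B = univ := filter_union_filter_not_eq _ _
  have hSc : S.card = (S ∩ A).card + (S ∩ B).card := by
    rw [← card_union_of_disjoint ((disjoint_coe.1 hAB.disjoint).mono inter_subset_right
      inter_subset_right), ← inter_union_distrib_left, hu, inter_univ]
  obtain ⟨j, hj⟩ := hodd
  rcases lt_or_gt_of_ne (show (S ∩ B).card ≠ (S ∩ A).card by omega) with h | h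
  · exact half G A B hAB hu hiso S hS hmin' h
  · exact half G B A hAB.symm (by rw [union_comm, hu]) hiso S hS hmin' h

end Pool.Agent.H11.TotDom
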