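import Mathlib

set_option autoImplicit false
open MeasureTheory Set

namespace Pool.Agent.H11.Tri

abbrev P := ℝ × ℝ

def D (a b c : P) : ℝ := (b.1 - a.1) * (c.2 - a.2) - (b.2 - a.2) * (c.1 - a.1)

def sC : Set P := {q | 0 ≤ q.1 ∧ 0 ≤ q.2 ∧ q.1 + q.2 ≤ 1}
def sO : Set P := {q | 0 < q.1 ∧ 0 < q.2 ∧ q.1 + q.2 < 1}

def F (a b c : P) (q : P) : P := a + q.1 • (b - a) + q.2 • (c - a)

lemma half : ∫⁻ t in Ioo (0 : ℝ) 1, ENNReal.ofReal (1 - t) = ENNReal.ofReal (1 / 2) := by
  rw [← ofReal_integral_eq_lintegral_ofReal]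
  · congr 1
    rw [← integral_Ioc_eq_integral_Ioo, ← intervalIntegral.integral_of_le (by norm_num)]
    rw [intervalIntegral.integral_sub (by simp) (by simp)]
    simp
    norm_num
  · exact ((continuous_const.sub continuous_id).integrableOn_Icc (a := 0) (b := 1)).mono_set
      Ioo_subset_Icc_self
  · refine (ae_restrict_iff' measurableSet_Ioo).2 (Filter.Eventually.of_forall ?_)
    intro t ht
    simp only [Pi.zero_apply]
    linarith [ht.2]

lemma vol_sC : volume sC ≤ ENNReal.ofReal (1 / 2) := by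
  have hm : MeasurableSet sC := by
    unfold sC
    refine (measurableSet_le measurable_const measurable_fst).inter
      ((measurableSet_le measurable_const measurable_snd).inter
        (measurableSet_le (measurable_fst.add measurable_snd) measurable_const))
  rw [Measure.volume_eq_prod, Measure.prod_apply hm, ← half, setLIntegral_congr Ioo_ae_eq_Icc,
    ← lintegral_indicator measurableSet_Icc]
  refine lintegral_mono (fun t => ?_)
  by_cases ht : t ∈ Icc (0 : ℝ) 1
  · rw [indicator_of_mem ht]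
    have : Prod.mk t ⁻¹' sC ⊆ Icc 0 (1 - t) := by
      intro s hs
      obtain ⟨-, h2, h3⟩ := hs
      exact ⟨h2, by simp only at h3; linarith⟩
    refine (measure_mono this).trans ?_
    simp
  · rw [indicator_of_notMem ht]
    have : Prod.mk t ⁻¹' sC = ∅ := by
      ext s
      simp only [mem_preimage, mem_empty_iff_false, iff_false]
      rintro ⟨h1, h2, h3⟩
      simp only at h1 h2 h3
      exact ht ⟨h1, by linarith⟩
    simp [this]

lemma vol_sO : ENNReal.ofReal (1 / 2) ≤ volume sO := by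
  have hm : MeasurableSet sO := by
    unfold sO
    refine (measurableSet_lt measurable_const measurable_fst).inter
      ((measurableSet_lt measurable_const measurable_snd).inter
        (measurableSet_lt (measurable_fst.add measurable_snd) measurable_const))
  rw [Measure.volume_eq_prod, Measure.prod_apply hm, ← half,
    ← lintegral_indicator measurableSet_Ioo]
  refine lintegral_mono (fun t => ?_)
  by_cases ht : t ∈ Ioo (0 : ℝ) 1
  · rw [indicator_of_mem ht]
    have : Ioo 0 (1 - t) ⊆ Prod.mk t ⁻¹' sO := by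
      intro s hs
      exact ⟨ht.1, hs.1, by simp only; linarith [hs.2]⟩
    refine le_trans ?_ (measure_mono this)
    simp
  · rw [indicator_of_notMem ht]
    exact zero_le

lemma vol_img (a b c : P) (s : Set P) :
    volume (F a b c '' s) = ENNReal.ofReal |D a b c| * volume s := by
  have : (volume : Measure P).IsAddHaarMeasure := Measure.prod.instIsAddHaarMeasure _ _
  let L : P →ₗ[ℝ] P := Matrix.toLin (Module.Basis.finTwoProd ℝ) (Module.Basis.finTwoProd ℝ)
    !![b.1 - a.1, c.1 - a.1; b.2 - a.2, c.2 - a.2]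
  have hL : LinearMap.det L = D a b c := by
    simp only [L, LinearMap.det_toLin, Matrix.det_fin_two_of, D]
    ring
  have e : F a b c '' s = (fun p => a + p) '' (L '' s) := by
    rw [image_image]
    congr 1
    funext q
    simp only [L, Matrix.toLin_finTwoProd_apply, F]
    ext <;> simp <;> ring
  rw [e, image_add_left, measure_preimage_add, Measure.addHaar_image_linearMap, hL]

lemma vol_triC (a b c : P) : volume (F a b c '' sC) ≤ ENNReal.ofReal (|D a b c| / 2) := by
  rw [vol_img, div_eq_mul_one_div, ENNReal.ofReal_mul (abs_nonneg _)]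
  gcongr
  exact vol_sC

lemma vol_triO (a b c : P) : ENNReal.ofReal (|D a b c| / 2) ≤ volume (F a b c '' sO) := by
  rw [vol_img, div_eq_mul_one_div, ENNReal.ofReal_mul (abs_nonneg _)]
  gcongr
  exact vol_sO

lemma convex_triO (a b c : P) : Convex ℝ (F a b c '' sO) := by
  rintro _ ⟨q, hq, rfl⟩ _ ⟨r, hr, rfl⟩ s t hs ht hst
  obtain ⟨q1, q2, q3⟩ := hq
  obtain ⟨r1, r2, r3⟩ := hr
  have e : t = 1 - s := by linarith
  subst e
  refine ⟨s • q + (1 - s) • r, ⟨?_, ?_, ?_⟩, ?_⟩
  · simp only [Prod.fst_add, Prod.smul_fst, smul_eq_mul]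
    rcases hs.eq_or_lt with h | h
    · subst h; simpa using r1
    · nlinarith [mul_pos h q1, mul_nonneg ht r1.le]
  · simp only [Prod.snd_add, Prod.smul_snd, smul_eq_mul]
    rcases hs.eq_or_lt with h | h
    · subst h; simpa using r2
    · nlinarith [mul_pos h q2, mul_nonneg ht r2.le]
  · simp only [Prod.fst_add, Prod.smul_fst, Prod.snd_add, Prod.smul_snd, smul_eq_mul]
    rcases hs.eq_or_lt with h | h
    · subst h; simpa using r3
    · nlinarith [mul_pos h (sub_pos.2 q3), mul_nonneg ht (sub_pos.2 r3).le]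
  · ext <;> simp [F] <;> ring

lemma convex_triC (a b c : P) : Convex ℝ (F a b c '' sC) := by
  rintro _ ⟨q, hq, rfl⟩ _ ⟨r, hr, rfl⟩ s t hs ht hst
  obtain ⟨q1, q2, q3⟩ := hq
  obtain ⟨r1, r2, r3⟩ := hr
  have e : t = 1 - s := by linarith
  subst e
  refine ⟨s • q + (1 - s) • r, ⟨?_, ?_, ?_⟩, ?_⟩
  · simp only [Prod.fst_add, Prod.smul_fst, smul_eq_mul]
    positivity
  · simp only [Prod.snd_add, Prod.smul_snd, smul_eq_mul]
    positivity
  · simp only [Prod.fst_add, Prod.smul_fst, Prod.snd_add, Prod.smul_snd, smul_eq_mul]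
    nlinarith [mul_nonneg hs (sub_nonneg.2 q3), mul_nonneg ht (sub_nonneg.2 r3)]
  · ext <;> simp [F] <;> ring

lemma conv4 {K : Set P} (hK : Convex ℝ K) {a b c d : P} (ha : a ∈ K) (hb : b ∈ K) (hc : c ∈ K)
    (hd : d ∈ K) {p : P} (α β γ δ : ℝ) (h1 : 0 ≤ α) (h2 : 0 ≤ β) (h3 : 0 ≤ γ) (h4 : 0 ≤ δ)
    (hs : 0 < α + β + γ + δ)
    (e1 : (α + β + γ + δ) * p.1 = α * a.1 + β * b.1 + γ * c.1 + δ * d.1)
    (e2 : (α + β + γ + δ) * p.2 = α * a.2 + β * b.2 + γ * c.2 + δ * d.2) : p ∈ K := by
  have h := hK.sum_mem (t := (Finset.univ : Finset (Fin 4)))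
    (w := fun i => ![α, β, γ, δ] i / (α + β + γ + δ)) (z := ![a, b, c, d])
    (by
      intro i _
      fin_cases i <;> simp <;> positivity)
    (by
      simp only [Fin.sum_univ_four]
      simp
      field_simp)
    (by
      intro i _
      fin_cases i <;> simpa)
  convert h using 1
  simp only [Fin.sum_univ_four]
  ext
  · simp
    field_simp
    linarith
  · simp
    field_simp
    linarith

lemma triO_sub {K : Set P} (hK : Convex ℝ K) {a b c : P} (ha : a ∈ K) (hb : b ∈ K) (hc : c ∈ K) :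
    F a b c '' sO ⊆ K := by
  rintro _ ⟨q, ⟨q1, q2, q3⟩, rfl⟩
  refine conv4 hK ha hb hc hc (1 - q.1 - q.2) q.1 q.2 0 (by linarith) q1.le q2.le le_rfl
    (by linarith) ?_ ?_ <;> simp [F] <;> ring

lemma mem_triC {a b c p : P} (α β γ : ℝ) (h1 : 0 ≤ α) (h2 : 0 ≤ β) (h3 : 0 ≤ γ)
    (hs : 0 < α + β + γ)
    (e1 : (α + β + γ) * p.1 = α * a.1 + β * b.1 + γ * c.1)
    (e2 : (α + β + γ) * p.2 = α * a.2 + β * b.2 + γ * c.2) : p ∈ F a b c '' sC := by
  refine conv4 (convex_triC a b c) (a := a) (b := b) (c := c) (d := c) ?_ ?_ ?_ ?_ α β γ 0 h1 h2 h3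
    le_rfl (by linarith) (by linarith) (by linarith)
  · exact ⟨(0, 0), by simp [sC], by simp [F]⟩
  · exact ⟨(1, 0), by simp [sC], by simp [F]⟩
  · exact ⟨(0, 1), by simp [sC], by simp [F]⟩
  · exact ⟨(0, 1), by simp [sC], by simp [F]⟩

end Pool.Agent.H11.Tri
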