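import Pool.Agent.H11.TriA

set_option autoImplicit false
set_option linter.unusedSectionVars false
open MeasureTheory Set

namespace Pool.Agent.H11.Tri

variable {ι : Type*} [DecidableEq ι]

def K (y : ι → P) (S : Finset ι) : Set P := convexHull ℝ (y '' (S : Set ι))

lemma K_convex (y : ι → P) (S : Finset ι) : Convex ℝ (K y S) := convex_convexHull _ _

lemma mem_K (y : ι → P) {S : Finset ι} {i : ι} (h : i ∈ S) : y i ∈ K y S :=
  subset_convexHull _ _ ⟨i, h, rfl⟩

lemma K_mono (y : ι → P) {S T : Finset ι} (h : S ⊆ T) : K y S ⊆ K y T :=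
  convexHull_mono (image_mono (by exact_mod_cast h))

def SC (y : ι → P) (S : Finset ι) : Prop := ∀ i ∈ S, y i ∉ K y (S.erase i)

lemma SC.sub {y : ι → P} {S T : Finset ι} (h : SC y T) (hS : S ⊆ T) : SC y S :=
  fun i hi hm => h i (hS hi) (K_mono y (Finset.erase_subset_erase i hS) hm)

lemma SC.no4 {y : ι → P} {S : Finset ι} (h : SC y S) {i a b c d : ι} (hi : i ∈ S) (ha : a ∈ S)
    (hb : b ∈ S) (hc : c ∈ S) (hd : d ∈ S) (na : a ≠ i) (nb : b ≠ i) (nc : c ≠ i) (nd : d ≠ i)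
    (α β γ δ : ℝ) (h1 : 0 ≤ α) (h2 : 0 ≤ β) (h3 : 0 ≤ γ) (h4 : 0 ≤ δ)
    (hs : 0 < α + β + γ + δ)
    (e1 : (α + β + γ + δ) * (y i).1 = α * (y a).1 + β * (y b).1 + γ * (y c).1 + δ * (y d).1)
    (e2 : (α + β + γ + δ) * (y i).2 = α * (y a).2 + β * (y b).2 + γ * (y c).2 + δ * (y d).2) :
    False :=
  h i hi (conv4 (K_convex y _) (mem_K y (Finset.mem_erase.2 ⟨na, ha⟩))
    (mem_K y (Finset.mem_erase.2 ⟨nb, hb⟩)) (mem_K y (Finset.mem_erase.2 ⟨nc, hc⟩))
    (mem_K y (Finset.mem_erase.2 ⟨nd, hd⟩)) α β γ δ h1 h2 h3 h4 hs e1 e2)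

lemma SC.D_ne {y : ι → P} {S : Finset ι} (h : SC y S) {a b c : ι} (ha : a ∈ S) (hb : b ∈ S)
    (hc : c ∈ S) (hab : a ≠ b) (hac : a ≠ c) (hbc : b ≠ c) : D (y a) (y b) (y c) ≠ 0 := by
  intro h0
  unfold D at h0
  set u1 := (y b).1 - (y a).1 with hu1
  set u2 := (y b).2 - (y a).2 with hu2
  set v1 := (y c).1 - (y a).1 with hv1
  set v2 := (y c).2 - (y a).2 with hv2
  have hN : 0 < u1 ^ 2 + u2 ^ 2 := by
    by_contra hn
    have z1 : u1 = 0 := by nlinarith [sq_nonneg u1, sq_nonneg u2]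
    have z2 : u2 = 0 := by nlinarith [sq_nonneg u1, sq_nonneg u2]
    exact h.no4 hb ha ha ha ha hab hab hab hab 1 0 0 0 (by norm_num) le_rfl le_rfl le_rfl
      (by norm_num) (by linarith) (by linarith)
  have b1 : (y b).1 = (y a).1 + u1 := by linarith
  have b2 : (y b).2 = (y a).2 + u2 := by linarith
  have c1 : (y c).1 = (y a).1 + v1 := by linarith
  have c2 : (y c).2 = (y a).2 + v2 := by linarith
  clear_value u1 u2 v1 v2
  rcases le_total (u1 * v1 + u2 * v2) 0 with ht | ht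
  · refine h.no4 ha hb hc hc hc hab.symm hac.symm hac.symm hac.symm (-(u1 * v1 + u2 * v2))
      (u1 ^ 2 + u2 ^ 2) 0 0 (by linarith) hN.le le_rfl le_rfl (by linarith) ?_ ?_
    · rw [b1, c1]; linear_combination (u2) * h0
    · rw [b2, c2]; linear_combination (-u1) * h0
  · rcases le_total (u1 * v1 + u2 * v2) (u1 ^ 2 + u2 ^ 2) with ht2 | ht2
    · refine h.no4 hc ha hb hb hb hac hbc hbc hbc (u1 ^ 2 + u2 ^ 2 - (u1 * v1 + u2 * v2))
        (u1 * v1 + u2 * v2) 0 0 (by linarith) ht le_rfl le_rfl (by linarith) ?_ ?_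
      · rw [b1, c1]; linear_combination (-u2) * h0
      · rw [b2, c2]; linear_combination (u1) * h0
    · refine h.no4 hb ha hc hc hc hab hbc.symm hbc.symm hbc.symm
        ((u1 * v1 + u2 * v2) - (u1 ^ 2 + u2 ^ 2))
        (u1 ^ 2 + u2 ^ 2) 0 0 (by linarith) hN.le le_rfl le_rfl (by linarith) ?_ ?_
      · rw [b1, c1]; linear_combination (u2) * h0
      · rw [b2, c2]; linear_combination (-u1) * h0

lemma bary0 (a b c p : P) : D p b c + D a p c + D a b p = D a b c := by unfold D; ring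
lemma bary1 (a b c p : P) :
    D a b c * p.1 = D p b c * a.1 + D a p c * b.1 + D a b p * c.1 := by unfold D; ring
lemma bary2 (a b c p : P) :
    D a b c * p.2 = D p b c * a.2 + D a p c * b.2 + D a b p * c.2 := by unfold D; ring

lemma ear (y : ι → P) (S : Finset ι) {a b c : ι} (ha : a ∈ S) (hb : b ∈ S.erase a)
    (hc : c ∈ S.erase a) (hD : 0 < D (y a) (y b) (y c))
    (h : ∀ j ∈ S.erase a, D (y j) (y b) (y c) ≤ 0 ∧ 0 ≤ D (y a) (y j) (y c) ∧
      0 ≤ D (y a) (y b) (y j)) :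
    K y S ⊆ K y (S.erase a) ∪ F (y a) (y b) (y c) '' sC := by
  have hH : K y (S.erase a) ⊆ {q | D q (y b) (y c) ≤ 0 ∧ 0 ≤ D (y a) q (y c) ∧
      0 ≤ D (y a) (y b) q} := by
    refine convexHull_min ?_ ?_
    · rintro _ ⟨j, hj, rfl⟩
      exact h j hj
    · rintro p ⟨p1, p2, p3⟩ q ⟨q1, q2, q3⟩ s t hs ht hst
      have e : t = 1 - s := by linarith
      subst e
      have e1 : D (s • p + (1 - s) • q) (y b) (y c) =
          s * D p (y b) (y c) + (1 - s) * D q (y b) (y c) := by simp [D]; ring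
      have e2 : D (y a) (s • p + (1 - s) • q) (y c) =
          s * D (y a) p (y c) + (1 - s) * D (y a) q (y c) := by simp [D]; ring
      have e3 : D (y a) (y b) (s • p + (1 - s) • q) =
          s * D (y a) (y b) p + (1 - s) * D (y a) (y b) q := by simp [D]; ring
      refine ⟨?_, ?_, ?_⟩
      · rw [e1]; nlinarith [mul_nonneg hs (neg_nonneg.2 p1), mul_nonneg ht (neg_nonneg.2 q1)]
      · rw [e2]; positivity
      · rw [e3]; positivity
  intro p hp
  have e : y '' (S : Set ι) = insert (y a) (y '' ((S.erase a : Finset ι) : Set ι)) := by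
    rw [← image_insert_eq, ← Finset.coe_insert, Finset.insert_erase ha]
  unfold K at hp
  have hne : (y '' ((S.erase a : Finset ι) : Set ι)).Nonempty := ⟨y b, b, hb, rfl⟩
  rw [e, convexHull_insert hne, mem_convexJoin] at hp
  obtain ⟨_, rfl, q, hq, s, t, hs, ht, hst, rfl⟩ := hp
  obtain ⟨hA, hB, hC⟩ := hH hq
  have e0 := bary0 (y a) (y b) (y c) q
  have e1 := bary1 (y a) (y b) (y c) q
  have e2 := bary2 (y a) (y b) (y c) q
  set A := D q (y b) (y c)
  set B := D (y a) q (y c)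
  set C := D (y a) (y b) q
  set μ := D (y a) (y b) (y c)
  have es : s = 1 - t := by linarith
  subst es
  by_cases hk : 0 ≤ (1 - t) * μ + t * A
  · right
    refine mem_triC ((1 - t) * μ + t * A) (t * B) (t * C) hk (by positivity) (by positivity)
      (by nlinarith) ?_ ?_
    · simp only [Prod.fst_add, Prod.smul_fst, smul_eq_mul]
      linear_combination t * e1 + (t * ((1 - t) * (y a).1 + t * q.1)) * e0
    · simp only [Prod.snd_add, Prod.smul_snd, smul_eq_mul]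
      linear_combination t * e2 + (t * ((1 - t) * (y a).2 + t * q.2)) * e0
  · left
    push Not at hk
    have hA' : A < 0 := by
      by_contra hn
      have : A = 0 := by linarith
      rw [this] at hk
      nlinarith [mul_nonneg hs hD.le]
    refine conv4 (K_convex y _) hq (mem_K y hb) (mem_K y hc) (mem_K y hc)
      (-((1 - t) * μ + t * A)) ((1 - t) * B) ((1 - t) * C) 0 (by linarith) (by positivity)
      (by positivity) le_rfl (by nlinarith [mul_nonneg hs hB, mul_nonneg hs hC]) ?_ ?_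
    · simp only [Prod.fst_add, Prod.smul_fst, smul_eq_mul]
      linear_combination (1 - t) * e1 + ((1 - t) * ((1 - t) * (y a).1 + t * q.1)) * e0
    · simp only [Prod.snd_add, Prod.smul_snd, smul_eq_mul]
      linear_combination (1 - t) * e2 + ((1 - t) * ((1 - t) * (y a).2 + t * q.2)) * e0

lemma Dcyc (a b c : P) : D b c a = D a b c := by unfold D; ring
lemma Dswap (a b c : P) : D a c b = - D a b c := by unfold D; ring

/-- type of a further point: exactly one barycentric coordinate is negative -/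
lemma typ {y : ι → P} {S : Finset ι} (h : SC y S) {a b c j : ι} (ha : a ∈ S) (hb : b ∈ S)
    (hc : c ∈ S) (hj : j ∈ S) (hab : a ≠ b) (hac : a ≠ c) (hbc : b ≠ c) (ja : j ≠ a) (jb : j ≠ b)
    (jc : j ≠ c) (hD : 0 < D (y a) (y b) (y c)) :
    (D (y j) (y b) (y c) < 0 ∧ 0 < D (y a) (y j) (y c) ∧ 0 < D (y a) (y b) (y j)) ∨
    (0 < D (y j) (y b) (y c) ∧ D (y a) (y j) (y c) < 0 ∧ 0 < D (y a) (y b) (y j)) ∨
    (0 < D (y j) (y b) (y c) ∧ 0 < D (y a) (y j) (y c) ∧ D (y a) (y b) (y j) < 0) := by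
  have e0 := bary0 (y a) (y b) (y c) (y j)
  have e1 := bary1 (y a) (y b) (y c) (y j)
  have e2 := bary2 (y a) (y b) (y c) (y j)
  have nA := h.D_ne hj hb hc jb jc hbc
  have nB := h.D_ne ha hj hc ja.symm hac jc
  have nC := h.D_ne ha hb hj hab ja.symm jb.symm
  set A := D (y j) (y b) (y c)
  set B := D (y a) (y j) (y c)
  set C := D (y a) (y b) (y j)
  set μ := D (y a) (y b) (y c)
  rcases lt_or_gt_of_ne nA with hA | hA <;> rcases lt_or_gt_of_ne nB with hB | hB <;>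
    rcases lt_or_gt_of_ne nC with hC | hC
  · exfalso; linarith
  · exfalso
    refine h.no4 hc ha hb hj hj hac hbc jc jc (-A) (-B) μ 0 (by linarith) (by linarith) hD.le le_rfl
      (by linarith) ?_ ?_
    · linear_combination (-1) * e1 - (y c).1 * e0
    · linear_combination (-1) * e2 - (y c).2 * e0
  · exfalso
    refine h.no4 hb ha hc hj hj hab hbc.symm jb jb (-A) (-C) μ 0 (by linarith) (by linarith) hD.le
      le_rfl (by linarith) ?_ ?_
    · linear_combination (-1) * e1 - (y b).1 * e0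
    · linear_combination (-1) * e2 - (y b).2 * e0
  · exact Or.inl ⟨hA, hB, hC⟩
  · exfalso
    refine h.no4 ha hb hc hj hj hab.symm hac.symm ja ja (-B) (-C) μ 0 (by linarith) (by linarith)
      hD.le le_rfl (by linarith) ?_ ?_
    · linear_combination (-1) * e1 - (y a).1 * e0
    · linear_combination (-1) * e2 - (y a).2 * e0
  · exact Or.inr (Or.inl ⟨hA, hB, hC⟩)
  · exact Or.inr (Or.inr ⟨hA, hB, hC⟩)
  · exfalso
    refine h.no4 hj ha hb hc hc ja.symm jb.symm jc.symm jc.symm A B C 0 hA.le hB.le hC.le le_rfl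
      (by linarith) ?_ ?_
    · linear_combination e1 + (y j).1 * e0
    · linear_combination e2 + (y j).2 * e0

lemma two {y : ι → P} {S : Finset ι} (h : SC y S) {a b c j k : ι} (ha : a ∈ S) (hb : b ∈ S)
    (hc : c ∈ S) (hj : j ∈ S) (hk : k ∈ S) (hac : a ≠ c) (hbc : b ≠ c) (jc : j ≠ c) (kc : k ≠ c)
    (hD : 0 < D (y a) (y b) (y c))
    (j1 : D (y j) (y b) (y c) < 0) (j2 : D (y a) (y b) (y c) ≤ D (y a) (y j) (y c))
    (j3 : D (y a) (y b) (y c) ≤ D (y a) (y b) (y j))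
    (k1 : D (y a) (y b) (y c) ≤ D (y k) (y b) (y c)) (k2 : D (y a) (y k) (y c) < 0)
    (k3 : D (y a) (y b) (y c) ≤ D (y a) (y b) (y k)) : False := by
  have e0 := bary0 (y a) (y b) (y c) (y j)
  have e1 := bary1 (y a) (y b) (y c) (y j)
  have e2 := bary2 (y a) (y b) (y c) (y j)
  have f0 := bary0 (y a) (y b) (y c) (y k)
  have f1 := bary1 (y a) (y b) (y c) (y k)
  have f2 := bary2 (y a) (y b) (y c) (y k)
  set A := D (y j) (y b) (y c)
  set B := D (y a) (y j) (y c)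
  set C := D (y a) (y b) (y j)
  set A' := D (y k) (y b) (y c)
  set B' := D (y a) (y k) (y c)
  set C' := D (y a) (y b) (y k)
  set μ := D (y a) (y b) (y c)
  have hs : A * B' - B * A' ≥ 0 := by nlinarith
  refine h.no4 hc hj hk ha hb jc kc hac hbc (μ * (A' - B')) (μ * (B - A))
    (A * B' - B * A') (A * B' - B * A') (by nlinarith) (by nlinarith) hs hs (by nlinarith) ?_ ?_
  · linear_combination (-(A' - B')) * e1 - (B - A) * f1 - (y c).1 * (A' - B') * e0
      - (y c).1 * (B - A) * f0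
  · linear_combination (-(A' - B')) * e2 - (B - A) * f2 - (y c).2 * (A' - B') * e0
      - (y c).2 * (B - A) * f0

def Low (y : ι → P) (S : Finset ι) (μ : ℝ) : Prop :=
  ∀ a ∈ S, ∀ b ∈ S, ∀ c ∈ S, a ≠ b → a ≠ c → b ≠ c → μ ≤ |D (y a) (y b) (y c)|

lemma notboth {y : ι → P} {S : Finset ι} (h : SC y S) {a b c : ι} (ha : a ∈ S) (hb : b ∈ S)
    (hc : c ∈ S) (hab : a ≠ b) (hac : a ≠ c) (hbc : b ≠ c) (hD : 0 < D (y a) (y b) (y c))
    (hL : Low y S (D (y a) (y b) (y c))) {j k : ι} (hj : j ∈ S) (hk : k ∈ S)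
    (j1 : D (y j) (y b) (y c) < 0) (k2 : D (y a) (y k) (y c) < 0) : False := by
  have ja : j ≠ a := by rintro rfl; linarith
  have jb : j ≠ b := by rintro rfl; simp [D] at j1
  have jc : j ≠ c := by rintro rfl; simp [D] at j1
  have ka : k ≠ a := by rintro rfl; simp [D] at k2
  have kb : k ≠ b := by rintro rfl; linarith
  have kc : k ≠ c := by rintro rfl; simp [D, mul_comm] at k2
  have tj := typ h ha hb hc hj hab hac hbc ja jb jc hD
  have tk := typ h ha hb hc hk hab hac hbc ka kb kc hD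
  have l1 := hL a ha j hj c hc ja.symm hac jc
  have l2 := hL a ha b hb j hj hab ja.symm jb.symm
  have l3 := hL k hk b hb c hc kb kc hbc
  have l4 := hL a ha b hb k hk hab ka.symm kb.symm
  rcases tj with ⟨-, t2, t3⟩ | ⟨t, -⟩ | ⟨t, -⟩
  · rcases tk with ⟨-, t, -⟩ | ⟨s1, -, s3⟩ | ⟨-, t, -⟩
    · linarith
    · rw [abs_of_pos t2] at l1
      rw [abs_of_pos t3] at l2
      rw [abs_of_pos s1] at l3
      rw [abs_of_pos s3] at l4
      exact two h ha hb hc hj hk hac hbc jc kc hD j1 l1 l2 l3 k2 l4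
    · linarith
  · linarith
  · linarith

lemma ear1 {y : ι → P} {S : Finset ι} (h : SC y S) {a b c : ι} (ha : a ∈ S) (hb : b ∈ S)
    (hc : c ∈ S) (hab : a ≠ b) (hac : a ≠ c) (hbc : b ≠ c) (hD : 0 < D (y a) (y b) (y c))
    (n2 : ∀ j ∈ S, 0 ≤ D (y a) (y j) (y c)) (n3 : ∀ j ∈ S, 0 ≤ D (y a) (y b) (y j)) :
    volume (K y S) ≤ volume (K y (S.erase a)) + ENNReal.ofReal (D (y a) (y b) (y c) / 2) := by
  have := ear y S ha (Finset.mem_erase.2 ⟨hab.symm, hb⟩) (Finset.mem_erase.2 ⟨hac.symm, hc⟩) hD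
    (by
      intro j hj
      obtain ⟨ja, hj⟩ := Finset.mem_erase.1 hj
      refine ⟨?_, n2 j hj, n3 j hj⟩
      by_cases jb : j = b
      · subst jb; simp [D]
      by_cases jc : j = c
      · subst jc; simp [D]
      rcases typ h ha hb hc hj hab hac hbc ja jb jc hD with ⟨t, -⟩ | ⟨-, t, -⟩ | ⟨-, -, t⟩
      · exact t.le
      · linarith [n2 j hj]
      · linarith [n3 j hj])
  refine (measure_mono this).trans ((measure_union_le _ _).trans ?_)
  gcongr
  have := vol_triC (y a) (y b) (y c)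
  rwa [abs_of_pos hD] at this

lemma ear2 {y : ι → P} {S : Finset ι} (h : SC y S) {a b c : ι} (ha : a ∈ S) (hb : b ∈ S)
    (hc : c ∈ S) (hab : a ≠ b) (hac : a ≠ c) (hbc : b ≠ c) (hD : 0 < D (y a) (y b) (y c))
    (hL : Low y S (D (y a) (y b) (y c))) :
    ∃ i ∈ S, volume (K y S) ≤ volume (K y (S.erase i)) +
      ENNReal.ofReal (D (y a) (y b) (y c) / 2) := by
  have c1 := Dcyc (y a) (y b) (y c)
  have c2 := Dcyc (y c) (y a) (y b)
  have N12 := fun j k hj hk => notboth h ha hb hc hab hac hbc hD hL (j := j) (k := k) hj hk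
  have N23 := fun j k hj hk => notboth h hb hc ha hbc hab.symm hac.symm (c1 ▸ hD) (c1 ▸ hL)
    (j := j) (k := k) hj hk
  have N31 := fun j k hj hk => notboth h hc ha hb hac.symm hbc.symm hab (c2 ▸ hD) (c2 ▸ hL)
    (j := j) (k := k) hj hk
  by_cases T1 : ∃ j ∈ S, D (y j) (y b) (y c) < 0
  · obtain ⟨j, hj, t⟩ := T1
    refine ⟨a, ha, ear1 h ha hb hc hab hac hbc hD (fun k hk => ?_) (fun k hk => ?_)⟩
    · by_contra hn
      exact N12 j k hj hk t (not_le.1 hn)
    · by_contra hn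
      refine N31 k j hk hj ?_ ?_
      · rw [← Dcyc]; exact not_le.1 hn
      · rw [← Dcyc]; exact t
  · push Not at T1
    by_cases T2 : ∃ j ∈ S, D (y a) (y j) (y c) < 0
    · obtain ⟨j, hj, t⟩ := T2
      refine ⟨b, hb, ?_⟩
      rw [← c1]
      refine ear1 h hb hc ha hbc hab.symm hac.symm (c1 ▸ hD) (fun k hk => ?_) (fun k hk => ?_)
      · by_contra hn
        refine N23 j k hj hk ?_ (not_le.1 hn)
        rw [Dcyc]; exact t
      · rw [Dcyc]; exact T1 k hk
    · push Not at T2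
      refine ⟨c, hc, ?_⟩
      rw [c2]
      refine ear1 h hc ha hb hac.symm hbc.symm hab (c2 ▸ hD) (fun k hk => ?_) (fun k hk => ?_)
      · rw [← Dcyc]; exact T1 k hk
      · rw [← Dcyc]; exact T2 k hk

lemma exists_ear {y : ι → P} {S : Finset ι} (h : SC y S) (hc : 3 ≤ S.card) :
    ∃ i ∈ S, ∃ μ : ℝ, 0 ≤ μ ∧ Low y S μ ∧
      volume (K y S) ≤ volume (K y (S.erase i)) + ENNReal.ofReal (μ / 2) := by
  obtain ⟨a0, b0, c0, ha0, hb0, hc0, n1, n2, n3⟩ := Finset.two_lt_card_iff.1 (show 2 < S.card by omega)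
  obtain ⟨⟨a, b, c⟩, hm, hmin⟩ := Finset.exists_min_image
    ((S ×ˢ S ×ˢ S).filter (fun t => t.1 ≠ t.2.1 ∧ t.1 ≠ t.2.2 ∧ t.2.1 ≠ t.2.2))
    (fun t => |D (y t.1) (y t.2.1) (y t.2.2)|) ⟨(a0, b0, c0), by simp [*]⟩
  simp only [Finset.mem_filter, Finset.mem_product] at hm
  obtain ⟨⟨ha, hb, hc⟩, hab, hac, hbc⟩ := hm
  have hL : Low y S |D (y a) (y b) (y c)| := by
    intro a' ha' b' hb' c' hc' m1 m2 m3
    exact hmin (a', b', c') (by simp [*])
  rcases lt_or_gt_of_ne (h.D_ne ha hb hc hab hac hbc) with hD | hD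
  · have e : |D (y a) (y b) (y c)| = D (y a) (y c) (y b) := by rw [abs_of_neg hD, Dswap (y a) (y b)]
    rw [e] at hL
    have hD' : 0 < D (y a) (y c) (y b) := by rw [Dswap]; linarith
    obtain ⟨i, hi, hv⟩ := ear2 h ha hc hb hac hab hbc.symm hD' hL
    exact ⟨i, hi, _, hD'.le, hL, hv⟩
  · rw [abs_of_pos hD] at hL
    obtain ⟨i, hi, hv⟩ := ear2 h ha hb hc hab hac hbc hD hL
    exact ⟨i, hi, _, hD.le, hL, hv⟩

lemma gain {y : ι → P} {S : Finset ι} (h : SC y S) {μ : ℝ} (hμ : 0 ≤ μ) (hL : Low y S μ)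
    {a b c i : ι} (ha : a ∈ S) (hb : b ∈ S) (hc : c ∈ S) (hi : i ∈ S) (hab : a ≠ b) (hac : a ≠ c)
    (hbc : b ≠ c) (ia : i ≠ a) (ib : i ≠ b) (ic : i ≠ c) :
    |D (y a) (y b) (y c)| + μ ≤
      |D (y i) (y b) (y c)| + |D (y a) (y i) (y c)| + |D (y a) (y b) (y i)| := by
  have l1 := hL i hi b hb c hc ib ic hbc
  have l2 := hL a ha i hi c hc ia.symm hac ic
  have l3 := hL a ha b hb i hi hab ia.symm ib.symm
  have e0 := bary0 (y a) (y b) (y c) (y i)
  rcases lt_or_gt_of_ne (h.D_ne ha hb hc hab hac hbc) with hD | hD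
  · have hD' : 0 < D (y a) (y c) (y b) := by rw [Dswap]; linarith
    have t := typ h ha hc hb hi hac hab hbc.symm ia ic ib hD'
    rw [Dswap (y i) (y b) (y c), Dswap (y a) (y b) (y i), Dswap (y a) (y i) (y c)] at t
    rw [abs_of_neg hD]
    rcases t with ⟨t1, t2, t3⟩ | ⟨t1, t2, t3⟩ | ⟨t1, t2, t3⟩ <;>
      cases abs_cases (D (y i) (y b) (y c)) <;> cases abs_cases (D (y a) (y i) (y c)) <;>
      cases abs_cases (D (y a) (y b) (y i)) <;> linarith
  · have t := typ h ha hb hc hi hab hac hbc ia ib ic hD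
    rw [abs_of_pos hD]
    rcases t with ⟨t1, t2, t3⟩ | ⟨t1, t2, t3⟩ | ⟨t1, t2, t3⟩ <;>
      cases abs_cases (D (y i) (y b) (y c)) <;> cases abs_cases (D (y a) (y i) (y c)) <;>
      cases abs_cases (D (y a) (y b) (y i)) <;> linarith

end Pool.Agent.H11.Tri
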