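import Pool.Agent.H11.TriB

set_option autoImplicit false
set_option linter.unusedSectionVars false
open MeasureTheory Set

namespace Pool.Agent.H11.Tri

abbrev E := ℝ × ℝ × ℝ

def det3 (u v w : E) : ℝ :=
  u.1 * (v.2.1 * w.2.2 - v.2.2 * w.2.1) - u.2.1 * (v.1 * w.2.2 - v.2.2 * w.1) +
    u.2.2 * (v.1 * w.2.1 - v.2.1 * w.1)

def Cl (u v w : E) : Set E := {p | ∃ α β γ : ℝ, 0 ≤ α ∧ 0 ≤ β ∧ 0 ≤ γ ∧ p = α • u + β • v + γ • w}
def Op (u v w : E) : Set E := {p | ∃ α β γ : ℝ, 0 < α ∧ 0 < β ∧ 0 < γ ∧ p = α • u + β • v + γ • w}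

lemma indep {u v w : E} (h : det3 u v w ≠ 0) {α β γ α' β' γ' : ℝ}
    (e : α • u + β • v + γ • w = α' • u + β' • v + γ' • w) : α = α' ∧ β = β' ∧ γ = γ' := by
  have e1 := congrArg (fun p : E => p.1) e
  have e2 := congrArg (fun p : E => p.2.1) e
  have e3 := congrArg (fun p : E => p.2.2) e
  simp only [Prod.fst_add, Prod.snd_add, Prod.smul_fst, Prod.smul_snd, smul_eq_mul] at e1 e2 e3
  refine ⟨mul_right_cancel₀ h ?_, mul_right_cancel₀ h ?_, mul_right_cancel₀ h ?_⟩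
  · unfold det3
    linear_combination (v.2.1 * w.2.2 - v.2.2 * w.2.1) * e1 - (v.1 * w.2.2 - v.2.2 * w.1) * e2 +
      (v.1 * w.2.1 - v.2.1 * w.1) * e3
  · unfold det3
    linear_combination (w.2.1 * u.2.2 - w.2.2 * u.2.1) * e1 - (w.1 * u.2.2 - w.2.2 * u.1) * e2 +
      (w.1 * u.2.1 - w.2.1 * u.1) * e3
  · unfold det3
    linear_combination (u.2.1 * v.2.2 - u.2.2 * v.2.1) * e1 - (u.1 * v.2.2 - u.2.2 * v.1) * e2 +
      (u.1 * v.2.1 - u.2.1 * v.1) * e3

lemma cramer {u v w : E} (h : det3 u v w ≠ 0) (p : E) :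
    ∃ α β γ : ℝ, p = α • u + β • v + γ • w := by
  refine ⟨det3 p v w / det3 u v w, det3 u p w / det3 u v w, det3 u v p / det3 u v w, ?_⟩
  ext <;> simp <;> field_simp <;> unfold det3 <;> ring

lemma det1 (u v w : E) (a b c : ℝ) : det3 (a • u + b • v + c • w) v w = a * det3 u v w := by
  simp [det3]; ring
lemma det2 (u v w : E) (a b c : ℝ) : det3 u (a • u + b • v + c • w) w = b * det3 u v w := by
  simp [det3]; ring
lemma det3' (u v w : E) (a b c : ℝ) : det3 u v (a • u + b • v + c • w) = c * det3 u v w := by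
  simp [det3]; ring

lemma pick (p v : Fin 3 → ℝ) (hp : ∀ k, 0 ≤ p k) (hv : ∀ k, 0 ≤ v k) (h : ∃ k, 0 < v k) :
    ∃ t : ℝ, 0 ≤ t ∧ (∀ k, t * v k ≤ p k) ∧ ∃ k, 0 < v k ∧ t * v k = p k := by
  obtain ⟨k0, hk0⟩ := h
  obtain ⟨k, hk, hmin⟩ := Finset.exists_min_image (Finset.univ.filter (fun k => 0 < v k))
    (fun k => p k / v k) ⟨k0, by simpa using hk0⟩
  have hk' : 0 < v k := by simpa using hk
  refine ⟨p k / v k, div_nonneg (hp k) hk'.le, fun j => ?_, k, hk', by field_simp⟩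
  rcases (hv j).eq_or_lt with h0 | h0
  · rw [← h0]; simpa using hp j
  · have := hmin j (by simpa using h0)
    exact (le_div_iff₀ h0).1 this

lemma split_cover {u v w z p : E} (hd : 0 < det3 u v w) (hz : z ∈ Cl u v w) (z0 : z ≠ 0)
    (hp : p ∈ Cl u v w) :
    (0 < det3 z v w ∧ p ∈ Cl z v w) ∨ (0 < det3 u z w ∧ p ∈ Cl u z w) ∨
      (0 < det3 u v z ∧ p ∈ Cl u v z) := by
  obtain ⟨a, b, c, ha, hb, hc, rfl⟩ := hz
  obtain ⟨α, β, γ, hα, hβ, hγ, rfl⟩ := hp
  obtain ⟨t, ht, hle, k, hk, he⟩ := pick ![α, β, γ] ![a, b, c]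
    (by intro k; fin_cases k <;> simpa) (by intro k; fin_cases k <;> simpa)
    (by
      by_contra hn
      push Not at hn
      have h1 : a = 0 := le_antisymm (by simpa using hn 0) ha
      have h2 : b = 0 := le_antisymm (by simpa using hn 1) hb
      have h3 : c = 0 := le_antisymm (by simpa using hn 2) hc
      simp [h1, h2, h3] at z0)
  have l0 : t * a ≤ α := by simpa using hle 0
  have l1 : t * b ≤ β := by simpa using hle 1
  have l2 : t * c ≤ γ := by simpa using hle 2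
  fin_cases k
  · left
    have k1 : 0 < a := by simpa using hk
    have k2 : t * a = α := by simpa using he
    refine ⟨by rw [det1]; positivity, t, β - t * b, γ - t * c, ht, by linarith, by linarith, ?_⟩
    rw [← k2]; module
  · right; left
    have k1 : 0 < b := by simpa using hk
    have k2 : t * b = β := by simpa using he
    refine ⟨by rw [det2]; positivity, α - t * a, t, γ - t * c, by linarith, ht, by linarith, ?_⟩
    rw [← k2]; module
  · right; right
    have k1 : 0 < c := by simpa using hk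
    have k2 : t * c = γ := by simpa using he
    refine ⟨by rw [det3']; positivity, α - t * a, β - t * b, t, by linarith, by linarith, ht, ?_⟩
    rw [← k2]; module

lemma sub1 {u v w z : E} (hd : 0 < det3 u v w) (hz : z ∈ Cl u v w) (h : 0 < det3 z v w) :
    Op z v w ⊆ Op u v w := by
  obtain ⟨a, b, c, ha, hb, hc, rfl⟩ := hz
  rw [det1] at h
  have := (mul_pos_iff_of_pos_right hd).1 h
  rintro _ ⟨α, β, γ, hα, hβ, hγ, rfl⟩
  exact ⟨α * a, α * b + β, α * c + γ, by positivity, by positivity, by positivity, by module⟩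

lemma sub2 {u v w z : E} (hd : 0 < det3 u v w) (hz : z ∈ Cl u v w) (h : 0 < det3 u z w) :
    Op u z w ⊆ Op u v w := by
  obtain ⟨a, b, c, ha, hb, hc, rfl⟩ := hz
  rw [det2] at h
  have := (mul_pos_iff_of_pos_right hd).1 h
  rintro _ ⟨α, β, γ, hα, hβ, hγ, rfl⟩
  exact ⟨α + β * a, β * b, β * c + γ, by positivity, by positivity, by positivity, by module⟩

lemma sub3 {u v w z : E} (hd : 0 < det3 u v w) (hz : z ∈ Cl u v w) (h : 0 < det3 u v z) :
    Op u v z ⊆ Op u v w := by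
  obtain ⟨a, b, c, ha, hb, hc, rfl⟩ := hz
  rw [det3'] at h
  have := (mul_pos_iff_of_pos_right hd).1 h
  rintro _ ⟨α, β, γ, hα, hβ, hγ, rfl⟩
  exact ⟨α + γ * a, β + γ * b, γ * c, by positivity, by positivity, by positivity, by module⟩

lemma aux {s a b x y : ℝ} (ha : 0 ≤ a) (hb : 0 ≤ b) (hx : 0 < x) (hy : 0 < y) (e1 : s * a = x)
    (e2 : s * b = -y) : False := by
  rcases le_total s 0 with h | h
  · nlinarith [mul_nonneg (neg_nonneg.2 h) ha]
  · nlinarith [mul_nonneg h hb]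

lemma dis12 {u v w z : E} (hd : 0 < det3 u v w) (hz : z ∈ Cl u v w) :
    Disjoint (Op z v w) (Op u z w) := by
  obtain ⟨a, b, c, ha, hb, hc, rfl⟩ := hz
  rw [Set.disjoint_left]
  rintro _ ⟨α, β, γ, hα, hβ, hγ, rfl⟩ ⟨α', β', γ', hα', hβ', hγ', e⟩
  have e' : (α * a) • u + (α * b + β) • v + (α * c + γ) • w =
      (α' + β' * a) • u + (β' * b) • v + (β' * c + γ') • w := by
    convert e using 1 <;> module
  obtain ⟨e1, e2, -⟩ := indep hd.ne' e'
  exact aux (s := α - β') ha hb hα' hβ (by linarith) (by linarith)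

lemma dis13 {u v w z : E} (hd : 0 < det3 u v w) (hz : z ∈ Cl u v w) :
    Disjoint (Op z v w) (Op u v z) := by
  obtain ⟨a, b, c, ha, hb, hc, rfl⟩ := hz
  rw [Set.disjoint_left]
  rintro _ ⟨α, β, γ, hα, hβ, hγ, rfl⟩ ⟨α', β', γ', hα', hβ', hγ', e⟩
  have e' : (α * a) • u + (α * b + β) • v + (α * c + γ) • w =
      (α' + γ' * a) • u + (β' + γ' * b) • v + (γ' * c) • w := by
    convert e using 1 <;> module
  obtain ⟨e1, -, e3⟩ := indep hd.ne' e'
  exact aux (s := α - γ') ha hc hα' hγ (by linarith) (by linarith)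

lemma dis23 {u v w z : E} (hd : 0 < det3 u v w) (hz : z ∈ Cl u v w) :
    Disjoint (Op u z w) (Op u v z) := by
  obtain ⟨a, b, c, ha, hb, hc, rfl⟩ := hz
  rw [Set.disjoint_left]
  rintro _ ⟨α, β, γ, hα, hβ, hγ, rfl⟩ ⟨α', β', γ', hα', hβ', hγ', e⟩
  have e' : (α + β * a) • u + (β * b) • v + (β * c + γ) • w =
      (α' + γ' * a) • u + (β' + γ' * b) • v + (γ' * c) • w := by
    convert e using 1 <;> module
  obtain ⟨-, e2, e3⟩ := indep hd.ne' e'
  exact aux (s := β - γ') hb hc hβ' hγ (by linarith) (by linarith)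

lemma base_cover {u v w : E} (hd : 0 < det3 u v w) (p : E) :
    p ∈ Cl u v w ∨ p ∈ Cl (-(u + v + w)) w v ∨ p ∈ Cl w (-(u + v + w)) u ∨
      p ∈ Cl v u (-(u + v + w)) := by
  obtain ⟨a, b, c, rfl⟩ := cramer hd.ne' p
  by_cases h : 0 ≤ a ∧ 0 ≤ b ∧ 0 ≤ c
  · exact Or.inl ⟨a, b, c, h.1, h.2.1, h.2.2, rfl⟩
  by_cases h1 : a ≤ b ∧ a ≤ c
  · have : a ≤ 0 := by
      by_contra hn
      exact h ⟨by linarith, by linarith [h1.1], by linarith [h1.2]⟩
    exact Or.inr (Or.inl ⟨-a, c - a, b - a, by linarith, by linarith [h1.2], by linarith [h1.1],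
      by module⟩)
  by_cases h2 : b ≤ c ∧ b ≤ a
  · have : b ≤ 0 := by
      by_contra hn
      exact h ⟨by linarith [h2.2], by linarith, by linarith [h2.1]⟩
    exact Or.inr (Or.inr (Or.inl ⟨c - b, -b, a - b, by linarith [h2.1], by linarith,
      by linarith [h2.2], by module⟩))
  have h3 : c ≤ a ∧ c ≤ b := by
    constructor <;> by_contra hn <;> rcases le_total a b with h4 | h4
    · exact h1 ⟨h4, by linarith⟩
    · exact h2 ⟨by linarith, h4⟩
    · exact h1 ⟨h4, by by_contra hm; exact h2 ⟨by linarith, by linarith⟩⟩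
    · exact h2 ⟨by linarith, h4⟩
  have : c ≤ 0 := by
    by_contra hn
    exact h ⟨by linarith [h3.1], by linarith [h3.2], by linarith⟩
  exact Or.inr (Or.inr (Or.inr ⟨b - c, a - c, -c, by linarith [h3.2], by linarith [h3.1],
    by linarith, by module⟩))

lemma bo0 {u v w p : E} (h : p ∈ Op u v w) :
    ∃ a b c : ℝ, p = a • u + b • v + c • w ∧ 0 < a ∧ 0 < b ∧ 0 < c := by
  obtain ⟨a, b, c, ha, hb, hc, rfl⟩ := h
  exact ⟨a, b, c, rfl, ha, hb, hc⟩
lemma bo1 {u v w p : E} (h : p ∈ Op (-(u + v + w)) w v) :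
    ∃ a b c : ℝ, p = a • u + b • v + c • w ∧ a < 0 ∧ a < b ∧ a < c := by
  obtain ⟨a, b, c, ha, hb, hc, rfl⟩ := h
  exact ⟨-a, c - a, b - a, by module, by linarith, by linarith, by linarith⟩
lemma bo2 {u v w p : E} (h : p ∈ Op w (-(u + v + w)) u) :
    ∃ a b c : ℝ, p = a • u + b • v + c • w ∧ b < 0 ∧ b < a ∧ b < c := by
  obtain ⟨a, b, c, ha, hb, hc, rfl⟩ := h
  exact ⟨c - b, -b, a - b, by module, by linarith, by linarith, by linarith⟩
lemma bo3 {u v w p : E} (h : p ∈ Op v u (-(u + v + w))) :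
    ∃ a b c : ℝ, p = a • u + b • v + c • w ∧ c < 0 ∧ c < a ∧ c < b := by
  obtain ⟨a, b, c, ha, hb, hc, rfl⟩ := h
  exact ⟨b - c, a - c, -c, by module, by linarith, by linarith, by linarith⟩

end Pool.Agent.H11.Tri
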