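import Pool.Agent.H11.TriC

set_option autoImplicit false
set_option linter.unusedSectionVars false
open MeasureTheory Set

namespace Pool.Agent.H11.Tri

variable {ι : Type*} [DecidableEq ι]

def V (x : ι → P) (w : E) : Option ι → E
  | none => w
  | some i => (1, x i)

abbrev Cell (ι : Type*) := Option ι × Option ι × Option ι

def W (y : ι → P) : Cell ι → ℝ
  | (some a, some b, some c) => |D (y a) (y b) (y c)|
  | _ => 0

lemma W_nonneg (y : ι → P) (c : Cell ι) : 0 ≤ W y c := by
  obtain ⟨_ | a, _ | b, _ | c⟩ := c <;> simp [W]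

def dt (x : ι → P) (w : E) (c : Cell ι) : ℝ := det3 (V x w c.1) (V x w c.2.1) (V x w c.2.2)
def cl (x : ι → P) (w : E) (c : Cell ι) : Set E := Cl (V x w c.1) (V x w c.2.1) (V x w c.2.2)
def op (x : ι → P) (w : E) (c : Cell ι) : Set E := Op (V x w c.1) (V x w c.2.1) (V x w c.2.2)
def In (S : Finset ι) (c : Cell ι) : Prop :=
  (∀ i, c.1 = some i → i ∈ S) ∧ (∀ i, c.2.1 = some i → i ∈ S) ∧ (∀ i, c.2.2 = some i → i ∈ S)

lemma det_real (a b c : P) : det3 (1, a) (1, b) (1, c) = D a b c := by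
  simp [det3, D]; ring

def GP (x : ι → P) (S : Finset ι) : Prop :=
  ∀ a ∈ S, ∀ b ∈ S, ∀ c ∈ S, a ≠ b → a ≠ c → b ≠ c → D (x a) (x b) (x c) ≠ 0

def Good (x y : ι → P) (S : Finset ι) : Prop :=
  ∃ (w : E) (T : Finset (Cell ι)), (∀ c ∈ T, 0 < dt x w c ∧ In S c) ∧
    (∀ p, ∃ c ∈ T, p ∈ cl x w c) ∧
    (∀ c ∈ T, ∀ c' ∈ T, c ≠ c' → Disjoint (op x w c) (op x w c')) ∧
    volume (K y S) ≤ ENNReal.ofReal ((∑ c ∈ T, W y c) / 2)

lemma K_three (y : ι → P) (a b c : ι) :
    volume (K y {a, b, c}) ≤ ENNReal.ofReal (|D (y a) (y b) (y c)| / 2) := by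
  refine le_trans (measure_mono ?_) (vol_triC (y a) (y b) (y c))
  refine convexHull_min ?_ (convex_triC _ _ _)
  rintro _ ⟨j, hj, rfl⟩
  simp only [Finset.coe_insert, Finset.coe_singleton, mem_insert_iff, mem_singleton_iff] at hj
  rcases hj with rfl | rfl | rfl
  · exact ⟨(0, 0), by simp [sC], by simp [F]⟩
  · exact ⟨(1, 0), by simp [sC], by simp [F]⟩
  · exact ⟨(0, 1), by simp [sC], by simp [F]⟩

lemma base_dis {u v w : E} (hd : 0 < det3 u v w) :
    Disjoint (Op u v w) (Op (-(u + v + w)) w v) ∧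
    Disjoint (Op u v w) (Op w (-(u + v + w)) u) ∧
    Disjoint (Op u v w) (Op v u (-(u + v + w))) ∧
    Disjoint (Op (-(u + v + w)) w v) (Op w (-(u + v + w)) u) ∧
    Disjoint (Op (-(u + v + w)) w v) (Op v u (-(u + v + w))) ∧
    Disjoint (Op w (-(u + v + w)) u) (Op v u (-(u + v + w))) := by
  refine ⟨?_, ?_, ?_, ?_, ?_, ?_⟩
  · rw [Set.disjoint_left]
    intro p hp hp'
    obtain ⟨α, β, γ, e, h1, h2, h3⟩ := bo0 hp
    obtain ⟨α', β', γ', e', h4, h5, h6⟩ := bo1 hp'
    obtain ⟨rfl, rfl, rfl⟩ := indep hd.ne' (e.symm.trans e')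
    linarith
  · rw [Set.disjoint_left]
    intro p hp hp'
    obtain ⟨α, β, γ, e, h1, h2, h3⟩ := bo0 hp
    obtain ⟨α', β', γ', e', h4, h5, h6⟩ := bo2 hp'
    obtain ⟨rfl, rfl, rfl⟩ := indep hd.ne' (e.symm.trans e')
    linarith
  · rw [Set.disjoint_left]
    intro p hp hp'
    obtain ⟨α, β, γ, e, h1, h2, h3⟩ := bo0 hp
    obtain ⟨α', β', γ', e', h4, h5, h6⟩ := bo3 hp'
    obtain ⟨rfl, rfl, rfl⟩ := indep hd.ne' (e.symm.trans e')
    linarith
  · rw [Set.disjoint_left]
    intro p hp hp'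
    obtain ⟨α, β, γ, e, h1, h2, h3⟩ := bo1 hp
    obtain ⟨α', β', γ', e', h4, h5, h6⟩ := bo2 hp'
    obtain ⟨rfl, rfl, rfl⟩ := indep hd.ne' (e.symm.trans e')
    linarith
  · rw [Set.disjoint_left]
    intro p hp hp'
    obtain ⟨α, β, γ, e, h1, h2, h3⟩ := bo1 hp
    obtain ⟨α', β', γ', e', h4, h5, h6⟩ := bo3 hp'
    obtain ⟨rfl, rfl, rfl⟩ := indep hd.ne' (e.symm.trans e')
    linarith
  · rw [Set.disjoint_left]
    intro p hp hp'
    obtain ⟨α, β, γ, e, h1, h2, h3⟩ := bo2 hp
    obtain ⟨α', β', γ', e', h4, h5, h6⟩ := bo3 hp'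
    obtain ⟨rfl, rfl, rfl⟩ := indep hd.ne' (e.symm.trans e')
    linarith

lemma base (x y : ι → P) (a b c : ι) (hD : 0 < D (x a) (x b) (x c)) : Good x y {a, b, c} := by
  have hd : 0 < det3 (1, x a) (1, x b) (1, x c) := by rwa [det_real]
  refine ⟨-(((1, x a) : E) + (1, x b) + (1, x c)),
    {(some a, some b, some c), (none, some c, some b), (some c, none, some a),
      (some b, some a, none)}, ?_, ?_, ?_, ?_⟩
  · intro t ht
    simp only [Finset.mem_insert, Finset.mem_singleton] at ht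
    rcases ht with rfl | rfl | rfl | rfl
    · exact ⟨hd, by simp [In]⟩
    · refine ⟨?_, by simp [In]⟩
      convert hD using 1
      simp [dt, V, det3, D]; ring
    · refine ⟨?_, by simp [In]⟩
      convert hD using 1
      simp [dt, V, det3, D]; ring
    · refine ⟨?_, by simp [In]⟩
      convert hD using 1
      simp [dt, V, det3, D]; ring
  · intro p
    rcases base_cover hd p with h | h | h | h
    · exact ⟨(some a, some b, some c), by simp, h⟩
    · exact ⟨(none, some c, some b), by simp, h⟩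
    · exact ⟨(some c, none, some a), by simp, h⟩
    · exact ⟨(some b, some a, none), by simp, h⟩
  · intro t ht t' ht' hne
    simp only [Finset.mem_insert, Finset.mem_singleton] at ht ht'
    obtain ⟨d1, d2, d3, d4, d5, d6⟩ := base_dis hd
    rcases ht with rfl | rfl | rfl | rfl <;> rcases ht' with rfl | rfl | rfl | rfl
    · exact absurd rfl hne
    · exact d1
    · exact d2
    · exact d3
    · exact d1.symm
    · exact absurd rfl hne
    · exact d4
    · exact d5
    · exact d2.symm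
    · exact d4.symm
    · exact absurd rfl hne
    · exact d6
    · exact d3.symm
    · exact d5.symm
    · exact d6.symm
    · exact absurd rfl hne
  · refine (K_three y a b c).trans (ENNReal.ofReal_le_ofReal ?_)
    have : W y (some a, some b, some c) ≤ ∑ t ∈ ({(some a, some b, some c), (none, some c, some b),
        (some c, none, some a), (some b, some a, none)} : Finset (Cell ι)), W y t :=
      Finset.single_le_sum (fun t _ => W_nonneg y t) (by simp)
    simp only [W] at this ⊢
    linarith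

lemma det_nn {u v w z : E} (hd : 0 < det3 u v w) (hz : z ∈ Cl u v w) :
    0 ≤ det3 z v w ∧ 0 ≤ det3 u z w ∧ 0 ≤ det3 u v z := by
  obtain ⟨a, b, c, ha, hb, hc, rfl⟩ := hz
  rw [det1, det2, det3']
  exact ⟨by positivity, by positivity, by positivity⟩

lemma dist3 {x : ι → P} {w : E} {o1 o2 o3 : Option ι} (h : 0 < dt x w (o1, o2, o3)) :
    o1 ≠ o2 ∧ o1 ≠ o3 ∧ o2 ≠ o3 := by
  refine ⟨?_, ?_, ?_⟩ <;> rintro rfl <;> simp only [dt, det3] at h <;> nlinarith

lemma W_ne {x y : ι → P} {S : Finset ι} (hx : GP x S) {w : E} {o1 o2 o3 : Option ι}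
    (hI : In S (o1, o2, o3)) (h12 : o1 ≠ o2) (h13 : o1 ≠ o3) (h23 : o2 ≠ o3)
    (hW : W y (o1, o2, o3) ≠ 0) : dt x w (o1, o2, o3) ≠ 0 := by
  rcases o1 with _ | a
  · simp [W] at hW
  rcases o2 with _ | b
  · simp [W] at hW
  rcases o3 with _ | c
  · simp [W] at hW
  simp only [dt, V, det_real]
  exact hx a (hI.1 a rfl) b (hI.2.1 b rfl) c (hI.2.2 c rfl) (by simpa using h12) (by simpa using h13)
    (by simpa using h23)

lemma W_gain {y : ι → P} {S : Finset ι} (h : SC y S) {μ : ℝ} (hμ : 0 ≤ μ) (hL : Low y S μ) {i : ι}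
    (hi : i ∈ S) {o1 o2 o3 : Option ι} (hI : In (S.erase i) (o1, o2, o3)) (h12 : o1 ≠ o2)
    (h13 : o1 ≠ o3) (h23 : o2 ≠ o3) :
    W y (o1, o2, o3) + μ ≤ W y (some i, o2, o3) + W y (o1, some i, o3) + W y (o1, o2, some i) := by
  obtain ⟨I1, I2, I3⟩ := hI
  rcases o1 with _ | a <;> rcases o2 with _ | b <;> rcases o3 with _ | c
  · exact absurd rfl h12
  · exact absurd rfl h12
  · exact absurd rfl h13
  · obtain ⟨nb, hb⟩ := Finset.mem_erase.1 (I2 b rfl)
    obtain ⟨nc, hc⟩ := Finset.mem_erase.1 (I3 c rfl)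
    have := hL i hi b hb c hc nb.symm nc.symm (by simpa using h23)
    simpa [W] using this
  · exact absurd rfl h23
  · obtain ⟨na, ha⟩ := Finset.mem_erase.1 (I1 a rfl)
    obtain ⟨nc, hc⟩ := Finset.mem_erase.1 (I3 c rfl)
    have := hL a ha i hi c hc na (by simpa using h13) nc.symm
    simpa [W] using this
  · obtain ⟨na, ha⟩ := Finset.mem_erase.1 (I1 a rfl)
    obtain ⟨nb, hb⟩ := Finset.mem_erase.1 (I2 b rfl)
    have := hL a ha b hb i hi (by simpa using h12) na nb
    simpa [W] using this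
  · obtain ⟨na, ha⟩ := Finset.mem_erase.1 (I1 a rfl)
    obtain ⟨nb, hb⟩ := Finset.mem_erase.1 (I2 b rfl)
    obtain ⟨nc, hc⟩ := Finset.mem_erase.1 (I3 c rfl)
    exact gain h hμ hL ha hb hc hi (by simpa using h12) (by simpa using h13) (by simpa using h23)
      na.symm nb.symm nc.symm

lemma In.mono {S T : Finset ι} (h : S ⊆ T) {c : Cell ι} (hc : In S c) : In T c :=
  ⟨fun i e => h (hc.1 i e), fun i e => h (hc.2.1 i e), fun i e => h (hc.2.2 i e)⟩

lemma step {x y : ι → P} {S : Finset ι} (h : SC y S) (hx : GP x S) {μ : ℝ} (hμ : 0 ≤ μ)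
    (hL : Low y S μ) {i : ι} (hi : i ∈ S)
    (hv : volume (K y S) ≤ volume (K y (S.erase i)) + ENNReal.ofReal (μ / 2))
    (hG : Good x y (S.erase i)) : Good x y S := by
  classical
  obtain ⟨w, T, hT, hcov, hdis, hvol⟩ := hG
  obtain ⟨⟨o1, o2, o3⟩, hc0, hz⟩ := hcov (1, x i)
  obtain ⟨hd, hI⟩ := hT _ hc0
  obtain ⟨h12, h13, h23⟩ := dist3 hd
  have n1 : o1 ≠ some i := fun e => by simpa using hI.1 i e
  have n2 : o2 ≠ some i := fun e => by simpa using hI.2.1 i e
  have n3 : o3 ≠ some i := fun e => by simpa using hI.2.2 i e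
  have hI' := hI.mono (Finset.erase_subset i S)
  have J1 : In S (some i, o2, o3) := ⟨fun j e => by cases e; exact hi, hI'.2.1, hI'.2.2⟩
  have J2 : In S (o1, some i, o3) := ⟨hI'.1, fun j e => by cases e; exact hi, hI'.2.2⟩
  have J3 : In S (o1, o2, some i) := ⟨hI'.1, hI'.2.1, fun j e => by cases e; exact hi⟩
  obtain ⟨p1, p2, p3⟩ := det_nn hd hz
  set N0 : Finset (Cell ι) := {(some i, o2, o3), (o1, some i, o3), (o1, o2, some i)} with hN0
  set N := N0.filter (fun c => 0 < dt x w c) with hN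
  have hsub : ∀ c ∈ N, op x w c ⊆ op x w (o1, o2, o3) := by
    intro c hc
    obtain ⟨hc, hp⟩ := Finset.mem_filter.1 hc
    simp only [hN0, Finset.mem_insert, Finset.mem_singleton] at hc
    rcases hc with rfl | rfl | rfl
    · exact sub1 hd hz hp
    · exact sub2 hd hz hp
    · exact sub3 hd hz hp
  have hnew : Disjoint (T.erase (o1, o2, o3)) N := by
    rw [Finset.disjoint_left]
    intro c hc hc'
    have hcI := (hT c (Finset.mem_of_mem_erase hc)).2
    obtain ⟨hc', -⟩ := Finset.mem_filter.1 hc'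
    simp only [hN0, Finset.mem_insert, Finset.mem_singleton] at hc'
    rcases hc' with rfl | rfl | rfl
    · simpa using hcI.1 i rfl
    · simpa using hcI.2.1 i rfl
    · simpa using hcI.2.2 i rfl
  refine ⟨w, T.erase (o1, o2, o3) ∪ N, ?_, ?_, ?_, ?_⟩
  · intro c hc
    rcases Finset.mem_union.1 hc with hc | hc
    · have := hT c (Finset.mem_of_mem_erase hc)
      exact ⟨this.1, this.2.mono (Finset.erase_subset i S)⟩
    · obtain ⟨hc, hp⟩ := Finset.mem_filter.1 hc
      simp only [hN0, Finset.mem_insert, Finset.mem_singleton] at hc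
      rcases hc with rfl | rfl | rfl
      · exact ⟨hp, J1⟩
      · exact ⟨hp, J2⟩
      · exact ⟨hp, J3⟩
  · intro p
    obtain ⟨c, hc, hp⟩ := hcov p
    by_cases e : c = (o1, o2, o3)
    · subst e
      have z0 : ((1, x i) : E) ≠ 0 := by
        intro h0
        simpa using congrArg Prod.fst h0
      rcases split_cover hd hz z0 hp with ⟨q1, q2⟩ | ⟨q1, q2⟩ | ⟨q1, q2⟩
      · exact ⟨(some i, o2, o3), Finset.mem_union_right _
          (Finset.mem_filter.2 ⟨by simp [hN0], q1⟩), q2⟩
      · exact ⟨(o1, some i, o3), Finset.mem_union_right _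
          (Finset.mem_filter.2 ⟨by simp [hN0], q1⟩), q2⟩
      · exact ⟨(o1, o2, some i), Finset.mem_union_right _
          (Finset.mem_filter.2 ⟨by simp [hN0], q1⟩), q2⟩
    · exact ⟨c, Finset.mem_union_left _ (Finset.mem_erase.2 ⟨e, hc⟩), hp⟩
  · intro c hc c' hc' hne
    rcases Finset.mem_union.1 hc with hc | hc <;> rcases Finset.mem_union.1 hc' with hc' | hc'
    · exact hdis c (Finset.mem_of_mem_erase hc) c' (Finset.mem_of_mem_erase hc') hne
    · obtain ⟨e, hc⟩ := Finset.mem_erase.1 hc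
      exact (hdis c hc _ hc0 e).mono_right (hsub c' hc')
    · obtain ⟨e, hc'⟩ := Finset.mem_erase.1 hc'
      exact ((hdis c' hc' _ hc0 e).mono_right (hsub c hc)).symm
    · obtain ⟨hc, -⟩ := Finset.mem_filter.1 hc
      obtain ⟨hc', -⟩ := Finset.mem_filter.1 hc'
      simp only [hN0, Finset.mem_insert, Finset.mem_singleton] at hc hc'
      have d12 := dis12 hd hz
      have d13 := dis13 hd hz
      have d23 := dis23 hd hz
      rcases hc with rfl | rfl | rfl <;> rcases hc' with rfl | rfl | rfl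
      · exact absurd rfl hne
      · exact d12
      · exact d13
      · exact d12.symm
      · exact absurd rfl hne
      · exact d23
      · exact d13.symm
      · exact d23.symm
      · exact absurd rfl hne
  · have s1 : ∑ c ∈ N, W y c = ∑ c ∈ N0, W y c := by
      refine Finset.sum_filter_of_ne ?_
      intro c hc hW
      simp only [hN0, Finset.mem_insert, Finset.mem_singleton] at hc
      rcases hc with rfl | rfl | rfl
      · exact lt_of_le_of_ne p1 (W_ne hx J1 n2.symm n3.symm h23 hW).symm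
      · exact lt_of_le_of_ne p2 (W_ne hx J2 n1 h13 n3.symm hW).symm
      · exact lt_of_le_of_ne p3 (W_ne hx J3 h12 n1 n2 hW).symm
    have s2 : ∑ c ∈ N0, W y c =
        W y (some i, o2, o3) + W y (o1, some i, o3) + W y (o1, o2, some i) := by
      rw [hN0, Finset.sum_insert (by simp [n1.symm]), Finset.sum_insert (by simp [n2.symm]),
        Finset.sum_singleton, add_assoc]
    have s3 := Finset.add_sum_erase T (W y) hc0
    have s4 := W_gain h hμ hL hi hI h12 h13 h23
    rw [Finset.sum_union hnew, s1, s2]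
    have s5 : 0 ≤ ∑ c ∈ T, W y c := Finset.sum_nonneg (fun c _ => W_nonneg y c)
    refine hv.trans ((add_le_add hvol le_rfl).trans ?_)
    rw [← ENNReal.ofReal_add (by positivity) (by positivity)]
    refine ENNReal.ofReal_le_ofReal ?_
    linarith

lemma good {x y : ι → P} (m : ℕ) : ∀ S : Finset ι, S.card = m + 3 → SC y S → GP x S →
    Good x y S := by
  induction m with
  | zero =>
    intro S hS _ hx
    obtain ⟨a, b, c, hab, hac, hbc, rfl⟩ := Finset.card_eq_three.1 hS
    rcases lt_or_gt_of_ne (hx a (by simp) b (by simp) c (by simp) hab hac hbc) with hD | hD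
    · have := base x y a c b (by rw [Dswap]; linarith)
      rwa [Finset.pair_comm c b] at this
    · exact base x y a b c hD
  | succ m ih =>
    intro S hS h hx
    obtain ⟨i, hi, μ, hμ, hL, hv⟩ := exists_ear h (by omega)
    refine step h hx hμ hL hi hv (ih _ (by rw [Finset.card_erase_of_mem hi]; omega)
      (h.sub (Finset.erase_subset i S)) ?_)
    intro a ha b hb c hc
    exact hx a (Finset.mem_of_mem_erase ha) b (Finset.mem_of_mem_erase hb) c
      (Finset.mem_of_mem_erase hc)

def R (x : ι → P) : Cell ι → Set P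
  | (some a, some b, some c) => F (x a) (x b) (x c) '' sO
  | _ => ∅

lemma R_op (x : ι → P) (w : E) (c : Cell ι) {p : P} (hp : p ∈ R x c) :
    ((1, p) : E) ∈ op x w c := by
  obtain ⟨_ | a, _ | b, _ | c⟩ := c <;> try (simp [R] at hp; done)
  obtain ⟨q, ⟨q1, q2, q3⟩, rfl⟩ := hp
  refine ⟨1 - q.1 - q.2, q.1, q.2, by linarith, q1, q2, ?_⟩
  ext <;> simp [V, F] <;> ring

lemma final {x y : ι → P} {S : Finset ι}
    (hT : ∀ a b c, |D (y a) (y b) (y c)| ≤ |D (x a) (x b) (x c)|) (hG : Good x y S) :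
    volume (K y S) ≤ volume (K x S) := by
  have : (volume : Measure P).IsAddHaarMeasure := Measure.prod.instIsAddHaarMeasure _ _
  obtain ⟨w, T, hI, -, hdis, hvol⟩ := hG
  refine hvol.trans ?_
  rw [Finset.sum_div, ENNReal.ofReal_sum_of_nonneg (fun c _ => by have := W_nonneg y c; positivity)]
  have h1 : ∑ c ∈ T, ENNReal.ofReal (W y c / 2) ≤ ∑ c ∈ T, volume (R x c) := by
    refine Finset.sum_le_sum (fun c _ => ?_)
    obtain ⟨_ | a, _ | b, _ | c⟩ := c <;> try (simp [W]; done)
    refine le_trans (ENNReal.ofReal_le_ofReal ?_) (vol_triO (x a) (x b) (x c))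
    have := hT a b c
    simp only [W]
    linarith
  refine h1.trans ?_
  rw [← measure_biUnion_finset₀]
  · refine measure_mono (iUnion₂_subset (fun c hc => ?_))
    have hc' := (hI c hc).2
    obtain ⟨_ | a, _ | b, _ | c⟩ := c <;> try (simp [R]; done)
    exact triO_sub (K_convex x S) (mem_K x (hc'.1 a rfl)) (mem_K x (hc'.2.1 b rfl))
      (mem_K x (hc'.2.2 c rfl))
  · intro c hc c' hc' hne
    refine Disjoint.aedisjoint ?_
    rw [Set.disjoint_left]
    intro p hp hp'
    exact Set.disjoint_left.1 (hdis c hc c' hc' hne) (R_op x w c hp) (R_op x w c' hp')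
  · intro c _
    obtain ⟨_ | a, _ | b, _ | c⟩ := c <;> try (simp [R]; done)
    exact (convex_triO _ _ _).nullMeasurableSet volume

theorem main {x y : ι → P} (hT : ∀ a b c, |D (y a) (y b) (y c)| ≤ |D (x a) (x b) (x c)|)
    (S : Finset ι) : volume (K y S) ≤ volume (K x S) := by
  induction S using Finset.strongInduction with
  | H S ih =>
  by_cases h : SC y S
  · by_cases hc : 3 ≤ S.card
    · refine final hT (good (S.card - 3) S (by omega) h ?_)
      intro a ha b hb c hc hab hac hbc h0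
      have := hT a b c
      rw [h0, abs_zero] at this
      exact h.D_ne ha hb hc hab hac hbc (abs_nonpos_iff.1 this)
    · rcases S.eq_empty_or_nonempty with rfl | ⟨a, ha⟩
      · simp [K]
      have : ∃ b, S ⊆ {a, b, b} := by
        rcases (S.erase a).eq_empty_or_nonempty with h0 | ⟨b, hb⟩
        · refine ⟨a, fun j hj => ?_⟩
          by_contra hn
          have : j ∈ S.erase a := Finset.mem_erase.2 ⟨by rintro rfl; simp at hn, hj⟩
          simp [h0] at this
        · refine ⟨b, fun j hj => ?_⟩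
          by_contra hn
          simp only [Finset.mem_insert, Finset.mem_singleton, not_or] at hn
          obtain ⟨nb, hb⟩ := Finset.mem_erase.1 hb
          exact hc (Finset.two_lt_card_iff.2 ⟨a, b, j, ha, hb, hj, nb.symm, Ne.symm hn.1,
            Ne.symm hn.2.1⟩)
      obtain ⟨b, hb⟩ := this
      have h1 := (measure_mono (μ := volume) (K_mono y hb)).trans (K_three y a b b)
      have h2 : D (y a) (y b) (y b) = 0 := by unfold D; ring
      rw [h2] at h1
      exact h1.trans (by simp)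
  · unfold SC at h
    push Not at h
    obtain ⟨i, hi, hm⟩ := h
    have h1 : K y S ⊆ K y (S.erase i) := by
      refine convexHull_min ?_ (K_convex y _)
      rintro _ ⟨j, hj, rfl⟩
      by_cases e : j = i
      · rw [e]; exact hm
      · exact mem_K y (Finset.mem_erase.2 ⟨e, hj⟩)
    exact (measure_mono h1).trans ((ih _ (Finset.erase_ssubset hi)).trans
      (measure_mono (K_mono x (Finset.erase_subset i S))))

end Pool.Agent.H11.Tri
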