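import Mathlib

set_option autoImplicit false

namespace Pool.Agent.H11.WO

open Filter Topology Real

noncomputable def eps (n : ℕ) : ℝ := 1 / ((n : ℝ) + 1)

noncomputable def s (n : ℕ) : ℝ := ((n + 1).factorial : ℝ)

noncomputable def e (x : ℝ) : ℂ := Complex.exp (Complex.I * (x : ℂ))

noncomputable def w (n : ℕ) (t : ℝ) : ℂ := (Real.exp (-(eps n * t)) : ℂ) * e (s n * t)

noncomputable def a (t : ℝ) : ℝ := 1 / Real.sqrt (1 + t)

lemma eps_pos (n : ℕ) : 0 < eps n := by unfold eps; positivity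

lemma s_pos (n : ℕ) : 0 < s n := by unfold s; exact_mod_cast Nat.factorial_pos _

lemma s_succ (n : ℕ) : s (n + 1) = ((n : ℝ) + 2) * s n := by
  unfold s; rw [Nat.factorial_succ (n + 1)]; push_cast; ring

lemma s_zero : s 0 = 1 := by simp [s]

lemma e_add (x y : ℝ) : e (x + y) = e x * e y := by
  unfold e; rw [← Complex.exp_add]; push_cast; ring_nf

lemma norm_e (x : ℝ) : ‖e x‖ = 1 := by
  unfold e; rw [mul_comm]; exact Complex.norm_exp_ofReal_mul_I x

lemma e_sub_le (x y : ℝ) : ‖e x - e y‖ ≤ |x - y| := by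
  have h : e x - e y = e y * (e (x - y) - 1) := by
    rw [mul_sub, ← e_add]; simp
  rw [h, norm_mul, norm_e, one_mul]
  exact Real.norm_exp_I_mul_ofReal_sub_one_le

lemma e_per (x : ℝ) (k : ℤ) : e (x + 2 * π * k) = e x := by
  rw [e_add]
  have : e (2 * π * k) = 1 := by
    unfold e
    rw [← Complex.exp_int_mul_two_pi_mul_I k]; push_cast; ring_nf
  rw [this, mul_one]

lemma hit (S : ℝ) (hS : 0 < S) (τ φ : ℝ) :
    ∃ t, τ ≤ t ∧ t ≤ τ + 2 * π / S ∧ e (S * t) = e φ := by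
  have hp := Real.pi_pos
  set k : ℤ := ⌈(S * τ - φ) / (2 * π)⌉ with hk
  have h1 : (S * τ - φ) / (2 * π) ≤ k := Int.le_ceil _
  have h2 : (k : ℝ) < (S * τ - φ) / (2 * π) + 1 := Int.ceil_lt_add_one _
  rw [div_le_iff₀ (by positivity)] at h1
  have h3 : (k : ℝ) * (2 * π) < S * τ - φ + 2 * π := by
    have := mul_lt_mul_of_pos_right h2 (show 0 < 2 * π by positivity)
    rwa [add_mul, div_mul_cancel₀ _ (by positivity), one_mul] at this
  refine ⟨(φ + 2 * π * k) / S, ?_, ?_, ?_⟩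
  · rw [le_div_iff₀ hS]; nlinarith
  · rw [div_le_iff₀ hS, add_mul, div_mul_cancel₀ _ hS.ne']; nlinarith
  · rw [mul_div_cancel₀ _ hS.ne', e_per]

lemma target (φ : ℕ → ℝ) (K : ℕ) : ∀ (n : ℕ) (τ : ℝ), ∃ t, τ ≤ t ∧ t ≤ τ + 4 * π / s n ∧
    ∀ j, n ≤ j → j < n + K → ‖e (s j * t) - e (φ j)‖ ≤ 4 * π * eps j := by
  have hp := Real.pi_pos
  induction K with
  | zero =>
    intro n τ
    have := s_pos n
    refine ⟨τ, le_rfl, by simp; positivity, fun j h1 h2 => by omega⟩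
  | succ K ih =>
    intro n τ
    have hs := s_pos n
    obtain ⟨t', h1, h2, h3⟩ := hit (s n) hs τ (φ n)
    obtain ⟨t, h4, h5, h6⟩ := ih (n + 1) t'
    have hn : (0 : ℝ) ≤ n := Nat.cast_nonneg n
    have h7 : 4 * π / s (n + 1) ≤ 2 * π / s n := by
      rw [s_succ, div_le_div_iff₀ (by positivity) hs]
      have : 0 ≤ π * s n * n := by positivity
      nlinarith
    refine ⟨t, h1.trans h4, ?_, ?_⟩
    · have : 4 * π / s n = 2 * π / s n + 2 * π / s n := by ring
      linarith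
    · intro j hj1 hj2
      rcases hj1.eq_or_lt with rfl | hj
      · rw [← h3]
        refine (e_sub_le _ _).trans ?_
        rw [← mul_sub, abs_of_nonneg (mul_nonneg hs.le (by linarith))]
        calc s n * (t - t') ≤ s n * (4 * π / s (n + 1)) := by gcongr; linarith
          _ = 4 * π / ((n : ℝ) + 2) := by rw [s_succ]; field_simp
          _ ≤ 4 * π / ((n : ℝ) + 1) := by gcongr; linarith
          _ = 4 * π * eps n := by unfold eps; ring
      · exact h6 j hj (by omega)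

lemma phase (c : ℂ) (σ : ℝ) (hσ : σ = 1 ∨ σ = -1) : ∃ φ, c * e φ = ((σ * ‖c‖ : ℝ) : ℂ) := by
  have h : c = (‖c‖ : ℂ) * e (Complex.arg c) := by
    unfold e; rw [mul_comm Complex.I]; exact (Complex.norm_mul_exp_arg_mul_I c).symm
  have h0 : e 0 = 1 := by simp [e]
  have hpi : e π = -1 := by unfold e; rw [mul_comm]; exact Complex.exp_pi_mul_I
  rcases hσ with rfl | rfl
  · refine ⟨-Complex.arg c, ?_⟩
    nth_rewrite 1 [h]
    rw [mul_assoc, ← e_add]; simp [h0]
  · refine ⟨π - Complex.arg c, ?_⟩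
    nth_rewrite 1 [h]
    rw [mul_assoc, ← e_add]; simp [hpi]

lemma norm_w (n : ℕ) (t : ℝ) : ‖w n t‖ = Real.exp (-(eps n * t)) := by
  unfold w; rw [norm_mul, norm_e, mul_one, Complex.norm_real, Real.norm_of_nonneg (exp_pos _).le]

lemma exp_le_one' (n : ℕ) {t : ℝ} (ht : 0 ≤ t) : Real.exp (-(eps n * t)) ≤ 1 := by
  rw [Real.exp_le_one_iff]
  have := eps_pos n
  have : 0 ≤ eps n * t := by positivity
  linarith

lemma eps_exp (n : ℕ) {τ : ℝ} (hτ : 0 < τ) : eps n * Real.exp (-(eps n * τ)) ≤ 1 / τ := by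
  have h := eps_pos n
  have h1 := Real.add_one_le_exp (eps n * τ)
  rw [Real.exp_neg, le_div_iff₀ hτ]
  have h2 := Real.exp_pos (eps n * τ)
  rw [mul_right_comm, ← div_eq_mul_inv, div_le_one h2]
  linarith

lemma term_bound (c : ℂ) (σ φ : ℝ) (hφ : c * e φ = ((σ * ‖c‖ : ℝ) : ℂ)) (n : ℕ) {τ t : ℝ}
    (hτ : 0 < τ) (h1 : τ ≤ t) (h2 : t ≤ τ + 4 * π)
    (h3 : ‖e (s n * t) - e φ‖ ≤ 4 * π * eps n) :
    ‖c * w n t - ((σ * ‖c‖ * Real.exp (-(eps n * τ)) : ℝ) : ℂ)‖ ≤ 8 * π / τ * ‖c‖ := by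
  have hp := Real.pi_pos
  have he := eps_pos n
  set A := Real.exp (-(eps n * t)) with hA
  set B := Real.exp (-(eps n * τ)) with hB
  have hA0 : 0 < A := exp_pos _
  have hB0 : 0 < B := exp_pos _
  have hAB : A ≤ B := by
    apply Real.exp_le_exp.2
    nlinarith
  have hBA : B - A ≤ B * (eps n * (4 * π)) := by
    have e1 : A = B * Real.exp (-(eps n * (t - τ))) := by
      rw [hA, hB, ← Real.exp_add]; ring_nf
    have e2 := Real.add_one_le_exp (-(eps n * (t - τ)))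
    have e3 : eps n * (t - τ) ≤ eps n * (4 * π) := by gcongr; linarith
    rw [e1]
    nlinarith
  have h4 : c * w n t - ((σ * ‖c‖ * B : ℝ) : ℂ) =
      c * ((A : ℂ) * (e (s n * t) - e φ) + ((A - B : ℝ) : ℂ) * e φ) := by
    rw [Complex.ofReal_mul, ← hφ]
    unfold w
    rw [← hA]
    push_cast
    ring
  rw [h4, norm_mul, mul_comm]
  gcongr
  refine (norm_add_le _ _).trans ?_
  rw [norm_mul, norm_mul, norm_e, mul_one, Complex.norm_real, Complex.norm_real,
    Real.norm_of_nonneg hA0.le, Real.norm_eq_abs, abs_sub_comm, abs_of_nonneg (by linarith)]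
  have h5 := eps_exp n hτ
  rw [← hB] at h5
  have h6 : A * ‖e (s n * t) - e φ‖ ≤ B * (4 * π * eps n) := by gcongr
  have h7 : 8 * π * (eps n * B) ≤ 8 * π * (1 / τ) := by gcongr
  have h8 : 8 * π / τ = 8 * π * (1 / τ) := by ring
  nlinarith

lemma tail {r : ℕ → ℝ} (hr : Summable r) (h0 : ∀ n, 0 ≤ r n) :
    Tendsto (fun K : ℕ => ∑' n, if n < K then 0 else r n) atTop (𝓝 0) := by
  have := tendsto_tsum_of_dominated_convergence (𝓕 := atTop)
    (f := fun (K n : ℕ) => if n < K then (0 : ℝ) else r n) (g := fun _ => 0) hr ?_ ?_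
  · simpa using this
  · intro n
    apply tendsto_const_nhds.congr'
    filter_upwards [eventually_gt_atTop n] with K hK
    simp [hK]
  · refine Eventually.of_forall fun K n => ?_
    split_ifs
    · simpa using h0 n
    · rw [Real.norm_of_nonneg (h0 n)]

/-- signed real sums -/
noncomputable def h (c : ℕ → ℂ) (σ : ℕ → ℝ) (τ : ℝ) : ℝ :=
  ∑' n, σ n * ‖c n‖ * Real.exp (-(eps n * τ))

lemma hterm_le (c : ℕ → ℂ) {σ : ℕ → ℝ} (hσ : ∀ n, σ n = 1 ∨ σ n = -1) {τ : ℝ} (hτ : 0 ≤ τ)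
    (n : ℕ) : ‖σ n * ‖c n‖ * Real.exp (-(eps n * τ))‖ ≤ ‖c n‖ := by
  have h1 : ‖σ n‖ = 1 := by rcases hσ n with h | h <;> simp [h]
  rw [norm_mul, norm_mul, h1, one_mul, norm_norm, Real.norm_of_nonneg (exp_pos _).le]
  exact mul_le_of_le_one_right (norm_nonneg _) (exp_le_one' n hτ)

lemma fterm_le (c : ℕ → ℂ) {t : ℝ} (ht : 0 ≤ t) (n : ℕ) : ‖c n * w n t‖ ≤ ‖c n‖ := by
  rw [norm_mul, norm_w]
  exact mul_le_of_le_one_right (norm_nonneg _) (exp_le_one' n ht)

lemma a_anti {x y : ℝ} (hx : 0 ≤ x) (hxy : x ≤ y) : a y ≤ a x := by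
  unfold a
  have : 0 < Real.sqrt (1 + x) := Real.sqrt_pos.2 (by linarith)
  gcongr

lemma key {c : ℕ → ℂ} (hc : Summable fun n => ‖c n‖)
    (H : ∀ t, 0 ≤ t → a t ≤ ‖∑' n, c n * w n t‖)
    {σ : ℕ → ℝ} (hσ : ∀ n, σ n = 1 ∨ σ n = -1) {τ : ℝ} (hτ : 0 < τ) :
    a (τ + 4 * π) ≤ |h c σ τ| + 8 * π * (∑' n, ‖c n‖) / τ := by
  have hp := Real.pi_pos
  choose φ hφ using fun n => phase (c n) (σ n) (hσ n)
  have main : ∀ K : ℕ, a (τ + 4 * π) ≤ |h c σ τ| + 8 * π * (∑' n, ‖c n‖) / τ +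
      2 * ∑' n, if n < K then 0 else ‖c n‖ := by
    intro K
    obtain ⟨t, h1, h2, h3⟩ := target φ K 0 τ
    rw [s_zero, div_one] at h2
    have ht : 0 ≤ t := hτ.le.trans h1
    have s1 : Summable fun n => c n * w n t := .of_norm_bounded hc (fterm_le c ht)
    have s2 : Summable fun n => σ n * ‖c n‖ * Real.exp (-(eps n * τ)) :=
      .of_norm_bounded hc (hterm_le c hσ hτ.le)
    have s3 : Summable fun n => if n < K then (0 : ℝ) else ‖c n‖ := by
      refine .of_norm_bounded hc fun n => ?_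
      split_ifs <;> simp
    have hs2 : HasSum (fun n => ((σ n * ‖c n‖ * Real.exp (-(eps n * τ)) : ℝ) : ℂ)) (h c σ τ : ℂ) :=
      Complex.hasSum_ofReal.2 s2.hasSum
    have hb := tsum_of_norm_bounded ((hc.hasSum.mul_left (8 * π / τ)).add (s3.hasSum.mul_left 2))
      (f := fun n => c n * w n t - ((σ n * ‖c n‖ * Real.exp (-(eps n * τ)) : ℝ) : ℂ)) ?_
    · rw [(s1.hasSum.sub hs2).tsum_eq] at hb
      have h5 := norm_sub_norm_le (∑' n, c n * w n t) (h c σ τ : ℂ)
      rw [Complex.norm_real, Real.norm_eq_abs] at h5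
      have h6 := H t ht
      have h7 := a_anti ht h2
      have h8 : 8 * π * (∑' n, ‖c n‖) / τ = 8 * π / τ * ∑' n, ‖c n‖ := by ring
      linarith
    · intro n
      by_cases hn : n < K
      · have := term_bound (c n) (σ n) (φ n) (hφ n) n hτ h1 h2 (h3 n (Nat.zero_le _) (by omega))
        simpa [hn] using this
      · refine (norm_sub_le _ _).trans ?_
        rw [Complex.norm_real, if_neg hn]
        have h5 := fterm_le c ht n
        have h6 := hterm_le c hσ hτ.le n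
        have : 0 ≤ 8 * π / τ * ‖c n‖ := by positivity
        linarith
  have lim := ((tail hc fun n => norm_nonneg _).const_mul 2).const_add
    (|h c σ τ| + 8 * π * (∑' n, ‖c n‖) / τ)
  simpa using ge_of_tendsto' lim main

lemma growth (D : ℝ) (hD : 0 ≤ D) : ∃ τ₀, 0 < τ₀ ∧ ∀ τ, τ₀ ≤ τ → D / τ < a (τ + 4 * π) := by
  have hp := Real.pi_pos
  have hp4 := Real.pi_lt_four
  refine ⟨2 * D ^ 2 + 17, by positivity, fun τ hτ => ?_⟩
  have h0 : 0 < τ := by nlinarith
  unfold a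
  have h1 : 0 < Real.sqrt (1 + (τ + 4 * π)) := Real.sqrt_pos.2 (by linarith)
  rw [div_lt_div_iff₀ h0 h1, one_mul]
  have h2 : Real.sqrt (1 + (τ + 4 * π)) ^ 2 = 1 + (τ + 4 * π) := Real.sq_sqrt (by linarith)
  apply lt_of_pow_lt_pow_left₀ 2 h0.le
  rw [mul_pow, h2]
  have : 1 + (τ + 4 * π) ≤ 2 * τ := by nlinarith
  have h3 : D ^ 2 * (1 + (τ + 4 * π)) ≤ D ^ 2 * (2 * τ) := by gcongr
  nlinarith

/-- sign patterns -/
def sg (M n : ℕ) : ℝ := if n < M then 1 else -1

lemma sg_pm (M n : ℕ) : sg M n = 1 ∨ sg M n = -1 := by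
  unfold sg; split_ifs <;> simp

theorem core {c : ℕ → ℂ} (hc : Summable fun n => ‖c n‖) :
    ¬ ∀ t, 0 ≤ t → a t ≤ ‖∑' n, c n * w n t‖ := by
  intro H
  have hp := Real.pi_pos
  set C := ∑' n, ‖c n‖ with hC
  have hC0 : 0 ≤ C := tsum_nonneg fun n => norm_nonneg _
  obtain ⟨τ₀, h0, hτ₀⟩ := growth (8 * π * C) (by positivity)
  have ne : ∀ {σ : ℕ → ℝ}, (∀ n, σ n = 1 ∨ σ n = -1) → ∀ τ, τ₀ ≤ τ → h c σ τ ≠ 0 := by
    intro σ hσ τ hτ hz
    have h1 := key hc H hσ (h0.trans_le hτ)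
    have h2 := hτ₀ τ hτ
    rw [hz, abs_zero, zero_add] at h1
    linarith
  have hS : 0 < h c (fun _ => 1) τ₀ := by
    refine lt_of_le_of_ne ?_ (ne (fun _ => Or.inl rfl) τ₀ le_rfl).symm
    exact tsum_nonneg fun n => by positivity
  have lim : Tendsto (fun M => h c (sg M) τ₀) atTop (𝓝 (h c (fun _ => 1) τ₀)) := by
    refine tendsto_tsum_of_dominated_convergence hc ?_ ?_
    · intro n
      apply tendsto_const_nhds.congr'
      filter_upwards [eventually_gt_atTop n] with K hK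
      simp [sg, hK]
    · exact Eventually.of_forall fun M n => hterm_le c (sg_pm M) h0.le n
  obtain ⟨M, hM⟩ := (lim.eventually (lt_mem_nhds hS)).exists
  obtain ⟨τ₁, h1, hτ₁⟩ := growth (8 * π * C + C * M) (by positivity)
  set τ := max τ₀ τ₁ with hτ
  have hτ0 : τ₀ ≤ τ := le_max_left _ _
  have hτp : 0 < τ := h0.trans_le hτ0
  have cont : ContinuousOn (h c (sg M)) (Set.Icc τ₀ τ) := by
    refine continuousOn_tsum (fun n => ?_) hc ?_
    · fun_prop
    · intro n x hx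
      exact hterm_le c (sg_pm M) (h0.le.trans hx.1) n
  have pos : 0 < h c (sg M) τ := by
    by_contra hneg
    push Not at hneg
    obtain ⟨x, hx, hx0⟩ := intermediate_value_Icc' hτ0 cont ⟨hneg, hM.le⟩
    exact ne (sg_pm M) x hx.1 hx0
  have up : h c (sg M) τ ≤ C * M / τ := by
    have s2 : Summable fun n => sg M n * ‖c n‖ * Real.exp (-(eps n * τ)) :=
      .of_norm_bounded hc (hterm_le c (sg_pm M) hτp.le)
    have := hasSum_le (fun n => ?_) s2.hasSum (hc.hasSum.mul_right (M / τ))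
    · unfold h; rw [mul_div_assoc]; exact this
    · unfold sg
      split_ifs with hn
      · rw [one_mul]
        gcongr
        have h2 := eps_exp n hτp
        have h3 : (n : ℝ) + 1 ≤ M := by exact_mod_cast hn
        have h4 : (0 : ℝ) < n + 1 := by positivity
        unfold eps at h2 ⊢
        rw [one_div_mul_eq_div, div_le_iff₀ h4] at h2
        calc _ ≤ 1 / τ * (n + 1) := h2
          _ ≤ 1 / τ * M := by gcongr
          _ = M / τ := by ring
      · have h2 : 0 ≤ ‖c n‖ * Real.exp (-(eps n * τ)) := by positivity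
        have h3 : 0 ≤ ‖c n‖ * (M / τ) := by positivity
        linarith
  have k1 := key hc H (sg_pm M) hτp
  have k2 := hτ₁ τ (le_max_right _ _)
  rw [abs_of_pos pos] at k1
  rw [add_div] at k2
  linarith

end Pool.Agent.H11.WO
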